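import Pool.Agent.Helper18.FD.Map
import Pool.Agent.Helper18.UC.FD

/-! Block FD-DER: the map `Fl a φ` of the plane is a `C¹` diffeomorphism with derivative `clm (DF a φ q)`, determinant one.

Let `Ψ(x, X) = (x, X - φ.f1 x X)`, differentiable with derivative `(δx, δX) ↦ (δx, -φ.f11 δx + (1 - φ.f12) δX)`: for the total differentiability use that the partial
derivatives `f11, f12` are continuous (`n11.cont, n12.cont`; `hasStrictFDerivAt_of_continuous_partials`-type lemma, or directly: mean value theorem in each variable), or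
the file may prove the lemma `fderiv_of_partials`. `Ψ` has the continuous inverse `G(x, w)`; `(q.1, nx q) = G(q.1, w(q))`, so by
`HasFDerivAt.of_local_left_inverse` (the derivative of `Ψ` is invertible, `1 - φ.f12 ≥ 1/2`) the map `q ↦ nx q` is differentiable with
`δX = (alf δx - δp) / bet`. Then `(Fl q).2 = q.1 - φ.f2 q.1 (nx q)` has differential `δx - φ.f12 δx - φ.f22 δX = bet δx - vee δX`: this is `clm (DF a φ q)`, see `clm_apply`.
`DF_cont`: continuity of the entries (`nx_cont`, `bet ≥ 1/2`). `DF_det`: `det = (al/be)(v/be) + (be - v al/be)/be = 1`.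
`iter_fderiv`: chain rule, as `hasFDerivAt_iter` in `UC/FD.lean`.
`Fl_bij`: inverse: given `(X, P)`, `x` is the solution of `x - φ.f2 x X = P` (`B_bilip`, surjective), `p = 2x + a sin 2πx - X + φ.f1 x X`. -/

set_option autoImplicit false
open MeasureTheory Real Set

namespace Pool.Agent.Helper18.FD

open Pool.Agent.Helper18.UC (T2 rep toT nn clm clm_apply)

variable {a η : ℝ} {φ : Gen}

private theorem tot {f f1 f2 : ℝ → ℝ → ℝ} (c1 : Continuous fun q : ℝ × ℝ => f1 q.1 q.2)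
    (c2 : Continuous fun q : ℝ × ℝ => f2 q.1 q.2)
    (d1 : ∀ y x, HasDerivAt (fun t => f t x) (f1 y x) y)
    (d2 : ∀ y x, HasDerivAt (fun t => f y t) (f2 y x) x) (u : ℝ × ℝ) :
    HasFDerivAt (fun q : ℝ × ℝ => f q.1 q.2)
      (f1 u.1 u.2 • ContinuousLinearMap.fst ℝ ℝ ℝ + f2 u.1 u.2 • ContinuousLinearMap.snd ℝ ℝ ℝ) u := by
  have e1 : ∀ y x, HasFDerivAt (fun t => f t x) (f1 y x • (1 : ℝ →L[ℝ] ℝ)) y := fun y x =>
    (d1 y x).hasFDerivAt.congr_fderiv (by ext; simp)
  have e2 : ∀ y x, HasFDerivAt (fun t => f y t) (f2 y x • (1 : ℝ →L[ℝ] ℝ)) x := fun y x =>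
    (d2 y x).hasFDerivAt.congr_fderiv (by ext; simp)
  have h := (hasStrictFDerivAt_uncurry_coprod (𝕜 := ℝ) (u := u) (f := f)
    (f₁ := fun y x => f1 y x • (1 : ℝ →L[ℝ] ℝ)) (f₂ := fun y x => f2 y x • (1 : ℝ →L[ℝ] ℝ))
    (Filter.Eventually.of_forall fun v => e1 v.1 v.2)
    (Filter.Eventually.of_forall fun v => e2 v.1 v.2)
    (c1.smul continuous_const).continuousAt (c2.smul continuous_const).continuousAt).hasFDerivAt
  refine h.congr_fderiv ?_
  refine ContinuousLinearMap.ext fun v => ?_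
  simp [Function.HasUncurry.uncurry]

theorem bet_bd (hφ : φ.Ok η) (q : ℝ × ℝ) : |bet a φ q - 1| ≤ η ∧ |vee a φ q| ≤ η ∧
    |alf a φ q - (2 + 2 * π * a * Real.cos (2 * π * q.1))| ≤ η := by
  refine ⟨?_, hφ.n22.bd _ _, ?_⟩
  · have h := hφ.n12.bd q.1 (nx a φ q)
    unfold bet
    rw [show 1 - φ.f12 q.1 (nx a φ q) - 1 = -φ.f12 q.1 (nx a φ q) by ring, abs_neg]
    exact h
  · have h := hφ.n11.bd q.1 (nx a φ q)
    unfold alf
    rw [show 2 + 2 * π * a * Real.cos (2 * π * q.1) + φ.f11 q.1 (nx a φ q) -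
      (2 + 2 * π * a * Real.cos (2 * π * q.1)) = φ.f11 q.1 (nx a φ q) by ring]
    exact h

private theorem bet_pos (hη : η ≤ 1 / 2) (hφ : φ.Ok η) (q : ℝ × ℝ) : 0 < bet a φ q := by
  have h := (abs_le.1 (bet_bd (a := a) hφ q).1).1
  linarith

private theorem nx_der (hη : η ≤ 1 / 2) (hφ : φ.Ok η) (q : ℝ × ℝ) :
    HasFDerivAt (nx a φ) ((alf a φ q / bet a φ q) • ContinuousLinearMap.fst ℝ ℝ ℝ +
      (-1 / bet a φ q) • ContinuousLinearMap.snd ℝ ℝ ℝ) q := by
  have hb : bet a φ q ≠ 0 := (bet_pos hη hφ q).ne'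
  have hg : ContinuousAt (fun q : ℝ × ℝ => (q.1, nx a φ q)) q :=
    (continuous_fst.prodMk (nx_cont hη hφ)).continuousAt
  have h1 := tot hφ.n11.cont hφ.n12.cont hφ.d11 hφ.d12 (q.1, nx a φ q)
  have hf : HasFDerivAt (fun z : ℝ × ℝ => (z.1, z.2 - φ.f1 z.1 z.2))
      ((ContinuousLinearMap.fst ℝ ℝ ℝ).prod (ContinuousLinearMap.snd ℝ ℝ ℝ -
        (φ.f11 q.1 (nx a φ q) • ContinuousLinearMap.fst ℝ ℝ ℝ +
          φ.f12 q.1 (nx a φ q) • ContinuousLinearMap.snd ℝ ℝ ℝ))) (q.1, nx a φ q) :=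
    hasFDerivAt_fst.prodMk (hasFDerivAt_snd.sub h1)
  have g1 : HasFDerivAt (fun q : ℝ × ℝ => q.1) (ContinuousLinearMap.fst ℝ ℝ ℝ) q := hasFDerivAt_fst
  have g2 : HasFDerivAt (fun q : ℝ × ℝ => q.2) (ContinuousLinearMap.snd ℝ ℝ ℝ) q := hasFDerivAt_snd
  have hh := g1.prodMk (((g1.const_mul 2).add (((g1.const_mul (2 * π)).sin).const_mul a)).sub g2)
  have hcomp : (fun z : ℝ × ℝ => (z.1, z.2 - φ.f1 z.1 z.2)) ∘ (fun q : ℝ × ℝ => (q.1, nx a φ q)) =
      fun q : ℝ × ℝ => (q.1, 2 * q.1 + a * Real.sin (2 * π * q.1) - q.2) := by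
    funext q
    have h := nx_spec (a := a) hη hφ q
    simp only [Function.comp_apply, h]
  have hsymm : Function.LeftInverse
      ((ContinuousLinearMap.fst ℝ ℝ ℝ).prod ((1 / bet a φ q) • ContinuousLinearMap.snd ℝ ℝ ℝ +
        (φ.f11 q.1 (nx a φ q) / bet a φ q) • ContinuousLinearMap.fst ℝ ℝ ℝ))
      ((ContinuousLinearMap.fst ℝ ℝ ℝ).prod (ContinuousLinearMap.snd ℝ ℝ ℝ -
        (φ.f11 q.1 (nx a φ q) • ContinuousLinearMap.fst ℝ ℝ ℝ +
          φ.f12 q.1 (nx a φ q) • ContinuousLinearMap.snd ℝ ℝ ℝ))) := by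
    intro v
    refine Prod.ext (by simp) ?_
    have e : φ.f12 q.1 (nx a φ q) = 1 - bet a φ q := by
      unfold bet
      ring
    simp only [ContinuousLinearMap.prod_apply, add_apply, sub_apply,
      smul_apply, ContinuousLinearMap.coe_fst', ContinuousLinearMap.coe_snd', smul_eq_mul, e]
    field_simp
    ring
  have key := HasFDerivAt.of_comp_of_leftInverse hg hf hh (Filter.Eventually.of_forall fun z => congrFun hcomp z)
    hsymm
  have key2 := key.snd
  refine key2.congr_fderiv ?_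
  refine ContinuousLinearMap.ext fun v => ?_
  simp [alf]
  field_simp
  ring

theorem Fl_hasFDerivAt (hη : η ≤ 1 / 2) (hφ : φ.Ok η) (q : ℝ × ℝ) :
    HasFDerivAt (Fl a φ) (clm (DF a φ q)) q := by
  have hb : bet a φ q ≠ 0 := (bet_pos hη hφ q).ne'
  have h1 := nx_der (a := a) hη hφ q
  have g1 : HasFDerivAt (fun q : ℝ × ℝ => q.1) (ContinuousLinearMap.fst ℝ ℝ ℝ) q := hasFDerivAt_fst
  have h2 := tot hφ.n12.cont hφ.n22.cont hφ.d21 hφ.d22 (q.1, nx a φ q)
  have h3 := HasFDerivAt.comp q h2 (g1.prodMk h1)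
  have h4 := h1.prodMk (g1.sub h3)
  refine h4.congr_fderiv ?_
  refine ContinuousLinearMap.ext fun v => ?_
  rw [clm_apply]
  have e : φ.f12 q.1 (nx a φ q) = 1 - bet a φ q := by
    unfold bet
    ring
  have e2 : φ.f22 q.1 (nx a φ q) = vee a φ q := rfl
  refine Prod.ext ?_ ?_
  · simp [DF, mat]
  · simp [DF, mat, e, e2]
    field_simp
    ring

theorem DF_det (hη : η ≤ 1 / 2) (hφ : φ.Ok η) (q : ℝ × ℝ) : (DF a φ q).det = 1 := by
  have hb : bet a φ q ≠ 0 := (bet_pos hη hφ q).ne'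
  rw [Matrix.det_fin_two]
  simp [DF, mat]
  field_simp
  ring

theorem Fl_contDiff (hη : η ≤ 1 / 2) (hφ : φ.Ok η) : ContDiff ℝ 1 (Fl a φ) := by
  rw [contDiff_one_iff_fderiv]
  refine ⟨fun q => (Fl_hasFDerivAt hη hφ q).differentiableAt, ?_⟩
  have e : fderiv ℝ (Fl a φ) = fun q => clm (DF a φ q) := funext fun q => (Fl_hasFDerivAt hη hφ q).fderiv
  rw [e, continuous_clm_apply]
  intro v
  have hn := nx_cont (a := a) hη hφ
  have hp : Continuous fun q : ℝ × ℝ => (q.1, nx a φ q) := continuous_fst.prodMk hn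
  have c11 : Continuous fun q : ℝ × ℝ => φ.f11 q.1 (nx a φ q) := hφ.n11.cont.comp hp
  have c12 : Continuous fun q : ℝ × ℝ => φ.f12 q.1 (nx a φ q) := hφ.n12.cont.comp hp
  have c22 : Continuous fun q : ℝ × ℝ => φ.f22 q.1 (nx a φ q) := hφ.n22.cont.comp hp
  have ca : Continuous (alf a φ) := by
    unfold alf
    fun_prop
  have cb : Continuous (bet a φ) := by
    unfold bet
    fun_prop
  have cv : Continuous (vee a φ) := c22
  have hb : ∀ q, bet a φ q ≠ 0 := fun q => (bet_pos hη hφ q).ne'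
  simp only [clm_apply]
  simp only [DF, mat, Matrix.of_apply, Matrix.cons_val', Matrix.cons_val_zero, Matrix.cons_val_one, Matrix.cons_val_fin_one]
  have d1 : Continuous fun q => alf a φ q / bet a φ q := ca.div cb hb
  have d2 : Continuous fun q => -1 / bet a φ q := continuous_const.div cb hb
  have d3 : Continuous fun q => vee a φ q / bet a φ q := cv.div cb hb
  refine Continuous.prodMk ?_ ?_
  · exact (d1.mul continuous_const).add (d2.mul continuous_const)
  · exact ((cb.sub (cv.mul d1)).mul continuous_const).add (d3.mul continuous_const)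

theorem Fl_bij (hη : η ≤ 1 / 2) (hφ : φ.Ok η) : Function.Bijective (Fl a φ) := by
  constructor
  · intro q q' h
    have h1 : nx a φ q = nx a φ q' := congrArg Prod.fst h
    have h2 : q.1 - φ.f2 q.1 (nx a φ q) = q'.1 - φ.f2 q'.1 (nx a φ q') := congrArg Prod.snd h
    rw [← h1] at h2
    have h3 := (B_bilip hη hφ (nx a φ q) q.1 q'.1).1
    rw [h2, sub_self, abs_zero] at h3
    have h4 : |q.1 - q'.1| = 0 := by
      have := abs_nonneg (q.1 - q'.1)
      nlinarith
    have h5 : q.1 = q'.1 := sub_eq_zero.1 (abs_eq_zero.1 h4)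
    have s1 := nx_spec (a := a) hη hφ q
    have s2 := nx_spec (a := a) hη hφ q'
    rw [← h1, ← h5] at s2
    exact Prod.ext h5 (by linarith)
  · rintro ⟨X, P⟩
    have hc : Continuous fun t : ℝ => t - φ.f2 t X :=
      continuous_id.sub (hφ.n2.cont.comp (continuous_id.prodMk continuous_const))
    have hs : Function.Surjective fun t : ℝ => t - φ.f2 t X := by
      have t1 : Filter.Tendsto (fun t : ℝ => t - η) Filter.atTop Filter.atTop := by
        simpa [sub_eq_add_neg] using Filter.tendsto_atTop_add_const_right Filter.atTop (-η) Filter.tendsto_id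
      have t2 : Filter.Tendsto (fun t : ℝ => t + η) Filter.atBot Filter.atBot := by
        simpa using Filter.tendsto_atBot_add_const_right Filter.atBot η Filter.tendsto_id
      refine hc.surjective (Filter.tendsto_atTop_mono (fun t => ?_) t1)
        (Filter.tendsto_atBot_mono (fun t => ?_) t2)
      · have := (abs_le.1 (hφ.n2.bd t X)).2
        linarith
      · have := (abs_le.1 (hφ.n2.bd t X)).1
        linarith
    obtain ⟨x, hx⟩ := hs P
    have hn : nx a φ (x, 2 * x + a * Real.sin (2 * π * x) - X + φ.f1 x X) = X := by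
      refine nx_unique hη hφ ?_
      simp only
      ring
    refine ⟨(x, 2 * x + a * Real.sin (2 * π * x) - X + φ.f1 x X), ?_⟩
    unfold Fl
    rw [hn]
    exact Prod.ext rfl hx

/-- product of the derivative matrices along the orbit in the plane -/
noncomputable def MF (a : ℝ) (φ : Gen) : ℕ → ℝ × ℝ → Matrix (Fin 2) (Fin 2) ℝ
  | 0, _ => 1
  | n + 1, q => DF a φ ((Fl a φ)^[n] q) * MF a φ n q

private theorem clm_one' : clm 1 = ContinuousLinearMap.id ℝ (ℝ × ℝ) := by
  refine ContinuousLinearMap.ext fun v => ?_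
  rw [clm_apply]
  simp

private theorem clm_mul' (B C : Matrix (Fin 2) (Fin 2) ℝ) : clm (B * C) = (clm B).comp (clm C) := by
  refine ContinuousLinearMap.ext fun v => ?_
  rw [ContinuousLinearMap.comp_apply, clm_apply, clm_apply, clm_apply]
  refine Prod.ext ?_ ?_
  · simp only [Matrix.mul_apply, Fin.sum_univ_two]
    ring
  · simp only [Matrix.mul_apply, Fin.sum_univ_two]
    ring

theorem iter_fderiv (hη : η ≤ 1 / 2) (hφ : φ.Ok η) (n : ℕ) (q : ℝ × ℝ) :
    HasFDerivAt ((Fl a φ)^[n]) (clm (MF a φ n q)) q := by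
  induction n with
  | zero =>
    rw [show MF a φ 0 q = 1 from rfl, clm_one']
    exact hasFDerivAt_id q
  | succ n ih =>
    rw [show MF a φ (n + 1) q = DF a φ ((Fl a φ)^[n] q) * MF a φ n q from rfl, clm_mul', Function.iterate_succ']
    exact (Fl_hasFDerivAt hη hφ ((Fl a φ)^[n] q)).comp q ih

end Pool.Agent.Helper18.FD
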