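import Pool.Agent.Helper18.FD.Der

/-! Block FD-MP: for one generating function the torus map preserves Lebesgue measure.

Let `F = Fl a φ` (bijective, differentiable with determinant one, `Fl_sh`: `F (q + (k, l)) = F q + (2k - l, k)`). `S = toT ∘ F ∘ rep` is measurable (`nx_cont`, `Fl` continuous).
One way: for measurable `s ⊆ T2`, `volume (S ⁻¹' s) = volume {q ∈ [0,1)² | toT (F q) ∈ s}` (`vol_rep` and friends in `UC/Cell.lean`) `= volume (F '' {..})`
(`MeasureTheory.lintegral_image_eq_lintegral_abs_det_fderiv_mul` or `addHaar_image_eq..`: an injective differentiable map with `|det| = 1` preserves the measure of measurable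
sets) `= volume ({q' | toT q' ∈ s} ∩ F '' [0,1)²)`. The image `F '' [0,1)²` is again a fundamental domain for the translations by `ℤ²` (every `q'` has exactly one integer
translate in it, because `(k, l) ↦ (2k - l, k)` is a bijection of `ℤ²`); cut it into countably many pieces by the cells `[i, i+1) × [j, j+1)` and translate them back to
`[0,1)²`: they are disjoint there and cover it. (Mathlib: `IsAddFundamentalDomain.measure_eq` style lemmas, or the direct countable decomposition.)
Another way: `S` is the composition of `(x, p) ↦ (x, X)` and `(x, X) ↦ (X, x - φ.f2 x X)`, the first has, for fixed `x`, density `1 - φ.f12 x X` (one-dimensional change of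
variables on the circle), the second compensates it (Fubini). -/

set_option autoImplicit false
open MeasureTheory Real Set

namespace Pool.Agent.Helper18.FD

open Pool.Agent.Helper18.UC (T2 rep toT nn)

private theorem det_clm_h5 (B : Matrix (Fin 2) (Fin 2) ℝ) : (UC.clm B).det = B.det := by
  rw [ContinuousLinearMap.det, ← LinearMap.det_toMatrix (Module.Basis.finTwoProd ℝ)]
  congr 1
  ext i j
  fin_cases i <;> fin_cases j <;> simp [LinearMap.toMatrix_apply, UC.clm_apply]

private def io : ℤ × ℤ →+ ℝ × ℝ where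
  toFun g := ((g.1 : ℝ), (g.2 : ℝ))
  map_zero' := by simp
  map_add' g h := by simp

private theorem floor_uniq_h5 (x : ℝ) : ∃! k : ℤ, (k : ℝ) + x ∈ Ico (0 : ℝ) 1 := by
  refine ⟨-⌊x⌋, ?_, ?_⟩
  · have h1 := Int.floor_le x
    have h2 := Int.lt_floor_add_one x
    constructor
    · push_cast; linarith
    · push_cast; linarith
  · intro k hk
    have h : ⌊x⌋ = -k := by
      rw [Int.floor_eq_iff]
      constructor
      · push_cast; linarith [hk.1]
      · push_cast; linarith [hk.2]
    omega

private theorem uniq_D_h5 (q : ℝ × ℝ) :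
    ∃! g : ℤ × ℤ, io g + q ∈ Ico (0:ℝ) 1 ×ˢ Ico (0:ℝ) 1 := by
  obtain ⟨k, hk, hk'⟩ := floor_uniq_h5 q.1
  obtain ⟨l, hl, hl'⟩ := floor_uniq_h5 q.2
  refine ⟨(k, l), ⟨hk, hl⟩, ?_⟩
  rintro ⟨k', l'⟩ ⟨h1, h2⟩
  exact Prod.ext (hk' k' h1) (hl' l' h2)

private theorem vol_eq_h5 (s : Set T2) (hs : MeasurableSet s) :
    volume s = volume (toT ⁻¹' s ∩ (Ico (0:ℝ) 1 ×ˢ Ico (0:ℝ) 1)) := by
  rw [← UC.vol_rep (UC.measurable_toT hs)]
  congr 1
  ext z
  change z ∈ s ↔ toT (rep z) ∈ s
  rw [UC.toT_rep]

theorem S_mp {a η : ℝ} {φ : Gen} (hη : η ≤ 1 / 2) (hφ : φ.Ok η) :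
    MeasurePreserving (fun z : T2 => toT (Fl a φ (rep z))) volume volume := by
  have hF : Differentiable ℝ (Fl a φ) := fun q => (Fl_hasFDerivAt hη hφ q).differentiableAt
  have hFc : Continuous (Fl a φ) := hF.continuous
  have hbij := Fl_bij (a := a) hη hφ
  have hmS : Measurable (fun z : T2 => toT (Fl a φ (rep z))) :=
    UC.measurable_toT.comp (hFc.measurable.comp UC.measurable_rep)
  set D : Set (ℝ × ℝ) := Ico (0:ℝ) 1 ×ˢ Ico (0:ℝ) 1 with hD
  have hDm : MeasurableSet D := measurableSet_Ico.prod measurableSet_Ico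
  -- images under the map have the same measure
  have himg : ∀ B : Set (ℝ × ℝ), MeasurableSet B → volume (Fl a φ '' B) = volume B := by
    intro B hB
    rw [← lintegral_abs_det_fderiv_eq_addHaar_image volume hB
      (fun q _ => (Fl_hasFDerivAt hη hφ q).hasFDerivWithinAt) hbij.1.injOn]
    have h1 : ∀ q, ENNReal.ofReal |(UC.clm (DF a φ q)).det| = 1 := by
      intro q
      rw [det_clm_h5, DF_det hη hφ, abs_one, ENNReal.ofReal_one]
    simp only [h1, lintegral_one, Measure.restrict_apply MeasurableSet.univ, univ_inter]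
  -- the action of the lattice
  let act : AddAction (ℤ × ℤ) (ℝ × ℝ) := AddAction.compHom (ℝ × ℝ) io
  have hact : ∀ (g : ℤ × ℤ) (q : ℝ × ℝ), g +ᵥ q = io g + q := fun g q => rfl
  have : MeasurableConstVAdd (ℤ × ℤ) (ℝ × ℝ) :=
    ⟨fun g => by
      change Measurable (fun q : ℝ × ℝ => io g + q)
      exact measurable_const_add _⟩
  have : VAddInvariantMeasure (ℤ × ℤ) (ℝ × ℝ) volume :=
    ⟨fun g s _ => by
      change volume ((fun q : ℝ × ℝ => io g + q) ⁻¹' s) = volume s
      exact measure_preimage_add volume _ s⟩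
  have hfdD : IsAddFundamentalDomain (ℤ × ℤ) D volume :=
    IsAddFundamentalDomain.mk' hDm.nullMeasurableSet (fun q => by
      simp only [hact]
      exact uniq_D_h5 q)
  have hEm : MeasurableSet (Fl a φ '' D) := hDm.image_of_continuousOn_injOn hFc.continuousOn hbij.1.injOn
  have hfdE : IsAddFundamentalDomain (ℤ × ℤ) (Fl a φ '' D) volume := by
    refine IsAddFundamentalDomain.mk' hEm.nullMeasurableSet (fun q => ?_)
    obtain ⟨y, rfl⟩ := hbij.2 q
    simp only [hact]
    have hsh : ∀ k l : ℤ, Fl a φ (io (k, l) + y) = io (2 * k - l, k) + Fl a φ y := by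
      intro k l
      have h1 : io (k, l) + y = (y.1 + k, y.2 + l) := by
        refine Prod.ext ?_ ?_
        · exact add_comm _ _
        · exact add_comm _ _
      rw [h1, Fl_sh hη hφ]
      refine Prod.ext ?_ ?_
      · exact add_comm _ _
      · exact add_comm _ _
    have hiff : ∀ g : ℤ × ℤ, io g + Fl a φ y ∈ Fl a φ '' D ↔ io (g.2, 2 * g.2 - g.1) + y ∈ D := by
      intro g
      have h1 := hsh g.2 (2 * g.2 - g.1)
      have h2 : ((2 * g.2 - (2 * g.2 - g.1), g.2) : ℤ × ℤ) = g := by
        refine Prod.ext ?_ rfl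
        change 2 * g.2 - (2 * g.2 - g.1) = g.1
        ring
      rw [h2] at h1
      rw [← h1]
      constructor
      · rintro ⟨z, hz, hz'⟩
        rw [← hbij.1 hz']
        exact hz
      · intro h
        exact ⟨_, h, rfl⟩
    obtain ⟨⟨k, l⟩, hkl, huniq⟩ := uniq_D_h5 y
    refine ⟨(2 * k - l, k), ?_, ?_⟩
    · refine (hiff _).2 ?_
      have h3 : ((k, 2 * k - (2 * k - l)) : ℤ × ℤ) = (k, l) := by
        refine Prod.ext rfl ?_
        change 2 * k - (2 * k - l) = l
        ring
      rw [h3]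
      exact hkl
    · intro g hg
      have h4 := huniq _ ((hiff g).1 hg)
      have h5 : g.2 = k := congrArg Prod.fst h4
      have h6 : 2 * g.2 - g.1 = l := congrArg Prod.snd h4
      refine Prod.ext ?_ h5
      change g.1 = 2 * k - l
      omega
  refine ⟨hmS, Measure.ext fun s hs => ?_⟩
  rw [Measure.map_apply hmS hs]
  have hAm : MeasurableSet (toT ⁻¹' s) := UC.measurable_toT hs
  have h1 : (fun z : T2 => toT (Fl a φ (rep z))) ⁻¹' s = rep ⁻¹' (Fl a φ ⁻¹' (toT ⁻¹' s)) := rfl
  rw [h1, UC.vol_rep (hFc.measurable hAm), ← himg _ ((hFc.measurable hAm).inter hDm), vol_eq_h5 s hs]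
  have h2 : Fl a φ '' (Fl a φ ⁻¹' (toT ⁻¹' s) ∩ D) = toT ⁻¹' s ∩ Fl a φ '' D := by
    rw [image_preimage_inter]
  rw [h2]
  refine hfdE.measure_set_eq hfdD hAm fun g => ?_
  ext q
  change toT (io g + q) ∈ s ↔ toT q ∈ s
  have h3 : io g + q = UC.sh q g.1 g.2 := by
    refine Prod.ext ?_ ?_
    · exact add_comm _ _
    · exact add_comm _ _
  rw [h3, UC.toT_sh]

end Pool.Agent.Helper18.FD
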