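import Pool.Agent.Helper18.FD.Defs

/-! Block FD-MAP: the new position `nx` for one generating function `φ` with bounds `η ≤ 1/2`. (One variable calculus.)

For fixed `x` the function `A X = X - φ.f1 x X` has derivative `1 - φ.f12 x X ∈ [1-η, 1+η]` (`d12`, `n12.bd`), so it is strictly increasing and bi-Lipschitz
(`A_bilip`: mean value theorem), continuous, tends to `±∞` (`|φ.f1| ≤ η`), hence bijective (`Continuous.surjective`), `nx_spec` by `Classical.epsilon_spec`.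
`nx_unique` from `A_bilip`. `B_bilip`: the same for `t ↦ t - φ.f2 t X` (derivative `1 - φ.f12 t X` by `d21`).
`nx_sh`: `φ.f1` is `1`-periodic in both variables (integer translations by induction: `nice_int1`, `nice_int2`), and `sin` too.
`nx_cont`: `A (nx q) = w(q)` with `w` continuous and, by `A_bilip`, `(1-η) |nx q - nx q'| ≤ |A_q (nx q) - A_q (nx q')| ≤ |w(q) - w(q')| + |φ.f1 q.1 (nx q') - φ.f1 q'.1 (nx q')|`,
where the last term is `≤ η |q.1 - q'.1|` (`d11`). In fact `nx` is locally Lipschitz. -/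

set_option autoImplicit false
open MeasureTheory Real Set

namespace Pool.Agent.Helper18.FD

open Pool.Agent.Helper18.UC (T2 rep toT nn)

variable {a η : ℝ} {φ : Gen}

theorem nice_int {f : ℝ → ℝ → ℝ} (hf : Nice η f) (y x : ℝ) (k l : ℤ) : f (y + k) (x + l) = f y x := by
  have h1 : ∀ x, Function.Periodic (fun y => f y x) 1 := fun x y => hf.per1 y x
  have h2 : ∀ y, Function.Periodic (fun x => f y x) 1 := fun y x => hf.per2 y x
  have e1 := (h1 (x + l)).int_mul k y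
  have e2 := (h2 y).int_mul l x
  rw [mul_one] at e1 e2
  exact e1.trans e2

private lemma lip43 {f f' : ℝ → ℝ} {c : ℝ} (h : ∀ x, HasDerivAt f (f' x) x) (hb : ∀ x, |f' x| ≤ c)
    (x y : ℝ) : |f x - f y| ≤ c * |x - y| := by
  have := Convex.norm_image_sub_le_of_norm_hasDerivWithin_le (f := f) (f' := f') (s := Set.univ)
    (C := c) (x := y) (y := x) (fun z _ => (h z).hasDerivWithinAt) (fun z _ => hb z) convex_univ
    (mem_univ _) (mem_univ _)
  simpa only [Real.norm_eq_abs] using this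

private lemma eta43 (hφ : φ.Ok η) : 0 ≤ η := (abs_nonneg _).trans (hφ.n1.bd 0 0)

private lemma tri43 {u v c : ℝ} (h : |v| ≤ c * |u|) : (1 - c) * |u| ≤ |u - v| ∧ |u - v| ≤ (1 + c) * |u| := by
  have h1 := abs_sub_abs_le_abs_sub u v
  have h2 := abs_sub u v
  constructor
  · linarith
  · linarith

theorem A_bilip (hη : η ≤ 1 / 2) (hφ : φ.Ok η) (x X X' : ℝ) :
    (1 - η) * |X - X'| ≤ |(X - φ.f1 x X) - (X' - φ.f1 x X')| ∧
    |(X - φ.f1 x X) - (X' - φ.f1 x X')| ≤ (1 + η) * |X - X'| := by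
  have h := lip43 (fun t => hφ.d12 x t) (fun t => hφ.n12.bd x t) X X'
  have e : (X - φ.f1 x X) - (X' - φ.f1 x X') = (X - X') - (φ.f1 x X - φ.f1 x X') := by ring
  rw [e]
  exact tri43 h

theorem B_bilip (hη : η ≤ 1 / 2) (hφ : φ.Ok η) (X x x' : ℝ) :
    (1 - η) * |x - x'| ≤ |(x - φ.f2 x X) - (x' - φ.f2 x' X)| ∧
    |(x - φ.f2 x X) - (x' - φ.f2 x' X)| ≤ (1 + η) * |x - x'| := by
  have h := lip43 (fun t => hφ.d21 t X) (fun t => hφ.n12.bd t X) x x'
  have e : (x - φ.f2 x X) - (x' - φ.f2 x' X) = (x - x') - (φ.f2 x X - φ.f2 x' X) := by ring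
  rw [e]
  exact tri43 h

/-- Lipschitz bounds in the other variable -/
theorem f_lip (hφ : φ.Ok η) (x x' X X' : ℝ) :
    |φ.f1 x X - φ.f1 x' X'| ≤ η * |x - x'| + η * |X - X'| ∧
    |φ.f2 x X - φ.f2 x' X'| ≤ η * |x - x'| + η * |X - X'| := by
  constructor
  · have h1 := lip43 (fun t => hφ.d11 t X) (fun t => hφ.n11.bd t X) x x'
    have h2 := lip43 (fun t => hφ.d12 x' t) (fun t => hφ.n12.bd x' t) X X'
    have h3 := abs_sub_le (φ.f1 x X) (φ.f1 x' X) (φ.f1 x' X')
    linarith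
  · have h1 := lip43 (fun t => hφ.d21 t X) (fun t => hφ.n12.bd t X) x x'
    have h2 := lip43 (fun t => hφ.d22 x' t) (fun t => hφ.n22.bd x' t) X X'
    have h3 := abs_sub_le (φ.f2 x X) (φ.f2 x' X) (φ.f2 x' X')
    linarith

private lemma mono43 (hη : η ≤ 1 / 2) (hφ : φ.Ok η) (x : ℝ) : StrictMono fun X => X - φ.f1 x X := by
  intro X X' hX
  have h := lip43 (fun t => hφ.d12 x t) (fun t => hφ.n12.bd x t) X' X
  have h0 := eta43 hφ
  have h1 : 0 < X' - X := sub_pos.2 hX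
  rw [abs_of_pos h1] at h
  have h2 := le_abs_self (φ.f1 x X' - φ.f1 x X)
  have h3 : η * (X' - X) ≤ 1 / 2 * (X' - X) := mul_le_mul_of_nonneg_right hη h1.le
  change X - φ.f1 x X < X' - φ.f1 x X'
  linarith

theorem nx_spec (hη : η ≤ 1 / 2) (hφ : φ.Ok η) (q : ℝ × ℝ) :
    nx a φ q - φ.f1 q.1 (nx a φ q) = 2 * q.1 + a * Real.sin (2 * π * q.1) - q.2 := by
  have hc : Continuous fun X : ℝ => X - φ.f1 q.1 X := by
    have := hφ.n1.cont.comp (continuous_const.prodMk continuous_id : Continuous fun X : ℝ => (q.1, X))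
    exact continuous_id.sub this
  have hs : Function.Surjective fun X : ℝ => X - φ.f1 q.1 X := by
    refine hc.surjective ?_ ?_
    · refine Filter.tendsto_atTop_mono (f := fun X : ℝ => X - η) (fun X => ?_) ?_
      · have := (abs_le.1 (hφ.n1.bd q.1 X)).2
        linarith
      · exact Filter.tendsto_atTop_add_const_right _ _ Filter.tendsto_id
    · refine Filter.tendsto_atBot_mono (f := fun X : ℝ => X + η) (fun X => ?_) ?_
      · have := (abs_le.1 (hφ.n1.bd q.1 X)).1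
        linarith
      · exact Filter.tendsto_atBot_add_const_right _ _ Filter.tendsto_id
  exact Classical.epsilon_spec (hs (2 * q.1 + a * Real.sin (2 * π * q.1) - q.2))

theorem nx_unique (hη : η ≤ 1 / 2) (hφ : φ.Ok η) {q : ℝ × ℝ} {X : ℝ}
    (h : X - φ.f1 q.1 X = 2 * q.1 + a * Real.sin (2 * π * q.1) - q.2) : nx a φ q = X :=
  (mono43 hη hφ q.1).injective ((nx_spec hη hφ q).trans h.symm)

theorem nx_sh (hη : η ≤ 1 / 2) (hφ : φ.Ok η) (q : ℝ × ℝ) (k l : ℤ) :
    nx a φ (q.1 + k, q.2 + l) = nx a φ q + (2 * k - l : ℤ) := by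
  refine nx_unique hη hφ ?_
  have h1 := nice_int hφ.n1 q.1 (nx a φ q) k (2 * k - l)
  have h2 := nx_spec (a := a) hη hφ q
  have h3 : Real.sin (2 * π * (q.1 + k)) = Real.sin (2 * π * q.1) := by
    rw [show 2 * π * (q.1 + k) = 2 * π * q.1 + k * (2 * π) by ring, Real.sin_add_int_mul_two_pi]
  simp only [h1, h3]
  push_cast
  linarith

theorem nx_cont (hη : η ≤ 1 / 2) (hφ : φ.Ok η) : Continuous (nx a φ) := by
  rw [continuous_iff_continuousAt]
  intro q
  unfold ContinuousAt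
  rw [tendsto_iff_dist_tendsto_zero]
  set w : ℝ × ℝ → ℝ := fun q => 2 * q.1 + a * Real.sin (2 * π * q.1) - q.2 with hw
  have hwc : Continuous w := by rw [hw]; fun_prop
  have hb : ∀ q', dist (nx a φ q') (nx a φ q) ≤ 2 * (|w q' - w q| + η * |q'.1 - q.1|) := by
    intro q'
    have h1 := (A_bilip hη hφ q.1 (nx a φ q') (nx a φ q)).1
    have h2 := nx_spec (a := a) hη hφ q
    have h3 := nx_spec (a := a) hη hφ q'
    have h4 := (f_lip hφ q'.1 q.1 (nx a φ q') (nx a φ q')).1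
    rw [sub_self, abs_zero, mul_zero, add_zero] at h4
    have e : (nx a φ q' - φ.f1 q.1 (nx a φ q')) - (nx a φ q - φ.f1 q.1 (nx a φ q)) =
        (w q' - w q) + (φ.f1 q'.1 (nx a φ q') - φ.f1 q.1 (nx a φ q')) := by
      rw [h2]
      have : nx a φ q' - φ.f1 q.1 (nx a φ q') = w q' + (φ.f1 q'.1 (nx a φ q') - φ.f1 q.1 (nx a φ q')) := by
        have h5 : nx a φ q' = w q' + φ.f1 q'.1 (nx a φ q') := by rw [hw]; linarith
        linarith
      rw [this]
      simp only [hw]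
      ring
    rw [e] at h1
    have h6 := abs_add_le (w q' - w q) (φ.f1 q'.1 (nx a φ q') - φ.f1 q.1 (nx a φ q'))
    rw [Real.dist_eq]
    have h7 := abs_nonneg (nx a φ q' - nx a φ q)
    have h8 : 1 / 2 * |nx a φ q' - nx a φ q| ≤ (1 - η) * |nx a φ q' - nx a φ q| :=
      mul_le_mul_of_nonneg_right (by linarith) h7
    linarith
  refine squeeze_zero (fun _ => dist_nonneg) hb ?_
  have hc : Continuous fun q' : ℝ × ℝ => 2 * (|w q' - w q| + η * |q'.1 - q.1|) := by fun_prop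
  have := hc.tendsto q
  simpa using this

/-- the order characterisation (for measurability) -/
theorem nx_lt_iff (hη : η ≤ 1 / 2) (hφ : φ.Ok η) (q : ℝ × ℝ) (t : ℝ) :
    nx a φ q < t ↔ 2 * q.1 + a * Real.sin (2 * π * q.1) - q.2 < t - φ.f1 q.1 t := by
  rw [← nx_spec hη hφ q]
  exact ((mono43 hη hφ q.1).lt_iff_lt (a := nx a φ q) (b := t)).symm

theorem Fl_sh (hη : η ≤ 1 / 2) (hφ : φ.Ok η) (q : ℝ × ℝ) (k l : ℤ) :
    Fl a φ (q.1 + k, q.2 + l) = ((Fl a φ q).1 + (2 * k - l : ℤ), (Fl a φ q).2 + k) := by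
  unfold Fl
  rw [nx_sh hη hφ]
  have h := nice_int hφ.n2 q.1 (nx a φ q) k (2 * k - l)
  simp only [h]
  congr 1
  ring

theorem coef_sh (hη : η ≤ 1 / 2) (hφ : φ.Ok η) (q : ℝ × ℝ) (k l : ℤ) :
    alf a φ (q.1 + k, q.2 + l) = alf a φ q ∧ bet a φ (q.1 + k, q.2 + l) = bet a φ q ∧
      vee a φ (q.1 + k, q.2 + l) = vee a φ q := by
  unfold alf bet vee
  rw [nx_sh hη hφ]
  have h1 := nice_int hφ.n11 q.1 (nx a φ q) k (2 * k - l)
  have h2 := nice_int hφ.n12 q.1 (nx a φ q) k (2 * k - l)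
  have h3 := nice_int hφ.n22 q.1 (nx a φ q) k (2 * k - l)
  have h4 : Real.cos (2 * π * (q.1 + k)) = Real.cos (2 * π * q.1) := by
    rw [show 2 * π * (q.1 + k) = 2 * π * q.1 + k * (2 * π) by ring, Real.cos_add_int_mul_two_pi]
  simp only [h1, h2, h3, h4]
  exact ⟨trivial, trivial, trivial⟩

end Pool.Agent.Helper18.FD
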