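import Pool.Agent.Helper18.FD.Defs

/-! Block FD-JUN: algebra of products of the matrices `mat al be v`. (Pure linear algebra.)

`mat al be v = !![al/be, -1/be; be - v (al/be), v/be]`: the first row does not depend on `v`, the second row is `(be, 0) - v * (first row)`. `rn1` = size of the first row, `cn2` = size of the second column.
* `jun`: `R * (mat al be v * L) = Y - v (R e₂)(r)`, `r` = first row of `mat al be v * L` (independent of `v`), `Y = R * (mat al be 0 * L)`. Choose `i, j` with `|R i 1| ≥ cn2 R/2`, `|r j| ≥ rn1/2`; if one of them is zero take `y = 0`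
  (left side zero); otherwise `y = Y i j/(R i 1 * r j)` and `nn (..) ≥ |Y i j - v R i 1 r j| = |R i 1| |r j| |v - y|`.
* `row`: the first row of `mat al₂ be₂ v₂ * X`, `X = mat al₁ be₁ v₁ * L`, is `(1/be₂) (al₂ X₀ - X₁)` and `X₁ = be₁ L₀ - v₁ X₀`, so it is `(1/be₂) ((al₂ + v₁) X₀ - be₁ L₀)` where `X₀` (first row of `X`) does not depend on `v₁`. Choose `j` with
  `|X₀ j| ≥ rn1 X/2`.
* `row_nn`: the second row of `mat al be v * X` is `be X₀ - v (first row)`.
* `col`: the second column of `R * mat al be v` is `(1/be) (v R e₂ - R e₁)`. Choose `i` with `|R i 1| ≥ cn2 R/2`, `y = R i 0/R i 1`.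
* `col_nn`: the first column is `-al (second column) + be R e₂`. -/

set_option autoImplicit false
open Real Set

namespace Pool.Agent.Helper18.FD

open Pool.Agent.Helper18.UC (nn)

noncomputable def rn1 (B : Matrix (Fin 2) (Fin 2) ℝ) : ℝ := |B 0 0| + |B 0 1|

noncomputable def cn2 (B : Matrix (Fin 2) (Fin 2) ℝ) : ℝ := |B 0 1| + |B 1 1|

private theorem max2_89 (a b : ℝ) (f : Fin 2 → ℝ) (h0 : f 0 = a) (h1 : f 1 = b) :
    ∃ i : Fin 2, |a| + |b| ≤ 2 * |f i| := by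
  rcases le_total |a| |b| with h | h
  · exact ⟨1, by rw [h1]; linarith⟩
  · exact ⟨0, by rw [h0]; linarith⟩

private theorem row0_89 (al be v : ℝ) (L : Matrix (Fin 2) (Fin 2) ℝ) (j : Fin 2) :
    (mat al be v * L) 0 j = al / be * L 0 j - 1 / be * L 1 j := by
  simp [mat, Matrix.mul_apply, Fin.sum_univ_two]
  ring

private theorem row1_89 (al be v : ℝ) (L : Matrix (Fin 2) (Fin 2) ℝ) (j : Fin 2) :
    (mat al be v * L) 1 j = be * L 0 j - v * (al / be * L 0 j - 1 / be * L 1 j) := by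
  simp [mat, Matrix.mul_apply, Fin.sum_univ_two]
  ring

private theorem col1_89 (R : Matrix (Fin 2) (Fin 2) ℝ) (al be v : ℝ) (i : Fin 2) :
    (R * mat al be v) i 1 = 1 / be * (v * R i 1 - R i 0) := by
  simp [mat, Matrix.mul_apply, Fin.sum_univ_two]
  ring

private theorem col0_89 (R : Matrix (Fin 2) (Fin 2) ℝ) (al be v : ℝ) (i : Fin 2) :
    (R * mat al be v) i 0 = -al * (1 / be * (v * R i 1 - R i 0)) + be * R i 1 := by
  simp [mat, Matrix.mul_apply, Fin.sum_univ_two]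
  ring

private theorem le_nn89 (B : Matrix (Fin 2) (Fin 2) ℝ) (i j : Fin 2) : |B i j| ≤ nn B := by
  have h1 := abs_nonneg (B 0 0)
  have h2 := abs_nonneg (B 0 1)
  have h3 := abs_nonneg (B 1 0)
  have h4 := abs_nonneg (B 1 1)
  unfold Pool.Agent.Helper18.UC.nn
  fin_cases i <;> fin_cases j <;> simp <;> linarith

private theorem le_rn89 (B : Matrix (Fin 2) (Fin 2) ℝ) (j : Fin 2) : |B 0 j| ≤ rn1 B := by
  have h1 := abs_nonneg (B 0 0)
  have h2 := abs_nonneg (B 0 1)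
  unfold rn1
  fin_cases j <;> simp

private theorem le_cn89 (B : Matrix (Fin 2) (Fin 2) ℝ) (i : Fin 2) : |B i 1| ≤ cn2 B := by
  have h1 := abs_nonneg (B 0 1)
  have h2 := abs_nonneg (B 1 1)
  unfold cn2
  fin_cases i <;> simp

/-- the first row of `mat al be v * L` does not depend on `v` -/
theorem rn1_mat (al be v v' : ℝ) (L : Matrix (Fin 2) (Fin 2) ℝ) :
    rn1 (mat al be v * L) = rn1 (mat al be v' * L) := by
  unfold rn1
  rw [row0_89, row0_89, row0_89, row0_89]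

theorem jun (R L : Matrix (Fin 2) (Fin 2) ℝ) (al be : ℝ) :
    ∃ y : ℝ, ∀ v : ℝ, |v - y| * (cn2 R * rn1 (mat al be v * L)) ≤ 4 * nn (R * (mat al be v * L)) := by
  obtain ⟨p, hp⟩ : ∃ p : Fin 2 → ℝ, ∀ j, p j = al / be * L 0 j - 1 / be * L 1 j := ⟨_, fun _ => rfl⟩
  obtain ⟨i, hi⟩ := max2_89 (R 0 1) (R 1 1) (fun i => R i 1) rfl rfl
  obtain ⟨j, hj⟩ := max2_89 (p 0) (p 1) p rfl rfl
  have hr : ∀ v, rn1 (mat al be v * L) = |p 0| + |p 1| := by
    intro v
    unfold rn1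
    rw [row0_89, row0_89, ← hp, ← hp]
  have hc : cn2 R = |R 0 1| + |R 1 1| := rfl
  have hent : ∀ v, (R * (mat al be v * L)) i j = (R i 0 * p j + R i 1 * (be * L 0 j)) - v * (R i 1 * p j) := by
    intro v
    rw [Matrix.mul_apply, Fin.sum_univ_two, row0_89, row1_89, ← hp]
    ring
  have hprod : cn2 R * (|p 0| + |p 1|) ≤ 4 * |R i 1 * p j| := by
    rw [hc, abs_mul]
    have h1 : 0 ≤ |R 0 1| + |R 1 1| := by positivity
    have h2 : 0 ≤ |p 0| + |p 1| := by positivity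
    calc (|R 0 1| + |R 1 1|) * (|p 0| + |p 1|) ≤ (2 * |R i 1|) * (2 * |p j|) :=
          mul_le_mul hi hj h2 (by positivity)
      _ = 4 * (|R i 1| * |p j|) := by ring
  have hnn : ∀ v, 0 ≤ nn (R * (mat al be v * L)) := fun v =>
    (abs_nonneg _).trans (le_nn89 _ 0 0)
  by_cases h0 : R i 1 * p j = 0
  · refine ⟨0, fun v => ?_⟩
    rw [hr]
    rw [h0, abs_zero, mul_zero] at hprod
    have h1 : 0 ≤ cn2 R * (|p 0| + |p 1|) := by
      rw [hc]
      positivity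
    have h2 : cn2 R * (|p 0| + |p 1|) = 0 := le_antisymm hprod h1
    rw [h2, mul_zero]
    have := hnn v
    linarith
  · refine ⟨(R i 0 * p j + R i 1 * (be * L 0 j)) / (R i 1 * p j), fun v => ?_⟩
    rw [hr]
    have h1 : |v - (R i 0 * p j + R i 1 * (be * L 0 j)) / (R i 1 * p j)| * |R i 1 * p j| =
        |(R * (mat al be v * L)) i j| := by
      rw [hent, ← abs_mul, sub_mul, div_mul_cancel₀ _ h0, abs_sub_comm]
    have h2 := le_nn89 (R * (mat al be v * L)) i j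
    calc |v - (R i 0 * p j + R i 1 * (be * L 0 j)) / (R i 1 * p j)| * (cn2 R * (|p 0| + |p 1|))
        ≤ |v - (R i 0 * p j + R i 1 * (be * L 0 j)) / (R i 1 * p j)| * (4 * |R i 1 * p j|) :=
          mul_le_mul_of_nonneg_left hprod (abs_nonneg _)
      _ = 4 * |(R * (mat al be v * L)) i j| := by rw [← h1]; ring
      _ ≤ 4 * nn (R * (mat al be v * L)) := by linarith

theorem row (L : Matrix (Fin 2) (Fin 2) ℝ) {al₁ be₁ al₂ be₂ : ℝ} (hb : 0 < be₂) (hb' : be₂ ≤ 2) :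
    ∃ y : ℝ, ∀ v₁ v₂ : ℝ, |v₁ - y| * rn1 (mat al₁ be₁ v₁ * L) ≤
      4 * rn1 (mat al₂ be₂ v₂ * (mat al₁ be₁ v₁ * L)) := by
  obtain ⟨p, hp⟩ : ∃ p : Fin 2 → ℝ, ∀ j, p j = al₁ / be₁ * L 0 j - 1 / be₁ * L 1 j := ⟨_, fun _ => rfl⟩
  obtain ⟨j, hj⟩ := max2_89 (p 0) (p 1) p rfl rfl
  have hr : ∀ v, rn1 (mat al₁ be₁ v * L) = |p 0| + |p 1| := by
    intro v
    unfold rn1
    rw [row0_89, row0_89, ← hp, ← hp]
  have hent : ∀ v₁ v₂, be₂ * (mat al₂ be₂ v₂ * (mat al₁ be₁ v₁ * L)) 0 j =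
      (v₁ + al₂) * p j - be₁ * L 0 j := by
    intro v₁ v₂
    rw [row0_89, row0_89, row1_89, ← hp]
    field_simp
    ring
  have hrn : ∀ v₁ v₂, 0 ≤ rn1 (mat al₂ be₂ v₂ * (mat al₁ be₁ v₁ * L)) := fun v₁ v₂ =>
    (abs_nonneg _).trans (le_rn89 _ 0)
  by_cases h0 : p j = 0
  · refine ⟨0, fun v₁ v₂ => ?_⟩
    rw [hr]
    rw [h0, abs_zero, mul_zero] at hj
    have h2 : |p 0| + |p 1| = 0 := le_antisymm hj (by positivity)
    rw [h2, mul_zero]
    have := hrn v₁ v₂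
    linarith
  · refine ⟨be₁ * L 0 j / p j - al₂, fun v₁ v₂ => ?_⟩
    rw [hr]
    have h1 : |v₁ - (be₁ * L 0 j / p j - al₂)| * |p j| =
        be₂ * |(mat al₂ be₂ v₂ * (mat al₁ be₁ v₁ * L)) 0 j| := by
      rw [← abs_of_pos hb, ← abs_mul, ← abs_mul, abs_of_pos hb, hent]
      congr 1
      field_simp
      ring
    have h2 := le_rn89 (mat al₂ be₂ v₂ * (mat al₁ be₁ v₁ * L)) j
    have h3 := abs_nonneg ((mat al₂ be₂ v₂ * (mat al₁ be₁ v₁ * L)) 0 j)
    calc |v₁ - (be₁ * L 0 j / p j - al₂)| * (|p 0| + |p 1|)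
        ≤ |v₁ - (be₁ * L 0 j / p j - al₂)| * (2 * |p j|) :=
          mul_le_mul_of_nonneg_left hj (abs_nonneg _)
      _ = 2 * (be₂ * |(mat al₂ be₂ v₂ * (mat al₁ be₁ v₁ * L)) 0 j|) := by rw [← h1]; ring
      _ ≤ 4 * rn1 (mat al₂ be₂ v₂ * (mat al₁ be₁ v₁ * L)) := by nlinarith

theorem row_nn (X : Matrix (Fin 2) (Fin 2) ℝ) {al be v : ℝ} (hb : 0 < be) (hb' : be ≤ 2)
    (hv : |v| ≤ 1) : nn (mat al be v * X) ≤ 2 * rn1 (mat al be v * X) + 2 * rn1 X := by
  have h : ∀ j, |(mat al be v * X) 1 j| ≤ 2 * |X 0 j| + |(mat al be v * X) 0 j| := by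
    intro j
    rw [row1_89, ← row0_89 al be v X j]
    refine (abs_sub _ _).trans ?_
    rw [abs_mul, abs_mul, abs_of_pos hb]
    have h1 := abs_nonneg (X 0 j)
    have h2 := abs_nonneg ((mat al be v * X) 0 j)
    nlinarith
  have h0 := h 0
  have h1 := h 1
  unfold Pool.Agent.Helper18.UC.nn rn1
  linarith

theorem col (R : Matrix (Fin 2) (Fin 2) ℝ) {al be : ℝ} (hb : 0 < be) (hb' : be ≤ 2) :
    ∃ y : ℝ, ∀ v : ℝ, |v - y| * cn2 R ≤ 4 * cn2 (R * mat al be v) := by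
  obtain ⟨i, hi⟩ := max2_89 (R 0 1) (R 1 1) (fun i => R i 1) rfl rfl
  have hc : cn2 R = |R 0 1| + |R 1 1| := rfl
  have hcn : ∀ v, 0 ≤ cn2 (R * mat al be v) := fun v => (abs_nonneg _).trans (le_cn89 _ 0)
  by_cases h0 : R i 1 = 0
  · refine ⟨0, fun v => ?_⟩
    simp only [h0, abs_zero, mul_zero] at hi
    have h2 : cn2 R = 0 := le_antisymm hi (by rw [hc]; positivity)
    rw [h2, mul_zero]
    have := hcn v
    linarith
  · refine ⟨R i 0 / R i 1, fun v => ?_⟩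
    have h1 : |v - R i 0 / R i 1| * |R i 1| = be * |(R * mat al be v) i 1| := by
      rw [← abs_of_pos hb, ← abs_mul, ← abs_mul, abs_of_pos hb, col1_89]
      congr 1
      field_simp
    have h2 := le_cn89 (R * mat al be v) i
    have h3 := abs_nonneg ((R * mat al be v) i 1)
    calc |v - R i 0 / R i 1| * cn2 R ≤ |v - R i 0 / R i 1| * (2 * |R i 1|) :=
          mul_le_mul_of_nonneg_left hi (abs_nonneg _)
      _ = 2 * (be * |(R * mat al be v) i 1|) := by rw [← h1]; ring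
      _ ≤ 4 * cn2 (R * mat al be v) := by nlinarith

theorem col_nn (R : Matrix (Fin 2) (Fin 2) ℝ) {al be v : ℝ} (hb : 0 < be) (hb' : be ≤ 2) :
    nn (R * mat al be v) ≤ (1 + |al|) * cn2 (R * mat al be v) + 2 * cn2 R := by
  have h : ∀ i, |(R * mat al be v) i 0| ≤ |al| * |(R * mat al be v) i 1| + 2 * |R i 1| := by
    intro i
    rw [col0_89, ← col1_89 R al be v i]
    refine (abs_add_le _ _).trans ?_
    rw [abs_mul, abs_mul, abs_neg, abs_of_pos hb]
    have h1 := abs_nonneg (R i 1)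
    nlinarith
  have h0 := h 0
  have h1 := h 1
  unfold Pool.Agent.Helper18.UC.nn cn2
  linarith

end Pool.Agent.Helper18.FD
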