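import Pool.Agent.Helper18.FD.Meas
import Pool.Agent.Helper18.FD.Jun

/-! Block FD-BAS: basic bounds for the derivative matrices.

* `det_mat`: direct. `be_bd`, `al_le`: `coef_bd` with `|a| ≥ 100`, `π < 3.1416`.
* `nn_ge_two`: `1 = B00 B11 - B01 B10 ≤ |B00||B11| + |B01||B10| ≤ ((|B00|+|B11|)² + (|B01|+|B10|)²)/4 ≤ nn²/4`.
* `nn_Dm_le`: `|al| ≤ 6.31 |a|`, `be ≥ 0.99`, `|v| ≤ 1/|a|`: the entries are at most `6.37|a|`, `1.02`, `1.01 + 6.4`, `0.02`; the sum is `≤ 7|a|`.
* `Mm_congr`: induction. `int_log_nn`: bounded and measurable on a probability space. `Em_add_le`: `Mm_add`, `nn_mul`, `sk_iter_mp` (`MeasurePreserving.integral_comp'`-type lemma, the function is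
  measurable: `(sk_iter_mp hd n).integral_comp` needs a measurable embedding, use `integral_map` with `(sk_iter_mp hd n).map_eq`). -/

set_option autoImplicit false
open MeasureTheory Real Set

namespace Pool.Agent.Helper18.FD

open Pool.Agent.Helper18.UC (T2 rep toT nn)

variable {d : Dat}

private lemma inv43 (hd : d.Ok) : (1 : ℝ) / |d.a| ≤ 1 / 100 :=
  one_div_le_one_div_of_le (by norm_num) hd.ha

theorem det_mat {al be v : ℝ} (hb : be ≠ 0) : (mat al be v).det = 1 := by
  unfold mat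
  rw [Matrix.det_fin_two_of]
  field_simp
  ring

theorem be_bd (hd : d.Ok) (p : Pt) : 99 / 100 ≤ be d p ∧ be d p ≤ 101 / 100 := by
  have h := abs_le.1 (coef_bd hd p).1
  have h1 := inv43 hd
  constructor
  · linarith [h.1]
  · linarith [h.2]

private theorem al_le43 (hd : d.Ok) (p : Pt) : |al d p| ≤ 631 / 100 * |d.a| := by
  have h := (coef_bd hd p).2.2
  have h1 := inv43 hd
  have h2 := hd.ha
  have h3 : |2 + 2 * π * d.a * Real.cos (2 * π * (rep p.2).1)| ≤ 2 + 2 * π * |d.a| := by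
    refine (abs_add_le _ _).trans ?_
    rw [abs_mul, abs_mul, abs_of_pos (show (0 : ℝ) < 2 * π by positivity),
      abs_of_pos (show (0 : ℝ) < 2 by norm_num)]
    have h4 := Real.abs_cos_le_one (2 * π * (rep p.2).1)
    have h5 : 0 ≤ 2 * π * |d.a| := by positivity
    nlinarith
  have h4 := abs_sub_abs_le_abs_sub (al d p) (2 + 2 * π * d.a * Real.cos (2 * π * (rep p.2).1))
  have h5 := Real.pi_lt_d4
  have h6 : 2 * π * |d.a| ≤ 2 * 3.1416 * |d.a| := by
    apply mul_le_mul_of_nonneg_right _ (abs_nonneg _)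
    linarith
  linarith

theorem al_le (hd : d.Ok) (p : Pt) : |al d p| ≤ 7 * |d.a| := by
  have h := al_le43 hd p
  have := hd.ha
  linarith

theorem det_Mm (hd : d.Ok) (n : ℕ) (p : Pt) : (Mm d n p).det = 1 := by
  induction n with
  | zero => rw [Mm_zero, Matrix.det_one]
  | succ n ih =>
    have h := (be_bd hd ((sk d)^[n] p)).1
    rw [Mm_succ, Matrix.det_mul, ih, Dm, det_mat (by linarith), mul_one]

theorem nn_ge_two {B : Matrix (Fin 2) (Fin 2) ℝ} (h : B.det = 1) : 2 ≤ nn B := by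
  rw [Matrix.det_fin_two] at h
  have h1 : 1 ≤ |B 0 0| * |B 1 1| + |B 0 1| * |B 1 0| := by
    have h2 := le_abs_self (B 0 0 * B 1 1 - B 0 1 * B 1 0)
    have h3 := abs_sub (B 0 0 * B 1 1) (B 0 1 * B 1 0)
    rw [abs_mul, abs_mul] at h3
    linarith
  unfold Pool.Agent.Helper18.UC.nn
  have a0 := abs_nonneg (B 0 0)
  have a1 := abs_nonneg (B 0 1)
  have a2 := abs_nonneg (B 1 0)
  have a3 := abs_nonneg (B 1 1)
  by_contra hc
  push Not at hc
  have h4 : (|B 0 0| + |B 0 1| + |B 1 0| + |B 1 1|) ^ 2 < 4 := by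
    have : 0 ≤ |B 0 0| + |B 0 1| + |B 1 0| + |B 1 1| := by positivity
    nlinarith
  nlinarith [sq_nonneg (|B 0 0| - |B 1 1|), sq_nonneg (|B 0 1| - |B 1 0|),
    mul_nonneg (add_nonneg a0 a3) (add_nonneg a1 a2)]

theorem rn1_pos {B : Matrix (Fin 2) (Fin 2) ℝ} (h : B.det = 1) : 0 < rn1 B := by
  rw [Matrix.det_fin_two] at h
  unfold rn1
  by_contra hc
  have a0 := abs_nonneg (B 0 0)
  have a1 := abs_nonneg (B 0 1)
  have h0 : B 0 0 = 0 := abs_eq_zero.1 (by linarith)
  have h1 : B 0 1 = 0 := abs_eq_zero.1 (by linarith)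
  rw [h0, h1] at h
  norm_num at h

theorem cn2_pos {B : Matrix (Fin 2) (Fin 2) ℝ} (h : B.det = 1) : 0 < cn2 B := by
  rw [Matrix.det_fin_two] at h
  unfold cn2
  by_contra hc
  have a0 := abs_nonneg (B 0 1)
  have a1 := abs_nonneg (B 1 1)
  have h0 : B 0 1 = 0 := abs_eq_zero.1 (by linarith)
  have h1 : B 1 1 = 0 := abs_eq_zero.1 (by linarith)
  rw [h0, h1] at h
  norm_num at h

theorem nn_Dm_le (hd : d.Ok) (p : Pt) : nn (Dm d p) ≤ 7 * |d.a| := by
  have hA := hd.ha
  obtain ⟨b1, b2⟩ := be_bd hd p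
  have hal := al_le43 hd p
  have hv := (coef_bd hd p).2.1
  have hi := inv43 hd
  have hb : 0 < be d p := by linarith
  have e1 : |al d p / be d p| ≤ 64 / 10 * |d.a| := by
    rw [abs_div, abs_of_pos hb, div_le_iff₀ hb]
    nlinarith
  have e2 : |-1 / be d p| ≤ 102 / 100 := by
    rw [abs_div, abs_of_pos hb, div_le_iff₀ hb, abs_neg, abs_one]
    linarith
  have e3 : |be d p - ve d p * (al d p / be d p)| ≤ 75 / 10 := by
    have h1 : |ve d p * (al d p / be d p)| ≤ 1 / |d.a| * (64 / 10 * |d.a|) := by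
      rw [abs_mul]
      exact mul_le_mul hv e1 (abs_nonneg _) (by positivity)
    have h2 : 1 / |d.a| * (64 / 10 * |d.a|) = 64 / 10 := by
      have : |d.a| ≠ 0 := by linarith
      field_simp
    have h3 := abs_sub (be d p) (ve d p * (al d p / be d p))
    rw [abs_of_pos hb] at h3
    linarith
  have e4 : |ve d p / be d p| ≤ 2 / 100 := by
    rw [abs_div, abs_of_pos hb, div_le_iff₀ hb]
    linarith
  have e5 : nn (Dm d p) = |al d p / be d p| + |-1 / be d p| +
      |be d p - ve d p * (al d p / be d p)| + |ve d p / be d p| := by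
    unfold Pool.Agent.Helper18.UC.nn Dm mat
    simp
  rw [e5]
  linarith

theorem nn_Mm_le (hd : d.Ok) (n : ℕ) (p : Pt) : nn (Mm d n p) ≤ 2 * (7 * |d.a|) ^ n := by
  induction n with
  | zero => rw [Mm_zero, Pool.Agent.Helper18.UC.nn_one, pow_zero, mul_one]
  | succ n ih =>
    rw [Mm_succ, pow_succ]
    refine (Pool.Agent.Helper18.UC.nn_mul _ _).trans ?_
    have h1 := nn_Dm_le hd ((sk d)^[n] p)
    have h2 := Pool.Agent.Helper18.UC.nn_nonneg (Mm d n p)
    have h3 : 0 ≤ 7 * |d.a| := by positivity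
    calc nn (Dm d ((sk d)^[n] p)) * nn (Mm d n p) ≤ (7 * |d.a|) * (2 * (7 * |d.a|) ^ n) :=
          mul_le_mul h1 ih h2 h3
      _ = 2 * ((7 * |d.a|) ^ n * (7 * |d.a|)) := by ring

theorem Mm_congr {p p' : Pt} {n : ℕ}
    (h : ∀ j < n, Dm d ((sk d)^[j] p') = Dm d ((sk d)^[j] p)) : Mm d n p' = Mm d n p := by
  induction n with
  | zero => rw [Mm_zero, Mm_zero]
  | succ n ih =>
    rw [Mm_succ, Mm_succ, h n (Nat.lt_succ_self n), ih fun j hj => h j (hj.trans (Nat.lt_succ_self n))]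

private lemma mabs43 (hd : d.Ok) (n : ℕ) (i j : Fin 2) : Measurable fun p => |Mm d n p i j| :=
  continuous_abs.measurable.comp (meas_Mm hd n i j)

theorem meas_nn (hd : d.Ok) (n : ℕ) : Measurable fun p => nn (Mm d n p) :=
  (((mabs43 hd n 0 0).add (mabs43 hd n 0 1)).add (mabs43 hd n 1 0)).add (mabs43 hd n 1 1)

theorem meas_rn1 (hd : d.Ok) (n : ℕ) : Measurable fun p => rn1 (Mm d n p) :=
  (mabs43 hd n 0 0).add (mabs43 hd n 0 1)

theorem meas_cn2 (hd : d.Ok) (n : ℕ) : Measurable fun p => cn2 (Mm d n p) :=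
  (mabs43 hd n 0 1).add (mabs43 hd n 1 1)

theorem log_nn_bd (hd : d.Ok) (n : ℕ) (p : Pt) :
    0 ≤ Real.log (nn (Mm d n p)) ∧
      Real.log (nn (Mm d n p)) ≤ Real.log 2 + n * Real.log (7 * |d.a|) := by
  have h2 := nn_ge_two (det_Mm hd n p)
  have hA := hd.ha
  have h7 : 0 < 7 * |d.a| := by linarith
  refine ⟨Real.log_nonneg (by linarith), ?_⟩
  calc Real.log (nn (Mm d n p)) ≤ Real.log (2 * (7 * |d.a|) ^ n) :=
        Real.log_le_log (by linarith) (nn_Mm_le hd n p)
    _ = Real.log 2 + n * Real.log (7 * |d.a|) := by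
        rw [Real.log_mul (by norm_num) (pow_pos h7 n).ne', Real.log_pow]

theorem int_log_nn (hd : d.Ok) (n : ℕ) : Integrable (fun p => Real.log (nn (Mm d n p))) mu := by
  refine Integrable.of_bound (Real.measurable_log.comp (meas_nn hd n)).aestronglyMeasurable
    (Real.log 2 + n * Real.log (7 * |d.a|)) (Filter.Eventually.of_forall fun p => ?_)
  obtain ⟨h1, h2⟩ := log_nn_bd hd n p
  rw [Real.norm_eq_abs, abs_of_nonneg h1]
  exact h2

theorem Em_bd (hd : d.Ok) (n : ℕ) :
    0 ≤ Em d n ∧ Em d n ≤ Real.log 2 + n * Real.log (7 * |d.a|) := by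
  constructor
  · exact integral_nonneg fun p => (log_nn_bd hd n p).1
  · have h := integral_mono (int_log_nn hd n)
      (integrable_const (μ := mu) (Real.log 2 + n * Real.log (7 * |d.a|)))
      fun p => (log_nn_bd hd n p).2
    rw [integral_const, probReal_univ, one_smul] at h
    exact h

theorem Em_sk (hd : d.Ok) (n i : ℕ) :
    ∫ p, Real.log (nn (Mm d n ((sk d)^[i] p))) ∂mu = Em d n := by
  have h := sk_iter_mp hd i
  have h1 : Measurable fun p => Real.log (nn (Mm d n p)) := Real.measurable_log.comp (meas_nn hd n)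
  have h2 := integral_map (μ := mu) (φ := (sk d)^[i]) h.measurable.aemeasurable
    (f := fun p => Real.log (nn (Mm d n p))) h1.aestronglyMeasurable
  rw [h.map_eq] at h2
  exact h2.symm

private lemma int43 (hd : d.Ok) (n i : ℕ) :
    Integrable (fun p => Real.log (nn (Mm d n ((sk d)^[i] p)))) mu :=
  (sk_iter_mp hd i).integrable_comp_of_integrable (int_log_nn hd n)

theorem Em_add_le (hd : d.Ok) (m n : ℕ) : Em d (m + n) ≤ Em d m + Em d n := by
  rw [← Em_sk hd m n]
  unfold Em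
  rw [← integral_add (int43 hd m n) (int_log_nn hd n)]
  refine integral_mono (int_log_nn hd (m + n)) ((int43 hd m n).add (int_log_nn hd n)) fun p => ?_
  have h1 := nn_ge_two (det_Mm hd (m + n) p)
  have h2 := nn_ge_two (det_Mm hd m ((sk d)^[n] p))
  have h3 := nn_ge_two (det_Mm hd n p)
  change Real.log (nn (Mm d (m + n) p)) ≤
    Real.log (nn (Mm d m ((sk d)^[n] p))) + Real.log (nn (Mm d n p))
  rw [← Real.log_mul (by linarith) (by linarith)]
  refine Real.log_le_log (by linarith) ?_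
  rw [Mm_add]
  exact Pool.Agent.Helper18.UC.nn_mul _ _

end Pool.Agent.Helper18.FD
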