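import Pool.Agent.Helper18.FD.King

/-! Block FD-BASICS: elementary properties of the random maps (for the final statement).

`C₀` from `rgen_ok hχ hs hs1`; for `|a| ≥ A`, `A ≥ 100`, `A ≥ 2 (1 + C₀)`: `φ = rgen χ s κ g ω` satisfies `φ.Ok η` with `η = |a|^-2 + κ C₀ ≤ (1 + C₀)|a|^-2 ≤ 1/|a|`.
* `ok_mono`: direct. * the derivatives of `κ * hh`: `fld_dy, fld_dx` (`FldD.lean`) with `e = 2 + s`, `bump_cb`, `bump_cd`; `φ.f1 y x - g.f1 y x = κ * fld (deriv χ) (k1 χ) (k2 χ) (1 + s) ω y x` by definition.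
* `ContDiff`: `Fl_hasFDerivAt` and `DF_cont` (`contDiff_one_iff_fderiv`; `clm` is continuous in the matrix entries). * `Fl_bij`. * `MeasurePreserving`: `det = 1` (`DF_det`) and injective: `measurePreserving` from the change of
variables formula as in `S_mp` (`FD/MP.lean`) or `MeasureTheory.lintegral_image_eq_lintegral_abs_det_fderiv_mul`. * the equations: `nx_spec` and the definition of `Fl`. * periodicity: `Fl_sh`, `toT_sh`.
* closeness: with `η` as above: the derivative of `S_a` is `clm !![al₀, -1; 1, 0]`, `al₀ = 2 + 2πa cos`, `DF = mat al be v`, `|al - al₀|, |be - 1|, |v| ≤ η ≤ (1+C₀)|a|^-2`, `|al₀| ≤ 7|a|`: the entries of the difference are at most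
`40 (1 + C₀)/|a|`; `‖clm B‖ ≤ nn B`. -/

set_option autoImplicit false
open MeasureTheory Real Set Filter Topology

namespace Pool.Agent.Helper18.FD

open Pool.Agent.Helper18.UC (T2 rep toT nn clm)

/-- the random function `h_ω` -/
noncomputable def hh (χ : ℝ → ℝ) (s : ℝ) (ω : Om) (y x : ℝ) : ℝ := fld χ (k1 χ) (k2 χ) (2 + s) ω y x

private theorem nice_mono6 {η η' : ℝ} (h : η ≤ η') {f : ℝ → ℝ → ℝ} (hf : Nice η f) : Nice η' f :=
  ⟨hf.cont, hf.per1, hf.per2, fun y x => (hf.bd y x).trans h⟩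

theorem ok_mono {φ : Gen} {η η' : ℝ} (h : φ.Ok η) (hη : η ≤ η') : φ.Ok η' :=
  ⟨nice_mono6 hη h.n1, nice_mono6 hη h.n2, nice_mono6 hη h.n11, nice_mono6 hη h.n12,
    nice_mono6 hη h.n22, h.d11, h.d12, h.d21, h.d22⟩

private theorem det_clm6 (B : Matrix (Fin 2) (Fin 2) ℝ) : (clm B).det = B.det := by
  rw [ContinuousLinearMap.det, ← LinearMap.det_toMatrix (Module.Basis.finTwoProd ℝ)]
  congr 1
  ext i j
  fin_cases i <;> fin_cases j <;> simp [LinearMap.toMatrix_apply, UC.clm_apply]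

private theorem mp6 {a η : ℝ} {φ : Gen} (hη : η ≤ 1 / 2) (hφ : φ.Ok η) :
    MeasurePreserving (Fl a φ) := by
  have hF : Differentiable ℝ (Fl a φ) := fun q => (Fl_hasFDerivAt hη hφ q).differentiableAt
  have hFc : Continuous (Fl a φ) := hF.continuous
  have hbij := Fl_bij (a := a) hη hφ
  have himg : ∀ B : Set (ℝ × ℝ), MeasurableSet B → volume (Fl a φ '' B) = volume B := by
    intro B hB
    rw [← lintegral_abs_det_fderiv_eq_addHaar_image volume hB
      (fun q _ => (Fl_hasFDerivAt hη hφ q).hasFDerivWithinAt) hbij.1.injOn]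
    have h1 : ∀ q, ENNReal.ofReal |(clm (DF a φ q)).det| = 1 := by
      intro q
      rw [det_clm6, DF_det hη hφ, abs_one, ENNReal.ofReal_one]
    simp only [h1, lintegral_one, Measure.restrict_apply MeasurableSet.univ, univ_inter]
  refine ⟨hFc.measurable, Measure.ext fun s hs => ?_⟩
  rw [Measure.map_apply hFc.measurable hs, ← himg _ (hFc.measurable hs),
    image_preimage_eq _ hbij.2]

/-- the matrix of the derivative of the limit map -/
private noncomputable def B6 (a : ℝ) (q : ℝ × ℝ) : Matrix (Fin 2) (Fin 2) ℝ :=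
  !![2 + 2 * π * a * Real.cos (2 * π * q.1), -1; 1, 0]

private theorem S_der6 (a : ℝ) (q : ℝ × ℝ) : HasFDerivAt (fun q : ℝ × ℝ =>
    (2 * q.1 - q.2 + a * Real.sin (2 * π * q.1), q.1)) (clm (B6 a q)) q := by
  have h1 : HasFDerivAt (fun q : ℝ × ℝ => q.1) (ContinuousLinearMap.fst ℝ ℝ ℝ) q := hasFDerivAt_fst
  have h2 : HasFDerivAt (fun q : ℝ × ℝ => q.2) (ContinuousLinearMap.snd ℝ ℝ ℝ) q := hasFDerivAt_snd
  have h3 := (((h1.const_mul 2).sub h2).add (((h1.const_mul (2 * π)).sin).const_mul a)).prodMk h1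
  refine h3.congr_fderiv ?_
  refine ContinuousLinearMap.ext fun v => ?_
  rw [UC.clm_apply]
  refine Prod.ext ?_ ?_
  · simp [B6]
    ring
  · simp [B6]

private theorem clm_sub6 (B C : Matrix (Fin 2) (Fin 2) ℝ) : clm B - clm C = clm (B - C) := by
  refine ContinuousLinearMap.ext fun v => ?_
  rw [_root_.sub_apply, UC.clm_apply, UC.clm_apply, UC.clm_apply]
  refine Prod.ext ?_ ?_
  · simp only [Matrix.sub_apply, Prod.fst_sub]
    ring
  · simp only [Matrix.sub_apply, Prod.snd_sub]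
    ring

private theorem near6 {a η : ℝ} {φ : Gen} (ha : 100 ≤ |a|) (hη : η ≤ 1 / 100) (hφ : φ.Ok η)
    (q : ℝ × ℝ) : nn (DF a φ q - B6 a q) ≤ 22 * (|a| * η) := by
  obtain ⟨h1, h2, h3⟩ := bet_bd (a := a) hφ q
  have h0 : 0 ≤ η := (abs_nonneg _).trans h1
  set al := alf a φ q with hal
  set be := bet a φ q with hbe
  set v := vee a φ q with hv
  set a0 := 2 + 2 * π * a * Real.cos (2 * π * q.1) with ha0
  have hb1 := abs_le.1 h1
  have hb : 0 < be := by linarith
  have hb9 : 99 / 100 ≤ be := by linarith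
  have h5 : |a0| ≤ 7 * |a| := by
    have e1 : |a0| ≤ 2 + 2 * π * |a| := by
      refine (abs_add_le _ _).trans ?_
      rw [abs_mul, abs_mul, abs_of_pos (show (0 : ℝ) < 2 * π by positivity),
        abs_of_pos (show (0 : ℝ) < 2 by norm_num)]
      have h4 := Real.abs_cos_le_one (2 * π * q.1)
      have h5 : 0 ≤ 2 * π * |a| := by positivity
      nlinarith
    have h5 := Real.pi_lt_d4
    have h6 : 2 * π * |a| ≤ 2 * 3.1416 * |a| := by
      apply mul_le_mul_of_nonneg_right _ (abs_nonneg _)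
      linarith
    linarith
  have hal1 : |al| ≤ 7 * |a| + η := by
    have := abs_sub_abs_le_abs_sub al a0
    linarith
  have hae : 0 ≤ |a| * η := mul_nonneg (abs_nonneg _) h0
  have hae1 : 100 * η ≤ |a| * η := mul_le_mul_of_nonneg_right ha h0
  -- entries
  have e1 : |al / be - a0| ≤ 8 * (|a| * η) := by
    have e : al / be - a0 = ((al - a0) - a0 * (be - 1)) / be := by
      field_simp
      ring
    rw [e, abs_div, abs_of_pos hb, div_le_iff₀ hb]
    have h6 : |a0 * (be - 1)| ≤ 7 * |a| * η := by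
      rw [abs_mul]
      exact mul_le_mul h5 h1 (abs_nonneg _) (by positivity)
    have h7 := abs_sub (al - a0) (a0 * (be - 1))
    nlinarith
  have e2 : |-1 / be - -1| ≤ 1 / 10 * (|a| * η) := by
    have e : -1 / be - -1 = (be - 1) / be := by
      field_simp
      ring
    rw [e, abs_div, abs_of_pos hb, div_le_iff₀ hb]
    nlinarith
  have e3 : |be - v * (al / be) - 1| ≤ 8 * (|a| * η) := by
    have e : be - v * (al / be) - 1 = (be - 1) - v * al / be := by
      field_simp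
      ring
    have h6 : |v * al / be| ≤ 75 / 10 * (|a| * η) := by
      rw [abs_div, abs_of_pos hb, div_le_iff₀ hb, abs_mul]
      have h7 : |v| * |al| ≤ η * (7 * |a| + η) := mul_le_mul h2 hal1 (abs_nonneg _) h0
      have h8 : η * η ≤ 1 / 100 * (|a| * η) := by nlinarith
      nlinarith
    rw [e]
    have h7 := abs_sub (be - 1) (v * al / be)
    linarith
  have e4 : |v / be - 0| ≤ 1 / 10 * (|a| * η) := by
    rw [sub_zero, abs_div, abs_of_pos hb, div_le_iff₀ hb]
    nlinarith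
  have e5 : nn (DF a φ q - B6 a q) = |al / be - a0| + |-1 / be - -1| +
      |be - v * (al / be) - 1| + |v / be - 0| := by
    unfold Pool.Agent.Helper18.UC.nn DF mat B6
    simp
    rfl
  rw [e5]
  linarith

theorem basics {s : ℝ} (hs : 0 < s) (hs1 : s < 1) {χ : ℝ → ℝ} (hχ : Bump χ) :
    ∃ A C : ℝ, 100 ≤ A ∧ 0 < C ∧ ∀ (a κ : ℝ) (g : Gen), A ≤ |a| → g.Ok (|a| ^ (-2 : ℝ)) → 0 ≤ κ →
      κ ≤ |a| ^ (-2 : ℝ) → ∀ ω : Om,
      (rgen χ s κ g ω).Ok (1 / |a|) ∧
      (∀ y x : ℝ, HasDerivAt (fun t => κ * hh χ s ω t x) ((rgen χ s κ g ω).f1 y x - g.f1 y x) y ∧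
        HasDerivAt (fun t => κ * hh χ s ω y t) ((rgen χ s κ g ω).f2 y x - g.f2 y x) x) ∧
      ContDiff ℝ 1 (Fl a (rgen χ s κ g ω)) ∧
      Function.Bijective (Fl a (rgen χ s κ g ω)) ∧
      MeasurePreserving (Fl a (rgen χ s κ g ω)) ∧
      (∀ q : ℝ × ℝ, (Fl a (rgen χ s κ g ω) q).1 = 2 * q.1 + a * Real.sin (2 * π * q.1) - q.2 +
          (rgen χ s κ g ω).f1 q.1 (Fl a (rgen χ s κ g ω) q).1 ∧
        (Fl a (rgen χ s κ g ω) q).2 = q.1 - (rgen χ s κ g ω).f2 q.1 (Fl a (rgen χ s κ g ω) q).1) ∧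
      (∀ (q : ℝ × ℝ) (k l : ℤ), toT (Fl a (rgen χ s κ g ω) (q.1 + k, q.2 + l)) =
        toT (Fl a (rgen χ s κ g ω) q)) ∧
      ∀ q : ℝ × ℝ, dist (Fl a (rgen χ s κ g ω) q) (2 * q.1 - q.2 + a * Real.sin (2 * π * q.1), q.1) ≤
          C / |a| ∧
        ‖fderiv ℝ (Fl a (rgen χ s κ g ω)) q - fderiv ℝ (fun q : ℝ × ℝ =>
          (2 * q.1 - q.2 + a * Real.sin (2 * π * q.1), q.1)) q‖ ≤ C / |a| := by
  obtain ⟨C0, hC0, hok⟩ := rgen_ok hχ hs hs1
  obtain ⟨a1, b1, c1, a2, b2, c2, a3, b3, c3⟩ := bump_cb hχ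
  obtain ⟨A1, B1, D1, A2, B2, D2, A3, B3, D3⟩ := bump_cd hχ
  refine ⟨max 100 (2 * (1 + C0)), 22 * (1 + C0), le_max_left _ _, by positivity, ?_⟩
  intro a κ g hA hg hκ hκ1 ω
  have ha : 100 ≤ |a| := (le_max_left _ _).trans hA
  have ha2 : 2 * (1 + C0) ≤ |a| := (le_max_right _ _).trans hA
  have hapos : 0 < |a| := by linarith
  have hr : |a| ^ (-2 : ℝ) = 1 / (|a| * |a|) := by
    rw [Real.rpow_neg (abs_nonneg a), Real.rpow_two, sq, one_div]
  set η : ℝ := |a| ^ (-2 : ℝ) + κ * C0 with hη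
  have hφ : (rgen χ s κ g ω).Ok η := hok κ _ g hκ hg ω
  have hη1 : η ≤ (1 + C0) * (1 / (|a| * |a|)) := by
    rw [hη, ← hr]
    have := mul_le_mul_of_nonneg_right hκ1 hC0.le
    linarith
  have hη2 : |a| * η ≤ (1 + C0) / |a| := by
    calc |a| * η ≤ |a| * ((1 + C0) * (1 / (|a| * |a|))) := mul_le_mul_of_nonneg_left hη1 hapos.le
      _ = (1 + C0) / |a| := by field_simp
  have hη0 : 0 ≤ η := (abs_nonneg _).trans (hφ.n1.bd 0 0)
  have hη3 : η ≤ (1 + C0) / |a| * (1 / 100) := by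
    have h1 : 100 * η ≤ |a| * η := mul_le_mul_of_nonneg_right ha hη0
    linarith
  have hη4 : η ≤ 1 / |a| := by
    refine hη1.trans ?_
    have e : (1 + C0) * (1 / (|a| * |a|)) = (1 + C0) / |a| * (1 / |a|) := by
      field_simp
    rw [e]
    have h1 : (1 + C0) / |a| ≤ 1 := by
      rw [div_le_one hapos]
      linarith
    have h2 : 0 ≤ 1 / |a| := by positivity
    nlinarith
  have hη5 : η ≤ 1 / 100 := hη4.trans (one_div_le_one_div_of_le (by norm_num) ha)
  have hη6 : η ≤ 1 / 2 := by linarith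
  have hs2 : (1 : ℝ) < 2 + s := by linarith
  have he : 2 + s - 1 = 1 + s := by ring
  have hn := fun q => nx_spec (a := a) hη6 hφ q
  refine ⟨ok_mono hφ hη4, ?_, Fl_contDiff hη6 hφ, Fl_bij hη6 hφ, mp6 hη6 hφ, ?_, ?_, ?_⟩
  · intro y x
    constructor
    · have h1 := (fld_dy a1 A1 b1 c1 hs2 ω y x).const_mul κ
      rw [he] at h1
      refine h1.congr_deriv ?_
      exact (add_sub_cancel_left (g.f1 y x) _).symm
    · have h1 := (fld_dx a1 b1 c1 B1 D1 hs2 ω y x).const_mul κ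
      rw [he] at h1
      refine h1.congr_deriv ?_
      exact (add_sub_cancel_left (g.f2 y x) _).symm
  · intro q
    refine ⟨?_, rfl⟩
    have h1 := hn q
    change nx a (rgen χ s κ g ω) q = _ + (rgen χ s κ g ω).f1 q.1 (nx a (rgen χ s κ g ω) q)
    linarith
  · intro q k l
    rw [Fl_sh hη6 hφ]
    exact UC.toT_sh _ _ _
  · intro q
    constructor
    · have h1 := hn q
      have h2 := hφ.n1.bd q.1 (nx a (rgen χ s κ g ω) q)
      have h3 := hφ.n2.bd q.1 (nx a (rgen χ s κ g ω) q)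
      have h4 : η ≤ 22 * (1 + C0) / |a| := by
        have e : 22 * (1 + C0) / |a| = 22 * ((1 + C0) / |a|) := by ring
        have h5 : 0 ≤ (1 + C0) / |a| := by positivity
        rw [e]
        linarith
      rw [Prod.dist_eq, Real.dist_eq, Real.dist_eq]
      refine max_le ?_ ?_
      · refine le_trans ?_ (h2.trans h4)
        apply le_of_eq
        congr 1
        change nx a (rgen χ s κ g ω) q - _ = _
        linarith
      · refine le_trans ?_ (h3.trans h4)
        apply le_of_eq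
        rw [← abs_neg (Gen.f2 _ _ _)]
        congr 1
        change q.1 - (rgen χ s κ g ω).f2 q.1 (nx a (rgen χ s κ g ω) q) - q.1 = _
        ring
    · rw [(Fl_hasFDerivAt hη6 hφ q).fderiv, (S_der6 a q).fderiv, clm_sub6]
      refine (UC.norm_clm_le _).trans ((near6 ha hη5 hφ q).trans ?_)
      calc 22 * (|a| * η) ≤ 22 * ((1 + C0) / |a|) := by linarith
        _ = 22 * (1 + C0) / |a| := by ring

end Pool.Agent.Helper18.FD
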