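import Pool.Agent.Helper18.FD.Per

/-! Block FD-GEO: cells of the torus. (Elementary.)

* `dist_toT`: the distance on `T2 = UnitAddCircle × UnitAddCircle` is the maximum of the distances of the coordinates, and
  `dist (x : UnitAddCircle) y = |rr (x - y)|` (`AddCircle.norm_eq` with period one, `dist_eq_norm`, `AddCircle.coe_sub`).
* `rr_toT`: `rr ((rep (toT q)).2 - c) = rr (q.2 - c)` as `rep (toT q)` and `q` differ by integers (`rep_toT` in `UC/Cell.lean`, `rr_add_int`), so `t1, tt` of `toT q`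
  may be computed with `q`.
* `cel_lt`, `inn_cel`: `c.2 = round (N y) mod N`, `y = (rep w).2`: `y - c.2/N` differs by an integer from `y - round (N y)/N`, of absolute value `≤ 1/(2N) < 1/2`, so
  `rr` of it is `y - round(N y)/N` and `N |..| ≤ 1/2`.
* `out_of_far`: if `|t1|, |tt| ≤ 1/2` at `w` and both `< 1` at `w'`, then `|rr (y' - y)| ≤ |rr (y' - c/N)| + |rr (y - c/N)| < 3/(2N)` for both coordinates (`rr` is
  subadditive: `|rr (u + v)| ≤ |rr u| + |rr v|`, `rr` gives the distance to the nearest integer), so `dist w w' < 3/(2N)`. -/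

set_option autoImplicit false
open MeasureTheory Real Set

namespace Pool.Agent.Helper18.FD

open Pool.Agent.Helper18.UC (T2 rep toT)

theorem abs_rr_add_le (u v : ℝ) : |rr (u + v)| ≤ |rr u| + |rr v| := by
  have h := round_le (u + v) (round u + round v)
  unfold rr
  refine h.trans ?_
  push_cast
  calc |u + v - ((round u : ℝ) + (round v : ℝ))| = |(u - round u) + (v - round v)| := by
        congr 1
        ring
    _ ≤ |u - round u| + |v - round v| := abs_add_le _ _

theorem rr_of_small {u : ℝ} (h : |u| < 1 / 2) : rr u = u := by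
  have h2 := abs_lt.1 h
  have h1 : round u = 0 := by
    rw [round_eq, Int.floor_eq_iff]
    constructor
    · push_cast
      linarith [h2.1]
    · push_cast
      linarith [h2.2]
  unfold rr
  rw [h1]
  simp

theorem dist_toT (q q' : ℝ × ℝ) :
    dist (toT q) (toT q') = max |rr (q.1 - q'.1)| |rr (q.2 - q'.2)| := by
  have h : ∀ x y : ℝ, dist (x : UnitAddCircle) (y : UnitAddCircle) = |rr (x - y)| := by
    intro x y
    rw [dist_eq_norm, ← AddCircle.coe_sub, UnitAddCircle.norm_eq]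
    rfl
  rw [Prod.dist_eq]
  show max (dist ((q.1 : ℝ) : UnitAddCircle) (q'.1 : UnitAddCircle))
    (dist ((q.2 : ℝ) : UnitAddCircle) (q'.2 : UnitAddCircle)) = _
  rw [h, h]

theorem dist_le_half (w w' : T2) : dist w w' ≤ 1 / 2 := by
  rw [← Pool.Agent.Helper18.UC.toT_rep w, ← Pool.Agent.Helper18.UC.toT_rep w', dist_toT]
  exact max_le (abs_rr_le _) (abs_rr_le _)

theorem t1_toT (l : ℕ) (c : ℕ × ℕ) (q : ℝ × ℝ) :
    t1 l c (toT q) = NN l * rr (q.1 - c.1 / NN l) ∧ tt l c (toT q) = NN l * rr (q.2 - c.2 / NN l) := by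
  obtain ⟨u, w, h⟩ := Pool.Agent.Helper18.UC.rep_toT q
  unfold t1 tt
  rw [h]
  have h1 : (Pool.Agent.Helper18.UC.sh q u w).1 - (c.1 : ℝ) / NN l = (q.1 - (c.1 : ℝ) / NN l) + u := by
    show q.1 + u - (c.1 : ℝ) / NN l = _
    ring
  have h2 : (Pool.Agent.Helper18.UC.sh q u w).2 - (c.2 : ℝ) / NN l = (q.2 - (c.2 : ℝ) / NN l) + w := by
    show q.2 + w - (c.2 : ℝ) / NN l = _
    ring
  rw [h1, h2, rr_add_int, rr_add_int]
  exact ⟨rfl, rfl⟩

theorem cel_lt (l : ℕ) (w : T2) : (cel l w).1 < NN l ∧ (cel l w).2 < NN l := by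
  have hN : (0 : ℤ) < (NN l : ℤ) := by
    have := NN_pos l
    exact_mod_cast this
  have key : ∀ r : ℤ, (r % (NN l : ℤ)).toNat < NN l := by
    intro r
    have h1 := Int.emod_nonneg r hN.ne'
    have h2 := Int.emod_lt_of_pos r hN
    omega
  exact ⟨key _, key _⟩

private theorem inn_aux26 {N : ℕ} (hN : (8 : ℝ) ≤ N) (x : ℝ) :
    |(N : ℝ) * rr (x - (((round (N * x) % (N : ℤ)).toNat : ℕ) : ℝ) / N)| ≤ 1 / 2 := by
  have hN0 : (0 : ℝ) < N := by linarith
  have hZ : (0 : ℤ) < (N : ℤ) := by exact_mod_cast hN0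
  set r : ℤ := round ((N : ℝ) * x) with hr
  have h1 : (((r % (N : ℤ)).toNat : ℕ) : ℝ) = (r : ℝ) - N * ((r / (N : ℤ) : ℤ) : ℝ) := by
    have h2 := Int.emod_nonneg r hZ.ne'
    have h3 : (((r % (N : ℤ)).toNat : ℕ) : ℤ) = r - N * (r / (N : ℤ)) := by
      rw [Int.toNat_of_nonneg h2]
      have := Int.emod_add_mul_ediv r (N : ℤ)
      linarith
    exact_mod_cast h3
  have h4 : x - (((r % (N : ℤ)).toNat : ℕ) : ℝ) / N = (x - r / N) + ((r / (N : ℤ) : ℤ) : ℝ) := by
    rw [h1]
    field_simp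
    ring
  have h5 : (N : ℝ) * (x - r / N) = N * x - r := by
    field_simp
  have h6 : |(N : ℝ) * x - r| ≤ 1 / 2 := abs_sub_round _
  have h7 : |x - r / N| < 1 / 2 := by
    rw [← h5, abs_mul, abs_of_pos hN0] at h6
    nlinarith [abs_nonneg (x - (r : ℝ) / N)]
  rw [h4, rr_add_int, rr_of_small h7, h5]
  exact h6

theorem inn_cel (l : ℕ) (w : T2) : inn l (cel l w) w := by
  exact ⟨inn_aux26 (NN_ge l) _, inn_aux26 (NN_ge l) _⟩

theorem meas_cel (l : ℕ) : Measurable (cel l) := by
  have h1 : Measurable fun x : ℝ => (round (NN l * x) % (NN l : ℤ)).toNat := by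
    have h2 : (fun x : ℝ => (round (NN l * x) % (NN l : ℤ)).toNat) =
        (fun r : ℤ => (r % (NN l : ℤ)).toNat) ∘ fun x : ℝ => ⌊(NN l : ℝ) * x + 1 / 2⌋ := by
      funext x
      simp only [Function.comp, round_eq]
    rw [h2]
    refine (measurable_of_countable _).comp ?_
    exact Int.measurable_floor.comp ((measurable_id.const_mul _).add_const _)
  have hr := Pool.Agent.Helper18.UC.measurable_rep
  exact (h1.comp (measurable_fst.comp hr)).prodMk (h1.comp (measurable_snd.comp hr))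

theorem out_of_far {l : ℕ} {c : ℕ × ℕ} {w w' : T2} (hw : inn l c w)
    (h : 3 / (2 * (NN l : ℝ)) ≤ dist w' w) : out l c w' := by
  by_contra hc
  unfold out at hc
  push Not at hc
  obtain ⟨hc1, hc2⟩ := hc
  obtain ⟨hw1, hw2⟩ := hw
  have hN := NN_pos l
  rw [← Pool.Agent.Helper18.UC.toT_rep w, ← Pool.Agent.Helper18.UC.toT_rep w', dist_toT] at h
  have key : ∀ y y' z : ℝ, |(NN l : ℝ) * rr (y' - z)| < 1 → |(NN l : ℝ) * rr (y - z)| ≤ 1 / 2 →
      |rr (y' - y)| < 3 / (2 * (NN l : ℝ)) := by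
    intro y y' z h1 h2
    have e : y' - y = (y' - z) + (-(y - z)) := by ring
    have h3 := abs_rr_add_le (y' - z) (-(y - z))
    rw [← e] at h3
    have h4 : |rr (-(y - z))| ≤ |rr (y - z)| := by
      have h5 := round_le (-(y - z)) (-(round (y - z)))
      unfold rr
      refine h5.trans (le_of_eq ?_)
      rw [← abs_neg]
      congr 1
      push_cast
      ring
    rw [abs_mul, abs_of_pos hN] at h1 h2
    rw [lt_div_iff₀ (by positivity)]
    nlinarith
  rcases max_choice |rr ((rep w').1 - (rep w).1)| |rr ((rep w').2 - (rep w).2)| with hm | hm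
  · rw [hm] at h
    exact absurd (key _ _ _ hc1 hw1) (not_lt.2 h)
  · rw [hm] at h
    exact absurd (key _ _ _ hc2 hw2) (not_lt.2 h)

end Pool.Agent.Helper18.FD
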