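import Pool.Agent.Helper18.FD.Meas
import Pool.Agent.Helper18.FD.Geo

/-! Block FD-CLOA: returns at gap one.

`q1`: for fixed `ω` (Tonelli, `measure_prod`: it suffices to bound the section in `z` for every `ω`) and fixed `x = (rep z).1`: `dist (pw d 1 p) (pw d 0 p) ≥ |rr (X - x)|`, where `X = nx (x, y)`,
`y = (rep z).2`, is the first coordinate of `sk d p` (up to integers) and `x` that of `pw0` (`dist_toT`). If `|rr (X - x)| < ρ` then `X ∈ (x + m - ρ, x + m + ρ)` for an integer `m`, and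
`y = 2x + a sin 2πx - (X - φ₁(x, X))`: modulo one `y` lies in an interval of length `≤ 2 · (101/100) · 2ρ`-ish: more exactly the function `X ↦ X - φ₁(x, X)` is increasing, maps the interval
onto an interval of length `≤ (1 + η) 2ρ ≤ 2.1 ρ`, and translating `m` translates the image by `m`. So the set of `y ∈ [0, 1)` is contained in the set of `y` congruent modulo one to a point of a
fixed interval of length `2.1 ρ`, of measure `≤ 2.1 ρ ≤ 3ρ` (`UnitAddCircle`: the volume of the image of an interval; if `ρ ≥ 1/3` trivial). -/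

set_option autoImplicit false
open MeasureTheory Real Set
open scoped ENNReal

namespace Pool.Agent.Helper18.FD

open Pool.Agent.Helper18.UC (T2 rep toT)

variable {d : Dat}

private theorem norm_le1 (δ : ℝ) : ‖(δ : UnitAddCircle)‖ ≤ |δ| := by
  rw [UnitAddCircle.norm_eq]
  have h := round_le δ 0
  rwa [Int.cast_zero, sub_zero] at h

private theorem coe_add_int1 (x : ℝ) (u : ℤ) : ((x + u : ℝ) : UnitAddCircle) = (x : UnitAddCircle) := by
  have h : ((u : ℝ) : UnitAddCircle) = 0 := (AddCircle.coe_eq_zero_iff (1:ℝ)).mpr ⟨u, by simp⟩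
  rw [AddCircle.coe_add, h, add_zero]

private theorem rr_le1 (hd : d.Ok) (p : Pt) :
    |rr (nx d.a (d.ph p.1) (rep p.2) - (rep p.2).1)| ≤ dist (pw d 1 p) (pw d 0 p) := by
  have e1 : pw d 1 p = pw0 d (sk d p) := rfl
  have e0 : pw d 0 p = pw0 d p := rfl
  rw [e1, e0]
  unfold pw0
  rw [dist_toT]
  refine le_trans (le_of_eq ?_) (le_max_left _ _)
  have e2 : (sk d p).2 = toT (Fl d.a (d.ph p.1) (rep p.2)) := rfl
  obtain ⟨u, w, huw⟩ := Helper18.UC.rep_toT (Fl d.a (d.ph p.1) (rep p.2))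
  have e3 : (rep (sk d p).2).1 = nx d.a (d.ph p.1) (rep p.2) + u := by
    rw [e2, huw]
    rfl
  change |rr (nx d.a (d.ph p.1) (rep p.2) - (rep p.2).1)| = |rr ((rep (sk d p).2).1 - (rep p.2).1)|
  rw [e3]
  have e4 : nx d.a (d.ph p.1) (rep p.2) + (u : ℝ) - (rep p.2).1 =
      (nx d.a (d.ph p.1) (rep p.2) - (rep p.2).1) + (u : ℝ) := by ring
  rw [e4, rr_add_int]

private theorem sec1 (hd : d.Ok) {ρ : ℝ} (hρ : 0 < ρ) (ω : Om) (z1 : UnitAddCircle) :
    volume {z2 : UnitAddCircle | dist (pw d 1 (ω, (z1, z2))) (pw d 0 (ω, (z1, z2))) < ρ} ≤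
      ENNReal.ofReal (3 * ρ) := by
  have hη : (1 : ℝ) / |d.a| ≤ 1 / 2 := (eta_le hd).trans (by norm_num)
  have hφ := hd.ok ω
  set x : ℝ := (AddCircle.equivIco (1:ℝ) 0 z1 : ℝ) with hx
  set c : ℝ := 2 * x + d.a * Real.sin (2 * π * x) - (x - (d.ph ω).f1 x x) with hc
  have hsub : {z2 : UnitAddCircle | dist (pw d 1 (ω, (z1, z2))) (pw d 0 (ω, (z1, z2))) < ρ} ⊆
      Metric.closedBall (c : UnitAddCircle) ((101 / 100) * ρ) := by
    intro z2 hz
    change dist (pw d 1 (ω, (z1, z2))) (pw d 0 (ω, (z1, z2))) < ρ at hz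
    have h1 := lt_of_le_of_lt (rr_le1 hd (ω, (z1, z2))) hz
    have hrep1 : (rep (z1, z2)).1 = x := rfl
    set y : ℝ := (AddCircle.equivIco (1:ℝ) 0 z2 : ℝ) with hy
    have hrep2 : (rep (z1, z2)).2 = y := rfl
    change |rr (nx d.a (d.ph ω) (rep (z1, z2)) - (rep (z1, z2)).1)| < ρ at h1
    rw [hrep1] at h1
    have h2 := nx_spec hη hφ (a := d.a) (rep (z1, z2))
    rw [hrep1, hrep2] at h2
    set X : ℝ := nx d.a (d.ph ω) (rep (z1, z2)) with hX
    set m : ℤ := round (X - x) with hm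
    have h3 : |X - x - m| < ρ := h1
    have h4 := (A_bilip hη hφ x (X - m) x).2
    have h5 : (d.ph ω).f1 x (X - m) = (d.ph ω).f1 x X := by
      have h6 := nice_int hφ.n1 x X 0 (-m)
      push_cast at h6
      rw [add_zero, ← sub_eq_add_neg] at h6
      exact h6
    rw [h5] at h4
    have h6 : |X - (m : ℝ) - x| < ρ := by
      have e : X - (m : ℝ) - x = X - x - m := by ring
      rw [e]
      exact h3
    have h7 : |(X - (m : ℝ) - (d.ph ω).f1 x X) - (x - (d.ph ω).f1 x x)| ≤ (101 / 100) * ρ := by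
      refine h4.trans ?_
      have h8 := eta_le hd
      exact mul_le_mul (by linarith) h6.le (abs_nonneg _) (by norm_num)
    set δ : ℝ := (x - (d.ph ω).f1 x x) - (X - (m : ℝ) - (d.ph ω).f1 x X) with hδ
    have h8 : y = c + δ + ((-m : ℤ) : ℝ) := by
      push_cast
      linarith
    have h9 : z2 = ((c + δ : ℝ) : UnitAddCircle) := by
      have e1 : (y : UnitAddCircle) = z2 := AddCircle.coe_equivIco
      rw [← e1, h8, coe_add_int1]
    rw [Metric.mem_closedBall, dist_eq_norm, h9, ← AddCircle.coe_sub, add_sub_cancel_left]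
    refine (norm_le1 δ).trans ?_
    rw [hδ, abs_sub_comm]
    exact h7
  refine (measure_mono hsub).trans ?_
  rw [AddCircle.volume_closedBall]
  refine ENNReal.ofReal_le_ofReal ((min_le_right _ _).trans ?_)
  linarith

theorem q1 (hd : d.Ok) {ρ : ℝ} (hρ : 0 < ρ) :
    mu {p | dist (pw d 1 p) (pw d 0 p) < ρ} ≤ ENNReal.ofReal (3 * ρ) := by
  have hm : MeasurableSet {p : Pt | dist (pw d 1 p) (pw d 0 p) < ρ} :=
    measurableSet_lt ((meas_pw hd 1).dist (meas_pw hd 0)) measurable_const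
  have h1 : ∀ ω : Om, volume (Prod.mk ω ⁻¹' {p : Pt | dist (pw d 1 p) (pw d 0 p) < ρ}) ≤
      ENNReal.ofReal (3 * ρ) := by
    intro ω
    have hm2 : MeasurableSet (Prod.mk ω ⁻¹' {p : Pt | dist (pw d 1 p) (pw d 0 p) < ρ}) :=
      measurable_prodMk_left hm
    change ((volume : Measure UnitAddCircle).prod (volume : Measure UnitAddCircle))
      (Prod.mk ω ⁻¹' {p : Pt | dist (pw d 1 p) (pw d 0 p) < ρ}) ≤ _
    rw [Measure.prod_apply hm2]
    calc ∫⁻ z1 : UnitAddCircle, volume (Prod.mk z1 ⁻¹'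
          (Prod.mk ω ⁻¹' {p : Pt | dist (pw d 1 p) (pw d 0 p) < ρ}))
        ≤ ∫⁻ _z1 : UnitAddCircle, ENNReal.ofReal (3 * ρ) := lintegral_mono fun z1 => sec1 hd hρ ω z1
      _ = ENNReal.ofReal (3 * ρ) := by
        rw [lintegral_const, UnitAddCircle.measure_univ, mul_one]
  unfold mu
  rw [Measure.prod_apply hm]
  calc ∫⁻ ω, volume (Prod.mk ω ⁻¹' {p : Pt | dist (pw d 1 p) (pw d 0 p) < ρ}) ∂PP
      ≤ ∫⁻ _ω, ENNReal.ofReal (3 * ρ) ∂PP := lintegral_mono h1
    _ = ENNReal.ofReal (3 * ρ) := by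
      rw [lintegral_const, measure_univ, mul_one]

end Pool.Agent.Helper18.FD
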