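import Pool.Agent.Helper18.FD.Meas
import Pool.Agent.Helper18.FD.Geo

/-! Block FD-CLOB: close pairs have close predecessors.

`lip`: let `r = dist (pw d 1 p) (pw d 1 p')`, `p.1 = p'.1 = ω`, `φ = d.ph ω`. Work in the plane: `q = rep p.2`, `X = nx q`, `P = q.1 - φ₂(q.1, X)`, `Y = nx (X, P)`, and primes for `p'`; `pw d 0 p = toT (q.1, X)`,
`pw d 1 p = toT (X, Y)` (integers: `nx_sh`, `toT_sh`, `rep_toT`). By `dist_toT` there are integers `m, m'` with `|X - X' - m| ≤ r`, `|Y - Y' - m'| ≤ r`. By `nx_spec` and periodicity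
`P - P' - (2m - m') = 2 (X - X' - m) + a (sin 2πX - sin 2πX') - ((Y - Y' - m') - (φ₁(X,Y) - φ₁(X',Y')))`, so `|P - P' - (2m - m')| ≤ (2 + 2π|a| + 1 + 2η) r` (`f_lip` after translating the arguments by integers,
`nice_int`). With `m'' = 2m - m'`: `(q.1 - φ₂(q.1, X)) - (q'.1 + m'' - φ₂(q'.1 + m'', X' + m))` has this absolute value bound, and replacing `X' + m` by `X` costs `η r`; `B_bilip` gives
`|q.1 - q'.1 - m''| ≤ (3 + 2π|a| + 3η) r/(1 - η) ≤ 10 |a| r` as `|a| ≥ 100`. Then `dist_toT`, `|rr (u - m)| ≤ |u - m|`. -/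

set_option autoImplicit false
open MeasureTheory Real Set
open scoped ENNReal

namespace Pool.Agent.Helper18.FD

open Pool.Agent.Helper18.UC (T2 rep toT)

variable {d : Dat}

private theorem sin_lip75 (x y : ℝ) (m : ℤ) :
    |Real.sin (2 * π * x) - Real.sin (2 * π * y)| ≤ 2 * π * |x - y - m| := by
  have h1 : Real.sin (2 * π * y) = Real.sin (2 * π * (y + m)) := by
    have e : 2 * π * (y + m) = 2 * π * y + m * (2 * π) := by ring
    rw [e, Real.sin_add_int_mul_two_pi]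
  rw [h1]
  have h2 : |Real.sin (2 * π * x) - Real.sin (2 * π * (y + m))| ≤ |2 * π * x - 2 * π * (y + m)| := by
    have h3 := Real.sin_sub_sin (2 * π * x) (2 * π * (y + m))
    rw [h3, abs_mul, abs_mul, abs_two]
    have h4 : |Real.cos ((2 * π * x + 2 * π * (y + m)) / 2)| ≤ 1 := Real.abs_cos_le_one _
    have h5 : |Real.sin ((2 * π * x - 2 * π * (y + m)) / 2)| ≤ |(2 * π * x - 2 * π * (y + m)) / 2| :=
      Real.abs_sin_le_abs
    have h6 : |(2 * π * x - 2 * π * (y + m)) / 2| = |2 * π * x - 2 * π * (y + m)| / 2 := by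
      rw [abs_div, abs_two]
    rw [h6] at h5
    have h7 := abs_nonneg (Real.sin ((2 * π * x - 2 * π * (y + m)) / 2))
    have h8 := abs_nonneg (Real.cos ((2 * π * x + 2 * π * (y + m)) / 2))
    nlinarith
  refine h2.trans (le_of_eq ?_)
  have e : 2 * π * x - 2 * π * (y + m) = 2 * π * (x - y - m) := by ring
  rw [e, abs_mul, abs_of_pos (by positivity)]

private theorem pw0_75 (hd : d.Ok) (ω : Om) (q : ℝ × ℝ) :
    pw0 d (ω, toT q) = toT (q.1, nx d.a (d.ph ω) q) := by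
  have hη : 1 / |d.a| ≤ 1 / 2 := (eta_le hd).trans (by norm_num)
  unfold pw0
  obtain ⟨u, w, h⟩ := Pool.Agent.Helper18.UC.rep_toT q
  change toT ((rep (toT q)).1, nx d.a (d.ph ω) (rep (toT q))) = _
  rw [h]
  have h1 : nx d.a (d.ph ω) (q.1 + u, q.2 + w) = nx d.a (d.ph ω) q + (2 * u - w : ℤ) := nx_sh hη (hd.ok ω) q u w
  have h2 := Pool.Agent.Helper18.UC.toT_sh (q.1, nx d.a (d.ph ω) q) u (2 * u - w)
  rw [← h2]
  change toT (q.1 + u, nx d.a (d.ph ω) (q.1 + u, q.2 + w)) = toT (q.1 + u, nx d.a (d.ph ω) q + (2 * u - w : ℤ))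
  rw [h1]

private theorem pw1_75 (hd : d.Ok) (p : Pt) :
    pw d 1 p = toT (Fl d.a (d.ph p.1) (rep p.2) |>.1, nx d.a (d.ph p.1) (Fl d.a (d.ph p.1) (rep p.2))) := by
  have h : pw d 1 p = pw0 d (p.1, toT (Fl d.a (d.ph p.1) (rep p.2))) := rfl
  rw [h, pw0_75 hd]

private theorem num75 {a r D : ℝ} (ha : 100 ≤ |a|) (hr : 0 ≤ r)
    (h : (1 - 1 / |a|) * D ≤ (3 + 2 * π * |a| + 3 * (1 / |a|)) * r) : D ≤ 10 * |a| * r := by
  have h1 : 1 / |a| ≤ 1 / 100 := one_div_le_one_div_of_le (by norm_num) ha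
  have hπ := Real.pi_lt_d2
  have ha0 : 0 < |a| := by linarith
  have h0 : 0 < 1 / |a| := by positivity
  by_contra hcon
  push Not at hcon
  have hD : 0 < D := lt_of_le_of_lt (by positivity) hcon
  have h2 : (1 - 1 / 100) * D ≤ (1 - 1 / |a|) * D := mul_le_mul_of_nonneg_right (by linarith) hD.le
  have h3 : (3 + 2 * π * |a| + 3 * (1 / |a|)) ≤ 7 * |a| := by
    have : π * |a| ≤ 3.15 * |a| := mul_le_mul_of_nonneg_right hπ.le ha0.le
    nlinarith
  have h4 : (3 + 2 * π * |a| + 3 * (1 / |a|)) * r ≤ 7 * |a| * r := mul_le_mul_of_nonneg_right h3 hr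
  have h5 : 0 ≤ |a| * r := by positivity
  nlinarith

theorem lip (hd : d.Ok) {p p' : Pt} (h : p.1 = p'.1) :
    dist (pw d 0 p) (pw d 0 p') ≤ 10 * |d.a| * dist (pw d 1 p) (pw d 1 p') := by
  have hη : 1 / |d.a| ≤ 1 / 2 := (eta_le hd).trans (by norm_num)
  have hφ := hd.ok p.1
  rw [pw1_75 hd, pw1_75 hd, ← h]
  have e0 : ∀ p : Pt, pw d 0 p = toT ((rep p.2).1, nx d.a (d.ph p.1) (rep p.2)) := fun _ => rfl
  rw [e0, e0, ← h, dist_toT, dist_toT]
  generalize rep p.2 = q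
  generalize rep p'.2 = q'
  generalize d.ph p.1 = φ at *
  have hF : ∀ q : ℝ × ℝ, Fl d.a φ q = (nx d.a φ q, q.1 - φ.f2 q.1 (nx d.a φ q)) := fun _ => rfl
  rw [hF, hF]
  dsimp only
  set X := nx d.a φ q with hX
  set X' := nx d.a φ q' with hX'
  set P := q.1 - φ.f2 q.1 X with hP
  set P' := q'.1 - φ.f2 q'.1 X' with hP'
  have sY := nx_spec (a := d.a) hη hφ (X, P)
  have sY' := nx_spec (a := d.a) hη hφ (X', P')
  set Y := nx d.a φ (X, P) with hY
  set Y' := nx d.a φ (X', P') with hY'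
  dsimp only at sY sY'
  set r := max |rr (X - X')| |rr (Y - Y')| with hr
  have hr0 : 0 ≤ r := (abs_nonneg _).trans (le_max_left _ _)
  obtain ⟨m, hm⟩ : ∃ m : ℤ, |X - X' - m| ≤ r := ⟨round (X - X'), le_max_left _ _⟩
  obtain ⟨m', hm'⟩ : ∃ m' : ℤ, |Y - Y' - m'| ≤ r := ⟨round (Y - Y'), le_max_right _ _⟩
  have hπ := Real.pi_pos
  have ha := hd.ha
  have hη0 : 0 < 1 / |d.a| := by positivity
  set η := 1 / |d.a| with hηd
  -- the second coordinate
  have b1 : |φ.f1 X Y - φ.f1 X' Y'| ≤ 2 * η * r := by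
    have h1 := (f_lip hφ X (X' + m) Y (Y' + m')).1
    rw [nice_int hφ.n1] at h1
    have e1 : X - (X' + m) = X - X' - m := by ring
    have e2 : Y - (Y' + m') = Y - Y' - m' := by ring
    rw [e1, e2] at h1
    nlinarith
  have b2 := sin_lip75 X X' m
  have b3 : |P - P' - (2 * m - m')| ≤ (3 + 2 * π * |d.a| + 2 * η) * r := by
    have e1 : P - P' - (2 * m - m') = 2 * (X - X' - m) + d.a * (Real.sin (2 * π * X) - Real.sin (2 * π * X')) -
        (Y - Y' - m') + (φ.f1 X Y - φ.f1 X' Y') := by linarith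
    rw [e1]
    have t1 : |2 * (X - X' - m)| ≤ 2 * r := by
      rw [abs_mul, abs_two]
      linarith
    have t2 : |d.a * (Real.sin (2 * π * X) - Real.sin (2 * π * X'))| ≤ 2 * π * |d.a| * r := by
      rw [abs_mul]
      have : |Real.sin (2 * π * X) - Real.sin (2 * π * X')| ≤ 2 * π * r :=
        b2.trans (mul_le_mul_of_nonneg_left hm (by positivity))
      calc |d.a| * |Real.sin (2 * π * X) - Real.sin (2 * π * X')| ≤ |d.a| * (2 * π * r) :=
            mul_le_mul_of_nonneg_left this (abs_nonneg _)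
        _ = 2 * π * |d.a| * r := by ring
    have t3 := abs_add_le (2 * (X - X' - m) + d.a * (Real.sin (2 * π * X) - Real.sin (2 * π * X')) - (Y - Y' - m'))
      (φ.f1 X Y - φ.f1 X' Y')
    have t4 := abs_sub (2 * (X - X' - m) + d.a * (Real.sin (2 * π * X) - Real.sin (2 * π * X'))) (Y - Y' - m')
    have t5 := abs_add_le (2 * (X - X' - m)) (d.a * (Real.sin (2 * π * X) - Real.sin (2 * π * X')))
    linarith
  -- the predecessor
  have b4 : |φ.f2 (q'.1 + (2 * m - m' : ℤ)) (X' + m) - φ.f2 (q'.1 + (2 * m - m' : ℤ)) X| ≤ η * r := by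
    have h1 := (f_lip hφ (q'.1 + (2 * m - m' : ℤ)) (q'.1 + (2 * m - m' : ℤ)) (X' + m) X).2
    rw [sub_self, abs_zero, mul_zero, zero_add] at h1
    have e1 : |X' + m - X| = |X - X' - m| := by
      rw [abs_sub_comm]
      congr 1
      ring
    rw [e1] at h1
    exact h1.trans (mul_le_mul_of_nonneg_left hm hη0.le)
  have b5 : φ.f2 (q'.1 + (2 * m - m' : ℤ)) (X' + m) = φ.f2 q'.1 X' := nice_int hφ.n2 _ _ _ _
  have b6 := (B_bilip hη hφ X q.1 (q'.1 + (2 * m - m' : ℤ))).1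
  have b7 : |(q.1 - φ.f2 q.1 X) - ((q'.1 + (2 * m - m' : ℤ)) - φ.f2 (q'.1 + (2 * m - m' : ℤ)) X)| ≤
      (3 + 2 * π * |d.a| + 2 * η) * r + η * r := by
    have e1 : (q.1 - φ.f2 q.1 X) - ((q'.1 + (2 * m - m' : ℤ)) - φ.f2 (q'.1 + (2 * m - m' : ℤ)) X) =
        (P - P' - (2 * m - m')) - (φ.f2 (q'.1 + (2 * m - m' : ℤ)) (X' + m) - φ.f2 (q'.1 + (2 * m - m' : ℤ)) X) := by
      rw [b5, hP, hP']
      push_cast
      ring
    rw [e1]
    have := abs_sub (P - P' - (2 * m - m')) (φ.f2 (q'.1 + (2 * m - m' : ℤ)) (X' + m) - φ.f2 (q'.1 + (2 * m - m' : ℤ)) X)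
    linarith
  have b8 : |q.1 - (q'.1 + (2 * m - m' : ℤ))| ≤ 10 * |d.a| * r := by
    refine num75 ha hr0 ?_
    rw [← hηd]
    linarith
  have b9 : |rr (q.1 - q'.1)| ≤ 10 * |d.a| * r := by
    refine le_trans ?_ b8
    have e1 : q.1 - (q'.1 + (2 * m - m' : ℤ)) = (q.1 - q'.1) - (2 * m - m' : ℤ) := by ring
    rw [e1]
    exact round_le (q.1 - q'.1) (2 * m - m')
  refine max_le b9 ?_
  have b10 : |rr (X - X')| ≤ r := le_max_left _ _
  nlinarith

end Pool.Agent.Helper18.FD
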