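import Mathlib
import Pool.Agent.Helper78.SM.LogT

/-! Block FD-COSI: integrals of the cosine. (One variable calculus; `Pool/Agent/Helper78/SM/LogT.lean` has `int_log_cos_one`, `intervalIntegrable_log_cos2`, `sublevel_two_csn`; it may be imported.)

* `sub_cos`: `|cos 2πx| ≤ t` on `[0, 1]` has measure `(2/π) arcsin t ≤ t` (`arcsin t ≤ π t/2`), `t = T/(2π|a|)`. Any proof of the weaker bound `T/|a| = 2π t` is fine: near the zeros `x₀ = 1/4, 3/4`: `|cos 2πx| ≥ 4 |x - x₀|` for
  `|x - x₀| ≤ 1/4` (`Real.mul_le_sin`), so the set has measure at most `2 · 2 · t/4 = t`.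
* `int_low`: let `c = 2π|a||cos 2πx|`. `log (max 1 (c - 4)) ≥ log c - 8|a|^(-1/2) - (log (8|a|^(1/2))) 1[c < |a|^(1/2)]` : for `c ≥ |a|^(1/2) ≥ 10`: `log (1 - 4/c) ≥ -8/c`; otherwise `log (max ..) ≥ 0` and `log c ≤ log |a|^(1/2)`.
  Integrate with `∫ log c = log (π|a|)` (`∫ log |cos 2πx| = -log 2`) and `sub_cos` with `T = |a|^(1/2)`: loss `≤ 8|a|^(-1/2) + |a|^(-1/2) log (8|a|) ≤ C |a|^(-1/3)`.
* `int_up`: `log (c + 8) ≤ log c + (8/c)^(1/2)` (`log (1 + x) ≤ x^(1/2)` for `x ≥ 0`), and `∫ |cos 2πx|^(-1/2) < ∞` (from `|cos 2πx| ≥ 4|x - x₀|`; or layer cake with `sub_cos`). -/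

set_option autoImplicit false
open MeasureTheory Real Set

namespace Pool.Agent.Helper18.FD

private theorem cos_low1 {x : ℝ} (h : |x - 1 / 4| ≤ 1 / 4) : 4 * |x - 1 / 4| ≤ |Real.cos (2 * π * x)| := by
  have hpi := Real.pi_pos
  have h1 : Real.cos (2 * π * x) = -Real.sin (2 * π * (x - 1 / 4)) := by
    have : 2 * π * (x - 1 / 4) = 2 * π * x - π / 2 := by ring
    rw [this, Real.sin_sub_pi_div_two, neg_neg]
  rw [h1, abs_neg]
  have h2 : |2 * π * (x - 1 / 4)| = 2 * π * |x - 1 / 4| := by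
    rw [abs_mul, abs_of_pos (by positivity)]
  have h3 := Real.mul_abs_le_abs_sin (x := 2 * π * (x - 1 / 4)) (by rw [h2]; nlinarith)
  rw [h2] at h3
  refine le_trans (le_of_eq ?_) h3
  field_simp
  ring

private theorem cos_low3 {x : ℝ} (h : |x - 3 / 4| ≤ 1 / 4) : 4 * |x - 3 / 4| ≤ |Real.cos (2 * π * x)| := by
  have hpi := Real.pi_pos
  have h1 : Real.cos (2 * π * x) = Real.sin (2 * π * (x - 3 / 4)) := by
    have : 2 * π * (x - 3 / 4) = 2 * π * x + π / 2 - 2 * π := by ring
    rw [this, Real.sin_sub_two_pi, Real.sin_add_pi_div_two]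
  rw [h1]
  have h2 : |2 * π * (x - 3 / 4)| = 2 * π * |x - 3 / 4| := by
    rw [abs_mul, abs_of_pos (by positivity)]
  have h3 := Real.mul_abs_le_abs_sin (x := 2 * π * (x - 3 / 4)) (by rw [h2]; nlinarith)
  rw [h2] at h3
  refine le_trans (le_of_eq ?_) h3
  field_simp
  ring

private theorem cos_cases {x : ℝ} (h0 : 0 ≤ x) (h1 : x ≤ 1) :
    4 * |x - 1 / 4| ≤ |Real.cos (2 * π * x)| ∨ 4 * |x - 3 / 4| ≤ |Real.cos (2 * π * x)| := by
  rcases le_total x (1 / 2) with h | h
  · exact Or.inl (cos_low1 (abs_le.2 ⟨by linarith, by linarith⟩))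
  · exact Or.inr (cos_low3 (abs_le.2 ⟨by linarith, by linarith⟩))

theorem sub_cos {a T : ℝ} (ha : 1 ≤ |a|) (hT : 0 ≤ T) :
    volume {x : ℝ | x ∈ Ico (0 : ℝ) 1 ∧ 2 * π * |a| * |Real.cos (2 * π * x)| ≤ T} ≤
      ENNReal.ofReal (T / |a|) := by
  have hpi := Real.pi_gt_three
  have hA : 0 < |a| := by linarith
  set t : ℝ := T / (2 * π * |a|) with ht
  have ht0 : 0 ≤ t := by positivity
  have hsub : {x : ℝ | x ∈ Ico (0 : ℝ) 1 ∧ 2 * π * |a| * |Real.cos (2 * π * x)| ≤ T} ⊆
      Icc (1 / 4 - t / 4) (1 / 4 + t / 4) ∪ Icc (3 / 4 - t / 4) (3 / 4 + t / 4) := by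
    rintro x ⟨⟨h0, h1⟩, hx⟩
    have hc : |Real.cos (2 * π * x)| ≤ t := by
      rw [ht, le_div_iff₀ (by positivity)]
      linarith
    rcases cos_cases h0 h1.le with h | h
    · left
      have h2 : |x - 1 / 4| ≤ t / 4 := by linarith
      rw [abs_le] at h2
      exact ⟨by linarith [h2.1], by linarith [h2.2]⟩
    · right
      have h2 : |x - 3 / 4| ≤ t / 4 := by linarith
      rw [abs_le] at h2
      exact ⟨by linarith [h2.1], by linarith [h2.2]⟩
  refine (measure_mono hsub).trans ((measure_union_le _ _).trans ?_)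
  rw [Real.volume_Icc, Real.volume_Icc, ← ENNReal.ofReal_add (by linarith) (by linarith)]
  apply ENNReal.ofReal_le_ofReal
  have h3 : t ≤ T / |a| := by
    rw [ht]
    apply div_le_div_of_nonneg_left hT hA
    nlinarith
  linarith

private theorem int_log_c {K : ℝ} (hK : 0 < K) :
    IntervalIntegrable (fun x => Real.log (K * |Real.cos (2 * π * x)|)) volume 0 1 ∧
      ∫ x in (0 : ℝ)..1, Real.log (K * |Real.cos (2 * π * x)|) = Real.log (K / 2) := by
  have hae : (fun x : ℝ => Real.log (K * |Real.cos (2 * π * x)|)) =ᵐ[volume]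
      fun x => Real.log K + Real.log (Real.cos (2 * π * x)) := by
    filter_upwards [Pool.Agent.Helper78.SM.cos_ne_ae] with x hx
    rw [Real.log_mul hK.ne' (abs_ne_zero.2 hx), Real.log_abs]
  have h1 : IntervalIntegrable (fun x => Real.log K + Real.log (Real.cos (2 * π * x))) volume 0 1 :=
    intervalIntegrable_const.add Pool.Agent.Helper78.SM.intervalIntegrable_log_cos2
  refine ⟨h1.congr_ae (hae.symm.restrict), ?_⟩
  rw [intervalIntegral.integral_congr_ae (hae.mono (fun x hx _ => hx)),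
    intervalIntegral.integral_add intervalIntegrable_const Pool.Agent.Helper78.SM.intervalIntegrable_log_cos2,
    Pool.Agent.Helper78.SM.int_log_cos_one, Real.log_div hK.ne' two_ne_zero]
  simp
  ring

theorem int_low : ∃ C : ℝ, 0 < C ∧ ∀ a : ℝ, 100 ≤ |a| →
    Real.log (π * |a|) - C * |a| ^ (-(1 / 3) : ℝ) ≤
      ∫ x in (0 : ℝ)..1, Real.log (max 1 (2 * π * |a| * |Real.cos (2 * π * x)| - 4)) := by
  refine ⟨11, by norm_num, fun a ha => ?_⟩
  have hpi := Real.pi_gt_three
  have hA : 0 < |a| := by linarith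
  set A := |a| with hAdef
  set K : ℝ := 2 * π * A with hKdef
  have hK : 0 < K := by positivity
  set s : ℝ := Real.sqrt A with hs
  have hss : s * s = A := Real.mul_self_sqrt hA.le
  have hs10 : 10 ≤ s := by
    rw [hs]
    apply Real.le_sqrt_of_sq_le
    linarith
  have hs0 : 0 < s := by linarith
  obtain ⟨hi1, he1⟩ := int_log_c hK
  set I : Set ℝ := {x : ℝ | K * |Real.cos (2 * π * x)| ≤ s} with hI
  have hcont : Continuous fun x : ℝ => K * |Real.cos (2 * π * x)| := by fun_prop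
  have hIm : MeasurableSet I := (isClosed_le hcont continuous_const).measurableSet
  have hpt : ∀ x : ℝ, Real.log (K * |Real.cos (2 * π * x)|) - 8 / s - Real.log s * I.indicator (fun _ => (1 : ℝ)) x ≤
      Real.log (max 1 (K * |Real.cos (2 * π * x)| - 4)) := by
    intro x
    set c := K * |Real.cos (2 * π * x)| with hc
    have hc0 : 0 ≤ c := by positivity
    have hls : 0 ≤ Real.log s := Real.log_nonneg (by linarith)
    by_cases hx : x ∈ I
    · have hcs : c ≤ s := hx
      rw [Set.indicator_of_mem hx, mul_one]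
      have h1 : 0 ≤ Real.log (max 1 (c - 4)) := Real.log_nonneg (le_max_left _ _)
      have h2 : Real.log c ≤ Real.log s := by
        rcases hc0.eq_or_lt with h | h
        · rw [← h, Real.log_zero]
          exact hls
        · exact Real.log_le_log h hcs
      have h3 : 0 ≤ 8 / s := by positivity
      linarith
    · have hcs : s < c := not_le.1 hx
      rw [Set.indicator_of_notMem hx, mul_zero, sub_zero]
      have h1 : Real.log (c - 4) ≤ Real.log (max 1 (c - 4)) := Real.log_le_log (by linarith) (le_max_right _ _)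
      have hcpos : 0 < c := by linarith
      have hc4 : 0 < c - 4 := by linarith
      have h2 : Real.log c - Real.log (c - 4) ≤ 8 / s := by
        rw [← Real.log_div hcpos.ne' hc4.ne']
        have h3 : c / (c - 4) = 1 + 4 / (c - 4) := by
          field_simp
          ring
        rw [h3]
        have h4 : 0 < 4 / (c - 4) := by positivity
        have h5 := Real.log_le_sub_one_of_pos (x := 1 + 4 / (c - 4)) (by linarith)
        have h6 : 4 / (c - 4) ≤ 8 / s := by
          rw [div_le_div_iff₀ hc4 hs0]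
          nlinarith
        linarith
      linarith
  have hii : IntervalIntegrable (I.indicator fun _ => (1 : ℝ)) volume 0 1 := by
    rw [intervalIntegrable_iff_integrableOn_Ioc_of_le (zero_le_one' ℝ)]
    exact (integrable_const (1 : ℝ)).indicator hIm
  have hmeas : ∫ x in (0 : ℝ)..1, I.indicator (fun _ => (1 : ℝ)) x ≤ 1 / s := by
    rw [intervalIntegral.integral_of_le (zero_le_one' ℝ), integral_Ioc_eq_integral_Ioo,
      ← integral_Ico_eq_integral_Ioo, setIntegral_indicator hIm, setIntegral_const, smul_eq_mul, mul_one]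
    have h1 := sub_cos (a := a) (T := s) (by linarith) hs0.le
    have h2 : {x : ℝ | x ∈ Ico (0 : ℝ) 1 ∧ 2 * π * |a| * |Real.cos (2 * π * x)| ≤ s} = Ico (0 : ℝ) 1 ∩ I := rfl
    rw [h2, ← hAdef] at h1
    have h3 : s / A = 1 / s := by
      rw [div_eq_div_iff hA.ne' hs0.ne', hss, one_mul]
    rw [h3] at h1
    exact ENNReal.toReal_le_of_le_ofReal (by positivity) h1
  have hint : ∫ x in (0 : ℝ)..1, (Real.log (K * |Real.cos (2 * π * x)|) - 8 / s - Real.log s * I.indicator (fun _ => (1 : ℝ)) x) ≤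
      ∫ x in (0 : ℝ)..1, Real.log (max 1 (K * |Real.cos (2 * π * x)| - 4)) := by
    apply intervalIntegral.integral_mono_on zero_le_one
    · exact (hi1.sub intervalIntegrable_const).sub (hii.const_mul _)
    · apply Continuous.intervalIntegrable
      apply Continuous.log
      · fun_prop
      · intro x
        exact (lt_of_lt_of_le zero_lt_one (le_max_left _ _)).ne'
    · intro x _
      exact hpt x
  rw [intervalIntegral.integral_sub (hi1.sub intervalIntegrable_const) (hii.const_mul _),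
    intervalIntegral.integral_sub hi1 intervalIntegrable_const, he1, intervalIntegral.integral_const,
    intervalIntegral.integral_const_mul] at hint
  refine le_trans ?_ hint
  have hls : 0 ≤ Real.log s := Real.log_nonneg (by linarith)
  have hlog : Real.log s ≤ 3 * s ^ (1 / 3 : ℝ) := by
    have := Real.log_le_rpow_div hs0.le (ε := 1 / 3) (by norm_num)
    refine this.trans (le_of_eq ?_)
    ring
  have hr : A ^ (-(1 / 3) : ℝ) = s ^ (1 / 3 : ℝ) / s := by
    have e1 : s ^ (1 / 3 : ℝ) / s = s ^ ((1 / 3 : ℝ) - 1) := by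
      rw [Real.rpow_sub hs0, Real.rpow_one]
    rw [e1, ← hss, ← pow_two, ← Real.rpow_natCast, ← Real.rpow_mul hs0.le]
    norm_num
  have h1s : 1 ≤ s ^ (1 / 3 : ℝ) := Real.one_le_rpow (by linarith) (by norm_num)
  have hKA : K / 2 = π * A := by rw [hKdef]; ring
  rw [hKA, hr]
  have h5 : Real.log s * ∫ x in (0 : ℝ)..1, I.indicator (fun _ => (1 : ℝ)) x ≤ 3 * s ^ (1 / 3 : ℝ) * (1 / s) := by
    calc Real.log s * ∫ x in (0 : ℝ)..1, I.indicator (fun _ => (1 : ℝ)) x ≤ Real.log s * (1 / s) :=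
          mul_le_mul_of_nonneg_left hmeas hls
      _ ≤ _ := mul_le_mul_of_nonneg_right hlog (by positivity)
  have h6 : 8 / s ≤ 8 * (s ^ (1 / 3 : ℝ) / s) := by
    rw [← mul_div_assoc]
    apply div_le_div_of_nonneg_right _ hs0.le
    linarith
  have h7 : 3 * s ^ (1 / 3 : ℝ) * (1 / s) = 3 * (s ^ (1 / 3 : ℝ) / s) := by ring
  rw [h7] at h5
  simp only [sub_zero, one_smul]
  linarith

private theorem int_inv_sqrt (x₀ : ℝ) : IntervalIntegrable (fun x => (Real.sqrt (4 * |x - x₀|))⁻¹) volume 0 1 := by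
  have h0 : ∀ a b : ℝ, IntervalIntegrable (fun x : ℝ => (Real.sqrt x)⁻¹) volume a b := by
    intro a b
    have h1 := intervalIntegral.intervalIntegrable_rpow' (a := a) (b := b) (r := -(1 / 2)) (by norm_num)
    refine h1.congr ?_
    intro x _
    rcases le_total 0 x with hx | hx
    · show x ^ (-(1 / 2) : ℝ) = (Real.sqrt x)⁻¹
      rw [Real.sqrt_eq_rpow, ← Real.rpow_neg hx]
    · show x ^ (-(1 / 2) : ℝ) = (Real.sqrt x)⁻¹
      rcases hx.eq_or_lt with hx | hx
      · rw [hx, Real.sqrt_zero, inv_zero, Real.zero_rpow (by norm_num)]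
      · rw [Real.rpow_def_of_neg hx, Real.sqrt_eq_zero_of_nonpos hx.le, inv_zero]
        have : -(1 / 2) * π = -(π / 2) := by ring
        rw [this, Real.cos_neg, Real.cos_pi_div_two, mul_zero]
  have h1 : IntervalIntegrable (fun x : ℝ => (Real.sqrt (x - x₀))⁻¹) volume 0 1 := by
    have := (h0 (0 - x₀) (1 - x₀)).comp_sub_right x₀
    simpa using this
  have h2 : IntervalIntegrable (fun x : ℝ => (Real.sqrt (x₀ - x))⁻¹) volume 0 1 := by
    have := (h0 (x₀ - 0) (x₀ - 1)).comp_sub_left x₀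
    simpa using this
  have h3 := (h1.add h2).const_mul (1 / 2)
  refine h3.congr ?_
  intro x _
  show 1 / 2 * ((Real.sqrt (x - x₀))⁻¹ + (Real.sqrt (x₀ - x))⁻¹) = (Real.sqrt (4 * |x - x₀|))⁻¹
  have h4 : Real.sqrt (4 * |x - x₀|) = 2 * Real.sqrt |x - x₀| := by
    rw [Real.sqrt_mul (by norm_num)]
    have : (4 : ℝ) = 2 ^ 2 := by norm_num
    rw [this, Real.sqrt_sq (by norm_num)]
  rw [h4, mul_inv]
  rcases le_total x x₀ with h | h
  · rw [abs_of_nonpos (by linarith), Real.sqrt_eq_zero_of_nonpos (show x - x₀ ≤ 0 by linarith), neg_sub]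
    simp
  · rw [abs_of_nonneg (by linarith), Real.sqrt_eq_zero_of_nonpos (show x₀ - x ≤ 0 by linarith)]
    simp

private theorem int_inv_sqrt_cos : IntervalIntegrable (fun x => (Real.sqrt |Real.cos (2 * π * x)|)⁻¹) volume 0 1 := by
  have h1 := (int_inv_sqrt (1 / 4)).add (int_inv_sqrt (3 / 4))
  refine h1.mono_fun' ?_ ?_
  · have : Measurable fun x : ℝ => (Real.sqrt |Real.cos (2 * π * x)|)⁻¹ := by fun_prop
    exact this.aestronglyMeasurable
  · have h2 : ∀ᵐ x ∂(volume.restrict (uIoc (0 : ℝ) 1)), x ∈ uIoc (0 : ℝ) 1 := ae_restrict_mem measurableSet_uIoc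
    have h3 : ∀ᵐ x : ℝ ∂(volume.restrict (uIoc (0 : ℝ) 1)), x ≠ 1 / 4 := by
      exact ae_restrict_of_ae (Measure.ae_ne volume _)
    have h4 : ∀ᵐ x : ℝ ∂(volume.restrict (uIoc (0 : ℝ) 1)), x ≠ 3 / 4 := by
      exact ae_restrict_of_ae (Measure.ae_ne volume _)
    filter_upwards [h2, h3, h4] with x hx hx1 hx3
    rw [uIoc_of_le zero_le_one] at hx
    rw [Real.norm_of_nonneg (by positivity)]
    rcases cos_cases hx.1.le hx.2 with h | h
    · have h5 : (Real.sqrt |Real.cos (2 * π * x)|)⁻¹ ≤ (Real.sqrt (4 * |x - 1 / 4|))⁻¹ := by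
        apply inv_anti₀
        · have : 0 < |x - 1 / 4| := abs_pos.2 (sub_ne_zero.2 hx1)
          positivity
        · exact Real.sqrt_le_sqrt h
      have h6 : 0 ≤ (Real.sqrt (4 * |x - 3 / 4|))⁻¹ := by positivity
      exact h5.trans (le_add_of_nonneg_right h6)
    · have h5 : (Real.sqrt |Real.cos (2 * π * x)|)⁻¹ ≤ (Real.sqrt (4 * |x - 3 / 4|))⁻¹ := by
        apply inv_anti₀
        · have : 0 < |x - 3 / 4| := abs_pos.2 (sub_ne_zero.2 hx3)
          positivity
        · exact Real.sqrt_le_sqrt h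
      have h6 : 0 ≤ (Real.sqrt (4 * |x - 1 / 4|))⁻¹ := by positivity
      exact h5.trans (le_add_of_nonneg_left h6)

private theorem log_one_add_le {x : ℝ} (hx : 0 ≤ x) : Real.log (1 + x) ≤ 2 * Real.sqrt x := by
  have h1 := Real.sqrt_nonneg x
  have h2 : 1 + x ≤ (1 + Real.sqrt x) ^ 2 := by
    nlinarith [Real.sq_sqrt hx]
  have h3 := Real.log_le_log (by linarith) h2
  rw [Real.log_pow] at h3
  have h4 := Real.log_le_sub_one_of_pos (x := 1 + Real.sqrt x) (by linarith)
  push_cast at h3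
  linarith

theorem int_up : ∃ C : ℝ, 0 < C ∧ ∀ a : ℝ, 100 ≤ |a| →
    ∫ x in (0 : ℝ)..1, Real.log (2 * π * |a| * |Real.cos (2 * π * x)| + 8) ≤
      Real.log (π * |a|) + C * |a| ^ (-(1 / 3) : ℝ) := by
  set J : ℝ := ∫ x in (0 : ℝ)..1, (Real.sqrt |Real.cos (2 * π * x)|)⁻¹ with hJ
  have hJ0 : 0 ≤ J := intervalIntegral.integral_nonneg zero_le_one fun x _ => by positivity
  refine ⟨4 * J + 1, by positivity, fun a ha => ?_⟩
  have hpi := Real.pi_gt_three
  have hA : 0 < |a| := by linarith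
  set A := |a| with hAdef
  set K : ℝ := 2 * π * A with hKdef
  have hK : 0 < K := by positivity
  obtain ⟨hi1, he1⟩ := int_log_c hK
  have hpt : ∀ᵐ x : ℝ, Real.log (K * |Real.cos (2 * π * x)| + 8) ≤
      Real.log (K * |Real.cos (2 * π * x)|) + 2 * Real.sqrt (8 / K) * (Real.sqrt |Real.cos (2 * π * x)|)⁻¹ := by
    filter_upwards [Pool.Agent.Helper78.SM.cos_ne_ae] with x hx
    have hcos : 0 < |Real.cos (2 * π * x)| := abs_pos.2 hx
    set c := K * |Real.cos (2 * π * x)| with hc
    have hc0 : 0 < c := by positivity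
    have h1 : c + 8 = c * (1 + 8 / c) := by
      field_simp
    rw [h1, Real.log_mul hc0.ne' (by positivity)]
    have h2 := log_one_add_le (x := 8 / c) (by positivity)
    have h3 : Real.sqrt (8 / c) = Real.sqrt (8 / K) * (Real.sqrt |Real.cos (2 * π * x)|)⁻¹ := by
      rw [hc, ← div_div, Real.sqrt_div (by positivity), div_eq_mul_inv]
    rw [h3] at h2
    linarith
  have hint : ∫ x in (0 : ℝ)..1, Real.log (K * |Real.cos (2 * π * x)| + 8) ≤
      ∫ x in (0 : ℝ)..1, (Real.log (K * |Real.cos (2 * π * x)|) +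
        2 * Real.sqrt (8 / K) * (Real.sqrt |Real.cos (2 * π * x)|)⁻¹) := by
    apply intervalIntegral.integral_mono_ae zero_le_one
    · apply Continuous.intervalIntegrable
      apply Continuous.log
      · fun_prop
      · intro x
        positivity
    · exact hi1.add (int_inv_sqrt_cos.const_mul _)
    · exact hpt
  rw [intervalIntegral.integral_add hi1 (int_inv_sqrt_cos.const_mul _), he1, intervalIntegral.integral_const_mul,
    ← hJ] at hint
  refine hint.trans ?_
  have hKA : K / 2 = π * A := by rw [hKdef]; ring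
  rw [hKA]
  have h1 : Real.sqrt (8 / K) ≤ 2 * A ^ (-(1 / 3) : ℝ) := by
    have h2 : Real.sqrt (8 / K) ≤ 2 * (Real.sqrt A)⁻¹ := by
      rw [Real.sqrt_le_left (by positivity), mul_pow, inv_pow, Real.sq_sqrt hA.le, hKdef]
      rw [div_le_iff₀ (by positivity)]
      field_simp
      nlinarith
    have h3 : (Real.sqrt A)⁻¹ ≤ A ^ (-(1 / 3) : ℝ) := by
      rw [Real.sqrt_eq_rpow, ← Real.rpow_neg hA.le]
      exact Real.rpow_le_rpow_of_exponent_le (by linarith) (by norm_num)
    linarith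
  have h4 : 0 ≤ A ^ (-(1 / 3) : ℝ) := by positivity
  have h5 : 2 * Real.sqrt (8 / K) * J ≤ 4 * J * A ^ (-(1 / 3) : ℝ) := by
    nlinarith [mul_le_mul_of_nonneg_right h1 hJ0]
  nlinarith

end Pool.Agent.Helper18.FD
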