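import Pool.Agent.Helper18.FD.Meas

/-! Block FD-UNIF: the first coordinate is uniformly distributed.

* `rep_law`: `rep` maps `volume` to the restriction of Lebesgue measure to `[0,1)²` (`UC.vol_rep` in `UC/Cell.lean` gives the measure of `rep ⁻¹' s`; see also `vol_eq_h5` in `FD/MP.lean`), so the first coordinate has law
  `volume.restrict (Ico 0 1)` (`Measure.volume_eq_prod`, `Measure.prod_restrict`, `Measure.map_fst_prod`).
* `int_T`, `meas_T`: `integral_map`; `int_x`, `meas_x`: moreover `mu = PP.prod volume`, `PP` a probability measure (`integral_prod` or the law of `p ↦ p.2` under `mu` is `volume`: `measurePreserving_snd`), and `sk_iter_mp`.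
  (`f` need not be integrable: use `integral_map` for the law.) -/

set_option autoImplicit false
open MeasureTheory Real Set

namespace Pool.Agent.Helper18.FD

open Pool.Agent.Helper18.UC (T2 rep toT nn)

variable {d : Dat}

private theorem meas_rep1_63 : Measurable fun z : T2 => (rep z).1 :=
  measurable_fst.comp UC.measurable_rep

theorem rep_law : Measure.map (fun z : T2 => (rep z).1) volume = volume.restrict (Ico (0 : ℝ) 1) := by
  refine Measure.ext fun s hs => ?_
  rw [Measure.map_apply meas_rep1_63 hs, Measure.restrict_apply hs]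
  have h1 : (fun z : T2 => (rep z).1) ⁻¹' s = rep ⁻¹' (s ×ˢ (univ : Set ℝ)) := by
    ext z
    simp
  have h2 : (s ×ˢ (univ : Set ℝ)) ∩ (Ico (0 : ℝ) 1 ×ˢ Ico (0 : ℝ) 1) = (s ∩ Ico (0 : ℝ) 1) ×ˢ Ico (0 : ℝ) 1 := by
    rw [prod_inter_prod, univ_inter]
  rw [h1, UC.vol_rep (hs.prod MeasurableSet.univ), h2, Measure.volume_eq_prod, Measure.prod_prod, Real.volume_Ico]
  norm_num

private theorem restrict_int63 (f : ℝ → ℝ) :
    ∫ x, f x ∂(volume.restrict (Ico (0 : ℝ) 1)) = ∫ x in (0 : ℝ)..1, f x := by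
  rw [intervalIntegral.integral_of_le zero_le_one, Measure.restrict_congr_set Ico_ae_eq_Ioc]

theorem int_T {f : ℝ → ℝ} (hf : Measurable f) :
    ∫ z : T2, f (rep z).1 = ∫ x in (0 : ℝ)..1, f x := by
  rw [← restrict_int63, ← rep_law, integral_map meas_rep1_63.aemeasurable hf.aestronglyMeasurable]

private theorem meas_it63 (hd : d.Ok) (j : ℕ) : Measurable fun p => (rep ((sk d)^[j] p).2).1 :=
  meas_rep1_63.comp (measurable_snd.comp (sk_iter_mp hd j).measurable)

private theorem law63 (hd : d.Ok) (j : ℕ) :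
    Measure.map (fun p => (rep ((sk d)^[j] p).2).1) mu = volume.restrict (Ico (0 : ℝ) 1) := by
  have h1 : MeasurePreserving (Prod.snd : Pt → T2) mu volume := by
    unfold mu
    exact measurePreserving_snd
  have h2 := h1.comp (sk_iter_mp hd j)
  have h3 : (fun p => (rep ((sk d)^[j] p).2).1) = (fun z : T2 => (rep z).1) ∘ (Prod.snd ∘ (sk d)^[j]) := rfl
  rw [h3, ← Measure.map_map meas_rep1_63 h2.measurable, h2.map_eq, rep_law]

theorem int_x (hd : d.Ok) (j : ℕ) {f : ℝ → ℝ} (hf : Measurable f) :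
    ∫ p, f (rep ((sk d)^[j] p).2).1 ∂mu = ∫ x in (0 : ℝ)..1, f x := by
  rw [← restrict_int63, ← law63 hd j, integral_map (meas_it63 hd j).aemeasurable hf.aestronglyMeasurable]

theorem meas_x (hd : d.Ok) (j : ℕ) {S : Set ℝ} (hS : MeasurableSet S) :
    mu {p | (rep ((sk d)^[j] p).2).1 ∈ S} = volume (S ∩ Ico (0 : ℝ) 1) := by
  rw [← Measure.restrict_apply hS, ← law63 hd j, Measure.map_apply (meas_it63 hd j) hS]
  rfl

end Pool.Agent.Helper18.FD
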