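import Pool.Agent.Helper18.FD.Cone
import Pool.Agent.Helper18.FD.Cosi
import Pool.Agent.Helper18.FD.Unif

/-! Block FD-INIT: growth at short times.

Let `x_j = (rep ((sk d)^[j] p).2).1`, `c_j = 2π|a||cos 2πx_j|`, `f x = log (max 1 (2π|a||cos 2πx| - 4))`, `0 ≤ f ≤ log (7|a|)`. `coef_bd`: `|al_j| ≥ c_j - 2 - 1/|a| ≥ c_j - 3`. Let `Bad = {∃ j < m, |al_j| < 10}`; `|al_j| < 10` implies
`c_j < 13`, so `mu Bad ≤ m · 13/|a|` (`meas_x`, `sub_cos`). Pointwise `log nn (Mm d m p) ≥ ∑_{j<m} f(x_j) - m/|a| - 1_Bad m log (7|a|)`: off `Bad` by `cone` (`|al_j| - 1 ≥ max (c_j - 4) 1`), on `Bad` by `log nn ≥ 0` (`log_nn_bd`).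
Integrate (`int_x`): `Em d m ≥ m (∫ f - 1/|a| - (13 m/|a|) log (7|a|))`, use `int_low` and `m ≤ |a|^(1/4)`. (`Bad` is measurable: `meas_al`.) -/

set_option autoImplicit false
open MeasureTheory Real Set

namespace Pool.Agent.Helper18.FD

open Pool.Agent.Helper18.UC (T2 rep toT nn)

/-- the profile -/
private noncomputable def ff (a x : ℝ) : ℝ := Real.log (max 1 (2 * π * |a| * |Real.cos (2 * π * x)| - 4))

private theorem ff_meas (a : ℝ) : Measurable (ff a) := by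
  unfold ff
  refine Real.measurable_log.comp (measurable_const.max ?_)
  fun_prop

private theorem ff_nonneg (a x : ℝ) : 0 ≤ ff a x := Real.log_nonneg (le_max_left _ _)

private theorem ff_le {a : ℝ} (ha : 100 ≤ |a|) (x : ℝ) : ff a x ≤ Real.log (7 * |a|) := by
  unfold ff
  refine Real.log_le_log (lt_of_lt_of_le one_pos (le_max_left _ _)) (max_le (by linarith) ?_)
  have h1 : |Real.cos (2 * π * x)| ≤ 1 := Real.abs_cos_le_one _
  have h2 : π < 3.15 := Real.pi_lt_d2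
  have h3 : 0 ≤ 2 * π * |a| := by positivity
  have h4 : 2 * π * |a| * |Real.cos (2 * π * x)| ≤ 2 * π * |a| := mul_le_of_le_one_right h3 h1
  nlinarith [abs_nonneg a]

private theorem al_ge {d : Dat} (hd : d.Ok) (p : Pt) :
    2 * π * |d.a| * |Real.cos (2 * π * (rep p.2).1)| - 3 ≤ |al d p| := by
  obtain ⟨-, -, h⟩ := coef_bd hd p
  have h1 : (1 : ℝ) / |d.a| ≤ 1 := (eta_le hd).trans (by norm_num)
  have h2 : |2 * π * d.a * Real.cos (2 * π * (rep p.2).1)| =
      2 * π * |d.a| * |Real.cos (2 * π * (rep p.2).1)| := by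
    rw [abs_mul, abs_mul, abs_of_pos (by positivity : (0 : ℝ) < 2 * π)]
  rw [← h2]
  have h3 := abs_sub_abs_le_abs_sub (2 + 2 * π * d.a * Real.cos (2 * π * (rep p.2).1)) (al d p)
  rw [abs_sub_comm] at h3
  have h4 := abs_sub_abs_le_abs_sub (2 * π * d.a * Real.cos (2 * π * (rep p.2).1)) (-2)
  have h5 : |(2 : ℝ) * π * d.a * Real.cos (2 * π * (rep p.2).1) - -2| =
      |2 + 2 * π * d.a * Real.cos (2 * π * (rep p.2).1)| := by
    congr 1
    ring
  rw [h5] at h4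
  have h6 : |(-2 : ℝ)| = 2 := by norm_num
  rw [h6] at h4
  linarith

private theorem bad_le {d : Dat} (hd : d.Ok) (m : ℕ) :
    (mu {p | ∃ j < m, |al d ((sk d)^[j] p)| < 10}).toReal ≤ 13 * m / |d.a| := by
  have ha : 1 ≤ |d.a| := by linarith [hd.ha]
  have ha0 : 0 < |d.a| := by linarith
  have h1 : {p | ∃ j < m, |al d ((sk d)^[j] p)| < 10} ⊆
      ⋃ j ∈ Finset.range m, {p | (rep ((sk d)^[j] p).2).1 ∈
        {x : ℝ | 2 * π * |d.a| * |Real.cos (2 * π * x)| ≤ 13}} := by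
    rintro p ⟨j, hj, hp⟩
    refine mem_iUnion₂.2 ⟨j, Finset.mem_range.2 hj, ?_⟩
    have h2 := al_ge hd ((sk d)^[j] p)
    change 2 * π * |d.a| * |Real.cos (2 * π * (rep ((sk d)^[j] p).2).1)| ≤ 13
    linarith
  have hS : MeasurableSet {x : ℝ | 2 * π * |d.a| * |Real.cos (2 * π * x)| ≤ 13} :=
    measurableSet_le (by fun_prop) measurable_const
  have h2 : mu {p | ∃ j < m, |al d ((sk d)^[j] p)| < 10} ≤ ENNReal.ofReal (13 * m / |d.a|) := by
    refine (measure_mono h1).trans ((measure_biUnion_finset_le _ _).trans ?_)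
    have h3 : ∀ j ∈ Finset.range m, mu {p | (rep ((sk d)^[j] p).2).1 ∈
        {x : ℝ | 2 * π * |d.a| * |Real.cos (2 * π * x)| ≤ 13}} ≤ ENNReal.ofReal (13 / |d.a|) := by
      intro j _
      rw [meas_x hd j hS]
      refine (measure_mono ?_).trans (sub_cos ha (T := 13) (by norm_num))
      rintro x ⟨h4, h5⟩
      exact ⟨h5, h4⟩
    refine (Finset.sum_le_sum h3).trans ?_
    rw [Finset.sum_const, Finset.card_range, nsmul_eq_mul, ← ENNReal.ofReal_natCast,
      ← ENNReal.ofReal_mul (Nat.cast_nonneg _)]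
    refine ENNReal.ofReal_le_ofReal (le_of_eq ?_)
    ring
  exact ENNReal.toReal_le_of_le_ofReal (by positivity) h2

private theorem ptw {d : Dat} (hd : d.Ok) (m : ℕ) (p : Pt) :
    (∑ j ∈ Finset.range m, ff d.a (rep ((sk d)^[j] p).2).1) - m / |d.a| -
      {p | ∃ j < m, |al d ((sk d)^[j] p)| < 10}.indicator (fun _ => m * Real.log (7 * |d.a|)) p ≤
      Real.log (nn (Mm d m p)) := by
  have ha0 : 0 < |d.a| := by linarith [hd.ha]
  by_cases hp : p ∈ {p | ∃ j < m, |al d ((sk d)^[j] p)| < 10}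
  · rw [indicator_of_mem hp]
    have h1 : ∑ j ∈ Finset.range m, ff d.a (rep ((sk d)^[j] p).2).1 ≤ m * Real.log (7 * |d.a|) := by
      refine (Finset.sum_le_sum fun j _ => ff_le hd.ha _).trans ?_
      rw [Finset.sum_const, Finset.card_range, nsmul_eq_mul]
    have h2 := (log_nn_bd hd m p).1
    have h3 : 0 ≤ (m : ℝ) / |d.a| := by positivity
    linarith
  · rw [indicator_of_notMem hp, sub_zero]
    have h0 : ∀ j < m, 10 ≤ |al d ((sk d)^[j] p)| := by
      intro j hj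
      by_contra h
      exact hp ⟨j, hj, not_le.1 h⟩
    refine le_trans ?_ (cone hd m p h0)
    refine sub_le_sub_right (Finset.sum_le_sum fun j hj => ?_) _
    unfold ff
    refine Real.log_le_log (lt_of_lt_of_le one_pos (le_max_left _ _)) (max_le ?_ ?_)
    · linarith [h0 j (Finset.mem_range.1 hj)]
    · linarith [al_ge hd ((sk d)^[j] p)]

private theorem meas_xj {d : Dat} (hd : d.Ok) (j : ℕ) : Measurable fun p : Pt => (rep ((sk d)^[j] p).2).1 :=
  (UC.measurable_rep.comp (measurable_snd.comp (sk_iter_mp hd j).measurable)).fst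

private theorem int_ff {d : Dat} (hd : d.Ok) (j : ℕ) :
    Integrable (fun p : Pt => ff d.a (rep ((sk d)^[j] p).2).1) mu := by
  refine Integrable.mono' (integrable_const (Real.log (7 * |d.a|)))
    ((ff_meas d.a).comp (meas_xj hd j)).aestronglyMeasurable (Filter.Eventually.of_forall fun p => ?_)
  rw [Real.norm_eq_abs, abs_of_nonneg (ff_nonneg _ _)]
  exact ff_le hd.ha _

theorem init : ∃ C : ℝ, 0 < C ∧ ∀ d : Dat, d.Ok → ∀ m : ℕ, (m : ℝ) ≤ |d.a| ^ (1 / 4 : ℝ) →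
    m * (Real.log (π * |d.a|) - C * |d.a| ^ (-(1 / 3) : ℝ)) ≤ Em d m := by
  obtain ⟨C1, hC1, hlow⟩ := int_low
  refine ⟨C1 + 1 + 13 * 17, by positivity, fun d hd m hm => ?_⟩
  have ha := hd.ha
  have ha0 : 0 < |d.a| := by linarith
  have ha1 : 1 ≤ |d.a| := by linarith
  -- measurability of the bad set
  have hB : MeasurableSet {p | ∃ j < m, |al d ((sk d)^[j] p)| < 10} := by
    have e : {p | ∃ j < m, |al d ((sk d)^[j] p)| < 10} =
        ⋃ j ∈ Finset.range m, {p | |al d ((sk d)^[j] p)| < 10} := by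
      ext p
      simp
    rw [e]
    refine Finset.measurableSet_biUnion _ fun j _ => ?_
    exact measurableSet_lt (((meas_al hd).comp (sk_iter_mp hd j).measurable).abs) measurable_const
  have hbad := bad_le hd m
  set B : Set Pt := {p | ∃ j < m, |al d ((sk d)^[j] p)| < 10} with hBdef
  -- integrate
  have i1 : Integrable (fun p => ∑ j ∈ Finset.range m, ff d.a (rep ((sk d)^[j] p).2).1) mu :=
    integrable_finsetSum _ fun j _ => int_ff hd j
  have i2 : Integrable (fun p => (∑ j ∈ Finset.range m, ff d.a (rep ((sk d)^[j] p).2).1) - m / |d.a|) mu :=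
    i1.sub (integrable_const _)
  have i3 : Integrable (B.indicator (fun _ => m * Real.log (7 * |d.a|))) mu :=
    (integrable_const _).indicator hB
  have h1 : ∫ p, ((∑ j ∈ Finset.range m, ff d.a (rep ((sk d)^[j] p).2).1) - m / |d.a| -
      B.indicator (fun _ => m * Real.log (7 * |d.a|)) p) ∂mu ≤ Em d m :=
    integral_mono (i2.sub i3) (int_log_nn hd m) fun p => ptw hd m p
  rw [integral_sub i2 i3, integral_sub i1 (integrable_const _), integral_finsetSum _ fun j _ => int_ff hd j,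
    integral_indicator_const _ hB] at h1
  have h2 : ∀ j ∈ Finset.range m, ∫ p, ff d.a (rep ((sk d)^[j] p).2).1 ∂mu =
      ∫ x in (0 : ℝ)..1, ff d.a x := fun j _ => int_x hd j (ff_meas d.a)
  rw [Finset.sum_congr rfl h2, Finset.sum_const, Finset.card_range, nsmul_eq_mul, integral_const,
    measureReal_def, measureReal_def, measure_univ, ENNReal.toReal_one, one_smul, smul_eq_mul] at h1
  have h3 : Real.log (π * |d.a|) - C1 * |d.a| ^ (-(1 / 3) : ℝ) ≤ ∫ x in (0 : ℝ)..1, ff d.a x := hlow d.a ha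
  -- the two errors
  have hx : 0 < |d.a| ^ (-(1 / 3) : ℝ) := Real.rpow_pos_of_pos ha0 _
  have h4 : 1 / |d.a| ≤ |d.a| ^ (-(1 / 3) : ℝ) := by
    rw [one_div, ← Real.rpow_neg_one]
    exact Real.rpow_le_rpow_of_exponent_le ha1 (by norm_num)
  have hlog : Real.log (7 * |d.a|) ≤ 17 * |d.a| ^ (5 / 12 : ℝ) := by
    have h5 := Real.log_le_rpow_div (x := 7 * |d.a|) (ε := 5 / 12) (by positivity) (by norm_num)
    rw [Real.mul_rpow (by norm_num) ha0.le] at h5
    have h6 : (7 : ℝ) ^ (5 / 12 : ℝ) ≤ 7 := by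
      calc (7 : ℝ) ^ (5 / 12 : ℝ) ≤ 7 ^ (1 : ℝ) :=
            Real.rpow_le_rpow_of_exponent_le (by norm_num) (by norm_num)
        _ = 7 := Real.rpow_one _
    have h7 : 0 ≤ |d.a| ^ (5 / 12 : ℝ) := Real.rpow_nonneg ha0.le _
    have h8 : (7 : ℝ) ^ (5 / 12 : ℝ) * |d.a| ^ (5 / 12 : ℝ) ≤ 7 * |d.a| ^ (5 / 12 : ℝ) :=
      mul_le_mul_of_nonneg_right h6 h7
    have h9 : (7 : ℝ) ^ (5 / 12 : ℝ) * |d.a| ^ (5 / 12 : ℝ) / (5 / 12) ≤ 7 * |d.a| ^ (5 / 12 : ℝ) / (5 / 12) :=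
      div_le_div_of_nonneg_right h8 (by norm_num)
    linarith
  have hlog0 : 0 ≤ Real.log (7 * |d.a|) := Real.log_nonneg (by linarith)
  have h5 : 13 * m / |d.a| * Real.log (7 * |d.a|) ≤ 13 * 17 * |d.a| ^ (-(1 / 3) : ℝ) := by
    have e1 : |d.a| ^ (-(1 / 3) : ℝ) = |d.a| ^ (1 / 4 : ℝ) / |d.a| * |d.a| ^ (5 / 12 : ℝ) := by
      have e2 : |d.a| ^ (1 / 4 : ℝ) / |d.a| = |d.a| ^ ((1 / 4 : ℝ) - 1) := by
        rw [Real.rpow_sub_one ha0.ne']
      rw [e2, ← Real.rpow_add ha0]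
      norm_num
    rw [e1]
    have h6 : 13 * (m : ℝ) / |d.a| ≤ 13 * (|d.a| ^ (1 / 4 : ℝ) / |d.a|) := by
      rw [mul_div_assoc]
      exact mul_le_mul_of_nonneg_left (div_le_div_of_nonneg_right hm ha0.le) (by norm_num)
    calc 13 * m / |d.a| * Real.log (7 * |d.a|) ≤
        13 * (|d.a| ^ (1 / 4 : ℝ) / |d.a|) * (17 * |d.a| ^ (5 / 12 : ℝ)) :=
          mul_le_mul h6 hlog hlog0 (by positivity)
      _ = _ := by ring
  have h6 : (mu B).toReal * (m * Real.log (7 * |d.a|)) ≤ m * (13 * 17 * |d.a| ^ (-(1 / 3) : ℝ)) := by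
    calc (mu B).toReal * (m * Real.log (7 * |d.a|)) ≤ 13 * m / |d.a| * (m * Real.log (7 * |d.a|)) :=
          mul_le_mul_of_nonneg_right hbad (by positivity)
      _ = m * (13 * m / |d.a| * Real.log (7 * |d.a|)) := by ring
      _ ≤ _ := mul_le_mul_of_nonneg_left h5 (Nat.cast_nonneg m)
  have h7 : (m : ℝ) / |d.a| ≤ m * |d.a| ^ (-(1 / 3) : ℝ) := by
    rw [div_eq_mul_one_div]
    exact mul_le_mul_of_nonneg_left h4 (Nat.cast_nonneg m)
  have h8 : (m : ℝ) * (Real.log (π * |d.a|) - C1 * |d.a| ^ (-(1 / 3) : ℝ)) ≤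
      m * ∫ x in (0 : ℝ)..1, ff d.a x := mul_le_mul_of_nonneg_left h3 (Nat.cast_nonneg m)
  nlinarith

end Pool.Agent.Helper18.FD
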