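import Pool.Agent.Helper18.FD.King
import Pool.Agent.Helper11.FE.Fin

/-! Block FD-COMP (helper11, from project FE, `Pool/Agent/Helper11/FE/Fin.lean`): a large weakly mixing component. -/

set_option autoImplicit false
open MeasureTheory Real Set Filter Topology

namespace Pool.Agent.Helper18.FD

open Pool.Agent.Helper18.UC (T2 rep toT nn)

/-- the conclusion: a weakly mixing component of measure at least `1 - δ` with exponent at least `(1 - δ) log |a|` -/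
def Big (a δ : ℝ) (F : ℝ × ℝ → ℝ × ℝ) (T : T2 → T2) : Prop :=
  ∃ (Ω : Set T2) (L : ℝ), MeasurableSet Ω ∧ T ⁻¹' Ω =ᵐ[volume] Ω ∧ 1 - δ ≤ volume.real Ω ∧
    (∀ (ξ : ℂ) (h : T2 → ℂ), Measurable h → (∀ᵐ z, z ∈ Ω → h (T z) = ξ * h z) →
      ∃ w : ℂ, ∀ᵐ z, z ∈ Ω → h z = w) ∧
    (1 - δ) * Real.log |a| ≤ L ∧
    ∀ᵐ q : ℝ × ℝ, toT q ∈ Ω →
      Tendsto (fun n : ℕ => Real.log ‖fderiv ℝ (F^[n]) q‖ / n) atTop (𝓝 L)

/-- Hoelder bound for the second derivatives -/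
def Hoel (a s : ℝ) (φ : Gen) : Prop := ∀ q q' : ℝ × ℝ,
  |φ.f11 q.1 q.2 - φ.f11 q'.1 q'.2| ≤ dist q q' ^ s / |a| ∧
  |φ.f12 q.1 q.2 - φ.f12 q'.1 q'.2| ≤ dist q q' ^ s / |a| ∧
  |φ.f22 q.1 q.2 - φ.f22 q'.1 q'.2| ≤ dist q q' ^ s / |a|

private theorem ae_plane11 {P : T2 → Prop} (h : ∀ᵐ z, P z) : ∀ᵐ q : ℝ × ℝ, P (toT q) := by
  obtain ⟨N, hN1, hN2, hN3⟩ := exists_measurable_superset_of_null (ae_iff.mp h)
  have h0 : volume (toT ⁻¹' N ∩ (Ico (0:ℝ) 1 ×ˢ Ico (0:ℝ) 1)) = 0 := by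
    rw [← UC.vol_rep (UC.measurable_toT hN2)]
    have : rep ⁻¹' (toT ⁻¹' N) = N := by
      ext z
      simp [UC.toT_rep]
    rw [this, hN3]
  have h1 : ∀ k : ℤ × ℤ, volume ((fun q : ℝ × ℝ => q + ((k.1 : ℝ), (k.2 : ℝ))) ⁻¹'
      (toT ⁻¹' N ∩ (Ico (0:ℝ) 1 ×ˢ Ico (0:ℝ) 1))) = 0 := by
    intro k
    rw [measure_preimage_add_right, h0]
  rw [ae_iff]
  refine measure_mono_null ?_ (measure_iUnion_null h1)
  intro q hq
  obtain ⟨u, w, h2⟩ := UC.rep_toT q
  refine mem_iUnion.mpr ⟨(u, w), ?_⟩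
  have h3 : q + ((u : ℝ), (w : ℝ)) = rep (toT q) := by
    rw [h2]
    rfl
  rw [mem_preimage, h3]
  refine ⟨?_, UC.rep_mem _⟩
  change toT (rep (toT q)) ∈ N
  rw [UC.toT_rep]
  exact hN1 hq

private theorem it11 {d : Dat} (hd : d.Ok) (ω : Om) (n : ℕ) (q : ℝ × ℝ) :
    (Tw d ω)^[n] (toT q) = toT ((Fl d.a (d.ph ω))^[n] q) := by
  induction n with
  | zero => rfl
  | succ n ih => rw [Function.iterate_succ_apply', ih, Function.iterate_succ_apply', toT_Fl hd]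

private theorem Dm11 {d : Dat} (hd : d.Ok) (ω : Om) (q : ℝ × ℝ) :
    Dm d (ω, toT q) = DF d.a (d.ph ω) q := by
  obtain ⟨u, w, h⟩ := UC.rep_toT q
  have hη : (1 : ℝ) / |d.a| ≤ 1 / 2 := (eta_le hd).trans (by norm_num)
  obtain ⟨h1, h2, h3⟩ := coef_sh (a := d.a) hη (hd.ok ω) q u w
  have h0 : rep (toT q) = (q.1 + u, q.2 + w) := h
  unfold Dm DF al be ve
  simp only [h0, h1, h2, h3]

private theorem MF11 {d : Dat} (hd : d.Ok) (ω : Om) (n : ℕ) (q : ℝ × ℝ) :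
    MF d.a (d.ph ω) n q = Mm d n (ω, toT q) := by
  induction n with
  | zero => rw [Mm_zero]; rfl
  | succ n ih =>
    rw [Mm_succ, ← ih, sk_iter, it11 hd, Dm11 hd]
    rfl

private theorem thr11 {s δ : ℝ} (hs : 0 < s) (hδ : 0 < δ) : ∃ A : ℝ, ∀ a : ℝ, A ≤ |a| → 100 ≤ |a| →
    3 / δ ≤ s / (1 + s) * Real.log |a| - 17 := by
  refine ⟨Real.exp ((3 / δ + 17) * ((1 + s) / s)), fun a ha h100 => ?_⟩
  have h1 : (3 / δ + 17) * ((1 + s) / s) ≤ Real.log |a| := by
    rw [Real.le_log_iff_exp_le (by linarith)]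
    exact ha
  have h2 : 0 < s / (1 + s) := by positivity
  have h3 := mul_le_mul_of_nonneg_left h1 h2.le
  have h4 : s / (1 + s) * ((3 / δ + 17) * ((1 + s) / s)) = 3 / δ + 17 := by
    field_simp
  linarith

theorem comp {s : ℝ} (hs : 0 < s) (hs1 : s < 1) (δ : ℝ) (hδ : 0 < δ) : ∃ A : ℝ, ∀ d : Dat, d.Ok →
    A ≤ |d.a| → ∀ ω : Om, Hoel d.a s (d.ph ω) → Real.log |d.a| ≤ Lw d ω →
      Big d.a δ (Fl d.a (d.ph ω)) (Tw d ω) := by
  obtain ⟨A1, hA1, h1⟩ := Pool.Agent.Helper11.FE.fd_component hs hs1.le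
  have hε : 0 < min δ (1 / 2) := lt_min hδ (by norm_num)
  obtain ⟨A2, h2⟩ := thr11 hs hε
  obtain ⟨ε, hεdef⟩ : ∃ ε, ε = min δ (1 / 2) := ⟨_, rfl⟩
  rw [← hεdef] at hε h2
  have hεδ : ε ≤ δ := by rw [hεdef]; exact min_le_left _ _
  have hε2 : ε ≤ 1 / 2 := by rw [hεdef]; exact min_le_right _ _
  refine ⟨max A1 A2, fun d hd hA ω hH hL => ?_⟩
  have ha1 : A1 ≤ |d.a| := (le_max_left _ _).trans hA
  have ha2 : A2 ≤ |d.a| := (le_max_right _ _).trans hA
  have ha := hd.ha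
  have ha0 : 0 < |d.a| := by linarith
  have hlog0 : 0 ≤ Real.log |d.a| := Real.log_nonneg (by linarith)
  have hp : (0:ℝ) < 1 + s := by linarith
  have hX := h2 d.a ha2 ha
  have hHoe : Pool.Agent.Helper11.FE.Hoe d.a (d.ph ω) s := by
    refine ⟨fun q q' => ?_, fun q q' => ?_, fun q q' => ?_⟩
    · rw [one_div_mul_eq_div]; exact (hH q q').1
    · rw [one_div_mul_eq_div]; exact (hH q q').2.1
    · rw [one_div_mul_eq_div]; exact (hH q q').2.2
  obtain ⟨lam, hlm, hbd, hinv, hlim, hmean, hmix, ⟨L0, hL0⟩, hvol⟩ :=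
    h1 d.a ha1 (d.ph ω) (hd.ok ω) hHoe (Tw d ω) (fun q => (toT_Fl hd ω q).symm)
  -- the integral of the exponent
  have hint : ∫ z : T2, lam z = Lw d ω := by
    refine tendsto_nhds_unique hmean ((Lw_tendsto hd ω).congr fun n => ?_)
    unfold un
    congr 1
    refine integral_congr_ae (Eventually.of_forall fun z => ?_)
    show Real.log (nn (Mm d n (ω, z))) = Real.log (nn (MF d.a (d.ph ω) n (rep z)))
    rw [MF11 hd, UC.toT_rep]
  obtain ⟨c, hc⟩ : ∃ c, c = 1 / (1 + s) * Real.log |d.a| + 17 := ⟨_, rfl⟩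
  rw [← hc] at hvol
  simp only [← hc] at hmix hL0
  have h3ε : 0 < 3 / ε := by positivity
  have hcl : c ≤ Real.log |d.a| := by
    have e1 : s / (1 + s) * Real.log |d.a| = Real.log |d.a| - 1 / (1 + s) * Real.log |d.a| := by
      field_simp
      ring
    rw [hc]
    linarith
  have hc0 : 0 ≤ c := by rw [hc]; positivity
  have hmeas : MeasurableSet {z : T2 | c < lam z} := measurableSet_lt measurable_const hlm
  obtain ⟨m, hm⟩ : ∃ m, m = volume.real {z : T2 | lam z ≤ c} := ⟨_, rfl⟩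
  rw [← hm] at hvol
  have hm0 : 0 ≤ m := by rw [hm]; exact measureReal_nonneg
  have hmε : m ≤ ε := by
    have h5 : 3 / ε * m ≤ 3 := by
      have h6 := mul_le_mul_of_nonneg_right hX hm0
      rw [hint] at hvol
      linarith
    have h6 : 3 / ε * m = 3 * (m / ε) := by ring
    have h7 : m / ε ≤ 1 := by linarith
    rwa [div_le_one hε] at h7
  have hΩ : volume.real {z : T2 | c < lam z} = 1 - m := by
    have h5 : {z : T2 | lam z ≤ c} = {z : T2 | c < lam z}ᶜ := by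
      ext z
      simp
    rw [hm, h5, probReal_compl_eq_one_sub hmeas]
    ring
  -- the value of the exponent
  have hI : Integrable lam := Integrable.of_bound hlm.aestronglyMeasurable (Real.log |d.a| + 3)
    (Eventually.of_forall fun z => by
      rw [Real.norm_eq_abs, abs_of_nonneg (hbd z).1]
      exact (hbd z).2)
  have hup : Lw d ω ≤ L0 * (1 - m) + c * m := by
    have h5 : ∫ z : T2, lam z =
        (∫ z in {z : T2 | c < lam z}, lam z) + (∫ z in {z : T2 | c < lam z}ᶜ, lam z) :=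
      (integral_add_compl hmeas hI).symm
    have h6 : ∫ z in {z : T2 | c < lam z}, lam z = L0 * (1 - m) := by
      rw [setIntegral_congr_ae hmeas (g := fun _ => L0) hL0, setIntegral_const, hΩ, smul_eq_mul]
      ring
    have h7 : ∫ z in {z : T2 | c < lam z}ᶜ, lam z ≤ c * m := by
      have h8 : ∫ z in {z : T2 | c < lam z}ᶜ, lam z ≤ ∫ z in {z : T2 | c < lam z}ᶜ, c := by
        refine setIntegral_mono_on hI.integrableOn ?_ hmeas.compl fun z hz => ?_
        · exact (integrable_const c).integrableOn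
        · exact not_lt.1 hz
      refine h8.trans (le_of_eq ?_)
      rw [setIntegral_const, smul_eq_mul, probReal_compl_eq_one_sub hmeas, hΩ]
      ring
    rw [← hint, h5, h6]
    linarith
  have hLL : Real.log |d.a| ≤ L0 := by
    have h5 : c * m ≤ Real.log |d.a| * m := mul_le_mul_of_nonneg_right hcl hm0
    have h6 : Real.log |d.a| * (1 - m) ≤ L0 * (1 - m) := by linarith
    exact le_of_mul_le_mul_right h6 (by linarith)
  refine ⟨{z : T2 | c < lam z}, L0, hmeas, ?_, ?_, ?_, ?_, ?_⟩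
  · filter_upwards [hinv] with z hz
    show (c < lam (Tw d ω z)) = (c < lam z)
    rw [hz]
  · rw [hΩ]
    linarith
  · intro ξ h hh hE
    exact hmix ξ h hh hE
  · have h5 : (1 - δ) * Real.log |d.a| ≤ 1 * Real.log |d.a| :=
      mul_le_mul_of_nonneg_right (by linarith) hlog0
    linarith
  · have h5 := ae_plane11 hL0
    filter_upwards [hlim, h5] with q hq1 hq2 hq3
    rw [hq2 hq3] at hq1
    exact hq1

end Pool.Agent.Helper18.FD
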