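import Pool.Agent.Helper18.FD.Bas
import Pool.Agent.Helper18.FD.Cosi
import Pool.Agent.Helper18.FD.Unif

/-! Block FD-UP: the upper bound, for every noise.

With `c = 2π|a||cos 2πx|`, `x = (rep z).1`: `coef_bd` gives `|al| ≤ c + 3`, `|be - 1|, |v| ≤ 1/|a|`, so `nn (Dm) = (|al| + 1 + |v|)/be + |be - v al/be| ≤ ((c + 3)(1 + 1/|a|) + 1.01)(1 + 2/|a|) + 1.01 ≤ (c + 8)(1 + 4/|a|)`, so
`log nn ≤ log (c + 8) + 4/|a|`; `int_T`, `int_up`. (The left side is integrable or its integral is zero; it is nonnegative and bounded: `log_nn_bd` with `n = 1`, measurable in `z` for fixed `ω`; use `integral_mono_of_nonneg`.) -/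

set_option autoImplicit false
open MeasureTheory Real Set

namespace Pool.Agent.Helper18.FD

open Pool.Agent.Helper18.UC (T2 rep toT nn)

private lemma up_nn {al be v c η : ℝ} (hη : 0 ≤ η) (hη1 : η ≤ 1 / 100) (hc : 0 ≤ c) (hb : |be - 1| ≤ η)
    (hv : |v| ≤ η) (hal : |al| ≤ c + 3) : nn (mat al be v) ≤ (c + 8) * (1 + 4 * η) := by
  have hb' := abs_le.1 hb
  have hb0 : 0 < be := by linarith [hb'.1]
  have h1 : 1 / be ≤ 1 + 2 * η := by
    rw [div_le_iff₀ hb0]
    nlinarith [hb'.1]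
  have h10 : 0 ≤ 1 / be := by positivity
  have e00 : |al / be| ≤ (c + 3) * (1 + 2 * η) := by
    rw [abs_div, abs_of_pos hb0, div_eq_mul_one_div]
    exact mul_le_mul hal h1 h10 (by linarith)
  have e01 : |-1 / be| ≤ 1 + 2 * η := by
    rw [abs_div, abs_of_pos hb0, abs_neg, abs_one]
    exact h1
  have e10 : |be - v * (al / be)| ≤ (1 + η) + η * ((c + 3) * (1 + 2 * η)) := by
    refine (abs_sub _ _).trans (add_le_add ?_ ?_)
    · rw [abs_of_pos hb0]
      linarith [hb'.2]
    · rw [abs_mul]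
      exact mul_le_mul hv e00 (abs_nonneg _) hη
  have e11 : |v / be| ≤ η * (1 + 2 * η) := by
    rw [abs_div, abs_of_pos hb0, div_eq_mul_one_div]
    exact mul_le_mul hv h1 h10 hη
  have e : nn (mat al be v) = |al / be| + |-1 / be| + |be - v * (al / be)| + |v / be| := by
    unfold nn mat
    simp
  rw [e]
  have h2 : (c + 3) * (1 + 2 * η) + (1 + 2 * η) + ((1 + η) + η * ((c + 3) * (1 + 2 * η))) + η * (1 + 2 * η) =
      (c + 4) * ((1 + 2 * η) * (1 + η)) + (1 + η) := by ring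
  have h3 : (1 + 2 * η) * (1 + η) ≤ 1 + 4 * η := by nlinarith
  have h4 : (c + 4) * ((1 + 2 * η) * (1 + η)) ≤ (c + 4) * (1 + 4 * η) :=
    mul_le_mul_of_nonneg_left h3 (by linarith)
  nlinarith

/-- the upper bound of `log nn (Dm)` -/
noncomputable def Gup (a x : ℝ) : ℝ :=
  Real.log (2 * π * |a| * |Real.cos (2 * π * x)| + 8) + 4 * (1 / |a|)

theorem meas_Gup (a : ℝ) : Measurable (Gup a) := by
  have h : Measurable fun x : ℝ => Real.log (2 * π * |a| * |Real.cos (2 * π * x)| + 8) := by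
    refine Real.measurable_log.comp ?_
    exact (Continuous.measurable (by fun_prop))
  exact h.add_const _

theorem Gup_nonneg (a x : ℝ) : 0 ≤ Gup a x := by
  have h1 : 0 ≤ 2 * π * |a| * |Real.cos (2 * π * x)| := by positivity
  have h2 : 0 ≤ Real.log (2 * π * |a| * |Real.cos (2 * π * x)| + 8) := Real.log_nonneg (by linarith)
  have h3 : 0 ≤ 4 * (1 / |a|) := by positivity
  exact add_nonneg h2 h3

theorem Gup_integrable (a : ℝ) : Integrable (fun z : T2 => Gup a (rep z).1) volume := by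
  have hrm : Measurable fun z : T2 => (rep z).1 := measurable_fst.comp UC.measurable_rep
  refine Integrable.of_bound (C := Real.log (2 * π * |a| + 8) + 4 * (1 / |a|))
    ((meas_Gup a).comp hrm).aestronglyMeasurable (Filter.Eventually.of_forall fun z => ?_)
  rw [Real.norm_eq_abs, abs_of_nonneg (Gup_nonneg _ _)]
  have h1 : 0 ≤ 2 * π * |a| * |Real.cos (2 * π * (rep z).1)| := by positivity
  have h2 : 2 * π * |a| * |Real.cos (2 * π * (rep z).1)| ≤ 2 * π * |a| :=
    mul_le_of_le_one_right (by positivity) (Real.abs_cos_le_one _)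
  have h3 := Real.log_le_log (show 0 < 2 * π * |a| * |Real.cos (2 * π * (rep z).1)| + 8 by linarith)
    (show 2 * π * |a| * |Real.cos (2 * π * (rep z).1)| + 8 ≤ 2 * π * |a| + 8 by linarith)
  unfold Gup
  linarith

theorem up_pt {d : Dat} (hd : d.Ok) (ω : Om) (z : T2) :
    0 ≤ Real.log (nn (Dm d (ω, z))) ∧ Real.log (nn (Dm d (ω, z))) ≤ Gup d.a (rep z).1 := by
  have ha := hd.ha
  have ha0 : 0 < |d.a| := by linarith
  have hη : 1 / |d.a| ≤ 1 / 100 := one_div_le_one_div_of_le (by norm_num) ha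
  have hη0 : 0 ≤ 1 / |d.a| := by positivity
  have h8 : (Dm d (ω, z)).det = 1 := by
    unfold Dm
    exact det_mat (by linarith [(be_bd hd (ω, z)).1])
  have h9 := nn_ge_two h8
  refine ⟨Real.log_nonneg (by linarith), ?_⟩
  obtain ⟨h1, h2, h3⟩ := coef_bd hd (ω, z)
  set c : ℝ := 2 * π * |d.a| * |Real.cos (2 * π * (rep z).1)| with hc
  have hc0 : 0 ≤ c := by positivity
  have hal : |al d (ω, z)| ≤ c + 3 := by
    have h4 : |2 + 2 * π * d.a * Real.cos (2 * π * (rep z).1)| ≤ 2 + c := by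
      refine (abs_add_le _ _).trans ?_
      rw [abs_mul, abs_mul, abs_mul, abs_two, abs_of_pos Real.pi_pos, hc]
    have h5 : al d (ω, z) = (al d (ω, z) - (2 + 2 * π * d.a * Real.cos (2 * π * (rep z).1))) +
        (2 + 2 * π * d.a * Real.cos (2 * π * (rep z).1)) := by ring
    rw [h5]
    refine (abs_add_le _ _).trans ?_
    have h3' : |al d (ω, z) - (2 + 2 * π * d.a * Real.cos (2 * π * (rep z).1))| ≤ 1 / |d.a| := h3
    linarith
  have h6 := up_nn hη0 hη hc0 h1 h2 hal
  have h7 : 0 < nn (Dm d (ω, z)) := by linarith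
  calc Real.log (nn (Dm d (ω, z))) ≤ Real.log ((c + 8) * (1 + 4 * (1 / |d.a|))) :=
        Real.log_le_log h7 h6
    _ = Real.log (c + 8) + Real.log (1 + 4 * (1 / |d.a|)) :=
        Real.log_mul (by positivity) (by positivity)
    _ ≤ Real.log (c + 8) + 4 * (1 / |d.a|) := by
        have := Real.log_le_sub_one_of_pos (show 0 < 1 + 4 * (1 / |d.a|) by positivity)
        linarith

theorem Gup_mean : ∃ C : ℝ, 0 < C ∧ ∀ a : ℝ, 100 ≤ |a| →
    ∫ z : T2, Gup a (rep z).1 ≤ Real.log (π * |a|) + C * |a| ^ (-(1 / 3) : ℝ) := by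
  obtain ⟨C, hC, hint⟩ := int_up
  refine ⟨C + 4, by linarith, fun a ha => ?_⟩
  have ha0 : 0 < |a| := by linarith
  have h3 := hint a ha
  have h2 : ∫ z : T2, Gup a (rep z).1 = (∫ x in (0:ℝ)..1,
      Real.log (2 * π * |a| * |Real.cos (2 * π * x)| + 8)) + 4 * (1 / |a|) := by
    rw [int_T (meas_Gup a)]
    unfold Gup
    rw [intervalIntegral.integral_add, intervalIntegral.integral_const]
    · simp
    · refine Continuous.intervalIntegrable ?_ _ _
      refine Continuous.log (by fun_prop) fun x => ?_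
      have h1 : 0 ≤ 2 * π * |a| * |Real.cos (2 * π * x)| := by positivity
      linarith
    · exact intervalIntegrable_const
  have h4 : 1 / |a| ≤ |a| ^ (-(1 / 3) : ℝ) := by
    rw [one_div, ← Real.rpow_neg_one]
    exact Real.rpow_le_rpow_of_exponent_le (by linarith) (by norm_num)
  have h5 : (C + 4) * |a| ^ (-(1 / 3) : ℝ) = C * |a| ^ (-(1 / 3) : ℝ) + 4 * |a| ^ (-(1 / 3) : ℝ) := by ring
  rw [h2, h5]
  linarith

theorem up : ∃ C : ℝ, 0 < C ∧ ∀ d : Dat, d.Ok → ∀ ω : Om,
    ∫ z : T2, Real.log (nn (Dm d (ω, z))) ≤ Real.log (π * |d.a|) + C * |d.a| ^ (-(1 / 3) : ℝ) := by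
  obtain ⟨C, hC, hint⟩ := Gup_mean
  refine ⟨C, hC, fun d hd ω => ?_⟩
  exact (integral_mono_of_nonneg (Filter.Eventually.of_forall fun z => (up_pt hd ω z).1)
    (Gup_integrable d.a) (Filter.Eventually.of_forall fun z => (up_pt hd ω z).2)).trans (hint d.a hd.ha)

end Pool.Agent.Helper18.FD
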