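import Pool.Agent.Helper18.FD.King
import Pool.Agent.Helper18.FD.Up
import Pool.Agent.Helper18.FD.Comp

/-! Block FD-COMP2 (helper95): the component has a complement of polynomially small measure, and its exponent is close to `log (π |a|)`.

`B = {lam ≤ log |a| / (1 + s) + 17}` is invariant, `m = m(B)`. Subadditivity on the invariant set `Ω = Bᶜ`: `∫_Ω lam ≤ ∫_Ω log nn(Dm) ≤ ∫_Ω G = ∫ G - ∫_B G`, `G = Gup a`, `∫ G ≤ log (π|a|) + C|a|^(-1/3)`, and `G ≥ (1 - θ) log |a|` outside a set of measure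
`|a|^(-θ)`, so `∫_B G ≥ (1 - θ) log |a| (m - |a|^(-θ))`. With `θ = s/(2(1+s))`: `(θ log |a| - 17) m ≤ log (π|a|) - Lw + C|a|^(-1/3) + log |a| |a|^(-θ)`. Then `L (1 - m) = Lw - ∫_B lam`. -/

set_option autoImplicit false
open MeasureTheory Real Set Filter Topology

namespace Pool.Agent.Helper18.FD

open Pool.Agent.Helper18.UC (T2 rep toT nn)

/-- the conclusion: a weakly mixing component of measure at least `1 - |a|^(-c)` with exponent `log (π |a|) + O(|a|^(-c))` -/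
def Big2 (c a : ℝ) (F : ℝ × ℝ → ℝ × ℝ) (T : T2 → T2) : Prop :=
  ∃ (Ω : Set T2) (L : ℝ), MeasurableSet Ω ∧ T ⁻¹' Ω =ᵐ[volume] Ω ∧ 1 - |a| ^ (-c) ≤ volume.real Ω ∧
    (∀ (ξ : ℂ) (h : T2 → ℂ), Measurable h → (∀ᵐ z, z ∈ Ω → h (T z) = ξ * h z) →
      ∃ w : ℂ, ∀ᵐ z, z ∈ Ω → h z = w) ∧
    |L - Real.log (π * |a|)| ≤ |a| ^ (-c) ∧
    ∀ᵐ q : ℝ × ℝ, toT q ∈ Ω →
      Tendsto (fun n : ℕ => Real.log ‖fderiv ℝ (F^[n]) q‖ / n) atTop (𝓝 L)

variable {d : Dat}

theorem ae_plane {P : T2 → Prop} (h : ∀ᵐ z, P z) : ∀ᵐ q : ℝ × ℝ, P (toT q) := by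
  obtain ⟨N, hN1, hN2, hN3⟩ := exists_measurable_superset_of_null (ae_iff.mp h)
  have h0 : volume (toT ⁻¹' N ∩ (Ico (0:ℝ) 1 ×ˢ Ico (0:ℝ) 1)) = 0 := by
    rw [← UC.vol_rep (UC.measurable_toT hN2)]
    have : rep ⁻¹' (toT ⁻¹' N) = N := by
      ext z
      simp [UC.toT_rep]
    rw [this, hN3]
  have h1 : ∀ k : ℤ × ℤ, volume ((fun q : ℝ × ℝ => q + ((k.1 : ℝ), (k.2 : ℝ))) ⁻¹'
      (toT ⁻¹' N ∩ (Ico (0:ℝ) 1 ×ˢ Ico (0:ℝ) 1))) = 0 := by
    intro k
    rw [measure_preimage_add_right, h0]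
  rw [ae_iff]
  refine measure_mono_null ?_ (measure_iUnion_null h1)
  intro q hq
  obtain ⟨u, w, h2⟩ := UC.rep_toT q
  refine mem_iUnion.mpr ⟨(u, w), ?_⟩
  have h3 : q + ((u : ℝ), (w : ℝ)) = rep (toT q) := by
    rw [h2]
    rfl
  rw [mem_preimage, h3]
  refine ⟨?_, UC.rep_mem _⟩
  change toT (rep (toT q)) ∈ N
  rw [UC.toT_rep]
  exact hN1 hq

/-- from the plane to the torus -/
theorem ae_torus {P : T2 → Prop} (hP : MeasurableSet {z | P z}) (h : ∀ᵐ q : ℝ × ℝ, P (toT q)) :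
    ∀ᵐ z, P z := by
  rw [ae_iff] at h ⊢
  have hm : MeasurableSet {z | ¬ P z} := hP.compl
  have e : {z : T2 | ¬ P z} = rep ⁻¹' (toT ⁻¹' {z | ¬ P z}) := by
    ext z
    simp [UC.toT_rep]
  rw [e, UC.vol_rep (UC.measurable_toT hm)]
  exact measure_mono_null inter_subset_left h

private theorem ms95 (hd : d.Ok) (ω : Om) (n : ℕ) :
    Measurable fun z : T2 => Real.log (nn (Mm d n (ω, z))) :=
  ((meas_nn hd n).comp measurable_prodMk_left).log

private theorem in95 (hd : d.Ok) (ω : Om) (n : ℕ) :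
    Integrable (fun z : T2 => Real.log (nn (Mm d n (ω, z)))) volume :=
  Integrable.of_bound (ms95 hd ω n).aestronglyMeasurable
    (Real.log 2 + n * Real.log (7 * |d.a|)) (Eventually.of_forall fun z => by
      obtain ⟨h1, h2⟩ := log_nn_bd hd n (ω, z)
      rw [Real.norm_eq_abs, abs_of_nonneg h1]
      exact h2)

private theorem Dm95 (d : Dat) (p : Pt) : Dm d p = Mm d 1 p := by
  have h := Mm_succ d 0 p
  rw [zero_add, Mm_zero, Matrix.mul_one] at h
  exact h.symm

private theorem set_iter95 (hd : d.Ok) (ω : Om) {Ω : Set T2} (hm : MeasurableSet Ω)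
    (hΩ : (Tw d ω) ⁻¹' Ω =ᵐ[volume] Ω) {F : T2 → ℝ} (hF : Measurable F) (n : ℕ) :
    ∫ z in Ω, F ((Tw d ω)^[n] z) = ∫ z in Ω, F z := by
  have hT := (Tw_mp hd ω).iterate n
  have h1 : ((Tw d ω)^[n]) ⁻¹' Ω =ᵐ[volume] Ω :=
    (Tw_mp hd ω).quasiMeasurePreserving.preimage_iterate_ae_eq n hΩ
  have h2 := setIntegral_map (μ := volume) (g := (Tw d ω)^[n]) (f := F) (s := Ω) hm
    hF.aestronglyMeasurable hT.measurable.aemeasurable
  rw [hT.map_eq] at h2
  rw [h2]
  exact (setIntegral_congr_set h1).symm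

/-- subadditivity on an invariant set -/
theorem sub_inv (hd : d.Ok) (ω : Om) {Ω : Set T2} (hm : MeasurableSet Ω)
    (hΩ : (Tw d ω) ⁻¹' Ω =ᵐ[volume] Ω) (n : ℕ) :
    ∫ z in Ω, Real.log (nn (Mm d n (ω, z))) ≤ Real.log 2 + n * ∫ z in Ω, Real.log (nn (Dm d (ω, z))) := by
  have hDe : ∀ z : T2, Real.log (nn (Dm d (ω, z))) = Real.log (nn (Mm d 1 (ω, z))) := fun z => by
    rw [Dm95]
  have hDm : Measurable fun z : T2 => Real.log (nn (Dm d (ω, z))) := by
    simp only [hDe]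
    exact ms95 hd ω 1
  have hDi : Integrable (fun z : T2 => Real.log (nn (Dm d (ω, z)))) volume := by
    simp only [hDe]
    exact in95 hd ω 1
  induction n with
  | zero =>
    have h1 : ∫ z in Ω, Real.log (nn (Mm d 0 (ω, z))) ≤ ∫ z in Ω, Real.log 2 := by
      refine integral_mono_of_nonneg (Eventually.of_forall fun z => (log_nn_bd hd 0 (ω, z)).1)
        (integrable_const _) (Eventually.of_forall fun z => ?_)
      have h2 := (log_nn_bd hd 0 (ω, z)).2
      rw [Nat.cast_zero, zero_mul, add_zero] at h2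
      exact h2
    rw [Nat.cast_zero, zero_mul, add_zero]
    refine h1.trans ?_
    rw [setIntegral_const, smul_eq_mul]
    have h2 : volume.real Ω ≤ 1 := measureReal_le_one
    have h3 : 0 ≤ Real.log 2 := Real.log_nonneg (by norm_num)
    nlinarith
  | succ n ih =>
    have hT := (Tw_mp hd ω).iterate n
    have h1 : Integrable (fun z : T2 => Real.log (nn (Dm d (ω, (Tw d ω)^[n] z)))) volume := by
      have h := hT.integrable_comp hDi.aestronglyMeasurable
      exact h.2 hDi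
    have h2 : ∫ z in Ω, Real.log (nn (Mm d (n + 1) (ω, z))) ≤
        ∫ z in Ω, (Real.log (nn (Dm d (ω, (Tw d ω)^[n] z))) + Real.log (nn (Mm d n (ω, z)))) := by
      refine integral_mono (in95 hd ω (n + 1)).integrableOn
        (h1.integrableOn.add (in95 hd ω n).integrableOn) fun z => ?_
      have e1 : Mm d (n + 1) (ω, z) = Dm d (ω, (Tw d ω)^[n] z) * Mm d n (ω, z) := by
        rw [Mm_succ, sk_iter]
      have p1 : 0 < nn (Dm d (ω, (Tw d ω)^[n] z)) := by
        have := nn_ge_two (det_Mm hd 1 (ω, (Tw d ω)^[n] z))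
        rw [← Dm95] at this
        linarith
      have p2 : 0 < nn (Mm d n (ω, z)) := by
        have := nn_ge_two (det_Mm hd n (ω, z))
        linarith
      have p3 : 0 < nn (Mm d (n + 1) (ω, z)) := by
        have := nn_ge_two (det_Mm hd (n + 1) (ω, z))
        linarith
      change Real.log (nn (Mm d (n + 1) (ω, z))) ≤
        Real.log (nn (Dm d (ω, (Tw d ω)^[n] z))) + Real.log (nn (Mm d n (ω, z)))
      rw [← Real.log_mul p1.ne' p2.ne']
      refine Real.log_le_log p3 ?_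
      rw [e1]
      exact UC.nn_mul _ _
    rw [integral_add h1.integrableOn (in95 hd ω n).integrableOn,
      set_iter95 hd ω hm hΩ (F := fun z => Real.log (nn (Dm d (ω, z)))) hDm n] at h2
    push_cast
    linarith

/-- the integral of the exponent over an invariant set -/
theorem lam_inv (hd : d.Ok) (ω : Om) {Ω : Set T2} (hm : MeasurableSet Ω)
    (hΩ : (Tw d ω) ⁻¹' Ω =ᵐ[volume] Ω) {lam : T2 → ℝ}
    (hlim : ∀ᵐ z, Tendsto (fun n : ℕ => Real.log (nn (Mm d n (ω, z))) / n) atTop (𝓝 (lam z))) :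
    ∫ z in Ω, lam z ≤ ∫ z in Ω, Real.log (nn (Dm d (ω, z))) := by
  have hl7 : 0 ≤ Real.log (7 * |d.a|) := Real.log_nonneg (by linarith [hd.ha])
  have hl2 : 0 ≤ Real.log 2 := Real.log_nonneg (by norm_num)
  have h1 : Tendsto (fun n : ℕ => ∫ z in Ω, Real.log (nn (Mm d n (ω, z))) / n) atTop
      (𝓝 (∫ z in Ω, lam z)) := by
    refine tendsto_integral_of_dominated_convergence (fun _ => Real.log 2 + Real.log (7 * |d.a|))
      (fun n => ((ms95 hd ω n).div_const _).aestronglyMeasurable) (integrable_const _)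
      (fun n => Eventually.of_forall fun z => ?_) (ae_restrict_of_ae hlim)
    obtain ⟨h1, h2⟩ := log_nn_bd hd n (ω, z)
    rw [Real.norm_eq_abs, abs_of_nonneg (div_nonneg h1 (Nat.cast_nonneg n))]
    rcases Nat.eq_zero_or_pos n with h | h
    · subst h
      simp only [Nat.cast_zero, div_zero]
      linarith
    · have hn1 : (1 : ℝ) ≤ n := by exact_mod_cast h
      rw [div_le_iff₀ (by linarith)]
      nlinarith
  have h2 : Tendsto (fun n : ℕ => Real.log 2 / n + ∫ z in Ω, Real.log (nn (Dm d (ω, z)))) atTop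
      (𝓝 (0 + ∫ z in Ω, Real.log (nn (Dm d (ω, z))))) :=
    (tendsto_const_div_atTop_nhds_zero_nat _).add_const _
  rw [zero_add] at h2
  refine le_of_tendsto_of_tendsto h1 h2 ?_
  filter_upwards [eventually_ge_atTop 1] with n hn
  have hn0 : (0 : ℝ) < n := by exact_mod_cast hn
  rw [integral_div, div_le_iff₀ hn0, add_mul, div_mul_cancel₀ _ hn0.ne']
  have := sub_inv hd ω hm hΩ n
  linarith

/-- the set where the cosine is small -/
theorem cos_small {a θ : ℝ} (ha : 100 ≤ |a|) :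
    volume.real {z : T2 | 2 * π * |a| * |Real.cos (2 * π * (rep z).1)| ≤ |a| ^ (1 - θ)} ≤ |a| ^ (-θ) := by
  have ha0 : 0 < |a| := by linarith
  have hc : Continuous fun x : ℝ => 2 * π * |a| * |Real.cos (2 * π * x)| := by fun_prop
  have hS : MeasurableSet {x : ℝ | 2 * π * |a| * |Real.cos (2 * π * x)| ≤ |a| ^ (1 - θ)} :=
    measurableSet_le hc.measurable measurable_const
  have hrm : Measurable fun z : T2 => (rep z).1 := measurable_fst.comp UC.measurable_rep
  have h1 : volume {z : T2 | 2 * π * |a| * |Real.cos (2 * π * (rep z).1)| ≤ |a| ^ (1 - θ)} ≤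
      ENNReal.ofReal (|a| ^ (-θ)) := by
    have h2 := Measure.map_apply (μ := (volume : Measure T2)) hrm hS
    rw [rep_law, Measure.restrict_apply hS] at h2
    have h3 : volume {z : T2 | 2 * π * |a| * |Real.cos (2 * π * (rep z).1)| ≤ |a| ^ (1 - θ)} =
        volume ({x : ℝ | 2 * π * |a| * |Real.cos (2 * π * x)| ≤ |a| ^ (1 - θ)} ∩ Ico 0 1) := h2.symm
    rw [h3]
    have h4 := sub_cos (a := a) (T := |a| ^ (1 - θ)) (by linarith) (by positivity)
    have h5 : |a| ^ (1 - θ) / |a| = |a| ^ (-θ) := by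
      rw [← Real.rpow_sub_one ha0.ne']
      congr 1
      ring
    rw [h5] at h4
    refine le_trans (measure_mono ?_) h4
    rintro x ⟨hx1, hx2⟩
    exact ⟨hx2, hx1⟩
  rw [measureReal_def]
  exact ENNReal.toReal_le_of_le_ofReal (by positivity) h1

theorem Gup_low {a θ : ℝ} (ha : 100 ≤ |a|) (hθ1 : θ ≤ 1) {B : Set T2} (hB : MeasurableSet B) :
    (1 - θ) * Real.log |a| * (volume.real B - |a| ^ (-θ)) ≤ ∫ z in B, Gup a (rep z).1 := by
  have ha0 : 0 < |a| := by linarith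
  have hlog : 0 ≤ Real.log |a| := Real.log_nonneg (by linarith)
  set E : Set T2 := {z : T2 | 2 * π * |a| * |Real.cos (2 * π * (rep z).1)| ≤ |a| ^ (1 - θ)} with hE
  have hrm : Measurable fun z : T2 => (rep z).1 := measurable_fst.comp UC.measurable_rep
  have hc : Continuous fun x : ℝ => 2 * π * |a| * |Real.cos (2 * π * x)| := by fun_prop
  have hEm : MeasurableSet E := measurableSet_le (hc.measurable.comp hrm) measurable_const
  have h1 : ∫ z in B \ E, Gup a (rep z).1 ≤ ∫ z in B, Gup a (rep z).1 :=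
    setIntegral_mono_set (Gup_integrable a).integrableOn
      (Eventually.of_forall fun z => Gup_nonneg _ _) (Eventually.of_forall fun z hz => hz.1)
  have h2 : ∫ z in B \ E, (1 - θ) * Real.log |a| ≤ ∫ z in B \ E, Gup a (rep z).1 := by
    refine setIntegral_mono_on (integrable_const _).integrableOn (Gup_integrable a).integrableOn
      (hB.diff hEm) fun z hz => ?_
    have h3 : |a| ^ (1 - θ) ≤ 2 * π * |a| * |Real.cos (2 * π * (rep z).1)| := (not_le.1 hz.2).le
    have h4 : (1 - θ) * Real.log |a| ≤ Real.log (2 * π * |a| * |Real.cos (2 * π * (rep z).1)| + 8) := by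
      rw [← Real.log_rpow ha0]
      exact Real.log_le_log (by positivity) (by linarith)
    have h5 : 0 ≤ 4 * (1 / |a|) := by positivity
    unfold Gup
    linarith
  have h3 : volume.real B - |a| ^ (-θ) ≤ volume.real (B \ E) := by
    have h4 := cos_small (a := a) (θ := θ) ha
    have h5 : volume.real B ≤ volume.real (B \ E) + volume.real E := by
      refine (measureReal_mono ?_).trans (measureReal_union_le _ _)
      intro z hz
      by_cases hzE : z ∈ E
      · exact Or.inr hzE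
      · exact Or.inl ⟨hz, hzE⟩
    rw [← hE] at h4
    linarith
  rw [setIntegral_const, smul_eq_mul] at h2
  have h4 : (1 - θ) * Real.log |a| * (volume.real B - |a| ^ (-θ)) ≤
      (1 - θ) * Real.log |a| * volume.real (B \ E) :=
    mul_le_mul_of_nonneg_left h3 (mul_nonneg (by linarith) hlog)
  linarith

/-- the numbers -/
private theorem num95 {c₁ C θ : ℝ} (hc₁ : 0 < c₁) (hC : 0 < C) (hθ : 0 < θ) :
    ∃ c A : ℝ, 0 < c ∧ 100 ≤ A ∧ ∀ x : ℝ, A ≤ x → 1 ≤ θ * Real.log x - 17 ∧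
      x ^ (-c₁) + C * x ^ (-(1 / 3) : ℝ) + Real.log x * x ^ (-θ) ≤ x ^ (-c) ∧ x ^ (-c) ≤ 1 / 2 ∧
      2 * (x ^ (-c₁) + (x ^ (-c₁) + C * x ^ (-(1 / 3) : ℝ) + Real.log x * x ^ (-θ)) *
        (Real.log x + 20)) ≤ x ^ (-c) := by
  obtain ⟨c, hc⟩ : ∃ c, c = min c₁ (min (1 / 3) θ) / 4 := ⟨_, rfl⟩
  have hc0 : 0 < c := by
    rw [hc]
    have : 0 < min c₁ (min (1 / 3) θ) := lt_min hc₁ (lt_min (by norm_num) hθ)
    positivity
  have e1 : 4 * c ≤ c₁ := by
    rw [hc]
    have := min_le_left c₁ (min (1 / 3) θ)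
    linarith
  have e2 : 4 * c ≤ 1 / 3 := by
    rw [hc]
    have := (min_le_right c₁ (min (1 / 3) θ)).trans (min_le_left _ _)
    linarith
  have e3 : 4 * c ≤ θ := by
    rw [hc]
    have := (min_le_right c₁ (min (1 / 3) θ)).trans (min_le_right _ _)
    linarith
  obtain ⟨K, hK⟩ : ∃ K, K = 1 + C + 1 / c := ⟨_, rfl⟩
  have hK1 : 1 ≤ K := by
    rw [hK]
    have : 0 ≤ 1 / c := by positivity
    linarith
  obtain ⟨K₂, hK₂⟩ : ∃ K₂, K₂ = 2 * (1 + K * (1 / c + 20)) + K + 2 := ⟨_, rfl⟩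
  have hcc : 0 ≤ 1 / c := by positivity
  have hK₂0 : 0 ≤ K * (1 / c + 20) := by positivity
  have hK₂1 : 2 ≤ K₂ := by
    rw [hK₂]
    linarith
  refine ⟨c, max 100 (max (K₂ ^ (1 / c)) (Real.exp (18 / θ))), hc0, le_max_left _ _, fun x hx => ?_⟩
  have hx100 : 100 ≤ x := (le_max_left _ _).trans hx
  have hxK : K₂ ^ (1 / c) ≤ x := (le_max_left _ _).trans ((le_max_right _ _).trans hx)
  have hxe : Real.exp (18 / θ) ≤ x := (le_max_right _ _).trans ((le_max_right _ _).trans hx)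
  have hx0 : 0 < x := by linarith
  have hx1 : 1 ≤ x := by linarith
  have hlog0 : 0 ≤ Real.log x := Real.log_nonneg hx1
  have hKc : K₂ ≤ x ^ c := by
    calc K₂ = (K₂ ^ (1 / c)) ^ c := by
          rw [← Real.rpow_mul (by linarith), one_div, inv_mul_cancel₀ hc0.ne', Real.rpow_one]
      _ ≤ x ^ c := Real.rpow_le_rpow (by positivity) hxK hc0.le
  have hlog : Real.log x ≤ x ^ c / c := Real.log_le_rpow_div hx0.le hc0
  have hxc1 : 1 ≤ x ^ c := Real.one_le_rpow hx1 hc0.le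
  have a1 : x ^ (-c₁) ≤ x ^ (-(4 * c)) := Real.rpow_le_rpow_of_exponent_le hx1 (by linarith)
  have a2 : x ^ (-(1 / 3) : ℝ) ≤ x ^ (-(4 * c)) := Real.rpow_le_rpow_of_exponent_le hx1 (by linarith)
  have a3 : x ^ (-θ) ≤ x ^ (-(4 * c)) := Real.rpow_le_rpow_of_exponent_le hx1 (by linarith)
  have p4 : 0 ≤ x ^ (-(4 * c)) := by positivity
  have q1 : x ^ (-(3 * c)) = x ^ c * x ^ (-(4 * c)) := by
    rw [← Real.rpow_add hx0]
    congr 1
    ring
  have q2 : x ^ (-(2 * c)) = x ^ c * x ^ (-(3 * c)) := by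
    rw [← Real.rpow_add hx0]
    congr 1
    ring
  have q3 : x ^ (-c) = x ^ c * x ^ (-(2 * c)) := by
    rw [← Real.rpow_add hx0]
    congr 1
    ring
  have p3 : 0 ≤ x ^ (-(3 * c)) := by positivity
  have p2 : 0 ≤ x ^ (-(2 * c)) := by positivity
  have a4 : x ^ (-(4 * c)) ≤ x ^ (-(3 * c)) := by
    rw [q1]
    nlinarith
  have a5 : x ^ (-(3 * c)) ≤ x ^ (-(2 * c)) := by
    rw [q2]
    nlinarith
  have b3 : Real.log x * x ^ (-θ) ≤ 1 / c * x ^ (-(3 * c)) := by
    calc Real.log x * x ^ (-θ) ≤ x ^ c / c * x ^ (-(4 * c)) :=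
          mul_le_mul hlog a3 (by positivity) (by positivity)
      _ = 1 / c * x ^ (-(3 * c)) := by
          rw [q1]
          ring
  have b2 : C * x ^ (-(1 / 3) : ℝ) ≤ C * x ^ (-(3 * c)) := mul_le_mul_of_nonneg_left (a2.trans a4) hC.le
  have hM : x ^ (-c₁) + C * x ^ (-(1 / 3) : ℝ) + Real.log x * x ^ (-θ) ≤ K * x ^ (-(3 * c)) := by
    rw [hK]
    have : (1 + C + 1 / c) * x ^ (-(3 * c)) = x ^ (-(3 * c)) + C * x ^ (-(3 * c)) +
        1 / c * x ^ (-(3 * c)) := by ring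
    rw [this]
    linarith [a1.trans a4]
  have hM0 : 0 ≤ x ^ (-c₁) + C * x ^ (-(1 / 3) : ℝ) + Real.log x * x ^ (-θ) := by positivity
  refine ⟨?_, ?_, ?_, ?_⟩
  · have h1 : 18 / θ ≤ Real.log x := by
      rw [Real.le_log_iff_exp_le hx0]
      exact hxe
    rw [div_le_iff₀ hθ] at h1
    linarith
  · refine hM.trans ?_
    rw [q3, q2]
    have h1 : K ≤ x ^ c * x ^ c := by
      have : K ≤ K₂ := by
        rw [hK₂]
        linarith
      nlinarith
    nlinarith
  · have h1 : x ^ (-c) = (x ^ c)⁻¹ := Real.rpow_neg hx0.le c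
    rw [h1, one_div]
    exact inv_anti₀ (by norm_num) (hK₂1.trans hKc)
  · have h1 : Real.log x + 20 ≤ (1 / c + 20) * x ^ c := by
      have : (1 / c + 20) * x ^ c = x ^ c / c + 20 * x ^ c := by ring
      rw [this]
      linarith
    have h2 : (x ^ (-c₁) + C * x ^ (-(1 / 3) : ℝ) + Real.log x * x ^ (-θ)) * (Real.log x + 20) ≤
        K * (1 / c + 20) * x ^ (-(2 * c)) := by
      calc (x ^ (-c₁) + C * x ^ (-(1 / 3) : ℝ) + Real.log x * x ^ (-θ)) * (Real.log x + 20) ≤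
            (K * x ^ (-(3 * c))) * ((1 / c + 20) * x ^ c) :=
            mul_le_mul hM h1 (by linarith) (by positivity)
        _ = K * (1 / c + 20) * x ^ (-(2 * c)) := by
            rw [q2]
            ring
    have h3 : x ^ (-c₁) ≤ x ^ (-(2 * c)) := (a1.trans a4).trans a5
    rw [q3]
    have h4 : 2 * (1 + K * (1 / c + 20)) ≤ x ^ c := by
      have : 2 * (1 + K * (1 / c + 20)) ≤ K₂ := by
        rw [hK₂]
        linarith
      linarith
    have h5 := mul_le_mul_of_nonneg_right h4 p2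
    nlinarith

theorem comp2 {s : ℝ} (hs : 0 < s) (hs1 : s < 1) {c₁ : ℝ} (hc₁ : 0 < c₁) :
    ∃ c A : ℝ, 0 < c ∧ 100 ≤ A ∧ ∀ d : Dat, d.Ok → A ≤ |d.a| → ∀ ω : Om, Hoel d.a s (d.ph ω) →
      |Lw d ω - Real.log (π * |d.a|)| ≤ |d.a| ^ (-c₁) → Big2 c d.a (Fl d.a (d.ph ω)) (Tw d ω) := by
  obtain ⟨A1, hA1, h1⟩ := Pool.Agent.Helper11.FE.fd_component hs hs1.le
  obtain ⟨C, hC, hG⟩ := Gup_mean
  have hp : (0:ℝ) < 1 + s := by linarith
  obtain ⟨θ, hθ⟩ : ∃ θ, θ = s / (2 * (1 + s)) := ⟨_, rfl⟩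
  have hθ0 : 0 < θ := by
    rw [hθ]
    positivity
  have hθ1 : θ ≤ 1 := by
    rw [hθ, div_le_one (by positivity)]
    linarith
  have hθe : (1 - θ) - 1 / (1 + s) = θ := by
    rw [hθ]
    field_simp
    ring
  obtain ⟨c, A2, hc, hA2, hnum⟩ := num95 hc₁ hC hθ0
  refine ⟨c, max A1 A2, hc, hA1.trans (le_max_left _ _), fun d hd hA ω hH hL => ?_⟩
  have ha1 : A1 ≤ |d.a| := (le_max_left _ _).trans hA
  have ha2 : A2 ≤ |d.a| := (le_max_right _ _).trans hA
  have ha := hd.ha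
  have ha0 : 0 < |d.a| := by linarith
  obtain ⟨n1, n2, n3, n4⟩ := hnum |d.a| ha2
  have hlog0 : 0 ≤ Real.log |d.a| := Real.log_nonneg (by linarith)
  have hHoe : Pool.Agent.Helper11.FE.Hoe d.a (d.ph ω) s := by
    refine ⟨fun q q' => ?_, fun q q' => ?_, fun q q' => ?_⟩
    · rw [one_div_mul_eq_div]; exact (hH q q').1
    · rw [one_div_mul_eq_div]; exact (hH q q').2.1
    · rw [one_div_mul_eq_div]; exact (hH q q').2.2
  obtain ⟨lam, hlm, hbd, hinv, hlim, -, hmix, ⟨L0, hL0⟩, -⟩ :=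
    h1 d.a ha1 (d.ph ω) (hd.ok ω) hHoe (Tw d ω) (fun q => (toT_Fl hd ω q).symm)
  obtain ⟨lam', hlm', hlim', -, -, hint'⟩ := king hd ω
  -- the two exponents agree
  have heq : ∀ᵐ z, lam z = lam' z := by
    refine ae_torus (measurableSet_eq_fun hlm hlm') ?_
    filter_upwards [hlim, ae_plane hlim'] with q h1 h2
    exact tendsto_nhds_unique h1 (lim_fderiv hd h2)
  have hlimT : ∀ᵐ z, Tendsto (fun n : ℕ => Real.log (nn (Mm d n (ω, z))) / n) atTop (𝓝 (lam z)) := by
    filter_upwards [heq, hlim'] with z h1 h2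
    rw [h1]
    exact h2
  have hint : ∫ z : T2, lam z = Lw d ω := by
    rw [← hint']
    exact integral_congr_ae heq
  obtain ⟨t, ht⟩ : ∃ t, t = 1 / (1 + s) * Real.log |d.a| + 17 := ⟨_, rfl⟩
  simp only [← ht] at hmix hL0
  have ht0 : 0 ≤ t := by rw [ht]; positivity
  have htl : t ≤ Real.log |d.a| + 20 := by
    rw [ht]
    have h3 : 1 / (1 + s) ≤ 1 := by
      rw [div_le_one hp]
      linarith
    have := mul_le_mul_of_nonneg_right h3 hlog0
    linarith
  have hmeas : MeasurableSet {z : T2 | t < lam z} := measurableSet_lt measurable_const hlm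
  have hinvΩ : (Tw d ω) ⁻¹' {z : T2 | t < lam z} =ᵐ[volume] {z : T2 | t < lam z} := by
    filter_upwards [hinv] with z hz
    show (t < lam (Tw d ω z)) = (t < lam z)
    rw [hz]
  obtain ⟨m, hm⟩ : ∃ m, m = volume.real {z : T2 | t < lam z}ᶜ := ⟨_, rfl⟩
  have hm0 : 0 ≤ m := by rw [hm]; exact measureReal_nonneg
  have hΩ : volume.real {z : T2 | t < lam z} = 1 - m := by
    rw [hm, probReal_compl_eq_one_sub hmeas]
    ring
  have hI : Integrable lam := Integrable.of_bound hlm.aestronglyMeasurable (Real.log |d.a| + 3)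
    (Eventually.of_forall fun z => by
      rw [Real.norm_eq_abs, abs_of_nonneg (hbd z).1]
      exact (hbd z).2)
  have hsplit : (∫ z in {z : T2 | t < lam z}, lam z) + (∫ z in {z : T2 | t < lam z}ᶜ, lam z) = Lw d ω := by
    rw [← hint]
    exact integral_add_compl hmeas hI
  have hB1 : ∫ z in {z : T2 | t < lam z}ᶜ, lam z ≤ t * m := by
    have h8 : ∫ z in {z : T2 | t < lam z}ᶜ, lam z ≤ ∫ z in {z : T2 | t < lam z}ᶜ, t := by
      refine setIntegral_mono_on hI.integrableOn ?_ hmeas.compl fun z hz => ?_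
      · exact (integrable_const t).integrableOn
      · exact not_lt.1 hz
    refine h8.trans (le_of_eq ?_)
    rw [setIntegral_const, smul_eq_mul, ← hm]
    ring
  have hB0 : 0 ≤ ∫ z in {z : T2 | t < lam z}ᶜ, lam z := integral_nonneg fun z => (hbd z).1
  have hO : ∫ z in {z : T2 | t < lam z}, lam z = L0 * (1 - m) := by
    rw [setIntegral_congr_ae hmeas (g := fun _ => L0) hL0, setIntegral_const, hΩ, smul_eq_mul]
    ring
  -- the bound of the measure
  have hO2 : ∫ z in {z : T2 | t < lam z}, lam z ≤ Real.log (π * |d.a|) + C * |d.a| ^ (-(1 / 3) : ℝ) -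
      (1 - θ) * Real.log |d.a| * (m - |d.a| ^ (-θ)) := by
    have h3 := lam_inv hd ω hmeas hinvΩ hlimT
    have h4 : ∫ z in {z : T2 | t < lam z}, Real.log (nn (Dm d (ω, z))) ≤
        ∫ z in {z : T2 | t < lam z}, Gup d.a (rep z).1 :=
      integral_mono_of_nonneg (Eventually.of_forall fun z => (up_pt hd ω z).1)
        (Gup_integrable d.a).integrableOn (Eventually.of_forall fun z => (up_pt hd ω z).2)
    have h5 : (∫ z in {z : T2 | t < lam z}, Gup d.a (rep z).1) +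
        (∫ z in {z : T2 | t < lam z}ᶜ, Gup d.a (rep z).1) = ∫ z : T2, Gup d.a (rep z).1 :=
      integral_add_compl hmeas (Gup_integrable d.a)
    have h6 := Gup_low (a := d.a) ha hθ1 hmeas.compl
    rw [← hm] at h6
    have h7 := hG d.a ha
    linarith
  have hLb := abs_le.1 hL
  have hmb : m ≤ |d.a| ^ (-c₁) + C * |d.a| ^ (-(1 / 3) : ℝ) + Real.log |d.a| * |d.a| ^ (-θ) := by
    have h3 : ((1 - θ) * Real.log |d.a| - t) * m ≤ |d.a| ^ (-c₁) + C * |d.a| ^ (-(1 / 3) : ℝ) +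
        (1 - θ) * Real.log |d.a| * |d.a| ^ (-θ) := by
      have e : (1 - θ) * Real.log |d.a| * (m - |d.a| ^ (-θ)) =
        (1 - θ) * Real.log |d.a| * m - (1 - θ) * Real.log |d.a| * |d.a| ^ (-θ) := by ring
      rw [e] at hO2
      have e2 : ((1 - θ) * Real.log |d.a| - t) * m = (1 - θ) * Real.log |d.a| * m - t * m := by ring
      rw [e2]
      linarith [hLb.1]
    have h4 : (1 - θ) * Real.log |d.a| - t = θ * Real.log |d.a| - 17 := by
      rw [ht]
      have : (1 - θ) * Real.log |d.a| - (1 / (1 + s) * Real.log |d.a| + 17) =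
        ((1 - θ) - 1 / (1 + s)) * Real.log |d.a| - 17 := by ring
      rw [this, hθe]
    rw [h4] at h3
    have h5 : m ≤ (θ * Real.log |d.a| - 17) * m := by nlinarith
    have h6 : (1 - θ) * Real.log |d.a| * |d.a| ^ (-θ) ≤ Real.log |d.a| * |d.a| ^ (-θ) := by
      refine mul_le_mul_of_nonneg_right ?_ (by positivity)
      nlinarith
    linarith
  have hmc : m ≤ |d.a| ^ (-c) := hmb.trans n2
  have hm2 : m ≤ 1 / 2 := hmc.trans n3
  -- the exponent
  have hkey : L0 * (1 - m) = Lw d ω - ∫ z in {z : T2 | t < lam z}ᶜ, lam z := by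
    rw [← hO, ← hsplit]
    ring
  have hlogπ : Real.log (π * |d.a|) ≤ Real.log |d.a| + 20 := by
    rw [Real.log_mul Real.pi_pos.ne' ha0.ne']
    have h3 := Real.log_le_sub_one_of_pos Real.pi_pos
    have h4 := Real.pi_lt_d4
    linarith
  have hlogπ0 : 0 ≤ Real.log (π * |d.a|) := by
    refine Real.log_nonneg ?_
    have := Real.pi_gt_three
    nlinarith
  have hx1 : 0 ≤ |d.a| ^ (-c₁) := by positivity
  have hprod : m * (Real.log |d.a| + 20) ≤ (|d.a| ^ (-c₁) + C * |d.a| ^ (-(1 / 3) : ℝ) +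
      Real.log |d.a| * |d.a| ^ (-θ)) * (Real.log |d.a| + 20) :=
    mul_le_mul_of_nonneg_right hmb (by linarith)
  have hfin : |L0 - Real.log (π * |d.a|)| ≤ |d.a| ^ (-c) := by
    have hup : (L0 - Real.log (π * |d.a|)) * (1 - m) ≤ |d.a| ^ (-c₁) + m * (Real.log |d.a| + 20) := by
      have h3 : (L0 - Real.log (π * |d.a|)) * (1 - m) =
        L0 * (1 - m) - Real.log (π * |d.a|) + m * Real.log (π * |d.a|) := by ring
      rw [h3, hkey]
      have := mul_le_mul_of_nonneg_left hlogπ hm0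
      linarith [hLb.2]
    have hlow : -(|d.a| ^ (-c₁) + m * (Real.log |d.a| + 20)) ≤ (L0 - Real.log (π * |d.a|)) * (1 - m) := by
      have h3 : (L0 - Real.log (π * |d.a|)) * (1 - m) =
        L0 * (1 - m) - Real.log (π * |d.a|) + m * Real.log (π * |d.a|) := by ring
      rw [h3, hkey]
      have h4 := mul_nonneg hm0 hlogπ0
      have h5 : t * m ≤ m * (Real.log |d.a| + 20) := by
        rw [mul_comm]
        exact mul_le_mul_of_nonneg_left htl hm0
      linarith [hLb.1]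
    have h6 : |(L0 - Real.log (π * |d.a|)) * (1 - m)| ≤ |d.a| ^ (-c₁) + m * (Real.log |d.a| + 20) :=
      abs_le.2 ⟨hlow, hup⟩
    rw [abs_mul, abs_of_nonneg (show 0 ≤ 1 - m by linarith)] at h6
    have h7 : |L0 - Real.log (π * |d.a|)| * (1 / 2) ≤ |L0 - Real.log (π * |d.a|)| * (1 - m) :=
      mul_le_mul_of_nonneg_left (by linarith) (abs_nonneg _)
    linarith
  refine ⟨{z : T2 | t < lam z}, L0, hmeas, hinvΩ, ?_, ?_, hfin, ?_⟩
  · rw [hΩ]
    linarith
  · intro ξ h hh hE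
    exact hmix ξ h hh hE
  · filter_upwards [hlim, ae_plane hL0] with q hq1 hq2 hq3
    rw [hq2 hq3] at hq1
    exact hq1

end Pool.Agent.Helper18.FD
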