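import Pool.Agent.Helper18.FD.Bas

/-! Block FD-CONE: growth outside the critical strips.

Let `s_n, q_n` be the first column of `Mm d n p`: `s_0 = 1, q_0 = 0`, and (`Mm_succ`, `mat`) `s_(n+1) = (al_n s_n - q_n)/be_n`, `q_(n+1) = be_n s_n - v_n s_(n+1)`. Induction on `n`: `|q_n| ≤ |s_n|` and
`∏_{j<n} (|al_j| - 1)/be_j ≤ |s_n|`: `|s_(n+1)| ≥ (|al_n| - 1)|s_n|/be_n ≥ (9/1.01)|s_n|` and `|q_(n+1)| ≤ 1.01 |s_n| + 0.01 |s_(n+1)| ≤ |s_(n+1)|`. Take logarithms: `|s_n| ≤ nn`, `log be_j ≤ log (1 + 1/|a|) ≤ 1/|a|`. -/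

set_option autoImplicit false
open MeasureTheory Real Set

namespace Pool.Agent.Helper18.FD

open Pool.Agent.Helper18.UC (T2 rep toT nn)

variable {d : Dat}

private theorem cone65_aux (hd : d.Ok) (n : ℕ) (p : Pt) (h : ∀ j < n, 10 ≤ |al d ((sk d)^[j] p)|) :
    |Mm d n p 1 0| ≤ |Mm d n p 0 0| ∧ 0 < |Mm d n p 0 0| ∧
      (∑ j ∈ Finset.range n, (Real.log (|al d ((sk d)^[j] p)| - 1) - 1 / |d.a|)) ≤
        Real.log |Mm d n p 0 0| := by
  induction n with
  | zero => simp [Mm]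
  | succ n ih =>
    obtain ⟨h1, h2, h3⟩ := ih fun j hj => h j (by omega)
    have hal := h n (by omega)
    obtain ⟨hb1, hv, -⟩ := coef_bd hd ((sk d)^[n] p)
    have ha : 1 / |d.a| ≤ 1 / 100 := one_div_le_one_div_of_le (by norm_num) hd.ha
    have e0 : Mm d (n + 1) p 0 0 = (al d ((sk d)^[n] p) * Mm d n p 0 0 - Mm d n p 1 0) /
        be d ((sk d)^[n] p) := by
      change (Dm d ((sk d)^[n] p) * Mm d n p) 0 0 = _
      rw [Matrix.mul_apply, Fin.sum_univ_two]
      unfold Dm mat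
      simp only [Matrix.of_apply, Matrix.cons_val', Matrix.cons_val_zero, Matrix.cons_val_one,
        Matrix.cons_val_fin_one]
      ring
    have e1 : Mm d (n + 1) p 1 0 = be d ((sk d)^[n] p) * Mm d n p 0 0 -
        ve d ((sk d)^[n] p) * Mm d (n + 1) p 0 0 := by
      rw [e0]
      change (Dm d ((sk d)^[n] p) * Mm d n p) 1 0 = _
      rw [Matrix.mul_apply, Fin.sum_univ_two]
      unfold Dm mat
      simp only [Matrix.of_apply, Matrix.cons_val', Matrix.cons_val_zero, Matrix.cons_val_one,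
        Matrix.cons_val_fin_one]
      ring
    rw [Finset.sum_range_succ]
    set A := al d ((sk d)^[n] p) with hA
    set B := be d ((sk d)^[n] p) with hB
    set V := ve d ((sk d)^[n] p) with hV
    set s := Mm d n p 0 0 with hs
    set q := Mm d n p 1 0 with hq
    set s' := Mm d (n + 1) p 0 0 with hs'
    set q' := Mm d (n + 1) p 1 0 with hq'
    rw [abs_le] at hb1
    have hB0 : 0 < B := by linarith [hb1.1]
    have hB1 : B ≤ 101 / 100 := by linarith [hb1.2]
    have k1 : (|A| - 1) * |s| / B ≤ |s'| := by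
      rw [e0, abs_div, abs_of_pos hB0]
      apply div_le_div_of_nonneg_right _ hB0.le
      have k2 : |A * s| - |q| ≤ |A * s - q| := abs_sub_abs_le_abs_sub _ _
      rw [abs_mul] at k2
      linarith
    have k3 : 0 < (|A| - 1) * |s| := mul_pos (by linarith) h2
    have k4 : 0 < (|A| - 1) * |s| / B := div_pos k3 hB0
    have k5 : 0 < |s'| := lt_of_lt_of_le k4 k1
    have k6 : 9 * |s| ≤ 101 / 100 * |s'| := by
      have k7 : (|A| - 1) * |s| ≤ |s'| * B := (div_le_iff₀ hB0).1 k1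
      have k8 : 9 * |s| ≤ (|A| - 1) * |s| := mul_le_mul_of_nonneg_right (by linarith) h2.le
      have k9 : |s'| * B ≤ |s'| * (101 / 100) := mul_le_mul_of_nonneg_left hB1 k5.le
      linarith
    refine ⟨?_, k5, ?_⟩
    · have k7 : |q'| ≤ B * |s| + |V| * |s'| := by
        rw [e1]
        refine (abs_sub _ _).trans ?_
        rw [abs_mul, abs_mul, abs_of_pos hB0]
      have k8 : B * |s| ≤ 101 / 100 * |s| := mul_le_mul_of_nonneg_right hB1 h2.le
      have k9 : |V| * |s'| ≤ 1 / 100 * |s'| := mul_le_mul_of_nonneg_right (hv.trans ha) k5.le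
      linarith
    · have k7 : Real.log ((|A| - 1) * |s| / B) ≤ Real.log |s'| := Real.log_le_log k4 k1
      rw [Real.log_div k3.ne' hB0.ne', Real.log_mul (by linarith) h2.ne'] at k7
      have k8 : Real.log B ≤ B - 1 := Real.log_le_sub_one_of_pos hB0
      linarith [hb1.2]

theorem cone (hd : d.Ok) (n : ℕ) (p : Pt) (h : ∀ j < n, 10 ≤ |al d ((sk d)^[j] p)|) :
    (∑ j ∈ Finset.range n, Real.log (|al d ((sk d)^[j] p)| - 1)) - n / |d.a| ≤
      Real.log (nn (Mm d n p)) := by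
  obtain ⟨h1, h2, h3⟩ := cone65_aux hd n p h
  rw [Finset.sum_sub_distrib, Finset.sum_const, Finset.card_range, nsmul_eq_mul, mul_one_div] at h3
  refine h3.trans (Real.log_le_log h2 ?_)
  unfold Pool.Agent.Helper18.UC.nn
  have e1 := abs_nonneg (Mm d n p 0 1)
  have e2 := abs_nonneg (Mm d n p 1 0)
  have e3 := abs_nonneg (Mm d n p 1 1)
  linarith

end Pool.Agent.Helper18.FD
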