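import Pool.Agent.Helper18.FD.Defs

/-! Block FD-CORE: the two integrals behind the Wegner estimate. (Real analysis.)

`core1`: substitution `w = A v - y` (translation and scaling of Lebesgue measure): `∫ (log⁻|w| - Λ)⁺ dw = 2 ∫_0^(e^-Λ) (-log w - Λ) dw = 2 e^-Λ`. (Subtraction in `ℝ≥0∞` is truncated; `lm |w| = ofReal (-log |w|)` for `w ≠ 0`,
which is zero for `|w| ≥ 1`.) A layer cake proof: `volume {v | lm |A v - y| - ofReal Λ > x} = volume {|A v - y| < exp (-Λ - x)} = 2 exp (-Λ - x)/A`.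
`core2`: `uu = 1/2 volume` on `[-1, 1]`; the left side is `1/4 ∫_{v ∈ [-1,1]} ∫_{u ∈ [-1,1]} F u v`; for fixed `v` substitute `u = s₀ - v t` (translation), then exchange the order: `1/4 ∫ ds₀ ∫ dv 1[|v| ≤ 1, |s₀ - v t| ≤ 1] F (s₀ - v t) v`; the integrand
vanishes unless `|s₀| ≤ 3/2`, and for fixed `s₀` the inner integral is `≤ 2 e^-Λ/A` by the hypothesis and `core1`. Total `≤ 1/4 · 3 · 2 e^-Λ/A`. -/

set_option autoImplicit false
open MeasureTheory Real Set
open scoped ENNReal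

namespace Pool.Agent.Helper18.FD

theorem lm_anti {x y : ℝ} (h : x ≤ y) : lm y ≤ lm x := by
  unfold lm
  split_ifs with h1 h2 h2
  · exact le_rfl
  · exact absurd (h.trans h1) h2
  · exact le_top
  · exact ENNReal.ofReal_le_ofReal (neg_le_neg (Real.log_le_log (not_le.mp h2) h))

private theorem lm_meas68 : Measurable lm := by
  unfold lm
  exact Measurable.ite measurableSet_Iic measurable_const
    (ENNReal.measurable_ofReal.comp Real.measurable_log.neg)

private theorem core1_aux68 {Λ : ℝ} (hΛ : 0 ≤ Λ) :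
    ∫⁻ w : ℝ, (lm |w| - ENNReal.ofReal Λ) ≤ ENNReal.ofReal (2 * Real.exp (-Λ)) := by
  set c := Real.exp (-Λ) with hc
  have hc0 : 0 < c := Real.exp_pos _
  have hlc : Real.log c = -Λ := by rw [hc, Real.log_exp]
  have h0 : ∀ᵐ w : ℝ, w ≠ 0 := by
    rw [ae_iff]
    simp
  have h1 : ∀ᵐ w : ℝ, lm |w| - ENNReal.ofReal Λ ≤
      (Ioc (-c) c).indicator (fun w => ENNReal.ofReal (-Real.log w - Λ)) w := by
    filter_upwards [h0] with w hw
    have hw1 : 0 < |w| := abs_pos.mpr hw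
    rw [lm, if_neg (not_le.mpr hw1), ← ENNReal.ofReal_sub _ hΛ, Real.log_abs]
    by_cases hm : w ∈ Ioc (-c) c
    · rw [indicator_of_mem hm]
    · rw [indicator_of_notMem hm, nonpos_iff_eq_zero, ENNReal.ofReal_eq_zero]
      have h2 : c ≤ |w| := by
        by_contra hlt
        push Not at hlt
        exact hm ⟨(abs_lt.mp hlt).1, (abs_lt.mp hlt).2.le⟩
      have h3 := Real.log_le_log hc0 h2
      rw [Real.log_abs, hlc] at h3
      linarith
  have hl : IntervalIntegrable (fun w => -Real.log w) volume (-c) c :=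
    (intervalIntegral.intervalIntegrable_log').neg
  have hint : IntervalIntegrable (fun w => -Real.log w - Λ) volume (-c) c :=
    hl.sub intervalIntegrable_const
  calc _ ≤ ∫⁻ w, (Ioc (-c) c).indicator (fun w => ENNReal.ofReal (-Real.log w - Λ)) w :=
        lintegral_mono_ae h1
    _ = ∫⁻ w in Ioc (-c) c, ENNReal.ofReal (-Real.log w - Λ) :=
        lintegral_indicator measurableSet_Ioc _
    _ = ENNReal.ofReal (∫ w in Ioc (-c) c, (-Real.log w - Λ)) := by
        rw [ofReal_integral_eq_lintegral_ofReal]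
        · exact (intervalIntegrable_iff_integrableOn_Ioc_of_le (by linarith)).mp hint
        · filter_upwards [ae_restrict_mem measurableSet_Ioc, ae_restrict_of_ae h0] with w hw hw0
          have h4 : |w| ≤ c := abs_le.mpr ⟨hw.1.le, hw.2⟩
          have h5 := Real.log_le_log (abs_pos.mpr hw0) h4
          rw [Real.log_abs, hlc] at h5
          show (0 : ℝ) ≤ -Real.log w - Λ
          linarith
    _ = ENNReal.ofReal (2 * c) := by
        congr 1
        rw [← intervalIntegral.integral_of_le (by linarith),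
          intervalIntegral.integral_sub hl intervalIntegrable_const,
          intervalIntegral.integral_neg, integral_log,
          intervalIntegral.integral_const, Real.log_neg_eq_log, hlc, smul_eq_mul]
        ring
    _ ≤ _ := le_rfl

theorem core1 {A Λ : ℝ} (hA : 0 < A) (hΛ : 0 ≤ Λ) (y : ℝ) :
    ∫⁻ v : ℝ, (lm |A * v - y| - ENNReal.ofReal Λ) ≤ ENNReal.ofReal (2 * Real.exp (-Λ) / A) := by
  have hg : Measurable fun w : ℝ => lm |w - y| - ENNReal.ofReal Λ :=
    (lm_meas68.comp ((measurable_id.sub_const y).abs)).sub measurable_const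
  have e1 : ∫⁻ w : ℝ, (lm |w - y| - ENNReal.ofReal Λ) = ∫⁻ w : ℝ, (lm |w| - ENNReal.ofReal Λ) :=
    lintegral_sub_right_eq_self (fun w : ℝ => lm |w| - ENNReal.ofReal Λ) y
  have e2 : ∫⁻ w : ℝ, (lm |w - y| - ENNReal.ofReal Λ) =
      ENNReal.ofReal A * ∫⁻ v : ℝ, (lm |A * v - y| - ENNReal.ofReal Λ) := by
    conv_lhs => rw [← Real.smul_map_volume_mul_left hA.ne']
    rw [lintegral_smul_measure, lintegral_map hg (measurable_const_mul A), abs_of_pos hA,
      smul_eq_mul]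
  rw [ENNReal.ofReal_div_of_pos hA, ENNReal.le_div_iff_mul_le
    (Or.inl (by simpa using hA)) (Or.inl ENNReal.ofReal_ne_top), mul_comm, ← e2, e1]
  exact core1_aux68 hΛ

theorem core2 {A Λ t : ℝ} (hA : 0 < A) (hΛ : 0 ≤ Λ) (ht : |t| ≤ 1 / 2) {F : ℝ → ℝ → ℝ≥0∞}
    (hF : Measurable fun q : ℝ × ℝ => F q.1 q.2)
    (h : ∀ s₀ : ℝ, ∃ y : ℝ, ∀ u ∈ Icc (-1 : ℝ) 1, ∀ v ∈ Icc (-1 : ℝ) 1, u + v * t = s₀ →
      F u v ≤ lm |A * v - y| - ENNReal.ofReal Λ) :
    ∫⁻ u, ∫⁻ v, F u v ∂uu ∂uu ≤ ENNReal.ofReal (2 * Real.exp (-Λ) / A) := by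
  classical
  have hr0 : 0 ≤ 2 * Real.exp (-Λ) / A := by positivity
  have e1 : ∫⁻ u, ∫⁻ v, F u v ∂uu ∂uu =
      (2 : ℝ≥0∞)⁻¹ * ((2 : ℝ≥0∞)⁻¹ * ∫⁻ u in Icc (-1 : ℝ) 1, ∫⁻ v in Icc (-1 : ℝ) 1, F u v) := by
    have hi : ∀ u, ∫⁻ v, F u v ∂uu = (2 : ℝ≥0∞)⁻¹ * ∫⁻ v in Icc (-1 : ℝ) 1, F u v := by
      intro u
      rw [uu, lintegral_smul_measure, smul_eq_mul]
    simp only [hi]
    rw [lintegral_const_mul' _ _ (by simp), uu, lintegral_smul_measure, smul_eq_mul]
  have e2 : ∫⁻ u in Icc (-1 : ℝ) 1, ∫⁻ v in Icc (-1 : ℝ) 1, F u v =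
      ∫⁻ v in Icc (-1 : ℝ) 1, ∫⁻ u in Icc (-1 : ℝ) 1, F u v :=
    lintegral_lintegral_swap hF.aemeasurable
  have e3 : ∀ v : ℝ, ∫⁻ u in Icc (-1 : ℝ) 1, F u v =
      ∫⁻ s : ℝ, (Icc (-1 : ℝ) 1).indicator (fun u => F u v) (s - v * t) := by
    intro v
    rw [lintegral_sub_right_eq_self (fun s => (Icc (-1 : ℝ) 1).indicator (fun u => F u v) s) (v * t),
      lintegral_indicator measurableSet_Icc]
  have hG : Measurable fun q : ℝ × ℝ =>
      (Icc (-1 : ℝ) 1).indicator (fun u => F u q.1) (q.2 - q.1 * t) := by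
    have hm : Measurable fun q : ℝ × ℝ => q.2 - q.1 * t :=
      measurable_snd.sub (measurable_fst.mul_const t)
    have : (fun q : ℝ × ℝ => (Icc (-1 : ℝ) 1).indicator (fun u => F u q.1) (q.2 - q.1 * t)) =
        ((fun q : ℝ × ℝ => q.2 - q.1 * t) ⁻¹' Icc (-1 : ℝ) 1).indicator
          (fun q => F (q.2 - q.1 * t) q.1) := by
      funext q
      simp only [indicator_apply, mem_preimage]
    rw [this]
    exact (hF.comp (hm.prodMk measurable_fst)).indicator (hm measurableSet_Icc)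
  have e4 : ∫⁻ v in Icc (-1 : ℝ) 1, ∫⁻ s : ℝ,
        (Icc (-1 : ℝ) 1).indicator (fun u => F u v) (s - v * t) =
      ∫⁻ s : ℝ, ∫⁻ v in Icc (-1 : ℝ) 1,
        (Icc (-1 : ℝ) 1).indicator (fun u => F u v) (s - v * t) :=
    lintegral_lintegral_swap hG.aemeasurable
  have e5 : ∀ s : ℝ, ∫⁻ v in Icc (-1 : ℝ) 1,
        (Icc (-1 : ℝ) 1).indicator (fun u => F u v) (s - v * t) ≤
      (Icc (-(3 / 2) : ℝ) (3 / 2)).indicator
        (fun _ => ENNReal.ofReal (2 * Real.exp (-Λ) / A)) s := by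
    intro s
    by_cases hs : s ∈ Icc (-(3 / 2) : ℝ) (3 / 2)
    · rw [indicator_of_mem hs]
      obtain ⟨y, hy⟩ := h s
      calc _ ≤ ∫⁻ v in Icc (-1 : ℝ) 1, (lm |A * v - y| - ENNReal.ofReal Λ) := by
            refine setLIntegral_mono' measurableSet_Icc fun v hv => ?_
            by_cases hu : s - v * t ∈ Icc (-1 : ℝ) 1
            · rw [indicator_of_mem hu]
              exact hy _ hu v hv (by ring)
            · rw [indicator_of_notMem hu]
              exact zero_le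
        _ ≤ ∫⁻ v, (lm |A * v - y| - ENNReal.ofReal Λ) := setLIntegral_le_lintegral _ _
        _ ≤ _ := core1 hA hΛ y
    · rw [indicator_of_notMem hs, nonpos_iff_eq_zero]
      rw [setLIntegral_congr_fun (g := fun _ => 0) measurableSet_Icc, lintegral_zero]
      intro v hv
      refine indicator_of_notMem (fun hu => hs ?_) _
      have h1 : |v * t| ≤ 1 / 2 := by
        rw [abs_mul]
        have : |v| ≤ 1 := abs_le.mpr hv
        nlinarith [abs_nonneg v, abs_nonneg t]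
      have h2 := abs_le.mp h1
      exact ⟨by linarith [hu.1, h2.1], by linarith [hu.2, h2.2]⟩
  rw [e1, e2, lintegral_congr e3, e4]
  calc _ ≤ (2 : ℝ≥0∞)⁻¹ * ((2 : ℝ≥0∞)⁻¹ * ∫⁻ s : ℝ, (Icc (-(3 / 2) : ℝ) (3 / 2)).indicator
        (fun _ => ENNReal.ofReal (2 * Real.exp (-Λ) / A)) s) := by
        gcongr with s
        exact e5 s
    _ = ENNReal.ofReal (1 / 2) * (ENNReal.ofReal (1 / 2) *
          (ENNReal.ofReal (2 * Real.exp (-Λ) / A) * ENNReal.ofReal 3)) := by
        rw [lintegral_indicator measurableSet_Icc, setLIntegral_const, Real.volume_Icc]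
        have h2 : ENNReal.ofReal (1 / 2) = (2 : ℝ≥0∞)⁻¹ := by
          rw [one_div, ENNReal.ofReal_inv_of_pos (by norm_num), ENNReal.ofReal_ofNat]
        rw [h2]
        norm_num
    _ ≤ _ := by
        rw [← ENNReal.ofReal_mul hr0, ← ENNReal.ofReal_mul (by norm_num),
          ← ENNReal.ofReal_mul (by norm_num)]
        exact ENNReal.ofReal_le_ofReal (by linarith)

end Pool.Agent.Helper18.FD
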