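import Pool.Agent.Helper18.FD.Defs

/-! Block FD-RES: resampling coordinates of the infinite product measure.

`res_mp`: the map `(ω, u) ↦ update ω i u` sends `PP × uu` to `PP`: measurable (`measurable_pi_iff`, cases `j = i`), and by `Measure.eq_infinitePi` it suffices
to compute the measure of boxes `Set.pi s t` (`s` a finset): the preimage is `{ω ∈ Set.pi (s.erase i) t} ×ˢ (if i ∈ s then t i else univ)`, use
`Measure.prod_prod` and `Measure.infinitePi_pi`. Compare `mp_cns` in `Pool/Agent/Helper95/RX/Cns.lean` (and `Pool/Agent/Helper76/EO`).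
`res1`, `res2`: `MeasurePreserving.lintegral_comp` and `lintegral_prod` (Tonelli), twice for `res2`: first the coordinate `(l, c.1, c.2, true)`, then `(l, c.1, c.2, false)`;
note that `upd l c u v ω = update (update ω i u) i' v`. The order of the two inner integrals may be exchanged by `lintegral_lintegral_swap`. -/

set_option autoImplicit false
open MeasureTheory Real Set
open scoped ENNReal

namespace Pool.Agent.Helper18.FD

private lemma measurable_update56 (i : Ix) :
    Measurable fun q : Om × ℝ => Function.update q.1 i q.2 := by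
  rw [measurable_pi_iff]
  intro j
  by_cases hj : j = i
  · subst hj
    simp only [Function.update_self]
    exact measurable_snd
  · simp only [Function.update_of_ne hj]
    exact (measurable_pi_apply j).comp measurable_fst

theorem res_mp (i : Ix) :
    MeasurePreserving (fun q : Om × ℝ => Function.update q.1 i q.2) (PP.prod uu) PP := by
  refine ⟨measurable_update56 i, ?_⟩
  conv_rhs => unfold PP
  apply Measure.eq_infinitePi
  intro s t ht
  rw [Measure.map_apply (measurable_update56 i)
    (MeasurableSet.pi (Finset.countable_toSet _) fun j _ => ht j)]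
  by_cases hi : i ∈ s
  · have e : (fun q : Om × ℝ => Function.update q.1 i q.2) ⁻¹' (Set.pi (s : Set Ix) t) =
        Set.pi ((s.erase i : Finset Ix) : Set Ix) t ×ˢ t i := by
      ext ⟨ω, u⟩
      simp only [Set.mem_preimage, Set.mem_pi, Finset.mem_coe, Set.mem_prod, Finset.mem_erase]
      constructor
      · intro h
        refine ⟨fun j hj => ?_, ?_⟩
        · have h1 := h j hj.2
          rwa [Function.update_of_ne hj.1] at h1
        · have h1 := h i hi
          rwa [Function.update_self] at h1
      · rintro ⟨h1, h2⟩ j hj
        by_cases hji : j = i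
        · subst hji
          rwa [Function.update_self]
        · rw [Function.update_of_ne hji]
          exact h1 j ⟨hji, hj⟩
    rw [e, Measure.prod_prod]
    unfold PP
    rw [Measure.infinitePi_pi _ (fun j _ => ht j)]
    exact Finset.prod_erase_mul s (fun j => uu (t j)) hi
  · have e : (fun q : Om × ℝ => Function.update q.1 i q.2) ⁻¹' (Set.pi (s : Set Ix) t) =
        Set.pi (s : Set Ix) t ×ˢ univ := by
      ext ⟨ω, u⟩
      simp only [Set.mem_preimage, Set.mem_pi, Finset.mem_coe, Set.mem_prod, Set.mem_univ, and_true]
      have hne : ∀ j ∈ s, j ≠ i := fun j hj h => hi (h ▸ hj)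
      constructor
      · intro h j hj
        have h1 := h j hj
        rwa [Function.update_of_ne (hne j hj)] at h1
      · intro h j hj
        rw [Function.update_of_ne (hne j hj)]
        exact h j hj
    rw [e, Measure.prod_prod, measure_univ, mul_one]
    unfold PP
    rw [Measure.infinitePi_pi _ (fun j _ => ht j)]

theorem res1 (i : Ix) {F : Om → ℝ≥0∞} (hF : Measurable F) :
    ∫⁻ ω, F ω ∂PP = ∫⁻ ω, ∫⁻ u, F (Function.update ω i u) ∂uu ∂PP := by
  rw [← (res_mp i).lintegral_comp hF]
  exact lintegral_prod _ (hF.comp (measurable_update56 i)).aemeasurable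

theorem measurable_upd (l : ℕ) (c : ℕ × ℕ) :
    Measurable fun q : Om × (ℝ × ℝ) => upd l c q.2.1 q.2.2 q.1 := by
  have h1 : Measurable fun q : Om × (ℝ × ℝ) => (Function.update q.1 (l, c.1, c.2, false) q.2.1) :=
    (measurable_update56 (l, c.1, c.2, false)).comp
      (measurable_fst.prodMk (measurable_fst.comp measurable_snd))
  exact (measurable_update56 (l, c.1, c.2, true)).comp
    (h1.prodMk (measurable_snd.comp measurable_snd))

theorem res2 (l : ℕ) (c : ℕ × ℕ) {F : Om → ℝ≥0∞} (hF : Measurable F) :
    ∫⁻ ω, F ω ∂PP = ∫⁻ ω, ∫⁻ u, ∫⁻ v, F (upd l c u v ω) ∂uu ∂uu ∂PP := by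
  rw [res1 (l, c.1, c.2, true) hF]
  have h1 : Measurable fun ω : Om => ∫⁻ v, F (Function.update ω (l, c.1, c.2, true) v) ∂uu :=
    Measurable.lintegral_prod_right' (f := fun q : Om × ℝ =>
      F (Function.update q.1 (l, c.1, c.2, true) q.2)) (hF.comp (measurable_update56 _))
  exact res1 (l, c.1, c.2, false) h1

end Pool.Agent.Helper18.FD
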