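import Pool.Agent.Helper18.FD.Bas
import Pool.Agent.Helper18.FD.Weg

/-! Block FD-PHIC: the Wegner estimate for the second column.

Apply `weg` with `k = 0`, `n = m - 1`, `Φ = phC d m`. Verification: `p = (ω, z)`, `R = Mm d (m-1) (sk d p)`, `al, be, v₀` at the time `0`, `col` gives `y₀`. For `u, v` on the line, `p' = (upd l c u v ω, z)` (`line`): `Mm d (m-1) (sk d p') = R`
(`Mm_congr`, `Function.iterate_succ_apply`), `Mm d m p' = R * Dm d p' = R * mat al be v₁` (`Mm_add` with `n = 1`), `v₁ = v₀ + A (v - cl ω_i)`, so `|v₁ - y₀| ≤ phC d m p'` (`cn2_pos`), `v₁ - y₀ = A v - y`. -/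

set_option autoImplicit false
open MeasureTheory Real Set
open scoped ENNReal

namespace Pool.Agent.Helper18.FD

open Pool.Agent.Helper18.UC (T2 rep toT nn)

variable {d : Dat}

noncomputable def phC (d : Dat) (m : ℕ) (p : Pt) : ℝ :=
  4 * cn2 (Mm d m p) / cn2 (Mm d (m - 1) (sk d p))

private theorem meas_phC56 (hd : d.Ok) (m : ℕ) : Measurable (phC d m) := by
  unfold phC
  exact (measurable_const.mul (meas_cn2 hd m)).div ((meas_cn2 hd (m - 1)).comp (meas_sk hd))

theorem wegC (hd : d.Ok) {m : ℕ} (hm : 1 ≤ m) :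
    ∫⁻ p, lm (phC d m p) ∂mu ≤ ENNReal.ofReal (10 + Real.log (1 / d.κ)) +
      ENNReal.ofReal (1 + d.s) * ∫⁻ p, lm (sepd d 0 (m - 1) p) ∂mu := by
  obtain ⟨i, rfl⟩ : ∃ i, m = i + 1 := ⟨m - 1, by omega⟩
  rw [show i + 1 - 1 = i by omega]
  refine weg hd (k := 0) (n := i) (by omega) (meas_phC56 hd (i + 1)) ?_
  intro l ω z c hfar hc
  have hb := be_bd hd (ω, z)
  obtain ⟨y₀, hy₀⟩ := col (Mm d i (sk d (ω, z))) (al := al d (ω, z)) (be := be d (ω, z))
    (by linarith [hb.1]) (by linarith [hb.2])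
  refine ⟨y₀ - ve d (ω, z) +
    d.κ * (NN l : ℝ) ^ (-d.s) * cl (ω (l, c.1, c.2, true)), fun u hu v hv huv => ?_⟩
  obtain ⟨-, -, hal, hbe, hve, hvk⟩ := line hd (by omega) hfar hc hu hv huv
  have a0 := hal 0 (by omega)
  have b0 := hbe 0 (by omega)
  rw [Function.iterate_zero, id, id] at a0 b0 hvk
  have e0 : Mm d i (sk d (upd l c u v ω, z)) = Mm d i (sk d (ω, z)) := by
    refine Mm_congr fun j hj => ?_
    rw [← Function.iterate_succ_apply, ← Function.iterate_succ_apply]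
    unfold Dm
    rw [hal (j + 1) (by omega), hbe (j + 1) (by omega), hve (j + 1) (by omega) (by omega)]
  have e1 : Mm d (i + 1) (upd l c u v ω, z) = Mm d i (sk d (ω, z)) * mat (al d (ω, z))
      (be d (ω, z)) (ve d (upd l c u v ω, z)) := by
    rw [Mm_add, Function.iterate_one, e0, show (1 : ℕ) = 0 + 1 from rfl, Mm_succ, Mm_zero,
      Matrix.mul_one, Function.iterate_zero, id]
    unfold Dm
    rw [a0, b0]
  have h1 := hy₀ (ve d (upd l c u v ω, z))
  rw [← e1, ← e0] at h1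
  have h2 : d.κ * (NN l : ℝ) ^ (-d.s) * v - (y₀ - ve d (ω, z) +
      d.κ * (NN l : ℝ) ^ (-d.s) * cl (ω (l, c.1, c.2, true))) =
      ve d (upd l c u v ω, z) - y₀ := by
    rw [hvk]
    ring
  rw [h2]
  unfold phC
  rw [show i + 1 - 1 = i by omega, le_div_iff₀ (cn2_pos (det_Mm hd _ _))]
  exact h1

end Pool.Agent.Helper18.FD
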