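import Pool.Agent.Helper18.FD.Bas
import Pool.Agent.Helper18.FD.Weg

/-! Block FD-PHIR: the Wegner estimate for the first row.

Apply `weg` with `k = m - 2`, `n = m - 1`, `Φ = phR d m`. Verification: `p = (ω, z)`, `L = Mm d (m-2) p`, `al₁, be₁, v₀` at the time `m-2`, `al₂, be₂` at the time `m-1`, `row` gives `y₀`. For `u, v` on the line, `p' = (upd l c u v ω, z)`
(`line`): `Mm d (m-2) p' = L` (`Mm_congr`), `Mm d (m-1) p' = mat al₁ be₁ v₁ * L`, `v₁ = v₀ + A (v - cl ω_i)`, `Mm d m p' = mat al₂ be₂ v₂ * (mat al₁ be₁ v₁ * L)`, so `|v₁ - y₀| ≤ phR d m p'` (`rn1_pos`), `v₁ - y₀ = A v - y`. -/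

set_option autoImplicit false
open MeasureTheory Real Set
open scoped ENNReal

namespace Pool.Agent.Helper18.FD

open Pool.Agent.Helper18.UC (T2 rep toT nn)

variable {d : Dat}

noncomputable def phR (d : Dat) (m : ℕ) (p : Pt) : ℝ := 4 * rn1 (Mm d m p) / rn1 (Mm d (m - 1) p)

private theorem meas_phR68 (hd : d.Ok) (m : ℕ) : Measurable (phR d m) := by
  unfold phR
  exact (measurable_const.mul (meas_rn1 hd m)).div (meas_rn1 hd (m - 1))

theorem wegR (hd : d.Ok) {m : ℕ} (hm : 2 ≤ m) :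
    ∫⁻ p, lm (phR d m p) ∂mu ≤ ENNReal.ofReal (10 + Real.log (1 / d.κ)) +
      ENNReal.ofReal (1 + d.s) * ∫⁻ p, lm (sepd d (m - 2) (m - 1) p) ∂mu := by
  obtain ⟨i, rfl⟩ : ∃ i, m = i + 2 := ⟨m - 2, by omega⟩
  rw [show i + 2 - 2 = i by omega, show i + 2 - 1 = i + 1 by omega]
  refine weg hd (k := i) (n := i + 1) (by omega) (meas_phR68 hd (i + 2)) ?_
  intro l ω z c hfar hc
  have hb := be_bd hd ((sk d)^[i + 1] (ω, z))
  obtain ⟨y₀, hy₀⟩ := row (Mm d i (ω, z)) (al₁ := al d ((sk d)^[i] (ω, z)))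
    (be₁ := be d ((sk d)^[i] (ω, z))) (al₂ := al d ((sk d)^[i + 1] (ω, z)))
    (be₂ := be d ((sk d)^[i + 1] (ω, z))) (by linarith [hb.1]) (by linarith [hb.2])
  refine ⟨y₀ - ve d ((sk d)^[i] (ω, z)) +
    d.κ * (NN l : ℝ) ^ (-d.s) * cl (ω (l, c.1, c.2, true)), fun u hu v hv huv => ?_⟩
  obtain ⟨-, -, hal, hbe, hve, hvk⟩ := line hd (by omega) hfar hc hu hv huv
  have e0 : Mm d i (upd l c u v ω, z) = Mm d i (ω, z) := by
    refine Mm_congr fun j hj => ?_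
    unfold Dm
    rw [hal j (by omega), hbe j (by omega), hve j (by omega) (by omega)]
  have e1 : Mm d (i + 1) (upd l c u v ω, z) = mat (al d ((sk d)^[i] (ω, z)))
      (be d ((sk d)^[i] (ω, z))) (ve d ((sk d)^[i] (upd l c u v ω, z))) * Mm d i (ω, z) := by
    rw [Mm_succ, e0]
    unfold Dm
    rw [hal i (by omega), hbe i (by omega)]
  have e2 : Mm d (i + 2) (upd l c u v ω, z) = mat (al d ((sk d)^[i + 1] (ω, z)))
      (be d ((sk d)^[i + 1] (ω, z))) (ve d ((sk d)^[i + 1] (upd l c u v ω, z))) *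
        Mm d (i + 1) (upd l c u v ω, z) := by
    rw [show i + 2 = (i + 1) + 1 by omega, Mm_succ]
    unfold Dm
    rw [hal (i + 1) (by omega), hbe (i + 1) (by omega)]
  have h1 := hy₀ (ve d ((sk d)^[i] (upd l c u v ω, z)))
    (ve d ((sk d)^[i + 1] (upd l c u v ω, z)))
  rw [← e1, ← e2] at h1
  have h2 : d.κ * (NN l : ℝ) ^ (-d.s) * v - (y₀ - ve d ((sk d)^[i] (ω, z)) +
      d.κ * (NN l : ℝ) ^ (-d.s) * cl (ω (l, c.1, c.2, true))) =
      ve d ((sk d)^[i] (upd l c u v ω, z)) - y₀ := by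
    rw [hvk]
    ring
  rw [h2]
  unfold phR
  rw [show i + 2 - 1 = i + 1 by omega, le_div_iff₀ (rn1_pos (det_Mm hd _ _))]
  exact h1

end Pool.Agent.Helper18.FD
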