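import Pool.Agent.Helper18.FD.Defs

/-! Block FD-REC: solution of the closeness recursion. (Real analysis only.)

Put `Λ = 1 + log A + log (1/κ) ≥ 1`, `α = log (1 + s)/log 2 < 1`. Define `R_0(t) = t + 2`, `R_(n+1)(t) = (1 + s) R_n(t + 1 + (n + 2) log 2) + t + Λ + 6`.
Claim (induction on `n`): `q g (exp (-r)) ≤ exp (-t)` for `1 ≤ g < 2^(n+1)`, `t ≥ 0`, `r ≥ R_n(t)`. `n = 0`: `g = 1`, `3 exp (-r) ≤ exp (-t)` as `log 3 < 2`. Step: `g = 1` as before (`R_(n+1)(t) ≥ t + 2`). Let `2 ≤ k < 2^(n+2)`,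
`t' = t + 1 + (n+2) log 2`, `E = exp (R_n(t')) ≥ 1`; choose the least `l` with `3/NN l ≤ 1/E`, then `NN l ≤ 8 E` (`NN 0 = 8`; otherwise `NN (l-1) < 3E`). With `ρ = exp (-r)`, `r ≥ (1+s) R_n(t') + t + Λ + 6`:
`40 A ρ ≤ 1/(8E) ≤ 1/NN l` as `log 320 < 6`, so the hypothesis gives `g ≤ k/2 < 2^(n+1)` with `q k ρ ≤ 2 ρ (8E)^(1+s)/κ + 2^(n+2) exp (-t')`; first term `≤ 128 E^(1+s) ρ/κ ≤ 128 exp (-6) exp (-t) ≤ exp(-t)/2` (`8^(1+s) ≤ 64`,
`exp 6 > 256`), second `= exp (-t - 1) ≤ exp (-t)/2`.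
Solution: `R_n(t) = A_n t + B_n` with `A_n ≤ 2 (1+s)^n/s`, `B_n ≤ (C/s) (1+s)^n ((n+1)^2 + Λ)` (induction, e.g. `B_n ≤ (1+s)^n (2 + ∑_{i<n} (4 (i+3)/s + Λ + 6))`... any such bound; then `n ≤ (const) (1+δ)^n` absorbs
powers of `n`). For `g ≤ K` take `n` with `2^n ≤ K < 2^(n+1)`: `(1+s)^n = 2^(α n) ≤ K^α` and `(n+2)^3 ≤ C_δ 2^(δ n) ≤ C_δ K^δ` with `δ = (1-α)/2`, `β = α + δ < 1`. (A factor `n` in `B_n` in front of `Λ` is harmless.) -/

set_option autoImplicit false
open Real Set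

namespace Pool.Agent.Helper18.FD

/-- the recursion for the closeness scale -/
private noncomputable def RR71 (s L : ℝ) : ℕ → ℝ → ℝ
  | 0 => fun t => t + 2
  | (n + 1) => fun t => (1 + s) * RR71 s L n (t + 1 + (n + 2) * Real.log 2) + t + L + 6

private lemma RR71_nonneg {s L : ℝ} (hs : 0 < s) (hL : 1 ≤ L) :
    ∀ (n : ℕ) (t : ℝ), 0 ≤ t → 0 ≤ RR71 s L n t := by
  intro n
  induction n with
  | zero => intro t ht; simp only [RR71]; linarith
  | succ n ih =>
    intro t ht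
    have hl : 0 < Real.log 2 := Real.log_pos (by norm_num)
    have h := ih (t + 1 + (n + 2) * Real.log 2) (by positivity)
    simp only [RR71]
    have := mul_nonneg (by linarith : (0 : ℝ) ≤ 1 + s) h
    linarith

private lemma RR71_bound {s L : ℝ} (hs : 0 < s) (hL : 1 ≤ L) :
    ∀ (n : ℕ) (t : ℝ), 0 ≤ t →
    RR71 s L n t ≤ ((1 + s) ^ n * (1 + 1 / s) - 1 / s) * t +
      (1 + s) ^ n * (2 + n * ((1 + 1 / s) * (n + 3) + L + 6)) := by
  intro n
  induction n with
  | zero =>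
    intro t ht
    simp only [RR71, pow_zero, one_mul, Nat.cast_zero, zero_mul, add_zero]
    linarith
  | succ n ih =>
    intro t ht
    have hl : 0 < Real.log 2 := Real.log_pos (by norm_num)
    have hl1 : Real.log 2 ≤ 1 := by
      have := Real.log_le_sub_one_of_pos (show (0 : ℝ) < 2 by norm_num)
      linarith
    have h := ih (t + 1 + (n + 2) * Real.log 2) (by positivity)
    simp only [RR71]
    set p : ℝ := (1 + s) ^ n with hp
    set c : ℝ := 1 + 1 / s with hc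
    have hp1 : 1 ≤ p := one_le_pow₀ (by linarith)
    have hcs : 0 < 1 / s := by positivity
    have hpc : 0 ≤ p * c - 1 / s := by
      have : 1 * c ≤ p * c := mul_le_mul_of_nonneg_right hp1 (by positivity)
      rw [hc] at this ⊢
      linarith
    have hs1 : 0 < 1 + s := by linarith
    have hn0 : (0 : ℝ) ≤ n := Nat.cast_nonneg n
    have e1 : (1 + s) * RR71 s L n (t + 1 + (n + 2) * Real.log 2) ≤
        (1 + s) * ((p * c - 1 / s) * (t + 1 + (n + 2) * Real.log 2) +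
          p * (2 + n * (c * (n + 3) + L + 6))) := mul_le_mul_of_nonneg_left h hs1.le
    have e2 : (p * c - 1 / s) * (1 + (n + 2) * Real.log 2) ≤ p * c * (n + 3) := by
      have a1 : 1 + (n + 2) * Real.log 2 ≤ (n : ℝ) + 3 := by nlinarith
      have a2 : (0 : ℝ) ≤ 1 + (n + 2) * Real.log 2 := by positivity
      calc (p * c - 1 / s) * (1 + (n + 2) * Real.log 2) ≤ (p * c) * (1 + (n + 2) * Real.log 2) :=
            mul_le_mul_of_nonneg_right (by linarith) a2
        _ ≤ p * c * (n + 3) := mul_le_mul_of_nonneg_left a1 (by positivity)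
    have e3 : (1 + s) * ((p * c - 1 / s) * (1 + (n + 2) * Real.log 2)) ≤
        (1 + s) * (p * c * (n + 3)) := mul_le_mul_of_nonneg_left e2 hs1.le
    have e4 : L + 6 ≤ (1 + s) * p * (L + 6) := by
      have : 1 ≤ (1 + s) * p := by nlinarith
      nlinarith
    have e5 : (0 : ℝ) ≤ (1 + s) * p * ((n + 1) * c) := by positivity
    have e6 : (1 + s) * (1 / s) = 1 / s + 1 := by field_simp
    have e7 : (1 + s) ^ (n + 1) = (1 + s) * p := by rw [hp]; ring
    rw [e7]
    push_cast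
    have e8 : (1 + s) * ((p * c - 1 / s) * (t + 1 + (n + 2) * Real.log 2) +
          p * (2 + n * (c * (n + 3) + L + 6))) =
        ((1 + s) * p * c - (1 / s + 1)) * t + (1 + s) * ((p * c - 1 / s) * (1 + (n + 2) * Real.log 2))
          + (1 + s) * p * (2 + n * (c * (n + 3) + L + 6)) := by
      rw [← e6]; ring
    rw [e8] at e1
    have e9 : (1 + s) * p * (2 + (n + 1) * (c * (n + 1 + 3) + L + 6)) =
        (1 + s) * (p * c * (n + 3)) + (1 + s) * p * (2 + n * (c * (n + 3) + L + 6)) +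
          (1 + s) * p * (L + 6) + (1 + s) * p * ((n + 1) * c) := by ring
    rw [e9]
    linarith

private lemma RR71_bound2 {s L : ℝ} (hs : 0 < s) (hL : 1 ≤ L) (n : ℕ) (t : ℝ) (ht : 0 ≤ t) :
    RR71 s L n t ≤ (1 + s) ^ n * ((8 + 1 / s) * ((n : ℝ) + 2) ^ 2 * (t + L)) := by
  have h := RR71_bound hs hL n t ht
  set p : ℝ := (1 + s) ^ n with hp
  have hp1 : 1 ≤ p := one_le_pow₀ (by linarith)
  have hcs : 0 < 1 / s := by positivity
  set d : ℝ := 1 / s with hd
  have hn0 : (0 : ℝ) ≤ n := Nat.cast_nonneg n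
  have h1 : (p * (1 + d) - d) * t ≤ p * ((1 + d) * t) := by nlinarith [mul_nonneg hcs.le ht]
  have h2 : (1 + d) * t + (2 + n * ((1 + d) * (n + 3) + L + 6)) ≤
      (8 + d) * ((n : ℝ) + 2) ^ 2 * (t + L) := by
    have a1 : (2 : ℝ) ≤ 2 * L := by linarith
    have a2 : (n : ℝ) * ((1 + d) * (n + 3)) ≤ (n : ℝ) * ((1 + d) * (n + 3)) * L :=
      le_mul_of_one_le_right (by positivity) hL
    have a3 : (n : ℝ) * 6 ≤ (n : ℝ) * 6 * L := le_mul_of_one_le_right (by positivity) hL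
    have a4 : (1 + d) * t ≤ (8 + d) * ((n : ℝ) + 2) ^ 2 * t := by
      apply mul_le_mul_of_nonneg_right _ ht
      nlinarith [mul_nonneg hcs.le hn0, mul_nonneg hcs.le (mul_nonneg hn0 hn0), mul_nonneg hn0 hn0]
    have a5 : (2 + (n : ℝ) * ((1 + d) * (n + 3)) + 7 * n) * L ≤ (8 + d) * ((n : ℝ) + 2) ^ 2 * L := by
      apply mul_le_mul_of_nonneg_right _ (by linarith)
      nlinarith [mul_nonneg hcs.le hn0, mul_nonneg hcs.le (mul_nonneg hn0 hn0), mul_nonneg hn0 hn0]
    nlinarith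
  calc RR71 s L n t ≤ (p * (1 + d) - d) * t + p * (2 + n * ((1 + d) * (n + 3) + L + 6)) := h
    _ ≤ p * ((1 + d) * t) + p * (2 + n * ((1 + d) * (n + 3) + L + 6)) := by linarith
    _ = p * ((1 + d) * t + (2 + n * ((1 + d) * (n + 3) + L + 6))) := by ring
    _ ≤ p * ((8 + d) * ((n : ℝ) + 2) ^ 2 * (t + L)) := mul_le_mul_of_nonneg_left h2 (by linarith)

private lemma exp6_71 : (320 : ℝ) ≤ Real.exp 6 := by
  have h1 : (2.7 : ℝ) ≤ Real.exp 1 := by
    have := Real.exp_one_gt_d9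
    linarith
  have h2 : Real.exp 6 = Real.exp 1 ^ 6 := by
    rw [← Real.exp_nat_mul]; norm_num
  rw [h2]
  calc (320 : ℝ) ≤ 2.7 ^ 6 := by norm_num
    _ ≤ Real.exp 1 ^ 6 := by gcongr

private lemma base71 (q : ℕ → ℝ → ℝ) (h3 : ∀ ρ, 0 < ρ → q 1 ρ ≤ 3 * ρ) (t r : ℝ) (hr : t + 2 ≤ r) :
    q 1 (Real.exp (-r)) ≤ Real.exp (-t) := by
  have h1 := h3 _ (Real.exp_pos (-r))
  have h2 : (3 : ℝ) ≤ Real.exp 2 := by
    have := Real.add_one_le_exp (2 : ℝ)
    linarith
  have h4 : Real.exp 2 * Real.exp (-r) ≤ Real.exp (-t) := by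
    rw [← Real.exp_add]
    exact Real.exp_le_exp.mpr (by linarith)
  have h5 : 3 * Real.exp (-r) ≤ Real.exp 2 * Real.exp (-r) :=
    mul_le_mul_of_nonneg_right h2 (Real.exp_pos _).le
  linarith

private lemma NN_succ71 (l : ℕ) : (NN (l + 1) : ℝ) = 2 * NN l := by
  unfold NN
  push_cast
  ring

private lemma NN_exists71 (E : ℝ) (hE : 1 ≤ E) : ∃ l : ℕ, 3 * E ≤ NN l ∧ (NN l : ℝ) ≤ 8 * E := by
  classical
  have hex : ∃ l : ℕ, 3 * E ≤ (NN l : ℝ) := by
    obtain ⟨n, hn⟩ := pow_unbounded_of_one_lt (3 * E) (show (1 : ℝ) < 2 by norm_num)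
    refine ⟨n, hn.le.trans ?_⟩
    unfold NN
    push_cast
    exact pow_le_pow_right₀ (by norm_num) (by omega)
  refine ⟨Nat.find hex, Nat.find_spec hex, ?_⟩
  rcases Nat.eq_zero_or_pos (Nat.find hex) with h0 | h0
  · rw [h0]
    have : (NN 0 : ℝ) = 8 := by unfold NN; norm_num
    rw [this]
    linarith
  · obtain ⟨m, hm⟩ := Nat.exists_eq_succ_of_ne_zero h0.ne'
    have hlt : m < Nat.find hex := by omega
    have h1 := Nat.find_min hex hlt
    rw [hm, Nat.succ_eq_add_one, NN_succ71]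
    push Not at h1
    linarith

private lemma recA71 {s A κ : ℝ} (hs : 0 < s) (hs1 : s < 1) (q : ℕ → ℝ → ℝ)
    (hA : 1 ≤ A) (hκ : 0 < κ) (hκ1 : κ ≤ 1)
    (hmono : ∀ k, Monotone (q k)) (h3 : ∀ ρ, 0 < ρ → q 1 ρ ≤ 3 * ρ)
    (H : ∀ k : ℕ, 2 ≤ k → ∀ (l : ℕ) (ρ : ℝ), 0 < ρ → 40 * A * ρ ≤ 1 / NN l →
        ∃ g : ℕ, 1 ≤ g ∧ 2 * g ≤ k ∧ q k ρ ≤ 2 * ρ * (NN l : ℝ) ^ (1 + s) / κ + k * q g (3 / NN l)) :
    ∀ (n : ℕ) (g : ℕ), 1 ≤ g → g < 2 ^ (n + 1) → ∀ t r : ℝ, 0 ≤ t →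
      RR71 s (1 + Real.log A + Real.log (1 / κ)) n t ≤ r →
      q g (Real.exp (-r)) ≤ Real.exp (-t) := by
  have hlA : 0 ≤ Real.log A := Real.log_nonneg hA
  have hlκ : 0 ≤ Real.log (1 / κ) := Real.log_nonneg (by rw [le_div_iff₀ hκ]; linarith)
  set L : ℝ := 1 + Real.log A + Real.log (1 / κ) with hL
  have hL1 : 1 ≤ L := by linarith
  have hl : 0 < Real.log 2 := Real.log_pos (by norm_num)
  intro n
  induction n with
  | zero =>
    intro g hg1 hg2 t r ht hr
    have : g = 1 := by omega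
    subst this
    exact base71 q h3 t r hr
  | succ n ih =>
    intro k hk1 hk2 t r ht hr
    simp only [RR71] at hr
    have ht' : 0 ≤ t + 1 + ((n : ℝ) + 2) * Real.log 2 := by positivity
    have hR0 := RR71_nonneg hs hL1 n _ ht'
    set t' : ℝ := t + 1 + ((n : ℝ) + 2) * Real.log 2 with ht'def
    set R : ℝ := RR71 s L n t' with hR
    have hR1 : R ≤ (1 + s) * R := by nlinarith
    rcases Nat.lt_or_ge k 2 with hk | hk
    · have : k = 1 := by omega
      subst this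
      apply base71 q h3 t r
      have := mul_nonneg (by linarith : (0 : ℝ) ≤ 1 + s) hR0
      linarith
    · set E : ℝ := Real.exp R with hE
      have hE1 : 1 ≤ E := Real.one_le_exp hR0
      have hE0 : 0 < E := Real.exp_pos _
      obtain ⟨l, hl1, hl2⟩ := NN_exists71 E hE1
      have hNN := NN_pos l
      have hρ : 0 < Real.exp (-r) := Real.exp_pos _
      have hc1 : 40 * A * Real.exp (-r) ≤ 1 / NN l := by
        rw [le_div_iff₀ hNN]
        have b1 : A * E * Real.exp (-r) ≤ Real.exp (-6) := by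
          have : A = Real.exp (Real.log A) := (Real.exp_log (by linarith)).symm
          rw [hE]
          nth_rewrite 1 [this]
          rw [← Real.exp_add, ← Real.exp_add]
          exact Real.exp_le_exp.mpr (by linarith)
        have b2 : 320 * Real.exp (-6) ≤ 1 := by
          have := mul_le_mul_of_nonneg_right exp6_71 (Real.exp_pos (-6)).le
          rw [← Real.exp_add] at this
          simpa using this
        calc 40 * A * Real.exp (-r) * NN l ≤ 40 * A * Real.exp (-r) * (8 * E) :=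
              mul_le_mul_of_nonneg_left hl2 (by positivity)
          _ = 320 * (A * E * Real.exp (-r)) := by ring
          _ ≤ 320 * Real.exp (-6) := by linarith
          _ ≤ 1 := b2
      obtain ⟨g, hg1, hg2, hg3⟩ := H k hk l (Real.exp (-r)) hρ hc1
      have hg4 : g < 2 ^ (n + 1) := by
        have : 2 ^ (n + 1 + 1) = 2 * 2 ^ (n + 1) := by ring
        omega
      have hq : q g (3 / NN l) ≤ Real.exp (-t') := by
        have c1 : q g (3 / NN l) ≤ q g (Real.exp (-R)) := by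
          apply hmono g
          rw [div_le_iff₀ hNN, Real.exp_neg, ← hE]
          rw [inv_mul_eq_div, le_div_iff₀ hE0]
          exact hl1
        exact c1.trans (ih g hg1 hg4 t' R ht' le_rfl)
      have hk3 : (k : ℝ) ≤ 2 ^ (n + 2) := by
        have : k ≤ 2 ^ (n + 2) := hk2.le
        exact_mod_cast this
      have hkt : (k : ℝ) * Real.exp (-t') ≤ Real.exp (-t) / 2 := by
        have d1 : (2 : ℝ) ^ (n + 2) = Real.exp (((n : ℝ) + 2) * Real.log 2) := by
          rw [mul_comm, Real.exp_mul, Real.exp_log (by norm_num)]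
          have : ((n : ℝ) + 2) = ((n + 2 : ℕ) : ℝ) := by push_cast; ring
          rw [this, Real.rpow_natCast]
        have d2 : (k : ℝ) * Real.exp (-t') ≤ Real.exp (-t - 1) := by
          calc (k : ℝ) * Real.exp (-t') ≤ 2 ^ (n + 2) * Real.exp (-t') :=
                mul_le_mul_of_nonneg_right hk3 (Real.exp_pos _).le
            _ = Real.exp (-t - 1) := by
              rw [d1, ← Real.exp_add]
              congr 1
              rw [ht'def]
              ring
        have d3 : Real.exp (-t) = Real.exp 1 * Real.exp (-t - 1) := by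
          rw [← Real.exp_add]; congr 1; ring
        have d4 : (2 : ℝ) ≤ Real.exp 1 := by
          have := Real.add_one_le_exp (1 : ℝ)
          linarith
        have d5 : 2 * Real.exp (-t - 1) ≤ Real.exp 1 * Real.exp (-t - 1) :=
          mul_le_mul_of_nonneg_right d4 (Real.exp_pos _).le
        linarith
      have hfirst : 2 * Real.exp (-r) * (NN l : ℝ) ^ (1 + s) / κ ≤ Real.exp (-t) / 2 := by
        have f1 : (NN l : ℝ) ^ (1 + s) ≤ 64 * Real.exp ((1 + s) * R) := by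
          calc (NN l : ℝ) ^ (1 + s) ≤ (8 * E) ^ (1 + s) :=
                Real.rpow_le_rpow hNN.le hl2 (by linarith)
            _ = 8 ^ (1 + s) * E ^ (1 + s) := Real.mul_rpow (by norm_num) hE0.le
            _ ≤ 64 * E ^ (1 + s) := by
              apply mul_le_mul_of_nonneg_right _ (by positivity)
              calc (8 : ℝ) ^ (1 + s) ≤ 8 ^ (2 : ℝ) :=
                    Real.rpow_le_rpow_of_exponent_le (by norm_num) (by linarith)
                _ = 64 := by norm_num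
            _ = 64 * Real.exp ((1 + s) * R) := by
              rw [hE, ← Real.exp_mul, mul_comm R (1 + s)]
        have f2 : 1 / κ = Real.exp (Real.log (1 / κ)) := (Real.exp_log (by positivity)).symm
        have f3 : Real.exp (-r) * Real.exp ((1 + s) * R) * (1 / κ) ≤ Real.exp (-t) * Real.exp (-6) := by
          nth_rewrite 1 [f2]
          rw [← Real.exp_add, ← Real.exp_add, ← Real.exp_add]
          exact Real.exp_le_exp.mpr (by linarith)
        have f4 : 256 * Real.exp (-6) ≤ 1 := by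
          have := mul_le_mul_of_nonneg_right exp6_71 (Real.exp_pos (-6)).le
          rw [← Real.exp_add] at this
          have h0 : Real.exp (6 + -6) = 1 := by simp
          rw [h0] at this
          linarith [Real.exp_pos (-6)]
        calc 2 * Real.exp (-r) * (NN l : ℝ) ^ (1 + s) / κ
            ≤ 2 * Real.exp (-r) * (64 * Real.exp ((1 + s) * R)) / κ := by gcongr
          _ = 128 * (Real.exp (-r) * Real.exp ((1 + s) * R) * (1 / κ)) := by ring
          _ ≤ 128 * (Real.exp (-t) * Real.exp (-6)) := by linarith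
          _ = Real.exp (-t) * (256 * Real.exp (-6)) / 2 := by ring
          _ ≤ Real.exp (-t) * 1 / 2 := by gcongr
          _ = Real.exp (-t) / 2 := by ring
      have hk0 : (0 : ℝ) ≤ k := Nat.cast_nonneg k
      have hqk : (k : ℝ) * q g (3 / NN l) ≤ k * Real.exp (-t') := mul_le_mul_of_nonneg_left hq hk0
      linarith

private lemma poly71 {b : ℝ} (hb : 1 < b) : ∃ M : ℝ, 0 < M ∧ ∀ n : ℕ, ((n : ℝ) + 2) ^ 2 ≤ M * b ^ n := by
  have h := tendsto_pow_const_div_const_pow_of_one_lt 2 hb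
  obtain ⟨M, hM⟩ := h.bddAbove_range
  have hb0 : 0 < b := by linarith
  refine ⟨(max M 1) * b ^ 2, by positivity, fun n => ?_⟩
  have h1 : (((n + 2 : ℕ) : ℝ)) ^ 2 / b ^ (n + 2) ≤ M := hM ⟨n + 2, rfl⟩
  rw [div_le_iff₀ (by positivity)] at h1
  have h2 : (((n + 2 : ℕ) : ℝ)) = (n : ℝ) + 2 := by push_cast; ring
  rw [h2] at h1
  calc ((n : ℝ) + 2) ^ 2 ≤ M * b ^ (n + 2) := h1
    _ ≤ max M 1 * b ^ (n + 2) := mul_le_mul_of_nonneg_right (le_max_left _ _) (by positivity)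
    _ = max M 1 * b ^ 2 * b ^ n := by ring

theorem rec_close {s : ℝ} (hs : 0 < s) (hs1 : s < 1) :
    ∃ β C : ℝ, 0 < β ∧ β < 1 ∧ 0 < C ∧ ∀ (A κ : ℝ) (q : ℕ → ℝ → ℝ), 1 ≤ A → 0 < κ → κ ≤ 1 →
      (∀ k, Monotone (q k)) → (∀ k ρ, 0 ≤ q k ρ) → (∀ ρ, 0 < ρ → q 1 ρ ≤ 3 * ρ) →
      (∀ k : ℕ, 2 ≤ k → ∀ (l : ℕ) (ρ : ℝ), 0 < ρ → 40 * A * ρ ≤ 1 / NN l →
        ∃ g : ℕ, 1 ≤ g ∧ 2 * g ≤ k ∧ q k ρ ≤ 2 * ρ * (NN l : ℝ) ^ (1 + s) / κ + k * q g (3 / NN l)) →
      ∀ K g : ℕ, 1 ≤ g → g ≤ K → ∀ t r : ℝ, 0 ≤ t →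
        C * (K : ℝ) ^ β * (t + (1 + Real.log A + Real.log (1 / κ))) ≤ r →
        q g (Real.exp (-r)) ≤ Real.exp (-t) := by
  have hl : 0 < Real.log 2 := Real.log_pos (by norm_num)
  set α : ℝ := Real.log (1 + s) / Real.log 2 with hα
  have hα0 : 0 < α := div_pos (Real.log_pos (by linarith)) hl
  have hα1 : α < 1 := by
    rw [hα, div_lt_one hl]
    exact Real.log_lt_log (by linarith) (by linarith)
  set δ : ℝ := (1 - α) / 2 with hδ
  have hδ0 : 0 < δ := by rw [hδ]; linarith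
  have h2α : (2 : ℝ) ^ α = 1 + s := by
    rw [Real.rpow_def_of_pos (by norm_num), hα, mul_div_cancel₀ _ hl.ne',
      Real.exp_log (by linarith)]
  have hb : 1 < (2 : ℝ) ^ δ := Real.one_lt_rpow (by norm_num) hδ0
  obtain ⟨M, hM0, hM⟩ := poly71 hb
  refine ⟨α + δ, (8 + 1 / s) * M, by linarith, by rw [hδ]; linarith, by positivity, ?_⟩
  intro A κ q hA hκ hκ1 hmono hq0 h3 H K g hg1 hgK t r ht hr
  have hK1 : 1 ≤ K := hg1.trans hgK
  have hlA : 0 ≤ Real.log A := Real.log_nonneg hA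
  have hlκ : 0 ≤ Real.log (1 / κ) := Real.log_nonneg (by rw [le_div_iff₀ hκ]; linarith)
  have hLL : 1 ≤ 1 + Real.log A + Real.log (1 / κ) := by linarith
  have hlog1 : 2 ^ Nat.log 2 K ≤ K := Nat.pow_log_le_self 2 (by omega)
  have hlog2 : K < 2 ^ (Nat.log 2 K + 1) := Nat.lt_pow_succ_log_self (by norm_num) K
  set n : ℕ := Nat.log 2 K with hn
  refine recA71 hs hs1 q hA hκ hκ1 hmono h3 H n g hg1 (by omega) t r ht (le_trans ?_ hr)
  have h1 := RR71_bound2 hs hLL n t ht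
  refine h1.trans ?_
  have hK0 : (0 : ℝ) < K := by exact_mod_cast hK1
  have h2n : ((2 : ℝ) ^ n) ≤ K := by exact_mod_cast hlog1
  have e1 : (1 + s) ^ n ≤ (K : ℝ) ^ α := by
    rw [← h2α, ← Real.rpow_natCast, ← Real.rpow_mul (by norm_num), mul_comm α, Real.rpow_mul (by norm_num),
      Real.rpow_natCast]
    exact Real.rpow_le_rpow (by positivity) h2n hα0.le
  have e2 : ((2 : ℝ) ^ δ) ^ n ≤ (K : ℝ) ^ δ := by
    rw [← Real.rpow_natCast, ← Real.rpow_mul (by norm_num), mul_comm δ, Real.rpow_mul (by norm_num),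
      Real.rpow_natCast]
    exact Real.rpow_le_rpow (by positivity) h2n hδ0.le
  have e3 : ((n : ℝ) + 2) ^ 2 ≤ M * (K : ℝ) ^ δ :=
    (hM n).trans (mul_le_mul_of_nonneg_left e2 hM0.le)
  have e4 : (0 : ℝ) ≤ t + (1 + Real.log A + Real.log (1 / κ)) := by linarith
  calc (1 + s) ^ n * ((8 + 1 / s) * ((n : ℝ) + 2) ^ 2 * (t + (1 + Real.log A + Real.log (1 / κ))))
      ≤ (K : ℝ) ^ α * ((8 + 1 / s) * (M * (K : ℝ) ^ δ) * (t + (1 + Real.log A + Real.log (1 / κ)))) := by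
        gcongr
    _ = (8 + 1 / s) * M * ((K : ℝ) ^ α * (K : ℝ) ^ δ) * (t + (1 + Real.log A + Real.log (1 / κ))) := by ring
    _ = (8 + 1 / s) * M * (K : ℝ) ^ (α + δ) * (t + (1 + Real.log A + Real.log (1 / κ))) := by
        rw [← Real.rpow_add hK0]

end Pool.Agent.Helper18.FD
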