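import Pool.Agent.Helper18.FD.Q2
import Pool.Agent.Helper18.FD.Rec

/-! Block FD-SEP: the mean of `-log` of the separation.

`lm_le_sum`: for every real `x`: `lm x ≤ ∑' r : ℕ, (if x < exp (-r) then 1 else 0)` (for `0 < x < 1` the number of `r` with `r < -log x` is `⌈-log x⌉ ≥ -log x`; for `x ≤ 0` the sum is infinite).
`sep_int`: `lintegral` of this (`lintegral_tsum`) : `∫⁻ lm (sepd d k n) ≤ ∑' r, mu {sepd d k n < exp (-r)}`, and `{sepd d k n < ρ} ⊆ ⋃_{j ≤ n, j ≠ k} {dist (pw j) (pw k) < ρ}` for `ρ ≤ 1` (`Finset.inf'_lt_iff`), so the measure is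
`≤ min 1 (∑_{j ≠ k} qq d |j - k| ρ)` (`stat`, `dist_comm`). By `rec_close` (for `q = qq d`, `A = |a|`; hypotheses `qq_mono, qq_one, q2`, `measureReal_nonneg`) with `K = n`: for `t ≥ 0`, `r ≥ C n^β (t + Lam d)`: `≤ 2n exp (-t)`.
Let `T = C n^β`, `r₀ = T (log (2n) + Lam d)`: terms `r < r₀ + 1` contribute `≤ r₀ + 2`, terms `r ≥ r₀`: `≤ 2n exp (-(r/T - Lam d))`, geometric with ratio `exp (-1/T)`, sum `≤ 1 + T` (or `≤ 2 + 2T`). Finally
`log (2n) ≤ C' n^δ` and `Lam d ≥ 1`; new `β' = β + δ < 1`. -/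

set_option autoImplicit false
open MeasureTheory Real Set
open scoped ENNReal

namespace Pool.Agent.Helper18.FD

theorem lm_le_sum (x : ℝ) : lm x ≤ ∑' r : ℕ, (if x < Real.exp (-r) then (1 : ℝ≥0∞) else 0) := by
  by_cases hx : x ≤ 0
  · have h1 : (∑' r : ℕ, (if x < Real.exp (-r) then (1 : ℝ≥0∞) else 0)) = ∑' _r : ℕ, (1 : ℝ≥0∞) :=
      tsum_congr fun r => if_pos (lt_of_le_of_lt hx (Real.exp_pos _))
    rw [h1, ENNReal.tsum_const_eq_top_of_ne_zero one_ne_zero]
    exact le_top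
  · have hx0 : 0 < x := lt_of_not_ge hx
    have h1 : lm x = ENNReal.ofReal (-Real.log x) := if_neg hx
    rw [h1]
    have h2 : (∑ r ∈ Finset.range ⌈-Real.log x⌉₊, (if x < Real.exp (-r) then (1 : ℝ≥0∞) else 0)) ≤
        ∑' r : ℕ, (if x < Real.exp (-r) then (1 : ℝ≥0∞) else 0) := ENNReal.sum_le_tsum _
    refine le_trans ?_ h2
    have h3 : (∑ r ∈ Finset.range ⌈-Real.log x⌉₊, (if x < Real.exp (-r) then (1 : ℝ≥0∞) else 0)) =
        ∑ _r ∈ Finset.range ⌈-Real.log x⌉₊, (1 : ℝ≥0∞) := by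
      refine Finset.sum_congr rfl fun r hr => if_pos ?_
      have h4 : (r : ℝ) < -Real.log x := Nat.lt_ceil.1 (Finset.mem_range.1 hr)
      rw [← Real.log_lt_iff_lt_exp hx0]
      linarith
    rw [h3, Finset.sum_const, Finset.card_range, nsmul_eq_mul, mul_one]
    rw [← ENNReal.ofReal_natCast]
    exact ENNReal.ofReal_le_ofReal (Nat.le_ceil _)

theorem one_le_Lam {d : Dat} (hd : d.Ok) : 1 ≤ Lam d := by
  have h1 : 0 ≤ Real.log |d.a| := Real.log_nonneg (le_trans (by norm_num) hd.ha)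
  have h2 : 0 ≤ Real.log (1 / d.κ) := by
    apply Real.log_nonneg
    rw [le_div_iff₀ hd.hκ]
    linarith [hd.hκ1]
  unfold Lam
  linarith

/-- the tail of the geometric series -/
private theorem geo_aux {T : ℝ} (hT : 0 < T) :
    ∑' r : ℕ, ENNReal.ofReal (Real.exp (-((r : ℝ) / T))) ≤ ENNReal.ofReal (1 + T) := by
  have h1 : Real.exp (-(1 / T)) < 1 := by
    rw [Real.exp_lt_one_iff]
    have : 0 < 1 / T := by positivity
    linarith
  have h0 : 0 ≤ Real.exp (-(1 / T)) := (Real.exp_pos _).le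
  have h2 : ∀ r : ℕ, Real.exp (-((r : ℝ) / T)) = Real.exp (-(1 / T)) ^ r := by
    intro r
    rw [← Real.exp_nat_mul]
    congr 1
    ring
  have h3 : Summable fun r : ℕ => Real.exp (-(1 / T)) ^ r := summable_geometric_of_lt_one h0 h1
  have h4 : ∑' r : ℕ, ENNReal.ofReal (Real.exp (-((r : ℝ) / T))) =
      ENNReal.ofReal (∑' r : ℕ, Real.exp (-(1 / T)) ^ r) := by
    rw [ENNReal.ofReal_tsum_of_nonneg (fun r => pow_nonneg h0 r) h3]
    exact tsum_congr fun r => by rw [h2]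
  rw [h4, tsum_geometric_of_lt_one h0 h1]
  apply ENNReal.ofReal_le_ofReal
  have h5 : 1 / T + 1 ≤ Real.exp (1 / T) := Real.add_one_le_exp _
  have h6 : Real.exp (-(1 / T)) ≤ T / (1 + T) := by
    rw [Real.exp_neg]
    rw [inv_le_comm₀ (Real.exp_pos _) (by positivity)]
    refine le_trans (le_of_eq ?_) h5
    field_simp
  have h7 : 1 / (1 + T) ≤ 1 - Real.exp (-(1 / T)) := by
    have : 1 / (1 + T) = 1 - T / (1 + T) := by
      field_simp
      ring
    rw [this]
    linarith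
  rw [inv_le_comm₀ (by linarith) (by positivity)]
  rw [← one_div]
  exact h7

/-- the probability of a small separation -/
private theorem sepd_small {d : Dat} (hd : d.Ok) {k n : ℕ} (hk : k ≤ n) {ρ b : ℝ} (hρ : ρ ≤ 1)
    (hb : ∀ g : ℕ, 1 ≤ g → g ≤ n → qq d g ρ ≤ b) :
    mu {p | sepd d k n p < ρ} ≤ ENNReal.ofReal (n * b) := by
  have hsub : {p | sepd d k n p < ρ} ⊆
      ⋃ j ∈ (Finset.range (n + 1)).erase k, {p | dist (pw d j p) (pw d k p) < ρ} := by
    intro p hp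
    have hp1 : sepd d k n p < ρ := hp
    unfold sepd at hp1
    obtain ⟨j, hj, hj1⟩ := (Finset.inf'_lt_iff (s := Finset.range (n + 1)) ⟨0, by simp⟩
      (f := fun j => if j = k then (1 : ℝ) else dist (pw d j p) (pw d k p))).1 hp1
    simp only [mem_iUnion]
    by_cases hjk : j = k
    · rw [if_pos hjk] at hj1
      linarith
    · rw [if_neg hjk] at hj1
      exact ⟨j, Finset.mem_erase.2 ⟨hjk, hj⟩, hj1⟩
  have hone : ∀ j ∈ (Finset.range (n + 1)).erase k,
      mu {p | dist (pw d j p) (pw d k p) < ρ} ≤ ENNReal.ofReal b := by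
    intro j hj
    obtain ⟨hjk, hjn⟩ := Finset.mem_erase.1 hj
    have hjn' : j ≤ n := by
      have := Finset.mem_range.1 hjn
      omega
    rw [← ENNReal.ofReal_toReal (measure_ne_top mu {p | dist (pw d j p) (pw d k p) < ρ})]
    apply ENNReal.ofReal_le_ofReal
    rcases Nat.lt_or_gt_of_ne hjk with h | h
    · have h1 := stat hd j (k - j) ρ
      rw [Nat.sub_add_cancel h.le] at h1
      have h2 : {p | dist (pw d j p) (pw d k p) < ρ} = {p | dist (pw d k p) (pw d j p) < ρ} := by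
        ext p
        simp only [mem_ofPred_eq]
        rw [dist_comm]
      rw [h2]
      refine le_trans (le_of_eq h1) (hb _ ?_ ?_) <;> omega
    · have h1 := stat hd k (j - k) ρ
      rw [Nat.sub_add_cancel h.le] at h1
      refine le_trans (le_of_eq h1) (hb _ ?_ ?_) <;> omega
  have hcard : ((Finset.range (n + 1)).erase k).card = n := by
    rw [Finset.card_erase_of_mem (Finset.mem_range.2 (by omega)), Finset.card_range]
    rfl
  calc mu {p | sepd d k n p < ρ}
      ≤ mu (⋃ j ∈ (Finset.range (n + 1)).erase k, {p | dist (pw d j p) (pw d k p) < ρ}) :=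
        measure_mono hsub
    _ ≤ ∑ j ∈ (Finset.range (n + 1)).erase k, mu {p | dist (pw d j p) (pw d k p) < ρ} :=
        measure_biUnion_finset_le _ _
    _ ≤ ∑ _j ∈ (Finset.range (n + 1)).erase k, ENNReal.ofReal b := Finset.sum_le_sum hone
    _ = ENNReal.ofReal (n * b) := by
        rw [Finset.sum_const, hcard, nsmul_eq_mul, ENNReal.ofReal_mul (Nat.cast_nonneg n),
          ENNReal.ofReal_natCast]

/-- summation over the levels of the separation -/
private theorem sum_aux (m : ℕ → ℝ≥0∞) (hm1 : ∀ r, m r ≤ 1) {T L : ℝ} (hT : 0 < T) (hL : 0 ≤ L)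
    {n : ℕ} (hn : 1 ≤ n)
    (hm : ∀ r : ℕ, T * L ≤ r → m r ≤ ENNReal.ofReal (n * Real.exp (-((r : ℝ) / T - L)))) :
    ∑' r, m r ≤ ENNReal.ofReal (T * (Real.log n + L + 1) + 2) := by
  have hn1 : (1 : ℝ) ≤ n := by exact_mod_cast hn
  have hlog : 0 ≤ Real.log n := Real.log_nonneg hn1
  set N : ℕ := ⌈T * (Real.log n + L)⌉₊ with hN
  have hNle : T * (Real.log n + L) ≤ N := Nat.le_ceil _
  have hNlt : (N : ℝ) < T * (Real.log n + L) + 1 := Nat.ceil_lt_add_one (by positivity)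
  have h1 : ∑' r, m r = ∑ r ∈ Finset.range N, m r + ∑' r, m (r + N) := by
    have := (ENNReal.summable (f := fun r => m (r + N))).sum_add_tsum_nat_add' (f := m) (k := N)
    exact this.symm
  have h2 : ∑ r ∈ Finset.range N, m r ≤ ENNReal.ofReal (T * (Real.log n + L) + 1) := by
    calc ∑ r ∈ Finset.range N, m r ≤ ∑ _r ∈ Finset.range N, (1 : ℝ≥0∞) :=
          Finset.sum_le_sum fun r _ => hm1 r
      _ = ENNReal.ofReal N := by
          rw [Finset.sum_const, Finset.card_range, nsmul_eq_mul, mul_one, ENNReal.ofReal_natCast]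
      _ ≤ _ := ENNReal.ofReal_le_ofReal hNlt.le
  have h3 : ∑' r, m (r + N) ≤ ∑' r : ℕ, ENNReal.ofReal (Real.exp (-((r : ℝ) / T))) := by
    refine ENNReal.tsum_le_tsum fun r => ?_
    have hr : T * L ≤ ((r + N : ℕ) : ℝ) := by
      push_cast
      have : 0 ≤ T * Real.log n := by positivity
      have hr0 : (0 : ℝ) ≤ r := Nat.cast_nonneg r
      nlinarith
    refine (hm _ hr).trans (ENNReal.ofReal_le_ofReal ?_)
    have h4 : Real.log n + L ≤ (N : ℝ) / T := by
      rw [le_div_iff₀ hT]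
      linarith
    have h5 : (n : ℝ) = Real.exp (Real.log n) := (Real.exp_log (by linarith)).symm
    calc (n : ℝ) * Real.exp (-(((r + N : ℕ) : ℝ) / T - L))
        = Real.exp (Real.log n) * Real.exp (-(((r + N : ℕ) : ℝ) / T - L)) := by rw [← h5]
      _ = Real.exp (Real.log n + -(((r + N : ℕ) : ℝ) / T - L)) := (Real.exp_add _ _).symm
      _ ≤ Real.exp (-((r : ℝ) / T)) := by
          apply Real.exp_le_exp.2
          push_cast
          rw [add_div]
          linarith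
  rw [h1]
  calc ∑ r ∈ Finset.range N, m r + ∑' r, m (r + N)
      ≤ ENNReal.ofReal (T * (Real.log n + L) + 1) + ENNReal.ofReal (1 + T) :=
        add_le_add h2 (h3.trans (geo_aux hT))
    _ = ENNReal.ofReal (T * (Real.log n + L) + 1 + (1 + T)) := by
        rw [← ENNReal.ofReal_add (by positivity) (by positivity)]
    _ = _ := by congr 1; ring

theorem sep_int {s : ℝ} (hs : 0 < s) (hs1 : s < 1) :
    ∃ β C : ℝ, 0 < β ∧ β < 1 ∧ 0 < C ∧ ∀ d : Dat, d.Ok → d.s = s → ∀ k n : ℕ, k ≤ n → 1 ≤ n →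
      ∫⁻ p, lm (sepd d k n p) ∂mu ≤ ENNReal.ofReal (C * (n : ℝ) ^ β * Lam d) := by
  obtain ⟨β, C, hβ, hβ1, hC, hrec⟩ := rec_close hs hs1
  set δ : ℝ := (1 - β) / 2 with hδ
  have hδ0 : 0 < δ := by rw [hδ]; linarith
  refine ⟨β + δ, C * (1 / δ + 2) + 2, by linarith, by rw [hδ]; linarith, by positivity, ?_⟩
  intro d hd hds k n hk hn
  have hn1 : (1 : ℝ) ≤ n := by exact_mod_cast hn
  have hL := one_le_Lam hd
  have hT : 0 < C * (n : ℝ) ^ β := by positivity
  have hmeas : ∀ r : ℕ, MeasurableSet {p | sepd d k n p < Real.exp (-(r : ℝ))} := fun r =>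
    measurableSet_lt (meas_sepd hd k n) measurable_const
  have hstep : ∫⁻ p, lm (sepd d k n p) ∂mu ≤ ∑' r : ℕ, mu {p | sepd d k n p < Real.exp (-(r : ℝ))} := by
    calc ∫⁻ p, lm (sepd d k n p) ∂mu
        ≤ ∫⁻ p, ∑' r : ℕ, (if sepd d k n p < Real.exp (-r) then (1 : ℝ≥0∞) else 0) ∂mu :=
          lintegral_mono fun p => lm_le_sum _
      _ = ∑' r : ℕ, ∫⁻ p, (if sepd d k n p < Real.exp (-r) then (1 : ℝ≥0∞) else 0) ∂mu := by
          refine lintegral_tsum fun r => ?_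
          exact (Measurable.ite (hmeas r) measurable_const measurable_const).aemeasurable
      _ = ∑' r : ℕ, mu {p | sepd d k n p < Real.exp (-(r : ℝ))} := by
          refine tsum_congr fun r => ?_
          have h1 := lintegral_indicator_one (μ := mu) (hmeas r)
          rw [← h1]
          rfl
  refine hstep.trans ?_
  have hq : ∀ g : ℕ, 1 ≤ g → g ≤ n → ∀ t r : ℝ, 0 ≤ t → C * (n : ℝ) ^ β * (t + Lam d) ≤ r →
      qq d g (Real.exp (-r)) ≤ Real.exp (-t) := by
    intro g hg hgn t r ht hr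
    refine hrec |d.a| d.κ (qq d) ?_ hd.hκ ?_ (qq_mono d) ?_ ?_ ?_ n g hg hgn t r ht ?_
    · linarith [hd.ha]
    · linarith [hd.hκ1]
    · intro k ρ
      exact measureReal_nonneg
    · intro ρ hρ
      exact qq_one hd hρ
    · intro k hk2 l ρ hρ h
      have h2 := q2 hd hk2 l hρ h
      rw [hds] at h2
      exact h2
    · unfold Lam at hr
      exact hr
  have hsum := sum_aux (fun r : ℕ => mu {p | sepd d k n p < Real.exp (-(r : ℝ))})
    (fun r => prob_le_one) (T := C * (n : ℝ) ^ β) (L := Lam d) hT (by linarith) hn ?_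
  · refine hsum.trans (ENNReal.ofReal_le_ofReal ?_)
    have h1 : Real.log n ≤ (n : ℝ) ^ δ / δ := Real.log_le_rpow_div (by linarith) hδ0
    have h2 : (n : ℝ) ^ (β + δ) = (n : ℝ) ^ β * (n : ℝ) ^ δ := Real.rpow_add (by linarith) _ _
    have h3 : 1 ≤ (n : ℝ) ^ δ := Real.one_le_rpow hn1 hδ0.le
    have h4 : 1 ≤ (n : ℝ) ^ β := Real.one_le_rpow hn1 hβ.le
    have hδ1 : 0 < 1 / δ := by positivity
    have h5 : Real.log n ≤ 1 / δ * (n : ℝ) ^ δ * Lam d := by
      calc Real.log n ≤ (n : ℝ) ^ δ / δ := h1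
        _ = 1 / δ * (n : ℝ) ^ δ * 1 := by ring
        _ ≤ 1 / δ * (n : ℝ) ^ δ * Lam d := mul_le_mul_of_nonneg_left hL (by positivity)
    have h6 : Lam d ≤ (n : ℝ) ^ δ * Lam d := by nlinarith
    have h7 : (1 : ℝ) ≤ (n : ℝ) ^ δ * Lam d := by nlinarith
    have h8 : Real.log n + Lam d + 1 ≤ (1 / δ + 2) * ((n : ℝ) ^ δ * Lam d) := by
      have : (1 / δ + 2) * ((n : ℝ) ^ δ * Lam d) =
          1 / δ * (n : ℝ) ^ δ * Lam d + (n : ℝ) ^ δ * Lam d + (n : ℝ) ^ δ * Lam d := by ring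
      rw [this]
      linarith
    have h9 : (2 : ℝ) ≤ 2 * ((n : ℝ) ^ β * ((n : ℝ) ^ δ * Lam d)) := by nlinarith
    have h10 : C * (n : ℝ) ^ β * (Real.log n + Lam d + 1) ≤
        C * (n : ℝ) ^ β * ((1 / δ + 2) * ((n : ℝ) ^ δ * Lam d)) :=
      mul_le_mul_of_nonneg_left h8 hT.le
    calc C * (n : ℝ) ^ β * (Real.log n + Lam d + 1) + 2
        ≤ C * (n : ℝ) ^ β * ((1 / δ + 2) * ((n : ℝ) ^ δ * Lam d)) +
          2 * ((n : ℝ) ^ β * ((n : ℝ) ^ δ * Lam d)) := add_le_add h10 h9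
      _ = (C * (1 / δ + 2) + 2) * (n : ℝ) ^ (β + δ) * Lam d := by
          rw [h2]
          ring
  · intro r hr
    refine sepd_small hd hk ?_ ?_
    · rw [Real.exp_le_one_iff]
      have : (0 : ℝ) ≤ r := Nat.cast_nonneg r
      linarith
    · intro g hg hgn
      refine hq g hg hgn ((r : ℝ) / (C * (n : ℝ) ^ β) - Lam d) r ?_ ?_
      · have : Lam d ≤ (r : ℝ) / (C * (n : ℝ) ^ β) := by
          rw [le_div_iff₀ hT]
          linarith
        linarith
      · apply le_of_eq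
        field_simp
        ring

end Pool.Agent.Helper18.FD
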