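import Pool.Agent.Helper18.FD.PhiJ
import Pool.Agent.Helper18.FD.PhiR
import Pool.Agent.Helper18.FD.PhiC
import Pool.Agent.Helper18.FD.Sep

/-! Block FD-DBL: doubling.

`dbl_pt`: put `L = Mm d m p`, `X = Mm d (m-1) p`, `q = (sk d)^[m] p`, `R = Mm d m q`, `R' = Mm d (m-1) (sk d q)`; `L = Dm * X` (`Mm_succ`), `R = R' * Dm d q` (`Mm_add`). All determinants are one, all `nn, rn1, cn2 > 0`.
`row_nn`: `nn L ≤ 2 rn1 L + 2 rn1 X = rn1 L (2 + 8/phR) ≤ 10 rn1 L max(1, 1/phR)`. `col_nn`: `nn R ≤ (1 + |al|) cn2 R + 2 cn2 R' = cn2 R (1 + |al| + 8/phC(q)) ≤ 8|a| cn2 R max(1, 1/phC(q))` (`al_le`, `|a| ≥ 100`).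
`phJ = 4 nn (Mm d (2m) p)/(cn2 R rn1 L)`, so `log cn2 R + log rn1 L = log 4 + log nn (Mm d (2m) p) - log phJ`. `4 * 10 * 8 = 320`.
`dbl`: integrate `dbl_pt` (`Em_sk`, `int_log_nn`); for `Φ > 0` : `lm Φ = ofReal (max 0 (-log Φ))`, so `∫ max 0 (-log Φ) = (∫⁻ lm Φ).toReal`, finite by `wegJ, wegR, wegC` and `sep_int` (`β₀, C₀`):
each `≤ 10 + log (1/κ) + 2 C₀ (2m)^β₀ Lam d`. Finally `log (320 |a|) ≤ 6 + log |a|`, `Lam d ≥ 1`, `m ≥ 1`; `Real.log (1/κ) ≥ 0`. -/

set_option autoImplicit false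
open MeasureTheory Real Set
open scoped ENNReal

namespace Pool.Agent.Helper18.FD

open Pool.Agent.Helper18.UC (T2 rep toT nn)

variable {d : Dat}

private theorem nn_pos81 {B : Matrix (Fin 2) (Fin 2) ℝ} (h : B.det = 1) : 0 < nn B := by
  have := nn_ge_two h
  linarith

/-- from `x ≤ y * (c + e / φ)` to logarithms -/
private theorem log_aux81 {x y c e K φ : ℝ} (hx : 0 < x) (hy : 0 < y) (_hφ : 0 < φ) (hc : 0 ≤ c)
    (he : 0 ≤ e) (hK : 0 < K) (hcK : c + e ≤ K) (h : x ≤ y * (c + e / φ)) :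
    Real.log x ≤ Real.log y + Real.log K + max 0 (-Real.log φ) := by
  have h1 : c + e / φ ≤ K * max 1 φ⁻¹ := by
    have h2 : c ≤ c * max 1 φ⁻¹ := le_mul_of_one_le_right hc (le_max_left _ _)
    have h3 : e / φ ≤ e * max 1 φ⁻¹ := by
      rw [div_eq_mul_inv]
      exact mul_le_mul_of_nonneg_left (le_max_right _ _) he
    calc c + e / φ ≤ (c + e) * max 1 φ⁻¹ := by rw [add_mul]; exact add_le_add h2 h3
      _ ≤ K * max 1 φ⁻¹ := mul_le_mul_of_nonneg_right hcK (by positivity)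
  have hm0 : 0 < max 1 φ⁻¹ := lt_of_lt_of_le one_pos (le_max_left _ _)
  have h2 : x ≤ y * (K * max 1 φ⁻¹) := h.trans (mul_le_mul_of_nonneg_left h1 hy.le)
  have h3 := Real.log_le_log hx h2
  rw [Real.log_mul hy.ne' (mul_pos hK hm0).ne', Real.log_mul hK.ne' hm0.ne'] at h3
  have h4 : Real.log (max 1 φ⁻¹) ≤ max 0 (-Real.log φ) := by
    rcases max_choice 1 φ⁻¹ with h5 | h5
    · rw [h5, Real.log_one]
      exact le_max_left _ _
    · rw [h5, Real.log_inv]
      exact le_max_right _ _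
  linarith

private theorem Mm_one81 (q : Pt) : Mm d 1 q = Dm d q := by
  have h := Mm_succ d 0 q
  rw [Mm_zero, Matrix.mul_one] at h
  exact h

private theorem phR_pos81 (hd : d.Ok) (m : ℕ) (p : Pt) : 0 < phR d m p := by
  unfold phR
  have h1 := rn1_pos (det_Mm hd m p)
  have h2 := rn1_pos (det_Mm hd (m - 1) p)
  positivity

private theorem phC_pos81 (hd : d.Ok) (m : ℕ) (p : Pt) : 0 < phC d m p := by
  unfold phC
  have h1 := cn2_pos (det_Mm hd m p)
  have h2 := cn2_pos (det_Mm hd (m - 1) (sk d p))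
  positivity

private theorem phJ_pos81 (hd : d.Ok) (m : ℕ) (p : Pt) : 0 < phJ d m p := by
  unfold phJ
  have h1 := cn2_pos (det_Mm hd m ((sk d)^[m] p))
  have h2 := rn1_pos (det_Mm hd m p)
  have h3 := nn_pos81 (det_Mm hd (2 * m) p)
  positivity

theorem dbl_pt (hd : d.Ok) {m : ℕ} (hm : 2 ≤ m) (p : Pt) :
    Real.log (nn (Mm d m p)) + Real.log (nn (Mm d m ((sk d)^[m] p))) ≤
      Real.log (nn (Mm d (2 * m) p)) + Real.log (320 * |d.a|) + max 0 (-Real.log (phJ d m p)) +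
      max 0 (-Real.log (phR d m p)) + max 0 (-Real.log (phC d m ((sk d)^[m] p))) := by
  obtain ⟨k, rfl⟩ : ∃ k, m = k + 1 := ⟨m - 1, by omega⟩
  set q : Pt := (sk d)^[k + 1] p with hq
  have ha := hd.ha
  have ha0 : 0 < |d.a| := by linarith
  have hv : ∀ p : Pt, |ve d p| ≤ 1 := fun p =>
    ((coef_bd hd p).2.1.trans (eta_le hd)).trans (by norm_num)
  -- the row estimate
  have hX := rn1_pos (det_Mm hd k p)
  have hL := rn1_pos (det_Mm hd (k + 1) p)
  have hR1 : nn (Mm d (k + 1) p) ≤ rn1 (Mm d (k + 1) p) * (2 + 8 / phR d (k + 1) p) := by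
    have h1 : nn (Mm d (k + 1) p) ≤ 2 * rn1 (Mm d (k + 1) p) + 2 * rn1 (Mm d k p) := by
      rw [Mm_succ d k p]
      have hb := be_bd hd ((sk d)^[k] p)
      exact row_nn (Mm d k p) (by linarith [hb.1]) (by linarith [hb.2]) (hv _)
    have h2 : rn1 (Mm d (k + 1) p) * (2 + 8 / phR d (k + 1) p) =
        2 * rn1 (Mm d (k + 1) p) + 2 * rn1 (Mm d k p) := by
      unfold phR
      rw [Nat.add_sub_cancel]
      field_simp
      ring
    rw [h2]
    exact h1
  have hrow := log_aux81 (nn_pos81 (det_Mm hd (k + 1) p)) hL (phR_pos81 hd (k + 1) p)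
    (by norm_num) (by norm_num) (K := 10) (by norm_num) (by norm_num) hR1
  -- the column estimate
  have hR' := cn2_pos (det_Mm hd k (sk d q))
  have hR := cn2_pos (det_Mm hd (k + 1) q)
  have hal := al_le hd q
  have hC1 : nn (Mm d (k + 1) q) ≤ cn2 (Mm d (k + 1) q) * ((1 + |al d q|) + 8 / phC d (k + 1) q) := by
    have h1 : nn (Mm d (k + 1) q) ≤ (1 + |al d q|) * cn2 (Mm d (k + 1) q) +
        2 * cn2 (Mm d k (sk d q)) := by
      have h0 : Mm d (k + 1) q = Mm d k (sk d q) * mat (al d q) (be d q) (ve d q) := by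
        have h3 := Mm_add d k 1 q
        rw [Mm_one81] at h3
        exact h3
      rw [h0]
      have hb := be_bd hd q
      exact col_nn (Mm d k (sk d q)) (by linarith [hb.1]) (by linarith [hb.2])
    have h2 : cn2 (Mm d (k + 1) q) * ((1 + |al d q|) + 8 / phC d (k + 1) q) =
        (1 + |al d q|) * cn2 (Mm d (k + 1) q) + 2 * cn2 (Mm d k (sk d q)) := by
      unfold phC
      rw [Nat.add_sub_cancel]
      field_simp
      ring
    rw [h2]
    exact h1
  have hcol := log_aux81 (nn_pos81 (det_Mm hd (k + 1) q)) hR (phC_pos81 hd (k + 1) q)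
    (by positivity) (by norm_num) (K := 8 * |d.a|) (by positivity) (by linarith) hC1
  -- the junction
  have hN := nn_pos81 (det_Mm hd (2 * (k + 1)) p)
  have hJ : Real.log (cn2 (Mm d (k + 1) q)) + Real.log (rn1 (Mm d (k + 1) p)) =
      Real.log 4 + Real.log (nn (Mm d (2 * (k + 1)) p)) - Real.log (phJ d (k + 1) p) := by
    unfold phJ
    rw [← hq, Real.log_div (by positivity) (by positivity), Real.log_mul (by norm_num) hN.ne',
      Real.log_mul hR.ne' hL.ne']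
    ring
  have hmax : -Real.log (phJ d (k + 1) p) ≤ max 0 (-Real.log (phJ d (k + 1) p)) := le_max_right _ _
  have hlog : Real.log (320 * |d.a|) = Real.log 4 + Real.log 10 + Real.log (8 * |d.a|) := by
    rw [← Real.log_mul (by norm_num) (by norm_num), ← Real.log_mul (by norm_num) (by positivity)]
    congr 1
    ring
  rw [hlog]
  linarith

private theorem lm_eq81 {x : ℝ} (hx : 0 < x) : lm x = ENNReal.ofReal (max 0 (-Real.log x)) := by
  unfold lm
  rw [if_neg (not_le.2 hx)]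
  rcases le_total 0 (-Real.log x) with h | h
  · rw [max_eq_right h]
  · rw [max_eq_left h, ENNReal.ofReal_zero, ENNReal.ofReal_of_nonpos h]

private theorem int_bd81 {Φ : Pt → ℝ} (hΦ : Measurable Φ) (hpos : ∀ p, 0 < Φ p) {B : ℝ}
    (hB : 0 ≤ B) (h : ∫⁻ p, lm (Φ p) ∂mu ≤ ENNReal.ofReal B) :
    Integrable (fun p => max 0 (-Real.log (Φ p))) mu ∧
      ∫ p, max 0 (-Real.log (Φ p)) ∂mu ≤ B := by
  have hm : Measurable fun p => max 0 (-Real.log (Φ p)) :=
    measurable_const.max (Real.measurable_log.comp hΦ).neg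
  have h1 : ∫⁻ p, ENNReal.ofReal (max 0 (-Real.log (Φ p))) ∂mu ≤ ENNReal.ofReal B := by
    refine le_trans (le_of_eq ?_) h
    refine lintegral_congr fun p => ?_
    rw [lm_eq81 (hpos p)]
  have h0 : 0 ≤ᵐ[mu] fun p => max 0 (-Real.log (Φ p)) :=
    Filter.Eventually.of_forall fun p => le_max_left (0 : ℝ) (-Real.log (Φ p))
  refine ⟨⟨hm.aestronglyMeasurable, ?_⟩, ?_⟩
  · rw [hasFiniteIntegral_iff_ofReal h0]
    exact lt_of_le_of_lt h1 ENNReal.ofReal_lt_top
  · rw [integral_eq_lintegral_of_nonneg_ae h0 hm.aestronglyMeasurable]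
    exact ENNReal.toReal_le_of_le_ofReal hB h1

private theorem log320_81 : Real.log 320 ≤ 6 := by
  rw [Real.log_le_iff_le_exp (by norm_num)]
  have h1 : Real.exp 6 = Real.exp 1 ^ 6 := by
    rw [← Real.exp_nat_mul]
    norm_num
  rw [h1]
  have h2 : (2.7 : ℝ) ≤ Real.exp 1 := by
    have := Real.exp_one_gt_d9
    linarith
  calc (320 : ℝ) ≤ 2.7 ^ 6 := by norm_num
    _ ≤ Real.exp 1 ^ 6 := pow_le_pow_left₀ (by norm_num) h2 6

theorem dbl {s : ℝ} (hs : 0 < s) (hs1 : s < 1) :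
    ∃ β C : ℝ, 0 < β ∧ β < 1 ∧ 0 < C ∧ ∀ d : Dat, d.Ok → d.s = s → ∀ m : ℕ, 2 ≤ m →
      2 * Em d m ≤ Em d (2 * m) + C * (m : ℝ) ^ β * Lam d := by
  obtain ⟨β, C₀, hβ, hβ1, hC₀, hsep⟩ := sep_int hs hs1
  refine ⟨β, 36 + 12 * C₀, hβ, hβ1, by positivity, fun d hd hds m hm => ?_⟩
  have hm1 : (1 : ℝ) ≤ m := by exact_mod_cast (by omega : 1 ≤ m)
  have hm0 : (0 : ℝ) < m := by linarith
  have hLam := one_le_Lam hd
  have hκ0 : 0 ≤ Real.log (1 / d.κ) := by
    apply Real.log_nonneg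
    rw [le_div_iff₀ hd.hκ]
    have := hd.hκ1
    linarith
  have ha := hd.ha
  have ha0 : 0 < |d.a| := by linarith
  have hla : 0 ≤ Real.log |d.a| := Real.log_nonneg (by linarith)
  set B : ℝ := 10 + Real.log (1 / d.κ) + 2 * (C₀ * (2 * (m : ℝ)) ^ β * Lam d) with hB
  have hS0 : 0 ≤ C₀ * (2 * (m : ℝ)) ^ β * Lam d := by positivity
  have hB0 : 0 ≤ B := by positivity
  -- the separation integrals
  have hsb : ∀ k n : ℕ, k ≤ n → 1 ≤ n → n ≤ 2 * m →
      ENNReal.ofReal (10 + Real.log (1 / d.κ)) +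
      ENNReal.ofReal (1 + d.s) * ∫⁻ p, lm (sepd d k n p) ∂mu ≤ ENNReal.ofReal B := by
    intro k n hk hn hn2
    have h1 := hsep d hd hds k n hk hn
    have h2 : C₀ * (n : ℝ) ^ β * Lam d ≤ C₀ * (2 * (m : ℝ)) ^ β * Lam d := by
      have h3 : (n : ℝ) ≤ 2 * m := by exact_mod_cast hn2
      have h4 : (n : ℝ) ^ β ≤ (2 * (m : ℝ)) ^ β := Real.rpow_le_rpow (by positivity) h3 hβ.le
      gcongr
    have h3 := h1.trans (ENNReal.ofReal_le_ofReal h2)
    have h4 : ENNReal.ofReal (1 + d.s) ≤ ENNReal.ofReal 2 :=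
      ENNReal.ofReal_le_ofReal (by linarith [hd.hs1])
    calc ENNReal.ofReal (10 + Real.log (1 / d.κ)) +
          ENNReal.ofReal (1 + d.s) * ∫⁻ p, lm (sepd d k n p) ∂mu
        ≤ ENNReal.ofReal (10 + Real.log (1 / d.κ)) +
          ENNReal.ofReal 2 * ENNReal.ofReal (C₀ * (2 * (m : ℝ)) ^ β * Lam d) := by
          gcongr
      _ = ENNReal.ofReal B := by
          rw [← ENNReal.ofReal_mul (by norm_num), ← ENNReal.ofReal_add (by positivity)
            (by positivity), hB]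
  have hskm : Measurable ((sk d)^[m]) := (meas_sk hd).iterate m
  -- the three functions
  have mJ : Measurable (phJ d m) :=
    ((meas_nn hd (2 * m)).const_mul 4).div (((meas_cn2 hd m).comp hskm).mul (meas_rn1 hd m))
  have mR : Measurable (phR d m) := ((meas_rn1 hd m).const_mul 4).div (meas_rn1 hd (m - 1))
  have mC : Measurable (phC d m) :=
    ((meas_cn2 hd m).const_mul 4).div ((meas_cn2 hd (m - 1)).comp (meas_sk hd))
  have iJ := int_bd81 mJ (phJ_pos81 hd m) hB0 ((wegJ hd (by omega : 1 ≤ m)).trans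
    (hsb (m - 1) (2 * m - 1) (by omega) (by omega) (by omega)))
  have iR := int_bd81 mR (phR_pos81 hd m) hB0 ((wegR hd hm).trans
    (hsb (m - 2) (m - 1) (by omega) (by omega) (by omega)))
  have iC : Integrable (fun p => max 0 (-Real.log (phC d m ((sk d)^[m] p)))) mu ∧
      ∫ p, max 0 (-Real.log (phC d m ((sk d)^[m] p))) ∂mu ≤ B := by
    refine int_bd81 (Φ := fun p => phC d m ((sk d)^[m] p)) (mC.comp hskm)
      (fun p => phC_pos81 hd m _) hB0 ?_
    have h1 : ∫⁻ p, lm (phC d m ((sk d)^[m] p)) ∂mu = ∫⁻ p, lm (phC d m p) ∂mu :=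
      (sk_iter_mp hd m).lintegral_comp (f := fun p => lm (phC d m p)) (meas_lm.comp mC)
    rw [h1]
    exact (wegC hd (by omega : 1 ≤ m)).trans (hsb 0 (m - 1) (by omega) (by omega) (by omega))
  -- integrate the pointwise inequality
  have i1 := int_log_nn hd m
  have i2 : Integrable (fun p => Real.log (nn (Mm d m ((sk d)^[m] p)))) mu :=
    (sk_iter_mp hd m).integrable_comp_of_integrable i1
  have i3 := int_log_nn hd (2 * m)
  have j1 : Integrable (fun p => Real.log (nn (Mm d (2 * m) p)) + Real.log (320 * |d.a|)) mu :=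
    i3.add (integrable_const _)
  have j2 : Integrable (fun p => Real.log (nn (Mm d (2 * m) p)) + Real.log (320 * |d.a|) +
      max 0 (-Real.log (phJ d m p))) mu := j1.add iJ.1
  have j3 : Integrable (fun p => Real.log (nn (Mm d (2 * m) p)) + Real.log (320 * |d.a|) +
      max 0 (-Real.log (phJ d m p)) + max 0 (-Real.log (phR d m p))) mu := j2.add iR.1
  have hint : ∫ p, (Real.log (nn (Mm d m p)) + Real.log (nn (Mm d m ((sk d)^[m] p)))) ∂mu ≤
      ∫ p, (Real.log (nn (Mm d (2 * m) p)) + Real.log (320 * |d.a|) +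
        max 0 (-Real.log (phJ d m p)) + max 0 (-Real.log (phR d m p)) +
        max 0 (-Real.log (phC d m ((sk d)^[m] p)))) ∂mu :=
    integral_mono (i1.add i2) (j3.add iC.1) (fun p => dbl_pt hd hm p)
  rw [integral_add i1 i2, Em_sk hd m m, integral_add j3 iC.1, integral_add j2 iR.1,
    integral_add j1 iJ.1, integral_add i3 (integrable_const _)] at hint
  have hc : ∫ _ : Pt, Real.log (320 * |d.a|) ∂mu = Real.log (320 * |d.a|) := by
    rw [integral_const, probReal_univ, one_smul]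
  rw [hc] at hint
  have e1 : ∫ p, Real.log (nn (Mm d m p)) ∂mu = Em d m := rfl
  have e2 : ∫ p, Real.log (nn (Mm d (2 * m) p)) ∂mu = Em d (2 * m) := rfl
  rw [e1, e2] at hint
  have hfin : Real.log (320 * |d.a|) + 3 * B ≤ (36 + 12 * C₀) * (m : ℝ) ^ β * Lam d := by
    have h1 : Real.log (320 * |d.a|) ≤ 6 + Real.log |d.a| := by
      rw [Real.log_mul (by norm_num) ha0.ne']
      linarith [log320_81]
    have h2 : (1 : ℝ) ≤ (m : ℝ) ^ β := Real.one_le_rpow hm1 hβ.le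
    have h3 : (2 * (m : ℝ)) ^ β ≤ 2 * (m : ℝ) ^ β := by
      rw [Real.mul_rpow (by norm_num) hm0.le]
      have h4 : (2 : ℝ) ^ β ≤ 2 := by
        calc (2 : ℝ) ^ β ≤ 2 ^ (1 : ℝ) := Real.rpow_le_rpow_of_exponent_le (by norm_num) hβ1.le
          _ = 2 := Real.rpow_one 2
      gcongr
    have h4 : C₀ * (2 * (m : ℝ)) ^ β * Lam d ≤ 2 * C₀ * ((m : ℝ) ^ β * Lam d) := by
      calc C₀ * (2 * (m : ℝ)) ^ β * Lam d ≤ C₀ * (2 * (m : ℝ) ^ β) * Lam d := by gcongr
        _ = _ := by ring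
    have h5 : Lam d ≤ (m : ℝ) ^ β * Lam d := le_mul_of_one_le_left (by linarith) h2
    have h6 : Lam d = 1 + Real.log |d.a| + Real.log (1 / d.κ) := rfl
    have h7 : 6 + Real.log |d.a| + 3 * (10 + Real.log (1 / d.κ)) ≤ 36 * Lam d := by
      rw [h6]
      linarith
    calc Real.log (320 * |d.a|) + 3 * B
        ≤ 36 * Lam d + 6 * (C₀ * (2 * (m : ℝ)) ^ β * Lam d) := by rw [hB]; linarith
      _ ≤ 36 * ((m : ℝ) ^ β * Lam d) + 6 * (2 * C₀ * ((m : ℝ) ^ β * Lam d)) := by linarith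
      _ = _ := by ring
  linarith [iJ.2, iR.2, iC.2]

end Pool.Agent.Helper18.FD
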