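import Pool.Agent.Helper18.UC.Cell

/-! Project FD (MP_9ee088_an): frozen noise, definitions. Proof in words: /team-store/h18_FD_proof.md.

Twist maps near the standard map with generating function `φ = g + κ h_ω`, `h_ω` a random function of class `C^(2+s)`, chosen once. -/

set_option autoImplicit false
open MeasureTheory Real Set
open scoped ENNReal

namespace Pool.Agent.Helper18.FD

open Pool.Agent.Helper18.UC (T2 rep toT nn)

/-! ### generating functions and maps -/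

/-- first and second partial derivatives of a generating function `φ(y, x)` -/
structure Gen where
  f1 : ℝ → ℝ → ℝ
  f2 : ℝ → ℝ → ℝ
  f11 : ℝ → ℝ → ℝ
  f12 : ℝ → ℝ → ℝ
  f22 : ℝ → ℝ → ℝ

/-- continuous, `ℤ²`-periodic, bounded by `η` -/
structure Nice (η : ℝ) (f : ℝ → ℝ → ℝ) : Prop where
  cont : Continuous fun q : ℝ × ℝ => f q.1 q.2
  per1 : ∀ y x, f (y + 1) x = f y x
  per2 : ∀ y x, f y (x + 1) = f y x
  bd : ∀ y x, |f y x| ≤ η

/-- periodic `C²` generating function with derivatives bounded by `η` -/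
structure Gen.Ok (φ : Gen) (η : ℝ) : Prop where
  n1 : Nice η φ.f1
  n2 : Nice η φ.f2
  n11 : Nice η φ.f11
  n12 : Nice η φ.f12
  n22 : Nice η φ.f22
  d11 : ∀ y x, HasDerivAt (fun t => φ.f1 t x) (φ.f11 y x) y
  d12 : ∀ y x, HasDerivAt (fun t => φ.f1 y t) (φ.f12 y x) x
  d21 : ∀ y x, HasDerivAt (fun t => φ.f2 t x) (φ.f12 y x) y
  d22 : ∀ y x, HasDerivAt (fun t => φ.f2 y t) (φ.f22 y x) x

/-- the new position: the solution `X` of `X - φ₁(x, X) = 2 x + a sin 2πx - p` -/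
noncomputable def nx (a : ℝ) (φ : Gen) (q : ℝ × ℝ) : ℝ :=
  Classical.epsilon fun X : ℝ => X - φ.f1 q.1 X = 2 * q.1 + a * Real.sin (2 * π * q.1) - q.2

/-- the map of the plane -/
noncomputable def Fl (a : ℝ) (φ : Gen) (q : ℝ × ℝ) : ℝ × ℝ :=
  (nx a φ q, q.1 - φ.f2 q.1 (nx a φ q))

noncomputable def alf (a : ℝ) (φ : Gen) (q : ℝ × ℝ) : ℝ :=
  2 + 2 * π * a * Real.cos (2 * π * q.1) + φ.f11 q.1 (nx a φ q)

noncomputable def bet (a : ℝ) (φ : Gen) (q : ℝ × ℝ) : ℝ := 1 - φ.f12 q.1 (nx a φ q)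

noncomputable def vee (a : ℝ) (φ : Gen) (q : ℝ × ℝ) : ℝ := φ.f22 q.1 (nx a φ q)

/-- the derivative matrix with the entries `al, be, v` -/
noncomputable def mat (al be v : ℝ) : Matrix (Fin 2) (Fin 2) ℝ :=
  !![al / be, -1 / be; be - v * (al / be), v / be]

noncomputable def DF (a : ℝ) (φ : Gen) (q : ℝ × ℝ) : Matrix (Fin 2) (Fin 2) ℝ :=
  mat (alf a φ q) (bet a φ q) (vee a φ q)

/-! ### the noise -/

/-- truncation to `[-1, 1]` -/
noncomputable def cl (t : ℝ) : ℝ := max (-1) (min 1 t)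

/-- indices: level, cell (two coordinates), kind -/
abbrev Ix := ℕ × ℕ × ℕ × Bool

abbrev Om := Ix → ℝ

/-- uniform distribution on `[-1, 1]` -/
noncomputable def uu : Measure ℝ := (2 : ℝ≥0∞)⁻¹ • volume.restrict (Icc (-1) 1)

instance : IsProbabilityMeasure uu := by
  constructor
  rw [uu, Measure.smul_apply, Measure.restrict_apply MeasurableSet.univ, univ_inter, Real.volume_Icc]
  norm_num
  rw [ENNReal.inv_mul_cancel] <;> norm_num

/-- independent coordinates -/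
noncomputable def PP : Measure Om := Measure.infinitePi (fun _ : Ix => uu)

instance : IsProbabilityMeasure PP := by unfold PP; infer_instance

/-- number of cells in a row at level `l` -/
def NN (l : ℕ) : ℕ := 2 ^ (l + 3)

/-- signed distance to the nearest integer -/
noncomputable def rr (u : ℝ) : ℝ := u - round u

/-- the function `f` at scale `1/N`, made periodic -/
noncomputable def pr (N : ℕ) (f : ℝ → ℝ) (u : ℝ) : ℝ := f (N * rr u)

/-- the sum over the cells of level `l` -/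
noncomputable def lvl (f g₁ g₂ : ℝ → ℝ) (ω : Om) (l : ℕ) (y x : ℝ) : ℝ :=
  ∑ c ∈ Finset.range (NN l) ×ˢ Finset.range (NN l), pr (NN l) f (y - c.1 / NN l) *
    (cl (ω (l, c.1, c.2, false)) * pr (NN l) g₁ (x - c.2 / NN l) +
      cl (ω (l, c.1, c.2, true)) * pr (NN l) g₂ (x - c.2 / NN l))

/-- the random series with amplitudes `N^(-e)` -/
noncomputable def fld (f g₁ g₂ : ℝ → ℝ) (e : ℝ) (ω : Om) (y x : ℝ) : ℝ :=
  ∑' l : ℕ, (NN l : ℝ) ^ (-e) * lvl f g₁ g₂ ω l y x

/-- the bump -/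
structure Bump (χ : ℝ → ℝ) : Prop where
  smooth : ContDiff ℝ 3 χ
  one : ∀ t, |t| ≤ 1 / 2 → χ t = 1
  zero : ∀ t, 1 ≤ |t| → χ t = 0

/-- `t χ(t)` -/
noncomputable def k1 (χ : ℝ → ℝ) (t : ℝ) : ℝ := t * χ t

/-- `t² χ(t) / 2` -/
noncomputable def k2 (χ : ℝ → ℝ) (t : ℝ) : ℝ := t ^ 2 / 2 * χ t

/-- the generating function `g + κ h_ω` -/
noncomputable def rgen (χ : ℝ → ℝ) (s κ : ℝ) (g : Gen) (ω : Om) : Gen where
  f1 y x := g.f1 y x + κ * fld (deriv χ) (k1 χ) (k2 χ) (1 + s) ω y x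
  f2 y x := g.f2 y x + κ * fld χ (deriv (k1 χ)) (deriv (k2 χ)) (1 + s) ω y x
  f11 y x := g.f11 y x + κ * fld (deriv (deriv χ)) (k1 χ) (k2 χ) s ω y x
  f12 y x := g.f12 y x + κ * fld (deriv χ) (deriv (k1 χ)) (deriv (k2 χ)) s ω y x
  f22 y x := g.f22 y x + κ * fld χ (deriv (deriv (k1 χ))) (deriv (deriv (k2 χ))) s ω y x

/-- the fixed data: parameter, coupling, smoothness, bump, background -/
structure Dat where
  a : ℝ
  κ : ℝ
  s : ℝ
  χ : ℝ → ℝ
  g : Gen

/-- the random generating function -/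
noncomputable def Dat.ph (d : Dat) (ω : Om) : Gen := rgen d.χ d.s d.κ d.g ω

structure Dat.Ok (d : Dat) : Prop where
  ha : 100 ≤ |d.a|
  hκ : 0 < d.κ
  hκ1 : d.κ ≤ 1 / 100
  hs : 0 < d.s
  hs1 : d.s < 1
  hχ : Bump d.χ
  g1 : Continuous fun q : ℝ × ℝ => d.g.f1 q.1 q.2
  g2 : Continuous fun q : ℝ × ℝ => d.g.f2 q.1 q.2
  g11 : Continuous fun q : ℝ × ℝ => d.g.f11 q.1 q.2
  g12 : Continuous fun q : ℝ × ℝ => d.g.f12 q.1 q.2
  g22 : Continuous fun q : ℝ × ℝ => d.g.f22 q.1 q.2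
  ok : ∀ ω, (d.ph ω).Ok (1 / |d.a|)

/-! ### the skew product -/

/-- points: noise and phase point -/
abbrev Pt := Om × T2

noncomputable def mu : Measure Pt := PP.prod volume

/-- one step, the noise is frozen -/
noncomputable def sk (d : Dat) (p : Pt) : Pt := (p.1, toT (Fl d.a (d.ph p.1) (rep p.2)))

/-- the pair `(x₀, x₁)` of the orbit -/
noncomputable def pw0 (d : Dat) (p : Pt) : T2 := toT ((rep p.2).1, nx d.a (d.ph p.1) (rep p.2))

/-- the pair `(x_j, x_(j+1))` of the orbit -/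
noncomputable def pw (d : Dat) (j : ℕ) (p : Pt) : T2 := pw0 d ((sk d)^[j] p)

noncomputable def al (d : Dat) (p : Pt) : ℝ := alf d.a (d.ph p.1) (rep p.2)

noncomputable def be (d : Dat) (p : Pt) : ℝ := bet d.a (d.ph p.1) (rep p.2)

noncomputable def ve (d : Dat) (p : Pt) : ℝ := vee d.a (d.ph p.1) (rep p.2)

/-- the derivative matrix -/
noncomputable def Dm (d : Dat) (p : Pt) : Matrix (Fin 2) (Fin 2) ℝ := mat (al d p) (be d p) (ve d p)

/-- the derivative matrix of the `n`-th iterate -/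
noncomputable def Mm (d : Dat) : ℕ → Pt → Matrix (Fin 2) (Fin 2) ℝ
  | 0, _ => 1
  | n + 1, p => Dm d ((sk d)^[n] p) * Mm d n p

/-- `-log`, equal to `∞` at `x ≤ 0` -/
noncomputable def lm (x : ℝ) : ℝ≥0∞ := if x ≤ 0 then ⊤ else ENNReal.ofReal (-Real.log x)

/-- distance of the pair number `k` from the other pairs up to time `n` -/
noncomputable def sepd (d : Dat) (k n : ℕ) (p : Pt) : ℝ :=
  (Finset.range (n + 1)).inf' ⟨0, by simp⟩ fun j => if j = k then 1 else dist (pw d j p) (pw d k p)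

/-- the mean growth -/
noncomputable def Em (d : Dat) (n : ℕ) : ℝ := ∫ p, Real.log (nn (Mm d n p)) ∂mu

/-- the basic size -/
noncomputable def Lam (d : Dat) : ℝ := 1 + Real.log |d.a| + Real.log (1 / d.κ)

/-! ### cells -/

/-- local coordinate in the second variable -/
noncomputable def tt (l : ℕ) (c : ℕ × ℕ) (w : T2) : ℝ := NN l * rr ((rep w).2 - c.2 / NN l)

/-- local coordinate in the first variable -/
noncomputable def t1 (l : ℕ) (c : ℕ × ℕ) (w : T2) : ℝ := NN l * rr ((rep w).1 - c.1 / NN l)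

def inn (l : ℕ) (c : ℕ × ℕ) (w : T2) : Prop := |t1 l c w| ≤ 1 / 2 ∧ |tt l c w| ≤ 1 / 2

def out (l : ℕ) (c : ℕ × ℕ) (w : T2) : Prop := 1 ≤ |t1 l c w| ∨ 1 ≤ |tt l c w|

/-- the cell of level `l` which contains `w` -/
noncomputable def cel (l : ℕ) (w : T2) : ℕ × ℕ :=
  ((round (NN l * (rep w).1) % (NN l : ℤ)).toNat, (round (NN l * (rep w).2) % (NN l : ℤ)).toNat)

/-- change of the two noise coordinates of a cell -/
noncomputable def upd (l : ℕ) (c : ℕ × ℕ) (u v : ℝ) (ω : Om) : Om :=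
  Function.update (Function.update ω (l, c.1, c.2, false) u) (l, c.1, c.2, true) v

/-- the pairs other than the `k`-th are far from it at level `l` -/
def far (d : Dat) (l k n : ℕ) (p : Pt) : Prop :=
  ∀ j ≤ n, j ≠ k → 2 / (NN l : ℝ) ≤ dist (pw d j p) (pw d k p)

/-! ### trivial lemmas -/

lemma NN_pos (l : ℕ) : (0 : ℝ) < NN l := by unfold NN; positivity

lemma NN_ge (l : ℕ) : (8 : ℝ) ≤ NN l := by
  unfold NN
  push_cast
  calc (8 : ℝ) = 2 ^ 3 := by norm_num
    _ ≤ 2 ^ (l + 3) := pow_le_pow_right₀ (by norm_num) (by omega)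

lemma cl_of_mem {t : ℝ} (h : t ∈ Icc (-1 : ℝ) 1) : cl t = t := by
  unfold cl; rw [min_eq_right h.2, max_eq_right h.1]

lemma abs_cl_le (t : ℝ) : |cl t| ≤ 1 := by
  unfold cl
  rw [abs_le]
  constructor
  · exact le_max_left _ _
  · exact max_le (by norm_num) (min_le_left _ _)

lemma Mm_zero (d : Dat) (p : Pt) : Mm d 0 p = 1 := by rw [Mm]

lemma Mm_succ (d : Dat) (n : ℕ) (p : Pt) : Mm d (n + 1) p = Dm d ((sk d)^[n] p) * Mm d n p := by
  rw [Mm]

lemma Mm_add (d : Dat) (m n : ℕ) (p : Pt) :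
    Mm d (m + n) p = Mm d m ((sk d)^[n] p) * Mm d n p := by
  induction m with
  | zero => simp [Mm_zero]
  | succ m ih =>
    rw [show m + 1 + n = (m + n) + 1 by ring, Mm_succ, Mm_succ, ih, Matrix.mul_assoc,
      Function.iterate_add_apply]

lemma pw_sk (d : Dat) (i j : ℕ) (p : Pt) : pw d j ((sk d)^[i] p) = pw d (j + i) p := by
  unfold pw; rw [Function.iterate_add_apply]

lemma sk_fst (d : Dat) (p : Pt) : (sk d p).1 = p.1 := rfl

lemma sk_iter_fst (d : Dat) (n : ℕ) (p : Pt) : ((sk d)^[n] p).1 = p.1 := by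
  induction n with
  | zero => rfl
  | succ n ih => rw [Function.iterate_succ_apply', sk_fst, ih]

end Pool.Agent.Helper18.FD
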