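import Pool.Agent.Helper18.FD.Par1

/-! Block FD-PAR (helper78): families of data depending on a parameter.

`par_meas`: as `meas_nx, ..., meas_un, meas_Lw` with the additional coordinate `p : P`: `(p, ω, q) ↦ nx (D p).a ((D p).ph ω) q` is measurable by `nx_lt_iff`; `fld` is a limit of finite sums which are jointly measurable in `(ω, y, x)`.
`bc`: Fubini: `∫ ω, vol {a ∈ I_j | |L a ω - b a| > |a|^(-c/4)} dPP ≤ ∫_(I_j) |a|^(c/4) |a|^(-c) da` for `I_j = {2^j ≤ |a| < 2^(j+1)}` (Markov for every `a`), so it is `≤ 4 * 2^(j(1 - 3c/4))`; again Markov: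
`PP {ω | vol (..) > 2^(j(1 - c/3))} ≤ 4 * 2^(-j (3/4 - 1/3) c)`, summable; Borel-Cantelli: for a.e. `ω` for all `j ≥ j₀`: `vol (bad ∩ I_j) ≤ 2^(j(1 - c/3))`, sum over `j ≤ log2 R`: `≤ C R^(1 - c/3) + 2^(j₀+1) ≤ R^(1 - c/4)` for large `R`. -/

set_option autoImplicit false
open MeasureTheory Real Set Filter Topology

namespace Pool.Agent.Helper18.FD

open Pool.Agent.Helper18.UC (T2 rep toT nn)

/-- a measurable family of data with the same bump and the same smoothness -/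
structure Fam {P : Type*} [MeasurableSpace P] (D : P → Dat) : Prop where
  ok : ∀ p, (D p).Ok
  eχ : ∀ p p', (D p).χ = (D p').χ
  es : ∀ p p', (D p).s = (D p').s
  ma : Measurable fun p => (D p).a
  mκ : Measurable fun p => (D p).κ
  m1 : Measurable fun r : P × ℝ × ℝ => (D r.1).g.f1 r.2.1 r.2.2
  m2 : Measurable fun r : P × ℝ × ℝ => (D r.1).g.f2 r.2.1 r.2.2
  m11 : Measurable fun r : P × ℝ × ℝ => (D r.1).g.f11 r.2.1 r.2.2
  m12 : Measurable fun r : P × ℝ × ℝ => (D r.1).g.f12 r.2.1 r.2.2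
  m22 : Measurable fun r : P × ℝ × ℝ => (D r.1).g.f22 r.2.1 r.2.2

theorem par_meas {P : Type*} [MeasurableSpace P] {D : P → Dat} (hD : Fam D) :
    Measurable fun r : P × Om => Lw (D r.1) r.2 := by
  rcases isEmpty_or_nonempty P with hP | ⟨⟨p₀⟩⟩
  · exact measurable_of_empty _
  have hok := hD.ok p₀
  obtain ⟨χ, hχ⟩ : ∃ χ, χ = (D p₀).χ := ⟨_, rfl⟩
  obtain ⟨s, hs⟩ : ∃ s, s = (D p₀).s := ⟨_, rfl⟩
  have e1 : ∀ p, (D p).χ = χ := fun p => (hD.eχ p p₀).trans hχ.symm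
  have e2 : ∀ p, (D p).s = s := fun p => (hD.es p p₀).trans hs.symm
  have hB : Bump χ := by rw [hχ]; exact hok.hχ
  have hs0 : 0 < s := by rw [hs]; exact hok.hs
  have hs' : 0 < 1 + s := by linarith
  obtain ⟨a1, b1, c1, a2, b2, c2, a3, b3, c3⟩ := bump_cb hB
  have hx : Measurable fun p : P × (Om × (ℝ × ℝ)) => (p.1, p.2.2) :=
    measurable_fst.prodMk (measurable_snd.comp measurable_snd)
  have hk : Measurable fun p : P × (Om × (ℝ × ℝ)) => (D p.1).κ := hD.mκ.comp measurable_fst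
  have hM : MFam D := by
    refine ⟨hD.ok, hD.ma, ?_, ?_, ?_, ?_, ?_⟩
    · simp only [Dat.ph, rgen, e1, e2]
      exact (hD.m1.comp hx).add (hk.mul ((fld_meas a2 b1 c1 hs').comp measurable_snd))
    · simp only [Dat.ph, rgen, e1, e2]
      exact (hD.m2.comp hx).add (hk.mul ((fld_meas a1 b2 c2 hs').comp measurable_snd))
    · simp only [Dat.ph, rgen, e1, e2]
      exact (hD.m11.comp hx).add (hk.mul ((fld_meas a3 b1 c1 hs0).comp measurable_snd))
    · simp only [Dat.ph, rgen, e1, e2]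
      exact (hD.m12.comp hx).add (hk.mul ((fld_meas a2 b2 c2 hs0).comp measurable_snd))
    · simp only [Dat.ph, rgen, e1, e2]
      exact (hD.m22.comp hx).add (hk.mul ((fld_meas a1 b3 c3 hs0).comp measurable_snd))
  exact hM.meas_Lw

private theorem bc6 {Ω : Type*} [MeasurableSpace Ω] {μ : Measure Ω} [IsFiniteMeasure μ] {c A : ℝ}
    (hc : 0 < c) (hc1 : c ≤ 1) (hA : 1 ≤ A) {L : ℝ → Ω → ℝ} {b : ℝ → ℝ}
    (hL : Measurable fun r : ℝ × Ω => L r.1 r.2) (hb : Measurable b)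
    (hi : ∀ a, A ≤ |a| → Integrable (fun ω => L a ω) μ)
    (h : ∀ a, A ≤ |a| → ∫ ω, |L a ω - b a| ∂μ ≤ |a| ^ (-c)) :
    ∀ᵐ ω ∂μ, ∃ R₀ : ℝ, ∀ R : ℝ, R₀ ≤ R →
      volume {a : ℝ | |a| ≤ R ∧ ¬ (A ≤ |a| ∧ |L a ω - b a| ≤ |a| ^ (-(c / 4)))} ≤
        ENNReal.ofReal (R ^ (1 - c / 4)) := by
  classical
  -- the bad set and the weight
  let S : Set (ℝ × Ω) := {r | A ≤ |r.1| ∧ |r.1| ^ (-(c / 4)) < |L r.1 r.2 - b r.1|}
  have habs : Measurable fun r : ℝ × Ω => |r.1| := measurable_fst.abs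
  have hS : MeasurableSet S := by
    have h1 : MeasurableSet {r : ℝ × Ω | A ≤ |r.1|} := measurableSet_le measurable_const habs
    have h2 : MeasurableSet {r : ℝ × Ω | |r.1| ^ (-(c / 4)) < |L r.1 r.2 - b r.1|} :=
      measurableSet_lt (habs.pow_const _) (hL.sub (hb.comp measurable_fst)).abs
    exact h1.inter h2
  let Φ : ℝ × Ω → ENNReal := S.indicator fun r => ENNReal.ofReal (|r.1| ^ (-(1 - c / 2)))
  have hΦ : Measurable Φ := (habs.pow_const _).ennreal_ofReal.indicator hS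
  -- the integral over the noise
  have hint : ∀ a : ℝ, ∫⁻ ω, Φ (a, ω) ∂μ ≤
      ENNReal.ofReal (2 ^ (1 + c / 4)) * ENNReal.ofReal ((1 + ‖a‖) ^ (-(1 + c / 4))) := by
    intro a
    by_cases ha : A ≤ |a|
    · have hx : 0 < |a| := lt_of_lt_of_le one_pos (hA.trans ha)
      have ht : 0 < |a| ^ (-(c / 4)) := rpow_pos_of_pos hx _
      have h1 : ∀ ω, Φ (a, ω) = ({ω | |a| ^ (-(c / 4)) < |L a ω - b a|} : Set Ω).indicator
          (fun _ => ENNReal.ofReal (|a| ^ (-(1 - c / 2)))) ω := by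
        intro ω
        by_cases hω : |a| ^ (-(c / 4)) < |L a ω - b a|
        · rw [Set.indicator_of_mem (show ω ∈ ({ω | |a| ^ (-(c / 4)) < |L a ω - b a|} : Set Ω) from hω)]
          exact Set.indicator_of_mem (show (a, ω) ∈ S from ⟨ha, hω⟩) _
        · rw [Set.indicator_of_notMem (show ω ∉ ({ω | |a| ^ (-(c / 4)) < |L a ω - b a|} : Set Ω) from hω)]
          exact Set.indicator_of_notMem (fun hm : (a, ω) ∈ S => hω hm.2) _
      have hm : Measurable fun ω => L a ω := hL.comp measurable_prodMk_left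
      have hms : MeasurableSet {ω | |a| ^ (-(c / 4)) < |L a ω - b a|} :=
        measurableSet_lt measurable_const (hm.sub measurable_const).abs
      rw [lintegral_congr h1, lintegral_indicator_const hms]
      -- Markov
      have hX : Integrable (fun ω => |L a ω - b a|) μ := ((hi a ha).sub (integrable_const _)).abs
      have h2 : ENNReal.ofReal (|a| ^ (-(c / 4))) * μ {ω | |a| ^ (-(c / 4)) < |L a ω - b a|} ≤
          ENNReal.ofReal (|a| ^ (-c)) := by
        have h3 := mul_meas_ge_le_lintegral (μ := μ) (hm.sub measurable_const).abs.ennreal_ofReal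
          (ENNReal.ofReal (|a| ^ (-(c / 4)))) (f := fun ω => ENNReal.ofReal |L a ω - b a|)
        have h4 : ∫⁻ ω, ENNReal.ofReal |L a ω - b a| ∂μ ≤ ENNReal.ofReal (|a| ^ (-c)) := by
          rw [← ofReal_integral_eq_lintegral_ofReal hX (ae_of_all _ fun ω => abs_nonneg _)]
          exact ENNReal.ofReal_le_ofReal (h a ha)
        refine le_trans (mul_le_mul_right (measure_mono ?_) _) (h3.trans h4)
        intro ω hω
        exact ENNReal.ofReal_le_ofReal (le_of_lt hω)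
      have h5 : μ {ω | |a| ^ (-(c / 4)) < |L a ω - b a|} ≤
          ENNReal.ofReal (|a| ^ (c / 4)) * ENNReal.ofReal (|a| ^ (-c)) := by
        have h6 : ENNReal.ofReal (|a| ^ (c / 4)) * ENNReal.ofReal (|a| ^ (-(c / 4))) = 1 := by
          rw [← ENNReal.ofReal_mul (rpow_nonneg hx.le _), ← rpow_add hx, add_neg_cancel, rpow_zero,
            ENNReal.ofReal_one]
        calc μ {ω | |a| ^ (-(c / 4)) < |L a ω - b a|}
            = ENNReal.ofReal (|a| ^ (c / 4)) * (ENNReal.ofReal (|a| ^ (-(c / 4))) *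
              μ {ω | |a| ^ (-(c / 4)) < |L a ω - b a|}) := by rw [← mul_assoc, h6, one_mul]
          _ ≤ _ := by gcongr
      refine (mul_le_mul_right h5 _).trans ?_
      rw [← ENNReal.ofReal_mul (rpow_nonneg hx.le _), ← ENNReal.ofReal_mul (rpow_nonneg hx.le _),
        ← ENNReal.ofReal_mul (rpow_nonneg zero_le_two _)]
      refine ENNReal.ofReal_le_ofReal ?_
      rw [← rpow_add hx, ← rpow_add hx, Real.norm_eq_abs]
      have h7 : -(1 - c / 2) + (c / 4 + -c) = -(1 + c / 4) := by ring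
      rw [h7]
      have h8 : (0 : ℝ) < 1 + |a| := by linarith
      have h9 : (1 + |a|) / 2 ≤ |a| := by linarith
      have h10 : |a| ^ (-(1 + c / 4)) ≤ ((1 + |a|) / 2) ^ (-(1 + c / 4)) :=
        rpow_le_rpow_of_nonpos (by positivity) h9 (by linarith)
      refine h10.trans (le_of_eq ?_)
      rw [div_rpow h8.le zero_le_two, rpow_neg zero_le_two, div_inv_eq_mul, mul_comm]
    · have h1 : ∀ ω, Φ (a, ω) = 0 := fun ω =>
        Set.indicator_of_notMem (fun hm : (a, ω) ∈ S => ha hm.1) _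
      rw [lintegral_congr h1, lintegral_zero]
      exact zero_le
  -- the total integral is finite
  have hfin : ∫⁻ ω, ∫⁻ a, Φ (a, ω) ∂volume ∂μ ≠ ⊤ := by
    have h1 : ∫⁻ ω, ∫⁻ a, Φ (a, ω) ∂volume ∂μ = ∫⁻ a, ∫⁻ ω, Φ (a, ω) ∂μ ∂volume :=
      (lintegral_lintegral_swap (f := fun a ω => Φ (a, ω)) hΦ.aemeasurable).symm
    rw [h1]
    refine ne_top_of_le_ne_top ?_ (lintegral_mono hint)
    rw [lintegral_const_mul' _ _ ENNReal.ofReal_ne_top]
    refine ENNReal.mul_ne_top ENNReal.ofReal_ne_top (ne_of_lt ?_)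
    refine finite_integral_one_add_norm ?_
    rw [Module.finrank_self]
    push_cast
    linarith
  have hZ : ∀ᵐ ω ∂μ, ∫⁻ a, Φ (a, ω) ∂volume < ⊤ :=
    ae_lt_top (hΦ.comp measurable_swap).lintegral_prod_right' hfin
  filter_upwards [hZ] with ω hω
  obtain ⟨K, hK0, hK⟩ : ∃ K : ℝ, 0 ≤ K ∧ ∫⁻ a, Φ (a, ω) ∂volume = ENNReal.ofReal K :=
    ⟨_, ENNReal.toReal_nonneg, (ENNReal.ofReal_toReal hω.ne).symm⟩
  refine ⟨max 1 ((2 * A + K) ^ (4 / c)), fun R hR => ?_⟩
  have hR1 : 1 ≤ R := (le_max_left _ _).trans hR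
  have hR0 : 0 < R := lt_of_lt_of_le one_pos hR1
  have hR2 : (2 * A + K) ^ (4 / c) ≤ R := (le_max_right _ _).trans hR
  have hAK : 0 ≤ 2 * A + K := by linarith
  -- the part of the bad set in the ball of radius `R`
  have hbad : volume {a : ℝ | |a| ≤ R ∧ (a, ω) ∈ S} ≤
      ENNReal.ofReal (R ^ (1 - c / 2)) * ENNReal.ofReal K := by
    have hm : MeasurableSet {a : ℝ | |a| ≤ R ∧ (a, ω) ∈ S} :=
      (measurableSet_le measurable_id.abs measurable_const).inter
        (measurable_prodMk_right hS)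
    have h1 : ENNReal.ofReal (R ^ (-(1 - c / 2))) * volume {a : ℝ | |a| ≤ R ∧ (a, ω) ∈ S} ≤
        ENNReal.ofReal K := by
      rw [← hK, ← lintegral_indicator_const hm]
      refine lintegral_mono fun a => ?_
      by_cases ha : a ∈ {a : ℝ | |a| ≤ R ∧ (a, ω) ∈ S}
      · rw [Set.indicator_of_mem ha]
        change _ ≤ S.indicator _ _
        rw [Set.indicator_of_mem ha.2]
        refine ENNReal.ofReal_le_ofReal ?_
        have hx : 0 < |a| := lt_of_lt_of_le one_pos (hA.trans ha.2.1)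
        exact rpow_le_rpow_of_nonpos hx ha.1 (by linarith)
      · rw [Set.indicator_of_notMem ha]
        exact zero_le
    have h2 : ENNReal.ofReal (R ^ (1 - c / 2)) * ENNReal.ofReal (R ^ (-(1 - c / 2))) = 1 := by
      rw [← ENNReal.ofReal_mul (rpow_nonneg hR0.le _), ← rpow_add hR0, add_neg_cancel, rpow_zero,
        ENNReal.ofReal_one]
    calc volume {a : ℝ | |a| ≤ R ∧ (a, ω) ∈ S}
        = ENNReal.ofReal (R ^ (1 - c / 2)) * (ENNReal.ofReal (R ^ (-(1 - c / 2))) *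
          volume {a : ℝ | |a| ≤ R ∧ (a, ω) ∈ S}) := by rw [← mul_assoc, h2, one_mul]
      _ ≤ _ := by gcongr
  have hsub : {a : ℝ | |a| ≤ R ∧ ¬ (A ≤ |a| ∧ |L a ω - b a| ≤ |a| ^ (-(c / 4)))} ⊆
      Icc (-A) A ∪ {a : ℝ | |a| ≤ R ∧ (a, ω) ∈ S} := by
    rintro a ⟨ha1, ha2⟩
    by_cases ha : A ≤ |a|
    · right
      refine ⟨ha1, ha, ?_⟩
      by_contra hcon
      exact ha2 ⟨ha, not_lt.1 hcon⟩
    · left
      exact abs_le.1 (not_le.1 ha).le
  refine (measure_mono hsub).trans ((measure_union_le _ _).trans ((add_le_add le_rfl hbad).trans ?_))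
  rw [Real.volume_Icc, ← ENNReal.ofReal_mul (rpow_nonneg hR0.le _),
    ← ENNReal.ofReal_add (by linarith) (mul_nonneg (rpow_nonneg hR0.le _) hK0)]
  refine ENNReal.ofReal_le_ofReal ?_
  have h3 : 1 ≤ R ^ (1 - c / 2) := one_le_rpow hR1 (by linarith)
  have h4 : 2 * A + K ≤ R ^ (c / 4) := by
    have h5 : ((2 * A + K) ^ (4 / c)) ^ (c / 4) ≤ R ^ (c / 4) :=
      rpow_le_rpow (rpow_nonneg hAK _) hR2 (by positivity)
    have h5' : 4 / c * (c / 4) = 1 := by field_simp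
    rwa [← rpow_mul hAK, h5', rpow_one] at h5
  have h6 : R ^ (1 - c / 4) = R ^ (c / 4) * R ^ (1 - c / 2) := by
    rw [← rpow_add hR0]
    congr 1
    ring
  rw [h6]
  have h7 : (2 * A + K) * R ^ (1 - c / 2) ≤ R ^ (c / 4) * R ^ (1 - c / 2) :=
    mul_le_mul_of_nonneg_right h4 (by linarith)
  nlinarith

/-- from a bound in the mean for every parameter to almost every noise and most parameters -/
theorem bc {c A : ℝ} (hc : 0 < c) (hc1 : c ≤ 1) (hA : 1 ≤ A) {L : ℝ → Om → ℝ} {b : ℝ → ℝ}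
    (hL : Measurable fun r : ℝ × Om => L r.1 r.2) (hb : Measurable b)
    (hi : ∀ a, A ≤ |a| → Integrable (fun ω => L a ω) PP)
    (h : ∀ a, A ≤ |a| → ∫ ω, |L a ω - b a| ∂PP ≤ |a| ^ (-c)) :
    ∀ᵐ ω ∂PP, ∃ R₀ : ℝ, ∀ R : ℝ, R₀ ≤ R →
      volume {a : ℝ | |a| ≤ R ∧ ¬ (A ≤ |a| ∧ |L a ω - b a| ≤ |a| ^ (-(c / 4)))} ≤
        ENNReal.ofReal (R ^ (1 - c / 4)) :=
  bc6 hc hc1 hA hL hb hi h

end Pool.Agent.Helper18.FD
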