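import Pool.Agent.Helper18.FD.Fix
import Pool.Agent.Helper18.FD.Par
import Pool.Agent.Helper18.FD.Comp2
import Pool.Agent.Helper18.FD.Basics

/-! Block FD-FINAL (helper95): the final theorems, from `fix`, `king`, `lim_fderiv`, `basics`, `rgen_hoelder`, `par_meas`, `bc`, `comp2`. -/

set_option autoImplicit false
open MeasureTheory Real Set Filter Topology

namespace Pool.Agent.Helper18.FD

open Pool.Agent.Helper18.UC (T2 rep toT nn clm)

/-- Hoelder bound for the second derivatives of the background -/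
def Hoel2 (a s : ℝ) (φ : Gen) : Prop := ∀ q q' : ℝ × ℝ,
  |φ.f11 q.1 q.2 - φ.f11 q'.1 q'.2| ≤ dist q q' ^ s / (2 * |a|) ∧
  |φ.f12 q.1 q.2 - φ.f12 q'.1 q'.2| ≤ dist q q' ^ s / (2 * |a|) ∧
  |φ.f22 q.1 q.2 - φ.f22 q'.1 q'.2| ≤ dist q q' ^ s / (2 * |a|)

/-- the map of the torus -/
noncomputable def TT (a : ℝ) (φ : Gen) (z : T2) : T2 := toT (Fl a φ (rep z))

private theorem sq95 {x : ℝ} (hx : 100 ≤ |x|) : |x| ^ (-2 : ℝ) = 1 / (|x| * |x|) ∧
    |x| ^ (-2 : ℝ) ≤ 1 / 100 := by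
  have h0 : 0 < |x| := by linarith
  have h1 : |x| ^ (-2 : ℝ) = 1 / (|x| * |x|) := by
    rw [Real.rpow_neg (abs_nonneg x), Real.rpow_two, sq, one_div]
  refine ⟨h1, ?_⟩
  rw [h1]
  exact one_div_le_one_div_of_le (by norm_num) (by nlinarith)

/-- the datum -/
private theorem ok95 {s : ℝ} (hs : 0 < s) (hs1 : s < 1) {χ : ℝ → ℝ} (hχ : Bump χ) {a κ : ℝ} {g : Gen}
    (ha : 100 ≤ |a|) (hκ0 : 0 < κ) (hκ : κ ≤ |a| ^ (-2 : ℝ)) (hg : g.Ok (|a| ^ (-2 : ℝ)))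
    (hok : ∀ ω, (rgen χ s κ g ω).Ok (1 / |a|)) : (Dat.mk a κ s χ g).Ok where
  ha := ha
  hκ := hκ0
  hκ1 := hκ.trans (sq95 ha).2
  hs := hs
  hs1 := hs1
  hχ := hχ
  g1 := hg.n1.cont
  g2 := hg.n2.cont
  g11 := hg.n11.cont
  g12 := hg.n12.cont
  g22 := hg.n22.cont
  ok := hok

private theorem hoel95 {C s : ℝ} {χ : ℝ → ℝ} (hC : 0 < C)
    (h : ∀ (κ : ℝ) (g : Gen), 0 ≤ κ → ∀ (ω : Om) (q q' : ℝ × ℝ),
      |(rgen χ s κ g ω).f11 q.1 q.2 - g.f11 q.1 q.2 - ((rgen χ s κ g ω).f11 q'.1 q'.2 - g.f11 q'.1 q'.2)| ≤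
        κ * C * dist q q' ^ s ∧
      |(rgen χ s κ g ω).f12 q.1 q.2 - g.f12 q.1 q.2 - ((rgen χ s κ g ω).f12 q'.1 q'.2 - g.f12 q'.1 q'.2)| ≤
        κ * C * dist q q' ^ s ∧
      |(rgen χ s κ g ω).f22 q.1 q.2 - g.f22 q.1 q.2 - ((rgen χ s κ g ω).f22 q'.1 q'.2 - g.f22 q'.1 q'.2)| ≤
        κ * C * dist q q' ^ s)
    {a κ : ℝ} {g : Gen} (ha : 100 ≤ |a|) (haC : 2 * C ≤ |a|) (hκ0 : 0 ≤ κ) (hκ : κ ≤ |a| ^ (-2 : ℝ))
    (hg : Hoel2 a s g) (ω : Om) : Hoel a s (rgen χ s κ g ω) := by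
  intro q q'
  have h0 : 0 < |a| := by linarith
  have hd : 0 ≤ dist q q' ^ s := Real.rpow_nonneg dist_nonneg _
  have hκC : κ * C ≤ 1 / (2 * |a|) := by
    rw [(sq95 ha).1] at hκ
    calc κ * C ≤ 1 / (|a| * |a|) * C := mul_le_mul_of_nonneg_right hκ hC.le
      _ = C / |a| * (1 / |a|) := by field_simp
      _ ≤ 1 / 2 * (1 / |a|) := by
          refine mul_le_mul_of_nonneg_right ?_ (by positivity)
          rw [div_le_iff₀ h0]
          linarith
      _ = 1 / (2 * |a|) := by field_simp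
  obtain ⟨h1, h2, h3⟩ := h κ g hκ0 ω q q'
  obtain ⟨g1, g2, g3⟩ := hg q q'
  have key : ∀ x x' y y' : ℝ, |x - y - (x' - y')| ≤ κ * C * dist q q' ^ s →
      |y - y'| ≤ dist q q' ^ s / (2 * |a|) → |x - x'| ≤ dist q q' ^ s / |a| := by
    intro x x' y y' e1 e2
    have e3 : κ * C * dist q q' ^ s ≤ dist q q' ^ s / (2 * |a|) := by
      calc κ * C * dist q q' ^ s ≤ 1 / (2 * |a|) * dist q q' ^ s := mul_le_mul_of_nonneg_right hκC hd
        _ = dist q q' ^ s / (2 * |a|) := by ring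
    have e4 : x - x' = (x - y - (x' - y')) + (y - y') := by ring
    have e5 : dist q q' ^ s / |a| = dist q q' ^ s / (2 * |a|) + dist q q' ^ s / (2 * |a|) := by
      field_simp
      ring
    rw [e4, e5]
    exact (abs_add_le _ _).trans (add_le_add (e1.trans e3) e2)
  exact ⟨key _ _ _ _ h1 g1, key _ _ _ _ h2 g2, key _ _ _ _ h3 g3⟩

private theorem big2_mono {c c' a : ℝ} (ha : 1 ≤ |a|) (h : c' ≤ c) {F : ℝ × ℝ → ℝ × ℝ} {T : T2 → T2}
    (hB : Big2 c a F T) : Big2 c' a F T := by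
  have h1 : |a| ^ (-c) ≤ |a| ^ (-c') := Real.rpow_le_rpow_of_exponent_le ha (by linarith)
  obtain ⟨Ω, L, e1, e2, e3, e4, e5, e6⟩ := hB
  exact ⟨Ω, L, e1, e2, by linarith, e4, e5.trans h1, e6⟩

theorem final {s : ℝ} (hs : 0 < s) (hs1 : s < 1) {χ : ℝ → ℝ} (hχ : Bump χ) :
    ∃ c A : ℝ, 0 < c ∧ 100 ≤ A ∧
    -- the generating functions are admissible
    (∀ (a κ : ℝ) (g : Gen), A ≤ |a| → g.Ok (|a| ^ (-2 : ℝ)) → 0 ≤ κ → κ ≤ |a| ^ (-2 : ℝ) →
      ∀ ω : Om, (rgen χ s κ g ω).Ok (1 / |a|)) ∧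
    -- one parameter: the exponent
    (∀ (a κ : ℝ) (g : Gen), A ≤ |a| → g.Ok (|a| ^ (-2 : ℝ)) → Real.exp (-|a| ^ c) ≤ κ →
      κ ≤ |a| ^ (-2 : ℝ) →
      ∃ L : Om → ℝ, Measurable L ∧ ∫ ω, |L ω - Real.log (π * |a|)| ∂PP ≤ |a| ^ (-c) ∧
        ∀ ω, ∃ lam : T2 → ℝ, Measurable lam ∧ ∫ z, lam z = L ω ∧
          ∀ᵐ q : ℝ × ℝ, Tendsto (fun n : ℕ =>
            Real.log ‖fderiv ℝ ((Fl a (rgen χ s κ g ω))^[n]) q‖ / n) atTop (𝓝 (lam (toT q)))) ∧
    -- one parameter: the component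
    (∀ (a κ : ℝ) (g : Gen), A ≤ |a| → g.Ok (|a| ^ (-2 : ℝ)) → Hoel2 a s g →
      Real.exp (-|a| ^ c) ≤ κ → κ ≤ |a| ^ (-2 : ℝ) →
      PP {ω | ¬ Big2 c a (Fl a (rgen χ s κ g ω)) (TT a (rgen χ s κ g ω))} ≤
        ENNReal.ofReal (|a| ^ (-c))) ∧
    -- families
    (∀ (κ : ℝ → ℝ) (g : ℝ → Gen), Measurable κ →
      (Measurable fun r : ℝ × ℝ × ℝ => (g r.1).f1 r.2.1 r.2.2) →
      (Measurable fun r : ℝ × ℝ × ℝ => (g r.1).f2 r.2.1 r.2.2) →
      (Measurable fun r : ℝ × ℝ × ℝ => (g r.1).f11 r.2.1 r.2.2) →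
      (Measurable fun r : ℝ × ℝ × ℝ => (g r.1).f12 r.2.1 r.2.2) →
      (Measurable fun r : ℝ × ℝ × ℝ => (g r.1).f22 r.2.1 r.2.2) →
      (∀ a, A ≤ |a| → (g a).Ok (|a| ^ (-2 : ℝ)) ∧ Hoel2 a s (g a) ∧ Real.exp (-|a| ^ c) ≤ κ a ∧
        κ a ≤ |a| ^ (-2 : ℝ)) →
      ∀ᵐ ω ∂PP, ∃ Λ : Set ℝ, MeasurableSet Λ ∧
        (∃ R₀ : ℝ, ∀ R : ℝ, R₀ ≤ R → volume (Icc (-R) R \ Λ) ≤ ENNReal.ofReal (R ^ (1 - c))) ∧
        ∀ a ∈ Λ, A ≤ |a| ∧ Big2 c a (Fl a (rgen χ s (κ a) (g a) ω)) (TT a (rgen χ s (κ a) (g a) ω))) := by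
  obtain ⟨c₁, A₁, hc₁, hA₁, hfix⟩ := fix hs hs1
  obtain ⟨A₂, C₂, hA₂, -, hbas⟩ := basics hs hs1 hχ
  obtain ⟨C₃, hC₃, hhol⟩ := rgen_hoelder hχ hs hs1
  set c' : ℝ := min c₁ 1 with hc'
  have hc'0 : 0 < c' := lt_min hc₁ one_pos
  have hc'1 : c' ≤ 1 := min_le_right _ _
  have hc'c : c' ≤ c₁ := min_le_left _ _
  obtain ⟨c₂, A₄, hc₂, hA₄, hcomp⟩ := comp2 hs hs1 (c₁ := c' / 4) (by positivity)
  obtain ⟨c, hc⟩ : ∃ c, c = min (c' / 4) c₂ := ⟨_, rfl⟩
  have hc0 : 0 < c := by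
    rw [hc]
    exact lt_min (by positivity) hc₂
  have hcc' : c ≤ c' / 4 := by
    rw [hc]
    exact min_le_left _ _
  have hcc₂ : c ≤ c₂ := by
    rw [hc]
    exact min_le_right _ _
  obtain ⟨A, hA⟩ : ∃ A, A = max (max A₁ A₂) (max A₄ (max (2 * C₃) 100)) := ⟨_, rfl⟩
  have hA1 : A₁ ≤ A := by
    rw [hA]
    exact (le_max_left _ _).trans (le_max_left _ _)
  have hA2 : A₂ ≤ A := by
    rw [hA]
    exact (le_max_right _ _).trans (le_max_left _ _)
  have hA4 : A₄ ≤ A := by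
    rw [hA]
    exact (le_max_left _ _).trans (le_max_right _ _)
  have hAC : 2 * C₃ ≤ A := by
    rw [hA]
    exact ((le_max_left _ _).trans (le_max_right _ _)).trans (le_max_right _ _)
  have hA100 : 100 ≤ A := hA₁.trans hA1
  -- the condition on the coupling
  have hexp : ∀ a κ : ℝ, A ≤ |a| → Real.exp (-|a| ^ c) ≤ κ → Real.exp (-|a| ^ c₁) ≤ κ := by
    intro a κ ha h
    refine le_trans (Real.exp_le_exp.2 ?_) h
    have h1 : |a| ^ c ≤ |a| ^ c₁ := Real.rpow_le_rpow_of_exponent_le (by linarith) (by linarith)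
    linarith
  have hpow : ∀ a : ℝ, A ≤ |a| → |a| ^ (-c₁) ≤ |a| ^ (-c') := fun a ha =>
    Real.rpow_le_rpow_of_exponent_le (by linarith) (by linarith)
  have hpow' : ∀ a : ℝ, A ≤ |a| → |a| ^ (-c') ≤ |a| ^ (-c) := fun a ha =>
    Real.rpow_le_rpow_of_exponent_le (by linarith) (by linarith)
  have hok : ∀ (a κ : ℝ) (g : Gen), A ≤ |a| → g.Ok (|a| ^ (-2 : ℝ)) →
      Real.exp (-|a| ^ c) ≤ κ → κ ≤ |a| ^ (-2 : ℝ) → (Dat.mk a κ s χ g).Ok := by
    intro a κ g ha hg hκ hκ'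
    have hκ0 : 0 < κ := (Real.exp_pos _).trans_le hκ
    exact ok95 hs hs1 hχ (hA100.trans ha) hκ0 hκ' hg fun ω => (hbas a κ g (hA2.trans ha) hg hκ0.le hκ' ω).1
  have hint : ∀ d : Dat, d.Ok → Integrable (Lw d) PP := by
    intro d hd
    refine Integrable.of_bound (meas_Lw hd).aestronglyMeasurable (Real.log (7 * |d.a|))
      (Filter.Eventually.of_forall fun ω => ?_)
    have h1 := Lw_bd hd ω
    rw [Real.norm_of_nonneg h1.1]
    exact h1.2
  have hmean : ∀ (a κ : ℝ) (g : Gen), A ≤ |a| → g.Ok (|a| ^ (-2 : ℝ)) →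
      Real.exp (-|a| ^ c) ≤ κ → κ ≤ |a| ^ (-2 : ℝ) →
      ∫ ω, |Lw (Dat.mk a κ s χ g) ω - Real.log (π * |a|)| ∂PP ≤ |a| ^ (-c') := by
    intro a κ g ha hg hκ hκ'
    exact (hfix (Dat.mk a κ s χ g) (hok a κ g ha hg hκ hκ') rfl (hA1.trans ha)
      (hexp a κ ha hκ)).2.trans (hpow a ha)
  -- the component, from the bound of the integrated exponent
  have hbig : ∀ (a κ : ℝ) (g : Gen) (ω : Om), A ≤ |a| → g.Ok (|a| ^ (-2 : ℝ)) → Hoel2 a s g →
      Real.exp (-|a| ^ c) ≤ κ → κ ≤ |a| ^ (-2 : ℝ) →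
      |Lw (Dat.mk a κ s χ g) ω - Real.log (π * |a|)| ≤ |a| ^ (-(c' / 4)) →
      Big2 c a (Fl a (rgen χ s κ g ω)) (TT a (rgen χ s κ g ω)) := by
    intro a κ g ω ha hg hg2 hκ hκ' hL
    have hκ0 : 0 < κ := (Real.exp_pos _).trans_le hκ
    refine big2_mono (by linarith) hcc₂ ?_
    exact hcomp (Dat.mk a κ s χ g) (hok a κ g ha hg hκ hκ') (hA4.trans ha) ω
      (hoel95 hC₃ hhol (hA100.trans ha) (hAC.trans ha) hκ0.le hκ' hg2 ω) hL
  refine ⟨c, A, hc0, hA100, fun a κ g ha hg hκ hκ' ω => (hbas a κ g (hA2.trans ha) hg hκ hκ' ω).1, ?_, ?_, ?_⟩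
  · intro a κ g ha hg hκ hκ'
    have hd := hok a κ g ha hg hκ hκ'
    refine ⟨Lw (Dat.mk a κ s χ g), meas_Lw hd, (hmean a κ g ha hg hκ hκ').trans (hpow' a ha), fun ω => ?_⟩
    obtain ⟨lam, h1, h2, -, -, h5⟩ := king hd ω
    refine ⟨lam, h1, h5, ?_⟩
    filter_upwards [ae_plane h2] with q hq
    exact lim_fderiv hd hq
  · intro a κ g ha hg hg2 hκ hκ'
    have ha1 : 1 ≤ |a| := by linarith
    have ha0 : 0 < |a| := by linarith
    have hd := hok a κ g ha hg hκ hκ'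
    have hsub : {ω | ¬ Big2 c a (Fl a (rgen χ s κ g ω)) (TT a (rgen χ s κ g ω))} ⊆
        {ω | |a| ^ (-(c' / 4)) ≤ |Lw (Dat.mk a κ s χ g) ω - Real.log (π * |a|)|} := by
      intro ω hω
      by_contra hcon
      exact hω (hbig a κ g ω ha hg hg2 hκ hκ' (not_le.1 hcon).le)
    refine (measure_mono hsub).trans ?_
    have hX : Integrable (fun ω => |Lw (Dat.mk a κ s χ g) ω - Real.log (π * |a|)|) PP :=
      ((hint _ hd).sub (integrable_const _)).abs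
    have h3 := mul_meas_ge_le_integral_of_nonneg (μ := PP)
      (Filter.Eventually.of_forall fun ω => abs_nonneg _) hX (|a| ^ (-(c' / 4)))
    have h4 : PP.real {ω | |a| ^ (-(c' / 4)) ≤ |Lw (Dat.mk a κ s χ g) ω - Real.log (π * |a|)|} ≤
        |a| ^ (-c) := by
      have h5 := h3.trans (hmean a κ g ha hg hκ hκ')
      have h6 : |a| ^ (-c') = |a| ^ (-(c' / 4)) * |a| ^ (-(3 * c' / 4)) := by
        rw [← Real.rpow_add ha0]
        congr 1
        ring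
      rw [h6] at h5
      have h7 := le_of_mul_le_mul_left h5 (by positivity)
      exact h7.trans (Real.rpow_le_rpow_of_exponent_le ha1 (by linarith))
    rw [← ofReal_measureReal]
    exact ENNReal.ofReal_le_ofReal h4
  · intro κ g mκ m1 m2 m11 m12 m22 h
    classical
    let D : ℝ → Dat := fun a => if A ≤ |a| then Dat.mk a (κ a) s χ (g a) else Dat.mk A (κ A) s χ (g A)
    have hAabs : |A| = A := abs_of_pos (by linarith)
    have hD1 : ∀ a, A ≤ |a| → D a = Dat.mk a (κ a) s χ (g a) := fun a ha => if_pos ha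
    have hD2 : ∀ a, ¬ A ≤ |a| → D a = Dat.mk A (κ A) s χ (g A) := fun a ha => if_neg ha
    have hokA : ∀ a, A ≤ |a| → (Dat.mk a (κ a) s χ (g a)).Ok := fun a ha =>
      hok a (κ a) (g a) ha (h a ha).1 (h a ha).2.2.1 (h a ha).2.2.2
    have hset : MeasurableSet {a : ℝ | A ≤ |a|} := measurableSet_le measurable_const measurable_id.abs
    have hfun : ∀ F : Gen → ℝ → ℝ → ℝ, (Measurable fun r : ℝ × ℝ × ℝ => F (g r.1) r.2.1 r.2.2) →
        Measurable fun r : ℝ × ℝ × ℝ => F (D r.1).g r.2.1 r.2.2 := by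
      intro F hF
      have h1 : (fun r : ℝ × ℝ × ℝ => F (D r.1).g r.2.1 r.2.2) = fun r : ℝ × ℝ × ℝ =>
          if A ≤ |r.1| then F (g r.1) r.2.1 r.2.2 else F (g A) r.2.1 r.2.2 := by
        funext r
        by_cases hr : A ≤ |r.1|
        · rw [hD1 _ hr, if_pos hr]
        · rw [hD2 _ hr, if_neg hr]
      rw [h1]
      refine Measurable.ite (measurable_fst hset) hF ?_
      have h2 : Measurable fun r : ℝ × ℝ × ℝ => (A, r.2.1, r.2.2) := by fun_prop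
      exact hF.comp h2
    have hFam : Fam D := by
      refine ⟨?_, ?_, ?_, ?_, ?_, hfun Gen.f1 m1, hfun Gen.f2 m2, hfun Gen.f11 m11, hfun Gen.f12 m12,
        hfun Gen.f22 m22⟩
      · intro a
        by_cases ha : A ≤ |a|
        · rw [hD1 a ha]
          exact hokA a ha
        · rw [hD2 a ha]
          exact hokA A hAabs.ge
      · have h1 : ∀ a, (D a).χ = χ := by
          intro a
          by_cases ha : A ≤ |a|
          · rw [hD1 a ha]
          · rw [hD2 a ha]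
        exact fun a b => (h1 a).trans (h1 b).symm
      · have h1 : ∀ a, (D a).s = s := by
          intro a
          by_cases ha : A ≤ |a|
          · rw [hD1 a ha]
          · rw [hD2 a ha]
        exact fun a b => (h1 a).trans (h1 b).symm
      · have h1 : (fun a => (D a).a) = fun a => if A ≤ |a| then a else A := by
          funext a
          by_cases ha : A ≤ |a|
          · rw [hD1 a ha, if_pos ha]
          · rw [hD2 a ha, if_neg ha]
        rw [h1]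
        exact Measurable.ite hset measurable_id measurable_const
      · have h1 : (fun a => (D a).κ) = fun a => if A ≤ |a| then κ a else κ A := by
          funext a
          by_cases ha : A ≤ |a|
          · rw [hD1 a ha, if_pos ha]
          · rw [hD2 a ha, if_neg ha]
        rw [h1]
        exact Measurable.ite hset mκ measurable_const
    obtain ⟨L, hL, hLi, hLe⟩ : ∃ L : ℝ → Om → ℝ, (Measurable fun r : ℝ × Om => L r.1 r.2) ∧
        (∀ a, Integrable (L a) PP) ∧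
        ∀ a, A ≤ |a| → L a = Lw (Dat.mk a (κ a) s χ (g a)) :=
      ⟨fun a ω => Lw (D a) ω, par_meas hFam, fun a => hint _ (hFam.ok a), fun a ha => by
        funext ω
        change Lw (D a) ω = _
        rw [hD1 a ha]⟩
    have hb : Measurable fun a : ℝ => Real.log (π * |a|) :=
      Real.measurable_log.comp (measurable_const.mul measurable_id.abs)
    have hbc := bc hc'0 hc'1 (show (1:ℝ) ≤ A by linarith) (L := L)
      (b := fun a => Real.log (π * |a|)) hL hb (fun a _ => hLi a) (fun a ha => by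
        rw [hLe a ha]
        exact hmean a (κ a) (g a) ha (h a ha).1 (h a ha).2.2.1 (h a ha).2.2.2)
    filter_upwards [hbc] with ω hω
    refine ⟨{a : ℝ | A ≤ |a| ∧ |L a ω - Real.log (π * |a|)| ≤ |a| ^ (-(c' / 4))}, ?_, ?_, ?_⟩
    · refine hset.inter ?_
      have h1 : Measurable fun a : ℝ => L a ω := hL.comp measurable_prodMk_right
      have h2 : Measurable fun a : ℝ => |a| := measurable_id.abs
      have h3 : Measurable fun a : ℝ => |a| ^ (-(c' / 4)) := h2.pow_const _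
      exact measurableSet_le (h1.sub hb).abs h3
    · obtain ⟨R₀, hR₀⟩ := hω
      refine ⟨max R₀ 1, fun R hR => ?_⟩
      have hR1 : 1 ≤ R := (le_max_right _ _).trans hR
      refine le_trans ((measure_mono ?_).trans (hR₀ R ((le_max_left _ _).trans hR))) ?_
      · rintro a ⟨h1, h2⟩
        exact ⟨abs_le.2 h1, h2⟩
      · exact ENNReal.ofReal_le_ofReal (Real.rpow_le_rpow_of_exponent_le hR1 (by linarith))
    · rintro a ⟨haA, haL⟩
      rw [hLe a haA] at haL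
      obtain ⟨h1, h2, h3, h4⟩ := h a haA
      exact ⟨haA, hbig a (κ a) (g a) ω haA h1 h2 h3 h4 haL⟩

end Pool.Agent.Helper18.FD
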