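import Pool.Agent.Helper18.FD.Lw
import Pool.Agent.Helper18.FD.Comb
import Pool.Agent.Helper18.FD.Up

/-! Block FD-FIX: the integrated exponent is near `log (π |a|)` in the mean.

`up` with `Lw_le` for `n = 1`, `Mm d 1 p = Dm d p` (`Mm_succ`, `Mm_zero`): `Lw d ω ≤ log (π|a|) + C|a|^(-1/3) =: b + ε₁`. `main1` divided by `n` and `Lw_int`: `∫ Lw ≥ b - |a|^(-c₀) =: b - ε₂`.
`|Lw - b| ≤ (b + ε₁ - Lw) + ε₁`, so `∫ |Lw - b| ≤ 3 ε₁ + ε₂ ≤ |a|^(-c)` for `c = c₀/2` and `|a| ≥ A` (integrability: `meas_Lw`, `Lw_bd`, probability space). The condition `exp (-|a|^c) ≤ κ` implies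
`exp (-|a|^c₀) ≤ κ` as `c ≤ c₀`. -/

set_option autoImplicit false
open MeasureTheory Real Set

namespace Pool.Agent.Helper18.FD

open Pool.Agent.Helper18.UC (T2 rep toT nn)

theorem fix {s : ℝ} (hs : 0 < s) (hs1 : s < 1) :
    ∃ c A : ℝ, 0 < c ∧ 100 ≤ A ∧ ∀ d : Dat, d.Ok → d.s = s → A ≤ |d.a| →
      Real.exp (-|d.a| ^ c) ≤ d.κ →
      (∀ ω, Lw d ω ≤ Real.log (π * |d.a|) + |d.a| ^ (-c)) ∧
      ∫ ω, |Lw d ω - Real.log (π * |d.a|)| ∂PP ≤ |d.a| ^ (-c) := by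
  obtain ⟨C, hC, hup⟩ := up
  obtain ⟨c₀, A₀, hc₀, hc₀', hA₀, hmain⟩ := main1 hs hs1
  refine ⟨c₀ / 2, max A₀ ((3 * C + 1) ^ (2 / c₀)), by positivity, hA₀.trans (le_max_left _ _),
    fun d hd hds hA hκ => ?_⟩
  have ha100 : (100 : ℝ) ≤ |d.a| := hd.ha
  have ha1 : (1 : ℝ) ≤ |d.a| := by linarith
  have ha0 : (0 : ℝ) < |d.a| := by linarith
  have hAA : (3 * C + 1) ^ (2 / c₀) ≤ |d.a| := (le_max_right _ _).trans hA
  have hbig : 3 * C + 1 ≤ |d.a| ^ (c₀ / 2) := by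
    have h1 : ((3 * C + 1) ^ (2 / c₀)) ^ (c₀ / 2) = 3 * C + 1 := by
      rw [← Real.rpow_mul (by positivity)]
      have h2 : 2 / c₀ * (c₀ / 2) = 1 := by field_simp
      rw [h2, Real.rpow_one]
    calc 3 * C + 1 = ((3 * C + 1) ^ (2 / c₀)) ^ (c₀ / 2) := h1.symm
      _ ≤ |d.a| ^ (c₀ / 2) := Real.rpow_le_rpow (by positivity) hAA (by positivity)
  have hsmall : (3 * C + 1) * |d.a| ^ (-c₀) ≤ |d.a| ^ (-(c₀ / 2)) := by
    have h1 : |d.a| ^ (-(c₀ / 2)) = |d.a| ^ (c₀ / 2) * |d.a| ^ (-c₀) := by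
      rw [← Real.rpow_add ha0]
      congr 1
      ring
    rw [h1]
    exact mul_le_mul_of_nonneg_right hbig (by positivity)
  have hthird : |d.a| ^ (-(1 / 3) : ℝ) ≤ |d.a| ^ (-c₀) :=
    Real.rpow_le_rpow_of_exponent_le ha1 (by linarith)
  have hx0 : (0 : ℝ) ≤ |d.a| ^ (-c₀) := by positivity
  have hκ' : Real.exp (-|d.a| ^ c₀) ≤ d.κ := by
    refine le_trans (Real.exp_le_exp.2 ?_) hκ
    have : |d.a| ^ (c₀ / 2) ≤ |d.a| ^ c₀ := Real.rpow_le_rpow_of_exponent_le ha1 (by linarith)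
    linarith
  obtain ⟨b, hb⟩ : ∃ b, b = Real.log (π * |d.a|) := ⟨_, rfl⟩
  obtain ⟨e₁, he₁⟩ : ∃ e, e = C * |d.a| ^ (-(1 / 3) : ℝ) := ⟨_, rfl⟩
  have he₁0 : 0 ≤ e₁ := by rw [he₁]; positivity
  have he₁' : e₁ ≤ C * |d.a| ^ (-c₀) := by
    rw [he₁]
    exact mul_le_mul_of_nonneg_left hthird hC.le
  have hLu : ∀ ω, Lw d ω ≤ b + e₁ := by
    intro ω
    have h1 := Lw_le hd ω 1
    rw [Nat.cast_one, one_mul] at h1
    have h2 : un d ω 1 = ∫ z : T2, Real.log (nn (Dm d (ω, z))) := by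
      unfold un
      refine integral_congr_ae (Filter.Eventually.of_forall fun z => ?_)
      have h3 : Mm d 1 (ω, z) = Dm d (ω, z) := by
        have h4 := Mm_succ d 0 (ω, z)
        rw [zero_add, Mm_zero, Matrix.mul_one] at h4
        exact h4
      show Real.log (nn (Mm d 1 (ω, z))) = _
      rw [h3]
    rw [h2] at h1
    rw [hb, he₁]
    exact h1.trans (hup d hd ω)
  have hint : Integrable (Lw d) PP := by
    refine Integrable.of_bound (meas_Lw hd).aestronglyMeasurable (Real.log (7 * |d.a|))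
      (Filter.Eventually.of_forall fun ω => ?_)
    have h1 := Lw_bd hd ω
    rw [Real.norm_of_nonneg h1.1]
    exact h1.2
  have hlow : b - |d.a| ^ (-c₀) ≤ ∫ ω, Lw d ω ∂PP := by
    refine ge_of_tendsto (Lw_int hd) ?_
    filter_upwards [Filter.eventually_ge_atTop 1] with n hn
    have hn0 : (0 : ℝ) < n := by exact_mod_cast hn
    rw [le_div_iff₀ hn0, mul_comm, hb]
    exact hmain d hd hds ((le_max_left _ _).trans hA) hκ' n
  have hmx : C * |d.a| ^ (-c₀) ≤ |d.a| ^ (-(c₀ / 2)) := by nlinarith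
  refine ⟨fun ω => ?_, ?_⟩
  · rw [← hb]
    linarith [hLu ω]
  · rw [← hb]
    have h1 : ∀ ω, |Lw d ω - b| ≤ (b + 2 * e₁) - Lw d ω := by
      intro ω
      have h2 := hLu ω
      rw [abs_le]
      constructor <;> linarith
    calc ∫ ω, |Lw d ω - b| ∂PP ≤ ∫ ω, ((b + 2 * e₁) - Lw d ω) ∂PP :=
          integral_mono (hint.sub (integrable_const b)).abs ((integrable_const _).sub hint) h1
      _ = (b + 2 * e₁) - ∫ ω, Lw d ω ∂PP := by
          rw [integral_sub (integrable_const _) hint, integral_const, probReal_univ, one_smul]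
      _ ≤ |d.a| ^ (-(c₀ / 2)) := by nlinarith

end Pool.Agent.Helper18.FD
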