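import Pool.Agent.Helper18.FD.Per

/-! Block FD-FLD: the random field `fld f g₁ g₂ e ω`, `e > 0`, for continuous bump functions `f, g₁, g₂` (zero for `|t| ≥ 1`).

`|f|, |g₁|, |g₂| ≤ B` (continuous with compact support). By `pr_sum`: `|lvl f g₁ g₂ ω l y x| ≤ (2B)(2B + 2B) = 8 B²` (`Finset.sum_product`, `abs_cl_le`), and
`(NN l)^(-e) = (2^(-e))^(l+3)` is geometric, so the series converges absolutely and uniformly: `C = 8 B² ∑ (NN l)^(-e)`.
`fld_nice`: continuity by `continuous_tsum`, periodicity from `rr_add_int` with `k = 1` (`y + 1 - c/N = (y - c/N) + 1`), bound by `tsum_of_norm_bounded` or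
`norm_tsum_le_tsum_norm`. `fld_meas`: each term is measurable in `(ω, y, x)` (`pr_cont`, `cl` continuous), the sum is the limit of the partial sums
(`measurable_of_tendsto_metrizable`, `HasSum.tendsto_sum_nat`) . -/

set_option autoImplicit false
open MeasureTheory Real Set

namespace Pool.Agent.Helper18.FD

/-- continuous bump functions -/
structure CB (f : ℝ → ℝ) : Prop where
  cont : Continuous f
  zero : ∀ t, 1 ≤ |t| → f t = 0

private theorem cb_bd {f : ℝ → ℝ} (hf : CB f) : ∃ B : ℝ, 0 ≤ B ∧ ∀ t, |f t| ≤ B := by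
  obtain ⟨C, hC⟩ := (isCompact_Icc (a := (-1 : ℝ)) (b := 1)).exists_bound_of_continuousOn hf.cont.continuousOn
  refine ⟨max C 0, le_max_right _ _, fun t => ?_⟩
  rcases le_total 1 |t| with h | h
  · rw [hf.zero t h, abs_zero]
    exact le_max_right _ _
  · exact (hC t (abs_le.1 h)).trans (le_max_left _ _)

private theorem NN_four (l : ℕ) : 4 ≤ NN l := by
  unfold NN
  calc 4 ≤ 2 ^ 3 := by norm_num
    _ ≤ 2 ^ (l + 3) := Nat.pow_le_pow_right (by norm_num) (by omega)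

private theorem lvl_bd {f g₁ g₂ : ℝ → ℝ} (hf : CB f) (h1 : CB g₁) (h2 : CB g₂) {A B₁ B₂ : ℝ}
    (hA : ∀ t, |f t| ≤ A) (hB1 : ∀ t, |g₁ t| ≤ B₁) (hB2 : ∀ t, |g₂ t| ≤ B₂) (ω : Om) (l : ℕ) (y x : ℝ) :
    |lvl f g₁ g₂ ω l y x| ≤ 2 * A * (2 * B₁ + 2 * B₂) := by
  have hA0 : 0 ≤ A := (abs_nonneg _).trans (hA 0)
  have s1 := pr_sum (NN_four l) hA hf.zero y
  have s2 := pr_sum (NN_four l) hB1 h1.zero x
  have s3 := pr_sum (NN_four l) hB2 h2.zero x
  unfold lvl
  calc _ ≤ ∑ c ∈ Finset.range (NN l) ×ˢ Finset.range (NN l), |pr (NN l) f (y - c.1 / NN l)| *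
        (|pr (NN l) g₁ (x - c.2 / NN l)| + |pr (NN l) g₂ (x - c.2 / NN l)|) := by
        refine (Finset.abs_sum_le_sum_abs _ _).trans (Finset.sum_le_sum fun c _ => ?_)
        rw [abs_mul]
        refine mul_le_mul_of_nonneg_left ((abs_add_le _ _).trans (add_le_add ?_ ?_)) (abs_nonneg _)
        · rw [abs_mul]
          exact mul_le_of_le_one_left (abs_nonneg _) (abs_cl_le _)
        · rw [abs_mul]
          exact mul_le_of_le_one_left (abs_nonneg _) (abs_cl_le _)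
    _ = (∑ c ∈ Finset.range (NN l), |pr (NN l) f (y - c / NN l)|) *
        ∑ c ∈ Finset.range (NN l), (|pr (NN l) g₁ (x - c / NN l)| + |pr (NN l) g₂ (x - c / NN l)|) := by
        rw [Finset.sum_product, Finset.sum_mul_sum]
    _ ≤ _ := by
        rw [Finset.sum_add_distrib]
        refine mul_le_mul s1 (add_le_add s2 s3) ?_ (by positivity)
        exact add_nonneg (Finset.sum_nonneg fun _ _ => abs_nonneg _) (Finset.sum_nonneg fun _ _ => abs_nonneg _)

private theorem NN_rpow {e : ℝ} (l : ℕ) : (NN l : ℝ) ^ (-e) = ((2 : ℝ) ^ (-e)) ^ (l + 3) := by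
  unfold NN
  rw [Nat.cast_pow, Nat.cast_ofNat, ← Real.rpow_natCast, ← Real.rpow_natCast, ← Real.rpow_mul (by norm_num),
    ← Real.rpow_mul (by norm_num), mul_comm]

private theorem NN_summable {e : ℝ} (he : 0 < e) (C : ℝ) : Summable fun l : ℕ => (NN l : ℝ) ^ (-e) * C := by
  refine Summable.mul_right _ ?_
  simp only [NN_rpow]
  exact (summable_nat_add_iff 3).2 (summable_geometric_of_lt_one (by positivity)
    (Real.rpow_lt_one_of_one_lt_of_neg (by norm_num) (by linarith)))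

private theorem exists_bd {f g₁ g₂ : ℝ → ℝ} (hf : CB f) (h1 : CB g₁) (h2 : CB g₂) {e : ℝ} (he : 0 < e) :
    ∃ u : ℕ → ℝ, Summable u ∧ (∀ l, 0 ≤ u l) ∧ ∀ (ω : Om) (l : ℕ) (y x : ℝ),
      ‖(NN l : ℝ) ^ (-e) * lvl f g₁ g₂ ω l y x‖ ≤ u l := by
  obtain ⟨A, hA0, hA⟩ := cb_bd hf
  obtain ⟨B₁, hB10, hB1⟩ := cb_bd h1
  obtain ⟨B₂, hB20, hB2⟩ := cb_bd h2
  refine ⟨_, NN_summable he (2 * A * (2 * B₁ + 2 * B₂)), fun l => by positivity, fun ω l y x => ?_⟩
  rw [norm_mul, Real.norm_eq_abs, Real.norm_eq_abs, abs_of_nonneg (by positivity)]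
  exact mul_le_mul_of_nonneg_left (lvl_bd hf h1 h2 hA hB1 hB2 ω l y x) (by positivity)

private theorem pr_add_one (N : ℕ) (f : ℝ → ℝ) (u : ℝ) : pr N f (u + 1) = pr N f u := by
  have h := rr_add_int u 1
  rw [Int.cast_one] at h
  unfold pr
  rw [h]

private theorem lvl_cont {f g₁ g₂ : ℝ → ℝ} (hf : CB f) (h1 : CB g₁) (h2 : CB g₂) (ω : Om) (l : ℕ) :
    Continuous fun q : ℝ × ℝ => lvl f g₁ g₂ ω l q.1 q.2 := by
  unfold lvl
  refine continuous_finsetSum _ fun c _ => ?_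
  refine ((pr_cont (NN_four l) hf.cont hf.zero).comp (continuous_fst.sub continuous_const)).mul ?_
  exact (continuous_const.mul ((pr_cont (NN_four l) h1.cont h1.zero).comp (continuous_snd.sub continuous_const))).add
    (continuous_const.mul ((pr_cont (NN_four l) h2.cont h2.zero).comp (continuous_snd.sub continuous_const)))

private theorem cl_cont : Continuous cl := by
  unfold cl
  fun_prop

private theorem lvl_meas {f g₁ g₂ : ℝ → ℝ} (hf : CB f) (h1 : CB g₁) (h2 : CB g₂) (l : ℕ) :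
    Measurable fun p : Om × (ℝ × ℝ) => lvl f g₁ g₂ p.1 l p.2.1 p.2.2 := by
  unfold lvl
  refine Finset.measurable_sum _ fun c _ => ?_
  have hy : Measurable fun p : Om × (ℝ × ℝ) => p.2.1 - (c.1 : ℝ) / NN l :=
    (measurable_fst.comp measurable_snd).sub_const _
  have hx : Measurable fun p : Om × (ℝ × ℝ) => p.2.2 - (c.2 : ℝ) / NN l :=
    (measurable_snd.comp measurable_snd).sub_const _
  have hc : ∀ i : Ix, Measurable fun p : Om × (ℝ × ℝ) => cl (p.1 i) := fun i =>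
    cl_cont.measurable.comp ((measurable_pi_apply i).comp measurable_fst)
  exact ((pr_cont (NN_four l) hf.cont hf.zero).measurable.comp hy).mul
    (((hc _).mul ((pr_cont (NN_four l) h1.cont h1.zero).measurable.comp hx)).add
      ((hc _).mul ((pr_cont (NN_four l) h2.cont h2.zero).measurable.comp hx)))

theorem fld_summable {f g₁ g₂ : ℝ → ℝ} (hf : CB f) (h1 : CB g₁) (h2 : CB g₂) {e : ℝ} (he : 0 < e)
    (ω : Om) (y x : ℝ) : Summable fun l : ℕ => (NN l : ℝ) ^ (-e) * lvl f g₁ g₂ ω l y x := by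
  obtain ⟨u, hu, _, hb⟩ := exists_bd hf h1 h2 he
  exact Summable.of_norm_bounded hu fun l => hb ω l y x

theorem fld_nice {f g₁ g₂ : ℝ → ℝ} (hf : CB f) (h1 : CB g₁) (h2 : CB g₂) {e : ℝ} (he : 0 < e) :
    ∃ C : ℝ, 0 ≤ C ∧ ∀ ω, Nice C (fld f g₁ g₂ e ω) := by
  obtain ⟨u, hu, hu0, hb⟩ := exists_bd hf h1 h2 he
  refine ⟨∑' l, u l, tsum_nonneg hu0, fun ω => ⟨?_, ?_, ?_, ?_⟩⟩
  · exact continuous_tsum (fun l => continuous_const.mul (lvl_cont hf h1 h2 ω l)) hu fun l q => hb ω l q.1 q.2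
  · intro y x
    unfold fld lvl
    have h : ∀ (N c : ℕ), pr N f (y + 1 - c / N) = pr N f (y - c / N) := fun N c => by
      rw [show y + 1 - (c : ℝ) / N = y - c / N + 1 by ring, pr_add_one]
    simp only [h]
  · intro y x
    unfold fld lvl
    have h : ∀ (g : ℝ → ℝ) (N c : ℕ), pr N g (x + 1 - c / N) = pr N g (x - c / N) := fun g N c => by
      rw [show x + 1 - (c : ℝ) / N = x - c / N + 1 by ring, pr_add_one]
    simp only [h]
  · intro y x
    exact tsum_of_norm_bounded hu.hasSum fun l => hb ω l y x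

theorem fld_meas {f g₁ g₂ : ℝ → ℝ} (hf : CB f) (h1 : CB g₁) (h2 : CB g₂) {e : ℝ} (he : 0 < e) :
    Measurable fun p : Om × (ℝ × ℝ) => fld f g₁ g₂ e p.1 p.2.1 p.2.2 := by
  refine measurable_of_tendsto_metrizable (f := fun n : ℕ => fun p : Om × (ℝ × ℝ) =>
    ∑ l ∈ Finset.range n, (NN l : ℝ) ^ (-e) * lvl f g₁ g₂ p.1 l p.2.1 p.2.2)
    (fun n => Finset.measurable_sum _ fun l _ => (lvl_meas hf h1 h2 l).const_mul _) ?_
  rw [tendsto_pi_nhds]
  intro p
  exact (fld_summable hf h1 h2 he p.1 p.2.1 p.2.2).hasSum.tendsto_sum_nat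

end Pool.Agent.Helper18.FD
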