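import Pool.Agent.Helper18.FD.Fld

/-! Block FD-FLDD: partial derivatives of the random field, and Hölder continuity.

`fld_dy`: differentiate the series term by term (`hasDerivAt_tsum` with the uniform bound of `Fld.lean`): the derivative in `y` of
`(NN l)^(-e) * lvl f g₁ g₂ ω l y x` is `(NN l)^(-e) * NN l * lvl (deriv f) g₁ g₂ ω l y x` (`pr_deriv`, a finite sum), and
`(NN l)^(-e) * NN l = (NN l)^(-(e-1))` (`Real.rpow_add`), bounded by a geometric series as `e > 1` (`deriv f` is again a continuous bump function, `deriv_off`).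
`fld_dx` is the same in the second variable.
`fld_hoelder`: `|lvl q - lvl q'| ≤ min (16 B²) (C NN l dist q q')`, so `|fld q - fld q'| ≤ ∑ N^(-s) min(C, C N r) ≤ C' r^s` for `0 < s < 1`, `r = dist q q'`:
with `N = NN l = 2^(l+3)`: `min(1, N r) ≤ (N r)^(s')` is not summable for `s' = s`; split at `N r = 1`: `∑_{N ≤ 1/r} N^(1-s) r ≤ C r^s` (geometric, last term dominates)
and `∑_{N > 1/r} N^(-s) ≤ C r^s`. The constant may depend on everything except `ω, q, q'`. -/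

set_option autoImplicit false
open MeasureTheory Real Set

namespace Pool.Agent.Helper18.FD

private lemma hN_77 (l : ℕ) : 4 ≤ NN l := by
  have h := NN_ge l
  have h1 : (4 : ℝ) ≤ NN l := by linarith
  exact_mod_cast h1

private lemma cb_bdd_77 {f : ℝ → ℝ} (hf : CB f) : ∃ B : ℝ, ∀ t, |f t| ≤ B := by
  obtain ⟨B, hB⟩ := (isCompact_Icc (a := (-1 : ℝ)) (b := 1)).exists_bound_of_continuousOn
    hf.cont.continuousOn
  refine ⟨max B 0, fun t => ?_⟩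
  by_cases h : t ∈ Icc (-1 : ℝ) 1
  · exact (hB t h).trans (le_max_left _ _)
  · have h1 : 1 ≤ |t| := by
      rw [mem_Icc, ← abs_le, not_le] at h
      exact h.le
    rw [hf.zero t h1, abs_zero]
    exact le_max_right _ _

private lemma cb_deriv_77 {f : ℝ → ℝ} (hf : CB f) (hf1 : ContDiff ℝ 1 f) : CB (deriv f) :=
  ⟨hf1.continuous_deriv le_rfl, deriv_off (hf1.differentiable one_ne_zero) hf.zero⟩

private lemma lvl_bd_77 {f g₁ g₂ : ℝ → ℝ} (hf : CB f) (h1 : CB g₁) (h2 : CB g₂) {B : ℝ}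
    (hB : ∀ t, |f t| ≤ B) (hB1 : ∀ t, |g₁ t| ≤ B) (hB2 : ∀ t, |g₂ t| ≤ B) (ω : Om) (l : ℕ)
    (y x : ℝ) : |lvl f g₁ g₂ ω l y x| ≤ 8 * B ^ 2 := by
  have hN := hN_77 l
  have hf' := pr_sum hN hB hf.zero y
  have h1' := pr_sum hN hB1 h1.zero x
  have h2' := pr_sum hN hB2 h2.zero x
  have hB0 : 0 ≤ B := (abs_nonneg _).trans (hB 0)
  have hs : ∑ c ∈ Finset.range (NN l), (|pr (NN l) g₁ (x - c / NN l)| +
      |pr (NN l) g₂ (x - c / NN l)|) ≤ 2 * B + 2 * B := by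
    rw [Finset.sum_add_distrib]
    exact add_le_add h1' h2'
  have hs0 : 0 ≤ ∑ c ∈ Finset.range (NN l), (|pr (NN l) g₁ (x - c / NN l)| +
      |pr (NN l) g₂ (x - c / NN l)|) := Finset.sum_nonneg fun c _ => by positivity
  calc |lvl f g₁ g₂ ω l y x|
      ≤ ∑ c ∈ Finset.range (NN l) ×ˢ Finset.range (NN l), |pr (NN l) f (y - c.1 / NN l) *
          (cl (ω (l, c.1, c.2, false)) * pr (NN l) g₁ (x - c.2 / NN l) +
          cl (ω (l, c.1, c.2, true)) * pr (NN l) g₂ (x - c.2 / NN l))| :=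
        Finset.abs_sum_le_sum_abs _ _
    _ ≤ ∑ c ∈ Finset.range (NN l) ×ˢ Finset.range (NN l), |pr (NN l) f (y - c.1 / NN l)| *
          (|pr (NN l) g₁ (x - c.2 / NN l)| + |pr (NN l) g₂ (x - c.2 / NN l)|) := by
        refine Finset.sum_le_sum fun c _ => ?_
        rw [abs_mul]
        refine mul_le_mul_of_nonneg_left ?_ (abs_nonneg _)
        refine (abs_add_le _ _).trans (add_le_add ?_ ?_)
        · rw [abs_mul]
          exact mul_le_of_le_one_left (abs_nonneg _) (abs_cl_le _)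
        · rw [abs_mul]
          exact mul_le_of_le_one_left (abs_nonneg _) (abs_cl_le _)
    _ = (∑ c ∈ Finset.range (NN l), |pr (NN l) f (y - c / NN l)|) *
          ∑ c ∈ Finset.range (NN l), (|pr (NN l) g₁ (x - c / NN l)| +
            |pr (NN l) g₂ (x - c / NN l)|) := by
        rw [Finset.sum_product, Finset.sum_mul_sum]
    _ ≤ (2 * B) * (2 * B + 2 * B) := mul_le_mul hf' hs hs0 (by positivity)
    _ = 8 * B ^ 2 := by ring

private lemma lvl_dy_77 {f g₁ g₂ : ℝ → ℝ} (hf : CB f) (hf1 : ContDiff ℝ 1 f) (ω : Om) (l : ℕ)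
    (y x : ℝ) :
    HasDerivAt (fun t => lvl f g₁ g₂ ω l t x) (NN l * lvl (deriv f) g₁ g₂ ω l y x) y := by
  have hN := hN_77 l
  unfold lvl
  rw [Finset.mul_sum]
  refine HasDerivAt.fun_sum fun c _ => ?_
  have h := (pr_deriv hN (hf1.differentiable one_ne_zero) hf.zero
    (y - c.1 / NN l)).comp_sub_const y (c.1 / NN l)
  have h' := h.mul_const (cl (ω (l, c.1, c.2, false)) * pr (NN l) g₁ (x - c.2 / NN l) +
      cl (ω (l, c.1, c.2, true)) * pr (NN l) g₂ (x - c.2 / NN l))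
  refine h'.congr_deriv ?_
  ring

private lemma lvl_dx_77 {f g₁ g₂ : ℝ → ℝ} (h1 : CB g₁) (h2 : CB g₂) (h11 : ContDiff ℝ 1 g₁)
    (h21 : ContDiff ℝ 1 g₂) (ω : Om) (l : ℕ) (y x : ℝ) :
    HasDerivAt (fun t => lvl f g₁ g₂ ω l y t) (NN l * lvl f (deriv g₁) (deriv g₂) ω l y x) x := by
  have hN := hN_77 l
  unfold lvl
  rw [Finset.mul_sum]
  refine HasDerivAt.fun_sum fun c _ => ?_
  have ha := (pr_deriv hN (h11.differentiable one_ne_zero) h1.zero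
    (x - c.2 / NN l)).comp_sub_const x (c.2 / NN l)
  have hb := (pr_deriv hN (h21.differentiable one_ne_zero) h2.zero
    (x - c.2 / NN l)).comp_sub_const x (c.2 / NN l)
  have h' := ((ha.const_mul (cl (ω (l, c.1, c.2, false)))).add
    (hb.const_mul (cl (ω (l, c.1, c.2, true))))).const_mul (pr (NN l) f (y - c.1 / NN l))
  refine h'.congr_deriv ?_
  ring

private lemma rpow_77 (l : ℕ) (e : ℝ) :
    (NN l : ℝ) ^ (-e) * NN l = (NN l : ℝ) ^ (-(e - 1)) := by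
  have h := NN_pos l
  rw [show -(e - 1) = -e + 1 by ring, Real.rpow_add h, Real.rpow_one]

private lemma summ_77 {e : ℝ} (he : 0 < e) : Summable fun l : ℕ => (NN l : ℝ) ^ (-e) := by
  have h1 : ∀ l : ℕ, (NN l : ℝ) ^ (-e) = ((2 : ℝ) ^ (-e)) ^ (l + 3) := by
    intro l
    unfold NN
    push_cast
    rw [← Real.rpow_natCast, ← Real.rpow_mul (by norm_num), mul_comm,
      Real.rpow_mul (by norm_num), Real.rpow_natCast]
  simp_rw [h1]
  have h2 : (2 : ℝ) ^ (-e) < 1 := Real.rpow_lt_one_of_one_lt_of_neg (by norm_num) (by linarith)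
  have h3 : 0 ≤ (2 : ℝ) ^ (-e) := by positivity
  exact (summable_nat_add_iff 3).2 (summable_geometric_of_lt_one h3 h2)

theorem fld_dy {f g₁ g₂ : ℝ → ℝ} (hf : CB f) (hf1 : ContDiff ℝ 1 f) (h1 : CB g₁) (h2 : CB g₂)
    {e : ℝ} (he : 1 < e) (ω : Om) (y x : ℝ) :
    HasDerivAt (fun t => fld f g₁ g₂ e ω t x) (fld (deriv f) g₁ g₂ (e - 1) ω y x) y := by
  have hd := cb_deriv_77 hf hf1
  obtain ⟨B0, hB0⟩ := cb_bdd_77 hd
  obtain ⟨B1, hB1⟩ := cb_bdd_77 h1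
  obtain ⟨B2, hB2⟩ := cb_bdd_77 h2
  have hb := fun (l : ℕ) (t : ℝ) => lvl_bd_77 (B := max B0 (max B1 B2)) hd h1 h2
    (fun t => (hB0 t).trans (le_max_left _ _))
    (fun t => (hB1 t).trans ((le_max_left _ _).trans (le_max_right _ _)))
    (fun t => (hB2 t).trans ((le_max_right _ _).trans (le_max_right _ _))) ω l t x
  unfold fld
  refine hasDerivAt_tsum (g := fun l t => (NN l : ℝ) ^ (-e) * lvl f g₁ g₂ ω l t x)
    (g' := fun l t => (NN l : ℝ) ^ (-(e - 1)) * lvl (deriv f) g₁ g₂ ω l t x) (y₀ := y)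
    ((summ_77 (e := e - 1) (by linarith)).mul_right (8 * (max B0 (max B1 B2)) ^ 2))
    ?_ ?_ (fld_summable hf h1 h2 (by linarith) ω y x) y
  · intro l t
    have h := (lvl_dy_77 (g₁ := g₁) (g₂ := g₂) hf hf1 ω l t x).const_mul ((NN l : ℝ) ^ (-e))
    rwa [← mul_assoc, rpow_77] at h
  · intro l t
    rw [Real.norm_eq_abs, abs_mul, abs_of_nonneg (Real.rpow_nonneg (NN_pos l).le _)]
    exact mul_le_mul_of_nonneg_left (hb l t) (Real.rpow_nonneg (NN_pos l).le _)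

theorem fld_dx {f g₁ g₂ : ℝ → ℝ} (hf : CB f) (h1 : CB g₁) (h2 : CB g₂) (h11 : ContDiff ℝ 1 g₁)
    (h21 : ContDiff ℝ 1 g₂) {e : ℝ} (he : 1 < e) (ω : Om) (y x : ℝ) :
    HasDerivAt (fun t => fld f g₁ g₂ e ω y t) (fld f (deriv g₁) (deriv g₂) (e - 1) ω y x) x := by
  have hd1 := cb_deriv_77 h1 h11
  have hd2 := cb_deriv_77 h2 h21
  obtain ⟨B0, hB0⟩ := cb_bdd_77 hf
  obtain ⟨B1, hB1⟩ := cb_bdd_77 hd1
  obtain ⟨B2, hB2⟩ := cb_bdd_77 hd2
  have hb := fun (l : ℕ) (t : ℝ) => lvl_bd_77 (B := max B0 (max B1 B2)) hf hd1 hd2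
    (fun t => (hB0 t).trans (le_max_left _ _))
    (fun t => (hB1 t).trans ((le_max_left _ _).trans (le_max_right _ _)))
    (fun t => (hB2 t).trans ((le_max_right _ _).trans (le_max_right _ _))) ω l y t
  unfold fld
  refine hasDerivAt_tsum (g := fun l t => (NN l : ℝ) ^ (-e) * lvl f g₁ g₂ ω l y t)
    (g' := fun l t => (NN l : ℝ) ^ (-(e - 1)) * lvl f (deriv g₁) (deriv g₂) ω l y t) (y₀ := x)
    ((summ_77 (e := e - 1) (by linarith)).mul_right (8 * (max B0 (max B1 B2)) ^ 2))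
    ?_ ?_ (fld_summable hf h1 h2 (by linarith) ω y x) x
  · intro l t
    have h := (lvl_dx_77 (f := f) h1 h2 h11 h21 ω l y t).const_mul ((NN l : ℝ) ^ (-e))
    rwa [← mul_assoc, rpow_77] at h
  · intro l t
    rw [Real.norm_eq_abs, abs_mul, abs_of_nonneg (Real.rpow_nonneg (NN_pos l).le _)]
    exact mul_le_mul_of_nonneg_left (hb l t) (Real.rpow_nonneg (NN_pos l).le _)

private lemma lvl_lip_77 {f g₁ g₂ : ℝ → ℝ} (hf : CB f) (h1 : CB g₁) (h2 : CB g₂)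
    (hf1 : ContDiff ℝ 1 f) (h11 : ContDiff ℝ 1 g₁) (h21 : ContDiff ℝ 1 g₂) :
    ∃ K : ℝ, 0 ≤ K ∧ ∀ (ω : Om) (l : ℕ) (q q' : ℝ × ℝ),
      |lvl f g₁ g₂ ω l q.1 q.2 - lvl f g₁ g₂ ω l q'.1 q'.2| ≤ K ∧
      |lvl f g₁ g₂ ω l q.1 q.2 - lvl f g₁ g₂ ω l q'.1 q'.2| ≤ K * (NN l * dist q q') := by
  have hd := cb_deriv_77 hf hf1
  have hd1 := cb_deriv_77 h1 h11
  have hd2 := cb_deriv_77 h2 h21
  obtain ⟨B0, hB0⟩ := cb_bdd_77 hf
  obtain ⟨B1, hB1⟩ := cb_bdd_77 h1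
  obtain ⟨B2, hB2⟩ := cb_bdd_77 h2
  obtain ⟨B3, hB3⟩ := cb_bdd_77 hd
  obtain ⟨B4, hB4⟩ := cb_bdd_77 hd1
  obtain ⟨B5, hB5⟩ := cb_bdd_77 hd2
  have p0 : 0 ≤ B0 := (abs_nonneg _).trans (hB0 0)
  have p1 : 0 ≤ B1 := (abs_nonneg _).trans (hB1 0)
  have p2 : 0 ≤ B2 := (abs_nonneg _).trans (hB2 0)
  have p3 : 0 ≤ B3 := (abs_nonneg _).trans (hB3 0)
  have p4 : 0 ≤ B4 := (abs_nonneg _).trans (hB4 0)
  have p5 : 0 ≤ B5 := (abs_nonneg _).trans (hB5 0)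
  obtain ⟨B, hBdef⟩ : ∃ B, B = B0 + B1 + B2 + B3 + B4 + B5 := ⟨_, rfl⟩
  have q0 : ∀ t, |f t| ≤ B := fun t => (hB0 t).trans (by linarith)
  have q1 : ∀ t, |g₁ t| ≤ B := fun t => (hB1 t).trans (by linarith)
  have q2 : ∀ t, |g₂ t| ≤ B := fun t => (hB2 t).trans (by linarith)
  have q3 : ∀ t, |deriv f t| ≤ B := fun t => (hB3 t).trans (by linarith)
  have q4 : ∀ t, |deriv g₁ t| ≤ B := fun t => (hB4 t).trans (by linarith)
  have q5 : ∀ t, |deriv g₂ t| ≤ B := fun t => (hB5 t).trans (by linarith)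
  refine ⟨16 * B ^ 2, by positivity, fun ω l q q' => ⟨?_, ?_⟩⟩
  · have a1 := lvl_bd_77 hf h1 h2 q0 q1 q2 ω l q.1 q.2
    have a2 := lvl_bd_77 hf h1 h2 q0 q1 q2 ω l q'.1 q'.2
    have a3 := abs_sub (lvl f g₁ g₂ ω l q.1 q.2) (lvl f g₁ g₂ ω l q'.1 q'.2)
    linarith
  · have hN := NN_pos l
    have b1 : |q.1 - q'.1| ≤ dist q q' := by
      rw [← Real.dist_eq]
      exact le_max_left _ _
    have b2 : |q.2 - q'.2| ≤ dist q q' := by
      rw [← Real.dist_eq]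
      exact le_max_right _ _
    have c1 : |lvl f g₁ g₂ ω l q.1 q.2 - lvl f g₁ g₂ ω l q'.1 q.2| ≤
        (NN l * (8 * B ^ 2)) * |q.1 - q'.1| := by
      refine Convex.norm_image_sub_le_of_norm_hasDerivWithin_le
        (f := fun t => lvl f g₁ g₂ ω l t q.2)
        (f' := fun t => NN l * lvl (deriv f) g₁ g₂ ω l t q.2) (s := univ)
        (fun t _ => (lvl_dy_77 hf hf1 ω l t q.2).hasDerivWithinAt) ?_ convex_univ (mem_univ _)
        (mem_univ _)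
      intro t _
      rw [Real.norm_eq_abs, abs_mul, abs_of_pos hN]
      exact mul_le_mul_of_nonneg_left (lvl_bd_77 hd h1 h2 q3 q1 q2 ω l t q.2) hN.le
    have c2 : |lvl f g₁ g₂ ω l q'.1 q.2 - lvl f g₁ g₂ ω l q'.1 q'.2| ≤
        (NN l * (8 * B ^ 2)) * |q.2 - q'.2| := by
      refine Convex.norm_image_sub_le_of_norm_hasDerivWithin_le
        (f := fun t => lvl f g₁ g₂ ω l q'.1 t)
        (f' := fun t => NN l * lvl f (deriv g₁) (deriv g₂) ω l q'.1 t) (s := univ)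
        (fun t _ => (lvl_dx_77 h1 h2 h11 h21 ω l q'.1 t).hasDerivWithinAt) ?_ convex_univ
        (mem_univ _) (mem_univ _)
      intro t _
      rw [Real.norm_eq_abs, abs_mul, abs_of_pos hN]
      exact mul_le_mul_of_nonneg_left (lvl_bd_77 hf hd1 hd2 q0 q4 q5 ω l q'.1 t) hN.le
    have c3 := abs_add_le (lvl f g₁ g₂ ω l q.1 q.2 - lvl f g₁ g₂ ω l q'.1 q.2)
      (lvl f g₁ g₂ ω l q'.1 q.2 - lvl f g₁ g₂ ω l q'.1 q'.2)
    rw [sub_add_sub_cancel] at c3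
    have c4 : 0 ≤ NN l * (8 * B ^ 2) := by positivity
    have c5 := mul_le_mul_of_nonneg_left b1 c4
    have c6 := mul_le_mul_of_nonneg_left b2 c4
    calc _ ≤ _ := c3
      _ ≤ (NN l * (8 * B ^ 2)) * dist q q' + (NN l * (8 * B ^ 2)) * dist q q' :=
        add_le_add (c1.trans c5) (c2.trans c6)
      _ = _ := by ring

/-- the geometric estimate -/
private lemma geo_77 {s : ℝ} (hs : 0 < s) (hs1 : s < 1) {r t : ℝ} (hr : 0 < r) (ht : 0 < t) {m : ℤ}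
    (h1 : t * r ≤ (2 : ℝ) ^ m) (h2 : (2 : ℝ) ^ (m - 1) ≤ t * r) {u : ℝ} (hu0 : 0 ≤ u) (hu1 : u ≤ 1)
    (hu2 : u ≤ t * r) :
    t ^ (-s) * u ≤ r ^ s * (2 * (max ((2 : ℝ) ^ (-s)) ((2 : ℝ) ^ (-(1 - s)))) ^ m.natAbs) := by
  have htr : 0 < t * r := mul_pos ht hr
  have h3 : t ^ (-s) = r ^ s * (t * r) ^ (-s) := by
    rw [Real.mul_rpow ht.le hr.le, Real.rpow_neg hr.le]
    have : r ^ s ≠ 0 := (Real.rpow_pos_of_pos hr s).ne'
    field_simp
  rw [h3, mul_assoc]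
  refine mul_le_mul_of_nonneg_left ?_ (Real.rpow_nonneg hr.le s)
  have h0a : (0 : ℝ) ≤ (2 : ℝ) ^ (-s) := by positivity
  have h0b : (0 : ℝ) ≤ (2 : ℝ) ^ (-(1 - s)) := by positivity
  have hp : 0 ≤ (t * r) ^ (-s) := Real.rpow_nonneg htr.le _
  rcases le_or_gt m 0 with hm | hm
  · -- `t r ≤ 1`
    have h4 : (t * r) ^ (-s) * u ≤ (t * r) ^ (1 - s) := by
      calc (t * r) ^ (-s) * u ≤ (t * r) ^ (-s) * (t * r) := mul_le_mul_of_nonneg_left hu2 hp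
        _ = (t * r) ^ (1 - s) := by
          rw [show (1 - s) = -s + 1 by ring, Real.rpow_add htr, Real.rpow_one]
    have h5 : (t * r) ^ (1 - s) ≤ ((2 : ℝ) ^ m) ^ (1 - s) :=
      Real.rpow_le_rpow htr.le h1 (by linarith)
    have h6 : ((2 : ℝ) ^ m) ^ (1 - s) = ((2 : ℝ) ^ (-(1 - s))) ^ m.natAbs := by
      rw [← Real.rpow_intCast, ← Real.rpow_mul (by norm_num), ← Real.rpow_natCast,
        ← Real.rpow_mul (by norm_num)]
      congr 1
      have h7 : (m : ℝ) = -(m.natAbs : ℝ) := by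
        have h : ((m.natAbs : ℕ) : ℤ) = -m := by omega
        rw [← Int.cast_natCast, h]
        push_cast
        ring
      rw [h7]
      ring
    have h8 : ((2 : ℝ) ^ (-(1 - s))) ^ m.natAbs ≤
        (max ((2 : ℝ) ^ (-s)) ((2 : ℝ) ^ (-(1 - s)))) ^ m.natAbs :=
      pow_le_pow_left₀ h0b (le_max_right _ _) _
    have h9 : 0 ≤ (max ((2 : ℝ) ^ (-s)) ((2 : ℝ) ^ (-(1 - s)))) ^ m.natAbs :=
      pow_nonneg (h0a.trans (le_max_left _ _)) _
    linarith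
  · have h4 : (t * r) ^ (-s) * u ≤ (t * r) ^ (-s) := mul_le_of_le_one_right hp hu1
    have h5 : (t * r) ^ (-s) ≤ ((2 : ℝ) ^ (m - 1)) ^ (-s) :=
      Real.rpow_le_rpow_of_nonpos (by positivity) h2 (by linarith)
    have h6 : ((2 : ℝ) ^ (m - 1)) ^ (-s) = (2 : ℝ) ^ s * ((2 : ℝ) ^ (-s)) ^ m.natAbs := by
      rw [← Real.rpow_intCast, ← Real.rpow_mul (by norm_num), ← Real.rpow_natCast,
        ← Real.rpow_mul (by norm_num), ← Real.rpow_add (by norm_num)]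
      congr 1
      have h7 : (m : ℝ) = (m.natAbs : ℝ) := by
        have h : ((m.natAbs : ℕ) : ℤ) = m := by omega
        rw [← Int.cast_natCast, h]
      push_cast
      rw [h7]
      ring
    have h8 : ((2 : ℝ) ^ (-s)) ^ m.natAbs ≤
        (max ((2 : ℝ) ^ (-s)) ((2 : ℝ) ^ (-(1 - s)))) ^ m.natAbs :=
      pow_le_pow_left₀ h0a (le_max_left _ _) _
    have h9 : (2 : ℝ) ^ s ≤ 2 := by
      calc (2 : ℝ) ^ s ≤ (2 : ℝ) ^ (1 : ℝ) := Real.rpow_le_rpow_of_exponent_le (by norm_num) hs1.le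
        _ = 2 := Real.rpow_one 2
    calc (t * r) ^ (-s) * u ≤ ((2 : ℝ) ^ (m - 1)) ^ (-s) := h4.trans h5
      _ = (2 : ℝ) ^ s * ((2 : ℝ) ^ (-s)) ^ m.natAbs := h6
      _ ≤ 2 * (max ((2 : ℝ) ^ (-s)) ((2 : ℝ) ^ (-(1 - s)))) ^ m.natAbs :=
        mul_le_mul h9 h8 (by positivity) (by norm_num)

theorem fld_hoelder {f g₁ g₂ : ℝ → ℝ} (hf : CB f) (h1 : CB g₁) (h2 : CB g₂) (hf1 : ContDiff ℝ 1 f)
    (h11 : ContDiff ℝ 1 g₁) (h21 : ContDiff ℝ 1 g₂) {s : ℝ} (hs : 0 < s) (hs1 : s < 1) :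
    ∃ C : ℝ, 0 ≤ C ∧ ∀ (ω : Om) (q q' : ℝ × ℝ),
      |fld f g₁ g₂ s ω q.1 q.2 - fld f g₁ g₂ s ω q'.1 q'.2| ≤ C * dist q q' ^ s := by
  obtain ⟨K, hK, hlip⟩ := lvl_lip_77 hf h1 h2 hf1 h11 h21
  obtain ⟨ρ, hρ⟩ : ∃ ρ, ρ = max ((2 : ℝ) ^ (-s)) ((2 : ℝ) ^ (-(1 - s))) := ⟨_, rfl⟩
  have hρ0 : 0 ≤ ρ := by
    rw [hρ]
    exact (by positivity : (0 : ℝ) ≤ (2 : ℝ) ^ (-s)).trans (le_max_left _ _)
  have hρ1 : ρ < 1 := by
    rw [hρ]
    exact max_lt (Real.rpow_lt_one_of_one_lt_of_neg (by norm_num) (by linarith))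
      (Real.rpow_lt_one_of_one_lt_of_neg (by norm_num) (by linarith))
  have hsum : Summable fun m : ℤ => ρ ^ m.natAbs := by
    refine Summable.of_nat_of_neg ?_ ?_
    · simpa using summable_geometric_of_lt_one hρ0 hρ1
    · simpa using summable_geometric_of_lt_one hρ0 hρ1
  obtain ⟨S, hS⟩ : ∃ S, S = ∑' m : ℤ, ρ ^ m.natAbs := ⟨_, rfl⟩
  have hS0 : 0 ≤ S := by
    rw [hS]
    exact tsum_nonneg fun m => pow_nonneg hρ0 _
  refine ⟨K * (2 * S), by positivity, fun ω q q' => ?_⟩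
  rcases eq_or_ne q q' with rfl | hne
  · simp only [sub_self, abs_zero, dist_self]
    rw [Real.zero_rpow hs.ne', mul_zero]
  have hr : 0 < dist q q' := dist_pos.2 hne
  obtain ⟨r, hrdef⟩ : ∃ r, r = dist q q' := ⟨_, rfl⟩
  rw [← hrdef] at hr ⊢
  obtain ⟨L, hL1, hL2⟩ := exists_mem_Ico_zpow (inv_pos.2 hr) (by norm_num : (1 : ℝ) < 2)
  have hNz : ∀ l : ℕ, (NN l : ℝ) = (2 : ℝ) ^ ((l : ℤ) + 3) := by
    intro l
    unfold NN
    push_cast
    rw [← zpow_natCast]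
    norm_num
  -- the terms
  have hterm : ∀ l : ℕ, ‖(NN l : ℝ) ^ (-s) * lvl f g₁ g₂ ω l q.1 q.2 -
      (NN l : ℝ) ^ (-s) * lvl f g₁ g₂ ω l q'.1 q'.2‖ ≤
      K * (r ^ s * (2 * ρ ^ ((l : ℤ) + 3 - L).natAbs)) := by
    intro l
    have hN := NN_pos l
    obtain ⟨a1, a2⟩ := hlip ω l q q'
    rw [← hrdef] at a2
    rw [← mul_sub, Real.norm_eq_abs, abs_mul, abs_of_nonneg (Real.rpow_nonneg hN.le _)]
    have hb1 : (NN l : ℝ) * r ≤ (2 : ℝ) ^ ((l : ℤ) + 3 - L) := by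
      have h3 : r ≤ ((2 : ℝ) ^ L)⁻¹ := by
        rw [← inv_inv r]
        exact inv_anti₀ (by positivity) hL1
      rw [zpow_sub₀ (by norm_num), ← hNz, div_eq_mul_inv]
      exact mul_le_mul_of_nonneg_left h3 hN.le
    have hb2 : (2 : ℝ) ^ ((l : ℤ) + 3 - L - 1) ≤ (NN l : ℝ) * r := by
      have h3 : ((2 : ℝ) ^ (L + 1))⁻¹ ≤ r := by
        rw [← inv_inv r]
        exact inv_anti₀ (inv_pos.2 hr) hL2.le
      rw [show (l : ℤ) + 3 - L - 1 = (l : ℤ) + 3 - (L + 1) by ring, zpow_sub₀ (by norm_num), ← hNz,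
        div_eq_mul_inv]
      exact mul_le_mul_of_nonneg_left h3 hN.le
    have hg := geo_77 hs hs1 hr hN hb1 hb2 (u := min 1 (NN l * r))
      (le_min zero_le_one (by positivity)) (min_le_left _ _) (min_le_right _ _)
    rw [← hρ] at hg
    have hmin : |lvl f g₁ g₂ ω l q.1 q.2 - lvl f g₁ g₂ ω l q'.1 q'.2| ≤ K * min 1 (NN l * r) := by
      rcases min_choice (1 : ℝ) (NN l * r) with h | h
      · rw [h, mul_one]
        exact a1
      · rw [h]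
        exact a2
    calc (NN l : ℝ) ^ (-s) * |lvl f g₁ g₂ ω l q.1 q.2 - lvl f g₁ g₂ ω l q'.1 q'.2|
        ≤ (NN l : ℝ) ^ (-s) * (K * min 1 (NN l * r)) :=
          mul_le_mul_of_nonneg_left hmin (Real.rpow_nonneg hN.le _)
      _ = K * ((NN l : ℝ) ^ (-s) * min 1 (NN l * r)) := by ring
      _ ≤ _ := mul_le_mul_of_nonneg_left hg hK
  have hinj : Function.Injective fun l : ℕ => (l : ℤ) + 3 - L := by
    intro a b h
    simp only at h
    omega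
  have hsum' : Summable fun l : ℕ => ρ ^ ((l : ℤ) + 3 - L).natAbs :=
    hsum.comp_injective hinj
  have hle : ∑' l : ℕ, ρ ^ ((l : ℤ) + 3 - L).natAbs ≤ S := by
    rw [hS]
    exact tsum_comp_le_tsum_of_inj hsum (fun m => pow_nonneg hρ0 _) hinj
  have hsg : HasSum (fun l : ℕ => K * (r ^ s * (2 * ρ ^ ((l : ℤ) + 3 - L).natAbs)))
      (K * (r ^ s * (2 * ∑' l : ℕ, ρ ^ ((l : ℤ) + 3 - L).natAbs))) :=
    ((hsum'.hasSum.mul_left 2).mul_left (r ^ s)).mul_left K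
  have hfin := tsum_of_norm_bounded hsg hterm
  rw [Summable.tsum_sub (fld_summable hf h1 h2 hs ω q.1 q.2)
    (fld_summable hf h1 h2 hs ω q'.1 q'.2)] at hfin
  unfold fld
  rw [Real.norm_eq_abs] at hfin
  refine hfin.trans ?_
  have hrs : 0 ≤ r ^ s := Real.rpow_nonneg hr.le s
  calc K * (r ^ s * (2 * ∑' l : ℕ, ρ ^ ((l : ℤ) + 3 - L).natAbs))
      ≤ K * (r ^ s * (2 * S)) := by gcongr
    _ = K * (2 * S) * r ^ s := by ring

end Pool.Agent.Helper18.FD
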