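import Pool.Agent.Helper18.FD.Orb

/-! Block FD-KICK: the innovation moves the pair number `k + 1`.

Let `ω' = update ω (l, c.1, c.2, false) u = upd l c u (ω (l, c.1, c.2, true)) ω`. The pairs `j < k` are outside, the pair `k` is in the inner part: `iter_out`, so `z_k` is the same for `ω, ω'`;
let `q = rep z_k`, `X = nx .. q` the same for both (`pw0_upd`); `p₁ = q.1 - φ₂(q.1, X)`, `p₁' = p₁ - δ`, `δ = κ N^(-(1+s)) (cl u - cl (ω i))` (`ph_inn`). Let `Y = nx .. (X, p₁)` for `ω` and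
`Y' = nx .. (X, p₁')` for `ω'`. Then `pw d (k+1) (ω, z) = toT (X, Y)` and `pw d (k+1) (ω', z) = toT (X, Y')` (`rep (toT (X, p₁))` differs from `(X, p₁)` by integers, `nx_sh`, `toT_sh`).
Both pairs are outside the cell, so `(d.ph ω').f1 X Y' = (d.ph ω).f1 X Y'` (`ph_out`), and by `nx_spec`: `(Y' - f1 X Y') - (Y - f1 X Y) = δ` with the same `f1`. By `A_bilip` (`η ≤ 1/100`):
`|δ| ≤ (101/100) |Y - Y'|` and `|Y - Y'| ≤ (100/99) |δ| ≤ (100/99) 2 κ/8 < 1/2`, so `|rr (Y - Y')| = |Y - Y'|` and `dist_toT` gives the claim. -/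

set_option autoImplicit false
open MeasureTheory Real Set

namespace Pool.Agent.Helper18.FD

open Pool.Agent.Helper18.UC (T2 rep toT)

variable {d : Dat}

private theorem pw0_toT18 (hd : d.Ok) (ω : Om) (q : ℝ × ℝ) :
    pw0 d (ω, toT q) = toT (q.1, nx d.a (d.ph ω) q) := by
  have hη : (1 : ℝ) / |d.a| ≤ 1 / 2 := (eta_le hd).trans (by norm_num)
  obtain ⟨u, w, h⟩ := Pool.Agent.Helper18.UC.rep_toT q
  change toT ((rep (toT q)).1, nx d.a (d.ph ω) (rep (toT q))) = _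
  rw [h]
  have h1 : nx d.a (d.ph ω) (q.1 + u, q.2 + w) = nx d.a (d.ph ω) q + (2 * u - w : ℤ) := nx_sh hη (hd.ok ω) q u w
  have h2 := Pool.Agent.Helper18.UC.toT_sh (q.1, nx d.a (d.ph ω) q) u (2 * u - w)
  rw [← h2]
  change toT (q.1 + u, nx d.a (d.ph ω) (q.1 + u, q.2 + w)) = toT (q.1 + u, nx d.a (d.ph ω) q + (2 * u - w : ℤ))
  rw [h1]

private theorem iter_eq18 (d : Dat) (j : ℕ) (ω : Om) (z : T2) :
    (sk d)^[j] (ω, z) = (ω, ((sk d)^[j] (ω, z)).2) := Prod.ext (sk_iter_fst d j (ω, z)) rfl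

private theorem pw_succ18 (hd : d.Ok) (ω : Om) (z : T2) (k : ℕ) :
    pw d (k + 1) (ω, z) = toT (nx d.a (d.ph ω) (rep ((sk d)^[k] (ω, z)).2),
      nx d.a (d.ph ω) (Fl d.a (d.ph ω) (rep ((sk d)^[k] (ω, z)).2))) := by
  rw [pw, Function.iterate_succ_apply', iter_eq18 d k ω z]
  change pw0 d (ω, toT (Fl d.a (d.ph ω) (rep ((sk d)^[k] (ω, z)).2))) = _
  rw [pw0_toT18 hd]
  rfl

private theorem upd_eq18 (l : ℕ) (c : ℕ × ℕ) (u : ℝ) (ω : Om) :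
    Function.update ω (l, c.1, c.2, false) u = upd l c u (ω (l, c.1, c.2, true)) ω := by
  unfold upd
  have h : (l, c.1, c.2, true) ≠ (l, c.1, c.2, false) := by simp
  have h1 : Function.update ω (l, c.1, c.2, false) u (l, c.1, c.2, true) = ω (l, c.1, c.2, true) :=
    Function.update_of_ne h u ω
  rw [← h1, Function.update_eq_self]

theorem kick (hd : d.Ok) {l : ℕ} {c : ℕ × ℕ} (hc : c.1 < NN l ∧ c.2 < NN l) {ω : Om} {z : T2}
    {k : ℕ} (h : ∀ j < k, out l c (pw d j (ω, z))) (hk : inn l c (pw d k (ω, z))) (u : ℝ)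
    (h1 : out l c (pw d (k + 1) (ω, z)))
    (h2 : out l c (pw d (k + 1) (Function.update ω (l, c.1, c.2, false) u, z))) :
    d.κ * (NN l : ℝ) ^ (-(1 + d.s)) * |cl u - cl (ω (l, c.1, c.2, false))| ≤
      5 / 4 * dist (pw d (k + 1) (ω, z)) (pw d (k + 1) (Function.update ω (l, c.1, c.2, false) u, z)) := by
  have hη : (1 : ℝ) / |d.a| ≤ 1 / 2 := (eta_le hd).trans (by norm_num)
  have hη1 : (1 : ℝ) / |d.a| ≤ 1 / 100 := eta_le hd
  rw [upd_eq18] at h2 ⊢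
  obtain ⟨ω', hω'⟩ : ∃ ω', ω' = upd l c u (ω (l, c.1, c.2, true)) ω := ⟨_, rfl⟩
  have hz := (iter_out hd hc u (ω (l, c.1, c.2, true)) h).1 k le_rfl
  rw [pw, iter_eq18 d k ω z] at hk
  obtain ⟨hX, -⟩ := pw0_upd hd hc u (ω (l, c.1, c.2, true)) (Or.inl hk)
  rw [inn, pw0, (t1_toT l c _).1, (t1_toT l c _).2] at hk
  obtain ⟨-, hf2, -⟩ := ph_inn hd hc u (ω (l, c.1, c.2, true)) ω hk.1 hk.2
  rw [← hω'] at hz hX hf2 h2 ⊢
  rw [sub_self, zero_mul, add_zero] at hf2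
  have e1 := pw_succ18 hd ω z k
  have e2 := pw_succ18 hd ω' z k
  rw [hz, hX] at e2
  rw [e2, out, (t1_toT l c _).1, (t1_toT l c _).2] at h2
  obtain ⟨hf1, -⟩ := ph_out hd hc u (ω (l, c.1, c.2, true)) ω h2
  rw [← hω'] at hf1
  change (d.ph ω').f1 (nx d.a (d.ph ω) (rep ((sk d)^[k] (ω, z)).2))
    (nx d.a (d.ph ω') (Fl d.a (d.ph ω') (rep ((sk d)^[k] (ω, z)).2))) =
    (d.ph ω).f1 (nx d.a (d.ph ω) (rep ((sk d)^[k] (ω, z)).2))
    (nx d.a (d.ph ω') (Fl d.a (d.ph ω') (rep ((sk d)^[k] (ω, z)).2))) at hf1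
  have s1 := nx_spec (a := d.a) hη (hd.ok ω) (Fl d.a (d.ph ω) (rep ((sk d)^[k] (ω, z)).2))
  have s2 := nx_spec (a := d.a) hη (hd.ok ω') (Fl d.a (d.ph ω') (rep ((sk d)^[k] (ω, z)).2))
  rw [e1, e2]
  obtain ⟨q, hq⟩ : ∃ q, q = rep ((sk d)^[k] (ω, z)).2 := ⟨_, rfl⟩
  rw [← hq] at s1 s2 hf1 hf2 hX ⊢
  obtain ⟨X, hXe⟩ : ∃ X, X = nx d.a (d.ph ω) q := ⟨_, rfl⟩
  obtain ⟨Y, hY⟩ : ∃ Y, Y = nx d.a (d.ph ω) (Fl d.a (d.ph ω) q) := ⟨_, rfl⟩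
  obtain ⟨Y', hY'⟩ : ∃ Y', Y' = nx d.a (d.ph ω') (Fl d.a (d.ph ω') q) := ⟨_, rfl⟩
  rw [← hY] at s1
  rw [← hY'] at s2 hf1
  have g1 : (Fl d.a (d.ph ω) q).1 = X := hXe.symm
  have g2 : (Fl d.a (d.ph ω') q).1 = X := hX.trans hXe.symm
  have g3 : (Fl d.a (d.ph ω) q).2 = q.1 - (d.ph ω).f2 q.1 X := by rw [hXe]; rfl
  have g4 : (Fl d.a (d.ph ω') q).2 = q.1 - (d.ph ω').f2 q.1 X := by rw [hXe, ← hX]; rfl
  rw [← hXe] at hf1 hf2
  rw [g1, g3] at s1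
  rw [g2, g4, hf1, hf2] at s2
  rw [← hY, ← hY', ← hXe, dist_toT]
  have hb := A_bilip hη (hd.ok ω) X Y' Y
  obtain ⟨δ, hδ⟩ : ∃ δ, δ = d.κ * (NN l : ℝ) ^ (-(1 + d.s)) * (cl u - cl (ω (l, c.1, c.2, false))) := ⟨_, rfl⟩
  have e3 : (Y' - (d.ph ω).f1 X Y') - (Y - (d.ph ω).f1 X Y) = δ := by
    rw [s1, s2, hδ]; ring
  rw [e3] at hb
  have hN := NN_pos l
  have hN8 := NN_ge l
  have hp : 0 < (NN l : ℝ) ^ (-(1 + d.s)) := Real.rpow_pos_of_pos hN _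
  have hp1 : (NN l : ℝ) ^ (-(1 + d.s)) ≤ 1 :=
    Real.rpow_le_one_of_one_le_of_nonpos (by linarith) (by linarith [hd.hs])
  have hκ := hd.hκ
  have hκ1 := hd.hκ1
  have hcl : |cl u - cl (ω (l, c.1, c.2, false))| ≤ 2 := by
    have h3 := abs_sub (cl u) (cl (ω (l, c.1, c.2, false)))
    have h4 := abs_cl_le u
    have h5 := abs_cl_le (ω (l, c.1, c.2, false))
    linarith
  have hδa : |δ| = d.κ * (NN l : ℝ) ^ (-(1 + d.s)) * |cl u - cl (ω (l, c.1, c.2, false))| := by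
    rw [hδ, abs_mul, abs_of_pos (mul_pos hκ hp)]
  have hδ2 : |δ| ≤ 1 / 50 := by
    rw [hδa]
    calc d.κ * (NN l : ℝ) ^ (-(1 + d.s)) * |cl u - cl (ω (l, c.1, c.2, false))| ≤ (1 / 100 * 1) * 2 := by
          gcongr
      _ = 1 / 50 := by norm_num
  rw [← hδa]
  have h3 : |Y' - Y| ≤ 1 / 4 := by
    have h4 : (1 - 1 / 100) * |Y' - Y| ≤ (1 - 1 / |d.a|) * |Y' - Y| :=
      mul_le_mul_of_nonneg_right (by linarith) (abs_nonneg _)
    have h5 := hb.1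
    have h6 := abs_nonneg (Y' - Y)
    linarith
  have h4 : |δ| ≤ 5 / 4 * |Y' - Y| := by
    have h5 := hb.2
    have h6 : (1 + 1 / |d.a|) * |Y' - Y| ≤ 5 / 4 * |Y' - Y| :=
      mul_le_mul_of_nonneg_right (by linarith) (abs_nonneg _)
    linarith
  have h5 : rr (Y - Y') = Y - Y' := rr_of_small (by rw [abs_sub_comm]; linarith)
  have h6 : |rr (Y - Y')| ≤ max |rr (X - X)| |rr (Y - Y')| := le_max_right _ _
  rw [h5, abs_sub_comm] at h6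
  change |δ| ≤ 5 / 4 * max |rr (X - X)| |rr (Y - Y')|
  rw [h5, abs_sub_comm Y Y']
  linarith

end Pool.Agent.Helper18.FD
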