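import Pool.Agent.Helper18.FD.Lw
import Pool.Agent.Helper18.SD.King
import Pool.Agent.Helper18.UC.FD
import Pool.Agent.Helper18.FD.Der

/-! Block FD-KING: pointwise exponents for a fixed noise, and the link with the derivative of the iterates of the plane map.

* `king`: `kingman_bdd` (`SD/King.lean`) for `T = Tw d ω`, `μ = volume`, `g n z = if n = 0 then 0 else log (nn (Mm d n (ω, z)))`, `C = log (7|a|)`: for `n ≥ 1`, `nn (Mm d n p) ≤ (7|a|)^n` (`nn_mul`, `nn_Dm_le`, `Mm d 1 p = Dm d p * 1`);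
  subadditive by `Mm_add`, `sk_iter`. `∫ lam = Lw`: uniqueness of limits with `Lw_tendsto`.
* `Mm_fderiv`: `fderiv (Fl^[n]) q = clm (Mm d n (ω, toT q))`: `iter_fderiv` in `FD/Der.lean` gives it as a product of `DF a φ` along the orbit; `coef_sh`, `rep_toT` and `toT (Fl q) = Tw (toT q)` (`Fl_sh`) identify the factors.
* `op_nn`: `‖clm B‖ ≤ nn B ≤ 2 ‖clm B‖` (`UC/FD.lean`: `nn_le_clm` and the other bound). -/

set_option autoImplicit false
open MeasureTheory Real Set Filter Topology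

namespace Pool.Agent.Helper18.FD

open Pool.Agent.Helper18.UC (T2 rep toT nn clm)

variable {d : Dat}

private theorem pow57 (hd : d.Ok) (n : ℕ) (p : Pt) : nn (Mm d (n + 1) p) ≤ (7 * |d.a|) ^ (n + 1) := by
  induction n with
  | zero =>
    rw [Mm_succ, Mm_zero, mul_one, zero_add, pow_one]
    exact nn_Dm_le hd _
  | succ n ih =>
    rw [Mm_succ, pow_succ']
    refine (UC.nn_mul _ _).trans ?_
    exact mul_le_mul (nn_Dm_le hd _) ih (UC.nn_nonneg _) (by positivity)

private theorem pos57 (hd : d.Ok) (n : ℕ) (p : Pt) : 0 < nn (Mm d n p) := by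
  have := nn_ge_two (det_Mm hd n p)
  linarith

theorem king (hd : d.Ok) (ω : Om) : ∃ lam : T2 → ℝ, Measurable lam ∧
    (∀ᵐ z, Tendsto (fun n : ℕ => Real.log (nn (Mm d n (ω, z))) / n) atTop (𝓝 (lam z))) ∧
    (∀ᵐ z, lam (Tw d ω z) = lam z) ∧ (∀ z, |lam z| ≤ Real.log (7 * |d.a|)) ∧
    ∫ z, lam z = Lw d ω := by
  have ha := hd.ha
  have hC0 : 0 ≤ Real.log (7 * |d.a|) := Real.log_nonneg (by linarith)
  obtain ⟨G, hG1, hG2, hG3, hG4, hG5⟩ := SD.kingman_bdd (Tw_mp hd ω)
    (g := fun n z => if n = 0 then 0 else Real.log (nn (Mm d n (ω, z))))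
    (C := Real.log (7 * |d.a|))
    (fun n => by
      by_cases hn : n = 0
      · simp only [hn, if_true]
        exact measurable_const
      · simp only [hn, if_false]
        exact ((meas_nn hd n).comp measurable_prodMk_left).log)
    (fun n z => by
      rcases Nat.eq_zero_or_pos n with hn | hn
      · subst hn
        simp
      · obtain ⟨m, rfl⟩ : ∃ m, n = m + 1 := ⟨n - 1, by omega⟩
        simp only [Nat.succ_ne_zero, if_false]
        have h1 := (log_nn_bd hd (m + 1) (ω, z)).1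
        rw [abs_of_nonneg h1]
        have h2 := Real.log_le_log (pos57 hd (m + 1) (ω, z)) (pow57 hd m (ω, z))
        rw [Real.log_pow] at h2
        linarith)
    (fun n m z => by
      rcases Nat.eq_zero_or_pos n with hn | hn
      · subst hn
        simp
      · rcases Nat.eq_zero_or_pos m with hm | hm
        · subst hm
          simp
        · have h1 : n + m ≠ 0 := by omega
          have h2 : n ≠ 0 := by omega
          have h3 : m ≠ 0 := by omega
          simp only [h1, h2, h3, if_false]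
          have e1 : Mm d (n + m) (ω, z) = Mm d m (ω, (Tw d ω)^[n] z) * Mm d n (ω, z) := by
            rw [add_comm, Mm_add, sk_iter]
          rw [add_comm (Real.log (nn (Mm d n (ω, z)))),
            ← Real.log_mul (pos57 hd _ _).ne' (pos57 hd _ _).ne']
          refine Real.log_le_log (pos57 hd _ _) ?_
          rw [e1]
          exact UC.nn_mul _ _)
  refine ⟨G, hG1, ?_, hG3, hG2, ?_⟩
  · filter_upwards [hG4] with z hz
    refine hz.congr' ?_
    filter_upwards [eventually_ge_atTop 1] with n hn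
    have h1 : n ≠ 0 := by omega
    simp only [h1, if_false]
  · refine tendsto_nhds_unique hG5 ((Lw_tendsto hd ω).congr' ?_)
    filter_upwards [eventually_ge_atTop 1] with n hn
    have h1 : n ≠ 0 := by omega
    simp only [h1, if_false]
    rfl

theorem toT_Fl (hd : d.Ok) (ω : Om) (q : ℝ × ℝ) : toT (Fl d.a (d.ph ω) q) = Tw d ω (toT q) := by
  obtain ⟨u, w, h⟩ := UC.rep_toT q
  have hη : (1 : ℝ) / |d.a| ≤ 1 / 2 := (eta_le hd).trans (by norm_num)
  unfold Tw
  rw [h]
  have h1 := Fl_sh (a := d.a) hη (hd.ok ω) q u w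
  have h2 : UC.sh q u w = (q.1 + u, q.2 + w) := rfl
  rw [h2, h1]
  exact (UC.toT_sh (Fl d.a (d.ph ω) q) (2 * u - w) u).symm

private theorem it57 (hd : d.Ok) (ω : Om) (n : ℕ) (q : ℝ × ℝ) :
    (Tw d ω)^[n] (toT q) = toT ((Fl d.a (d.ph ω))^[n] q) := by
  induction n with
  | zero => rfl
  | succ n ih => rw [Function.iterate_succ_apply', ih, Function.iterate_succ_apply', toT_Fl hd]

private theorem Dm57 (hd : d.Ok) (ω : Om) (q : ℝ × ℝ) :
    Dm d (ω, toT q) = DF d.a (d.ph ω) q := by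
  obtain ⟨u, w, h⟩ := UC.rep_toT q
  have hη : (1 : ℝ) / |d.a| ≤ 1 / 2 := (eta_le hd).trans (by norm_num)
  obtain ⟨h1, h2, h3⟩ := coef_sh (a := d.a) hη (hd.ok ω) q u w
  have h0 : rep (toT q) = (q.1 + u, q.2 + w) := h
  unfold Dm DF al be ve
  simp only [h0, h1, h2, h3]

private theorem MF57 (hd : d.Ok) (ω : Om) (n : ℕ) (q : ℝ × ℝ) :
    MF d.a (d.ph ω) n q = Mm d n (ω, toT q) := by
  induction n with
  | zero => rw [Mm_zero]; rfl
  | succ n ih =>
    rw [Mm_succ, ← ih, sk_iter, it57 hd, Dm57 hd]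
    rfl

theorem Mm_fderiv (hd : d.Ok) (ω : Om) (n : ℕ) (q : ℝ × ℝ) :
    HasFDerivAt ((Fl d.a (d.ph ω))^[n]) (clm (Mm d n (ω, toT q))) q := by
  rw [← MF57 hd ω n q]
  exact iter_fderiv ((eta_le hd).trans (by norm_num)) (hd.ok ω) n q

theorem op_nn (B : Matrix (Fin 2) (Fin 2) ℝ) : ‖clm B‖ ≤ nn B ∧ nn B ≤ 2 * ‖clm B‖ :=
  ⟨UC.norm_clm_le B, UC.nn_le_clm B⟩

/-- the exponent of the lift -/
theorem lim_fderiv (hd : d.Ok) {ω : Om} {q : ℝ × ℝ} {L : ℝ}
    (h : Tendsto (fun n : ℕ => Real.log (nn (Mm d n (ω, toT q))) / n) atTop (𝓝 L)) :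
    Tendsto (fun n : ℕ => Real.log ‖fderiv ℝ ((Fl d.a (d.ph ω))^[n]) q‖ / n) atTop (𝓝 L) := by
  have h2 : Tendsto (fun n : ℕ => Real.log (nn (Mm d n (ω, toT q))) / n - Real.log 2 / n) atTop
      (𝓝 (L - 0)) := h.sub (tendsto_const_div_atTop_nhds_zero_nat _)
  rw [sub_zero] at h2
  refine tendsto_of_tendsto_of_tendsto_of_le_of_le h2 h (fun n => ?_) (fun n => ?_)
  · change Real.log (nn (Mm d n (ω, toT q))) / n - Real.log 2 / n ≤
      Real.log ‖fderiv ℝ ((Fl d.a (d.ph ω))^[n]) q‖ / n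
    rw [(Mm_fderiv hd ω n q).fderiv, ← sub_div]
    refine div_le_div_of_nonneg_right ?_ (Nat.cast_nonneg n)
    obtain ⟨-, h3⟩ := op_nn (Mm d n (ω, toT q))
    have h4 := pos57 hd n (ω, toT q)
    have h5 : 0 < ‖clm (Mm d n (ω, toT q))‖ := by linarith
    have h6 := Real.log_le_log h4 h3
    rw [Real.log_mul (by norm_num) h5.ne'] at h6
    linarith
  · change Real.log ‖fderiv ℝ ((Fl d.a (d.ph ω))^[n]) q‖ / n ≤
      Real.log (nn (Mm d n (ω, toT q))) / n
    rw [(Mm_fderiv hd ω n q).fderiv]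
    refine div_le_div_of_nonneg_right ?_ (Nat.cast_nonneg n)
    obtain ⟨h2, h3⟩ := op_nn (Mm d n (ω, toT q))
    have h4 := pos57 hd n (ω, toT q)
    have h5 : 0 < ‖clm (Mm d n (ω, toT q))‖ := by linarith
    exact Real.log_le_log h5 h2

end Pool.Agent.Helper18.FD
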