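import Pool.Agent.Helper18.FD.Orb

/-! Block FD-LINE: the whole orbit segment is constant along a line in the two noise coordinates of the cell of the `k`-th pair.

Let `c = cel l w`, `w = pw d k (ω, z)`: `inn_cel`, `cel_lt`; for `j ≤ n`, `j ≠ k`: `dist (pw d j) w ≥ 2/NN l ≥ 3/(2 NN l)`, so `out l c (pw d j (ω, z))` (`out_of_far`). Up to time `k`: `iter_out`.
At time `k`: `sk_inn` for `z_k = ((sk d)^[k] (ω, z)).2` (`cl u = u`, `cl v = v` by `cl_of_mem`). From time `k + 1` on the point `z_(k+1)` is the same for both noises, induction with `sk_out`. -/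

set_option autoImplicit false
open MeasureTheory Real Set

namespace Pool.Agent.Helper18.FD

open Pool.Agent.Helper18.UC (T2 rep toT)

variable {d : Dat}

theorem line (hd : d.Ok) {l k n : ℕ} (hk : k ≤ n) {ω : Om} {z : T2} (hf : far d l k n (ω, z))
    {c : ℕ × ℕ} (hc : c = cel l (pw d k (ω, z))) {u v : ℝ} (hu : u ∈ Icc (-1 : ℝ) 1)
    (hv : v ∈ Icc (-1 : ℝ) 1)
    (hl : u + v * tt l c (pw d k (ω, z)) =
      cl (ω (l, c.1, c.2, false)) + cl (ω (l, c.1, c.2, true)) * tt l c (pw d k (ω, z))) :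
    (∀ j ≤ n + 1, ((sk d)^[j] (upd l c u v ω, z)).2 = ((sk d)^[j] (ω, z)).2) ∧
    (∀ j ≤ n, pw d j (upd l c u v ω, z) = pw d j (ω, z)) ∧
    (∀ j ≤ n, al d ((sk d)^[j] (upd l c u v ω, z)) = al d ((sk d)^[j] (ω, z))) ∧
    (∀ j ≤ n, be d ((sk d)^[j] (upd l c u v ω, z)) = be d ((sk d)^[j] (ω, z))) ∧
    (∀ j ≤ n, j ≠ k → ve d ((sk d)^[j] (upd l c u v ω, z)) = ve d ((sk d)^[j] (ω, z))) ∧
    ve d ((sk d)^[k] (upd l c u v ω, z)) = ve d ((sk d)^[k] (ω, z)) + d.κ * (NN l : ℝ) ^ (-d.s) *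
      (v - cl (ω (l, c.1, c.2, true))) := by
  have hcl : c.1 < NN l ∧ c.2 < NN l := by
    rw [hc]
    exact cel_lt l _
  have hin : inn l c (pw d k (ω, z)) := by
    rw [hc]
    exact inn_cel l _
  have hout : ∀ j ≤ n, j ≠ k → out l c (pw d j (ω, z)) := by
    intro j hj hjk
    refine out_of_far hin (le_trans ?_ (hf j hj hjk))
    have hN := NN_pos l
    rw [div_le_div_iff₀ (by positivity) hN]
    nlinarith
  have E1 : ∀ j, (sk d)^[j] (ω, z) = (ω, ((sk d)^[j] (ω, z)).2) := fun j =>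
    Prod.ext (sk_iter_fst d j (ω, z)) rfl
  have E2 : ∀ j, ((sk d)^[j] (upd l c u v ω, z)).2 = ((sk d)^[j] (ω, z)).2 →
      (sk d)^[j] (upd l c u v ω, z) = (upd l c u v ω, ((sk d)^[j] (ω, z)).2) := fun j hj =>
    Prod.ext (sk_iter_fst d j (upd l c u v ω, z)) hj
  have hpw : ∀ j, pw d j (ω, z) = pw0 d (ω, ((sk d)^[j] (ω, z)).2) := by
    intro j
    unfold pw
    conv_lhs => rw [E1 j]
  have hl' : cl u + cl v * tt l c (pw0 d (ω, ((sk d)^[k] (ω, z)).2)) =
      cl (ω (l, c.1, c.2, false)) + cl (ω (l, c.1, c.2, true)) *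
        tt l c (pw0 d (ω, ((sk d)^[k] (ω, z)).2)) := by
    rw [cl_of_mem hu, cl_of_mem hv, ← hpw k]
    exact hl
  have hin' := hin
  rw [hpw k] at hin'
  have hsk := sk_inn hd hcl hin' hl'
  have P : ∀ j ≤ n + 1, ((sk d)^[j] (upd l c u v ω, z)).2 = ((sk d)^[j] (ω, z)).2 := by
    intro j
    induction j with
    | zero => exact fun _ => rfl
    | succ j ih =>
      intro hj
      have h2 := ih (by omega)
      rw [Function.iterate_succ_apply', Function.iterate_succ_apply', E2 j h2]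
      conv_rhs => rw [E1 j]
      by_cases hjk : j = k
      · rw [hjk]
        exact hsk.1
      · have h3 := hout j (by omega) hjk
        rw [hpw j] at h3
        exact (sk_out hd hcl u v h3).1
  refine ⟨P, ?_, ?_, ?_, ?_, ?_⟩
  · intro j hj
    have h2 := P j (by omega)
    rw [hpw j]
    unfold pw
    rw [E2 j h2]
    by_cases hjk : j = k
    · rw [hjk]
      exact (pw0_upd hd hcl u v (Or.inl hin')).2
    · have h3 := hout j hj hjk
      rw [hpw j] at h3
      exact (pw0_upd hd hcl u v (Or.inr h3)).2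
  · intro j hj
    have h2 := P j (by omega)
    rw [E2 j h2]
    conv_rhs => rw [E1 j]
    by_cases hjk : j = k
    · rw [hjk]
      exact hsk.2.1
    · have h3 := hout j hj hjk
      rw [hpw j] at h3
      exact (sk_out hd hcl u v h3).2.1
  · intro j hj
    have h2 := P j (by omega)
    rw [E2 j h2]
    conv_rhs => rw [E1 j]
    by_cases hjk : j = k
    · rw [hjk]
      exact hsk.2.2.1
    · have h3 := hout j hj hjk
      rw [hpw j] at h3
      exact (sk_out hd hcl u v h3).2.2.1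
  · intro j hj hjk
    have h2 := P j (by omega)
    rw [E2 j h2]
    conv_rhs => rw [E1 j]
    have h3 := hout j hj hjk
    rw [hpw j] at h3
    exact (sk_out hd hcl u v h3).2.2.2
  · have h2 := P k (by omega)
    have h4 := hsk.2.2.2
    rw [cl_of_mem hv] at h4
    rw [E2 k h2, h4, ← E1 k]

end Pool.Agent.Helper18.FD
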