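import Pool.Agent.Helper18.FD.RGen

/-! Block FD-LOC: changing the two noise coordinates of the cell `c` of level `l`.

`lvl_upd`: in the sum over the cells of level `l` only the term `c` changes, and no other level changes (`Function.update`, the indices
`(l, c.1, c.2, false) ≠ (l, c.1, c.2, true)`). `fld_upd`: the two series differ only in the term `l` (`Summable.tsum_eq_add_tsum_ite` or `tsum` of the difference
is a single term: `tsum_eq_single`, `Summable.tsum_sub`, `fld_summable`).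
`ph_out`: at a point `(y, x)` with `|N rr (y - c.1/N)| ≥ 1` or `|N rr (x - c.2/N)| ≥ 1` one factor vanishes in every field (`CB.zero`).
`ph_inn`: at `|N rr (y - c.1/N)| ≤ 1/2`, `|N rr (x - c.2/N)| ≤ 1/2` use `bump_in`: `f1, f11, f12` contain `χ'` or `χ''` (zero there). -/

set_option autoImplicit false
open MeasureTheory Real Set

namespace Pool.Agent.Helper18.FD

private theorem upd_false63 (l : ℕ) (c : ℕ × ℕ) (u v : ℝ) (ω : Om) (l' : ℕ) (c' : ℕ × ℕ) :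
    upd l c u v ω (l', c'.1, c'.2, false) = if l' = l ∧ c' = c then u else ω (l', c'.1, c'.2, false) := by
  unfold upd
  rw [Function.update_of_ne (by simp)]
  by_cases h : l' = l ∧ c' = c
  · rw [if_pos h, h.1, h.2, Function.update_self]
  · rw [if_neg h, Function.update_of_ne]
    intro e
    simp only [Prod.mk.injEq, and_true] at e
    exact h ⟨e.1, Prod.ext e.2.1 e.2.2⟩

private theorem upd_true63 (l : ℕ) (c : ℕ × ℕ) (u v : ℝ) (ω : Om) (l' : ℕ) (c' : ℕ × ℕ) :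
    upd l c u v ω (l', c'.1, c'.2, true) = if l' = l ∧ c' = c then v else ω (l', c'.1, c'.2, true) := by
  unfold upd
  by_cases h : l' = l ∧ c' = c
  · rw [if_pos h, h.1, h.2, Function.update_self]
  · rw [if_neg h, Function.update_of_ne, Function.update_of_ne (by simp)]
    intro e
    simp only [Prod.mk.injEq, and_true] at e
    exact h ⟨e.1, Prod.ext e.2.1 e.2.2⟩

private theorem lvl_upd63 (f g₁ g₂ : ℝ → ℝ) (l : ℕ) (c : ℕ × ℕ) (hc : c.1 < NN l ∧ c.2 < NN l) (u v : ℝ)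
    (ω : Om) (l' : ℕ) (y x : ℝ) :
    lvl f g₁ g₂ (upd l c u v ω) l' y x = lvl f g₁ g₂ ω l' y x +
      if l' = l then (pr (NN l) f (y - c.1 / NN l) *
        ((cl u - cl (ω (l, c.1, c.2, false))) * pr (NN l) g₁ (x - c.2 / NN l) +
          (cl v - cl (ω (l, c.1, c.2, true))) * pr (NN l) g₂ (x - c.2 / NN l))) else 0 := by
  unfold lvl
  by_cases hl : l' = l
  · subst hl
    rw [if_pos rfl, ← sub_eq_iff_eq_add', ← Finset.sum_sub_distrib, Finset.sum_eq_single c]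
    · rw [upd_false63, upd_true63, if_pos ⟨rfl, rfl⟩, if_pos ⟨rfl, rfl⟩]
      ring
    · intro c' _ hc'
      rw [upd_false63, upd_true63, if_neg (fun h => hc' h.2), if_neg (fun h => hc' h.2)]
      ring
    · intro h
      exact absurd (Finset.mem_product.2 ⟨Finset.mem_range.2 hc.1, Finset.mem_range.2 hc.2⟩) h
  · rw [if_neg hl, add_zero]
    refine Finset.sum_congr rfl fun c' _ => ?_
    rw [upd_false63, upd_true63, if_neg (fun h => hl h.1), if_neg (fun h => hl h.1)]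

theorem fld_upd {f g₁ g₂ : ℝ → ℝ} (hf : CB f) (h1 : CB g₁) (h2 : CB g₂) {e : ℝ} (he : 0 < e)
    (l : ℕ) (c : ℕ × ℕ) (hc : c.1 < NN l ∧ c.2 < NN l) (u v : ℝ) (ω : Om) (y x : ℝ) :
    fld f g₁ g₂ e (upd l c u v ω) y x = fld f g₁ g₂ e ω y x +
      (NN l : ℝ) ^ (-e) * (pr (NN l) f (y - c.1 / NN l) *
        ((cl u - cl (ω (l, c.1, c.2, false))) * pr (NN l) g₁ (x - c.2 / NN l) +
          (cl v - cl (ω (l, c.1, c.2, true))) * pr (NN l) g₂ (x - c.2 / NN l))) := by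
  have h3 := (fld_summable hf h1 h2 he ω y x).hasSum.add (hasSum_ite_eq l
    ((NN l : ℝ) ^ (-e) * (pr (NN l) f (y - c.1 / NN l) *
        ((cl u - cl (ω (l, c.1, c.2, false))) * pr (NN l) g₁ (x - c.2 / NN l) +
          (cl v - cl (ω (l, c.1, c.2, true))) * pr (NN l) g₂ (x - c.2 / NN l)))))
  have h4 : (fun l' : ℕ => (NN l' : ℝ) ^ (-e) * lvl f g₁ g₂ (upd l c u v ω) l' y x) =
      fun l' : ℕ => (NN l' : ℝ) ^ (-e) * lvl f g₁ g₂ ω l' y x + if l' = l then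
        ((NN l : ℝ) ^ (-e) * (pr (NN l) f (y - c.1 / NN l) *
        ((cl u - cl (ω (l, c.1, c.2, false))) * pr (NN l) g₁ (x - c.2 / NN l) +
          (cl v - cl (ω (l, c.1, c.2, true))) * pr (NN l) g₂ (x - c.2 / NN l)))) else 0 := by
    funext l'
    rw [lvl_upd63 f g₁ g₂ l c hc, mul_add]
    by_cases hl : l' = l
    · rw [if_pos hl, if_pos hl, hl]
    · rw [if_neg hl, if_neg hl, mul_zero]
  have h5 : fld f g₁ g₂ e (upd l c u v ω) y x =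
      ∑' l' : ℕ, (NN l' : ℝ) ^ (-e) * lvl f g₁ g₂ (upd l c u v ω) l' y x := rfl
  rw [h5, h4, h3.tsum_eq]
  rfl

private theorem fld_out63 {f g₁ g₂ : ℝ → ℝ} (hf : CB f) (h1 : CB g₁) (h2 : CB g₂) {e : ℝ} (he : 0 < e)
    {l : ℕ} {c : ℕ × ℕ} (hc : c.1 < NN l ∧ c.2 < NN l) (u v : ℝ) (ω : Om) {y x : ℝ}
    (h : 1 ≤ |(NN l : ℝ) * rr (y - c.1 / NN l)| ∨ 1 ≤ |(NN l : ℝ) * rr (x - c.2 / NN l)|) :
    fld f g₁ g₂ e (upd l c u v ω) y x = fld f g₁ g₂ e ω y x := by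
  rw [fld_upd hf h1 h2 he l c hc]
  rcases h with h | h
  · have h3 : pr (NN l) f (y - c.1 / NN l) = 0 := hf.zero _ h
    rw [h3]
    ring
  · have h3 : pr (NN l) g₁ (x - c.2 / NN l) = 0 := h1.zero _ h
    have h4 : pr (NN l) g₂ (x - c.2 / NN l) = 0 := h2.zero _ h
    rw [h3, h4]
    ring

private theorem fld_in63 {f g₁ g₂ : ℝ → ℝ} (hf : CB f) (h1 : CB g₁) (h2 : CB g₂) {e : ℝ} (he : 0 < e)
    {l : ℕ} {c : ℕ × ℕ} (hc : c.1 < NN l ∧ c.2 < NN l) (u v : ℝ) (ω : Om) {y x : ℝ}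
    (h : f ((NN l : ℝ) * rr (y - c.1 / NN l)) = 0) :
    fld f g₁ g₂ e (upd l c u v ω) y x = fld f g₁ g₂ e ω y x := by
  rw [fld_upd hf h1 h2 he l c hc]
  have h3 : pr (NN l) f (y - c.1 / NN l) = 0 := h
  rw [h3]
  ring

theorem ph_out {d : Dat} (hd : d.Ok) {l : ℕ} {c : ℕ × ℕ} (hc : c.1 < NN l ∧ c.2 < NN l) (u v : ℝ)
    (ω : Om) {y x : ℝ}
    (h : 1 ≤ |(NN l : ℝ) * rr (y - c.1 / NN l)| ∨ 1 ≤ |(NN l : ℝ) * rr (x - c.2 / NN l)|) :
    (d.ph (upd l c u v ω)).f1 y x = (d.ph ω).f1 y x ∧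
    (d.ph (upd l c u v ω)).f2 y x = (d.ph ω).f2 y x ∧
    (d.ph (upd l c u v ω)).f11 y x = (d.ph ω).f11 y x ∧
    (d.ph (upd l c u v ω)).f12 y x = (d.ph ω).f12 y x ∧
    (d.ph (upd l c u v ω)).f22 y x = (d.ph ω).f22 y x := by
  obtain ⟨b1, b2, b3, b4, b5, b6, b7, b8, b9⟩ := bump_cb hd.hχ
  have hs := hd.hs
  have hs1 : 0 < 1 + d.s := by linarith
  refine ⟨?_, ?_, ?_, ?_, ?_⟩
  · change _ + d.κ * fld _ _ _ _ _ _ _ = _ + d.κ * fld _ _ _ _ _ _ _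
    rw [fld_out63 b4 b2 b3 hs1 hc u v ω h]
  · change _ + d.κ * fld _ _ _ _ _ _ _ = _ + d.κ * fld _ _ _ _ _ _ _
    rw [fld_out63 b1 b5 b6 hs1 hc u v ω h]
  · change _ + d.κ * fld _ _ _ _ _ _ _ = _ + d.κ * fld _ _ _ _ _ _ _
    rw [fld_out63 b7 b2 b3 hs hc u v ω h]
  · change _ + d.κ * fld _ _ _ _ _ _ _ = _ + d.κ * fld _ _ _ _ _ _ _
    rw [fld_out63 b4 b5 b6 hs hc u v ω h]
  · change _ + d.κ * fld _ _ _ _ _ _ _ = _ + d.κ * fld _ _ _ _ _ _ _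
    rw [fld_out63 b1 b8 b9 hs hc u v ω h]

theorem ph_inn {d : Dat} (hd : d.Ok) {l : ℕ} {c : ℕ × ℕ} (hc : c.1 < NN l ∧ c.2 < NN l) (u v : ℝ)
    (ω : Om) {y x : ℝ}
    (h1 : |(NN l : ℝ) * rr (y - c.1 / NN l)| ≤ 1 / 2) (h2 : |(NN l : ℝ) * rr (x - c.2 / NN l)| ≤ 1 / 2) :
    (d.ph (upd l c u v ω)).f1 y x = (d.ph ω).f1 y x ∧
    (d.ph (upd l c u v ω)).f2 y x = (d.ph ω).f2 y x + d.κ * (NN l : ℝ) ^ (-(1 + d.s)) *
      ((cl u - cl (ω (l, c.1, c.2, false))) +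
        (cl v - cl (ω (l, c.1, c.2, true))) * ((NN l : ℝ) * rr (x - c.2 / NN l))) ∧
    (d.ph (upd l c u v ω)).f11 y x = (d.ph ω).f11 y x ∧
    (d.ph (upd l c u v ω)).f12 y x = (d.ph ω).f12 y x ∧
    (d.ph (upd l c u v ω)).f22 y x = (d.ph ω).f22 y x + d.κ * (NN l : ℝ) ^ (-d.s) *
      (cl v - cl (ω (l, c.1, c.2, true))) := by
  obtain ⟨b1, b2, b3, b4, b5, b6, b7, b8, b9⟩ := bump_cb hd.hχ
  obtain ⟨y1, y2, y3, -, -, -, -⟩ := bump_in hd.hχ h1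
  obtain ⟨-, -, -, x4, x5, x6, x7⟩ := bump_in hd.hχ h2
  have hs := hd.hs
  have hs1 : 0 < 1 + d.s := by linarith
  have p1 : pr (NN l) d.χ (y - c.1 / NN l) = 1 := y1
  have p4 : pr (NN l) (deriv (k1 d.χ)) (x - c.2 / NN l) = 1 := x4
  have p5 : pr (NN l) (deriv (k2 d.χ)) (x - c.2 / NN l) = (NN l : ℝ) * rr (x - c.2 / NN l) := x5
  have p6 : pr (NN l) (deriv (deriv (k1 d.χ))) (x - c.2 / NN l) = 0 := x6
  have p7 : pr (NN l) (deriv (deriv (k2 d.χ))) (x - c.2 / NN l) = 1 := x7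
  refine ⟨?_, ?_, ?_, ?_, ?_⟩
  · change _ + d.κ * fld _ _ _ _ _ _ _ = _ + d.κ * fld _ _ _ _ _ _ _
    rw [fld_in63 b4 b2 b3 hs1 hc u v ω y2]
  · change d.g.f2 y x + d.κ * fld _ _ _ _ _ _ _ = d.g.f2 y x + d.κ * fld _ _ _ _ _ _ _ + _
    rw [fld_upd b1 b5 b6 hs1 l c hc, p1, p4, p5]
    ring
  · change _ + d.κ * fld _ _ _ _ _ _ _ = _ + d.κ * fld _ _ _ _ _ _ _
    rw [fld_in63 b7 b2 b3 hs hc u v ω y3]
  · change _ + d.κ * fld _ _ _ _ _ _ _ = _ + d.κ * fld _ _ _ _ _ _ _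
    rw [fld_in63 b4 b5 b6 hs hc u v ω y2]
  · change d.g.f22 y x + d.κ * fld _ _ _ _ _ _ _ = d.g.f22 y x + d.κ * fld _ _ _ _ _ _ _ + _
    rw [fld_upd b1 b8 b9 hs l c hc, p1, p6, p7]
    ring

end Pool.Agent.Helper18.FD
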