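import Pool.Agent.Helper18.FD.RGen
import Pool.Agent.Helper18.FD.MP

/-! Block FD-MEAS: measurability in (noise, point), the skew product preserves `mu`.

* `meas_nx`: `measurable_of_Iio` and `nx_lt_iff` : `{nx < t} = {2 x + a sin 2πx - p < t - φ₁(x, t)}`, with `ph_meas` composed with `p ↦ (p.1, (p.2.1, t))`.
* compositions with `ph_meas`, `measurable_rep`, `measurable_toT`; `pw0`, `sk`, `al`, `be`, `ve`; entries of `Mm` by induction (`Matrix.mul_apply`, `Fin.sum_univ_two`).
* `meas_sepd`: `Finset.measurable_inf'`-type lemma, or induction; `dist` of measurable functions.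
* `sk_mp`: `MeasurePreserving.skew_product` with the identity of `Om` and `S_mp` for every `ω` (`hd.ok ω`, `1/|a| ≤ 1/2`). -/

set_option autoImplicit false
open MeasureTheory Real Set

namespace Pool.Agent.Helper18.FD

open Pool.Agent.Helper18.UC (T2 rep toT nn measurable_rep measurable_toT)

instance instProbT2 : IsProbabilityMeasure (volume : Measure T2) := by
  have h1 : IsProbabilityMeasure (volume : Measure UnitAddCircle) := by
    constructor
    rw [UnitAddCircle.measure_univ]
  show IsProbabilityMeasure ((volume : Measure UnitAddCircle).prod volume)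
  infer_instance

instance instProbMu : IsProbabilityMeasure mu := by unfold mu; infer_instance

variable {d : Dat}

theorem eta_le (hd : d.Ok) : (1 : ℝ) / |d.a| ≤ 1 / 100 := by
  have := hd.ha
  exact one_div_le_one_div_of_le (by norm_num) this

theorem meas_nx (hd : d.Ok) : Measurable fun p : Om × (ℝ × ℝ) => nx d.a (d.ph p.1) p.2 := by
  have hη : (1 : ℝ) / |d.a| ≤ 1 / 2 := (eta_le hd).trans (by norm_num)
  refine measurable_of_Iio fun t => ?_
  have he : (fun p : Om × (ℝ × ℝ) => nx d.a (d.ph p.1) p.2) ⁻¹' Iio t =
      {p | 2 * p.2.1 + d.a * Real.sin (2 * π * p.2.1) - p.2.2 < t - (d.ph p.1).f1 p.2.1 t} := by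
    ext p
    exact nx_lt_iff hη (hd.ok p.1) p.2 t
  rw [he]
  have h1 : Measurable fun p : Om × (ℝ × ℝ) => (p.1, ((p.2.1, t) : ℝ × ℝ)) :=
    measurable_fst.prodMk ((measurable_fst.comp measurable_snd).prodMk measurable_const)
  have h2 := (ph_meas hd).1.comp h1
  simp only [Function.comp_def] at h2
  have hx : Measurable fun p : Om × (ℝ × ℝ) => p.2.1 := measurable_fst.comp measurable_snd
  have hp : Measurable fun p : Om × (ℝ × ℝ) => p.2.2 := measurable_snd.comp measurable_snd
  refine measurableSet_lt ?_ ?_
  · exact ((hx.const_mul 2).add ((Real.measurable_sin.comp (hx.const_mul (2 * π))).const_mul d.a)).sub hp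
  · exact measurable_const.sub h2

private theorem meas_base53 : Measurable fun p : Pt => (p.1, rep p.2) :=
  measurable_fst.prodMk (measurable_rep.comp measurable_snd)

private theorem meas_nx_rep53 (hd : d.Ok) : Measurable fun p : Pt => nx d.a (d.ph p.1) (rep p.2) := by
  have h := (meas_nx hd).comp meas_base53
  simp only [Function.comp_def] at h
  exact h

private theorem meas_rep1_53 : Measurable fun p : Pt => (rep p.2).1 :=
  measurable_fst.comp (measurable_rep.comp measurable_snd)

private theorem meas_pair53 (hd : d.Ok) :
    Measurable fun p : Pt => (p.1, (((rep p.2).1, nx d.a (d.ph p.1) (rep p.2)) : ℝ × ℝ)) :=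
  measurable_fst.prodMk (meas_rep1_53.prodMk (meas_nx_rep53 hd))

theorem meas_sk (hd : d.Ok) : Measurable (sk d) := by
  have h2 := (ph_meas hd).2.1.comp (meas_pair53 hd)
  simp only [Function.comp_def] at h2
  have h3 := (meas_nx_rep53 hd).prodMk (meas_rep1_53.sub h2)
  have h4 := measurable_toT.comp h3
  simp only [Function.comp_def] at h4
  have h5 := (measurable_fst (α := Om) (β := T2)).prodMk h4
  unfold sk Fl
  exact h5

theorem meas_pw (hd : d.Ok) (j : ℕ) : Measurable (pw d j) := by
  have h0 := measurable_toT.comp (meas_rep1_53.prodMk (meas_nx_rep53 hd))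
  simp only [Function.comp_def] at h0
  have h1 : Measurable (pw0 d) := by
    unfold pw0
    exact h0
  have h2 := h1.comp ((meas_sk hd).iterate j)
  simp only [Function.comp_def] at h2
  unfold pw
  exact h2

theorem meas_al (hd : d.Ok) : Measurable (al d) := by
  have h2 := (ph_meas hd).2.2.1.comp (meas_pair53 hd)
  simp only [Function.comp_def] at h2
  have h3 := Real.measurable_cos.comp (meas_rep1_53.const_mul (2 * π))
  simp only [Function.comp_def] at h3
  have h4 := ((h3.const_mul (2 * π * d.a)).const_add 2).add h2
  unfold al alf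
  exact h4

theorem meas_be (hd : d.Ok) : Measurable (be d) := by
  have h2 := (ph_meas hd).2.2.2.1.comp (meas_pair53 hd)
  simp only [Function.comp_def] at h2
  have h3 := h2.const_sub 1
  unfold be bet
  exact h3

theorem meas_ve (hd : d.Ok) : Measurable (ve d) := by
  have h2 := (ph_meas hd).2.2.2.2.comp (meas_pair53 hd)
  simp only [Function.comp_def] at h2
  unfold ve vee
  exact h2

theorem meas_Mm (hd : d.Ok) (n : ℕ) (i j : Fin 2) : Measurable fun p => Mm d n p i j := by
  induction n generalizing i j with
  | zero =>
    simp only [Mm_zero]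
    exact measurable_const
  | succ n ih =>
    have hD : ∀ i j : Fin 2, Measurable fun p : Pt => Dm d p i j := by
      intro i j
      have ha := meas_al hd
      have hb := meas_be hd
      have hv := meas_ve hd
      unfold Dm mat
      fin_cases i <;> fin_cases j
      · exact ha.div hb
      · exact measurable_const.div hb
      · exact hb.sub (hv.mul (ha.div hb))
      · exact hv.div hb
    have hs := (meas_sk hd).iterate n
    have e0 := (hD i 0).comp hs
    have e1 := (hD i 1).comp hs
    simp only [Function.comp_def] at e0 e1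
    simp only [Mm_succ, Matrix.mul_apply, Fin.sum_univ_two]
    exact (e0.mul (ih 0 j)).add (e1.mul (ih 1 j))

private theorem measurable_congr53 {α β : Type*} [MeasurableSpace α] [MeasurableSpace β] {f g : α → β}
    (h : ∀ x, f x = g x) : Measurable f ↔ Measurable g := by
  rw [show f = g from funext h]

theorem meas_sepd (hd : d.Ok) (k n : ℕ) : Measurable (sepd d k n) := by
  have h : ∀ j ∈ Finset.range (n + 1), Measurable fun p : Pt =>
      (if j = k then (1 : ℝ) else dist (pw d j p) (pw d k p)) := by
    intro j _
    split_ifs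
    · exact measurable_const
    · exact (meas_pw hd j).dist (meas_pw hd k)
  have h2 := Finset.inf'_induction (s := Finset.range (n + 1)) ⟨0, by simp⟩
    (fun j => fun p : Pt => (if j = k then (1 : ℝ) else dist (pw d j p) (pw d k p)))
    (p := fun f => Measurable f) (fun f hf g hg => hf.inf hg) h
  unfold sepd
  refine (measurable_congr53 ?_).1 h2
  intro p
  exact Finset.inf'_apply _ _ _

theorem meas_lm : Measurable lm := by
  unfold lm
  refine Measurable.ite (measurableSet_le measurable_id measurable_const) measurable_const ?_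
  exact ENNReal.measurable_ofReal.comp Real.measurable_log.neg

theorem sk_mp (hd : d.Ok) : MeasurePreserving (sk d) mu mu := by
  have hη : (1 : ℝ) / |d.a| ≤ 1 / 2 := (eta_le hd).trans (by norm_num)
  have hm : Measurable fun p : Pt => toT (Fl d.a (d.ph p.1) (rep p.2)) := by
    have h1 := measurable_snd.comp (meas_sk hd)
    exact h1
  have h := (MeasurePreserving.id PP).skew_product (μc := (volume : Measure T2)) (μd := (volume : Measure T2))
    (g := fun ω z => toT (Fl d.a (d.ph ω) (rep z))) hm
    (Filter.Eventually.of_forall fun ω => (S_mp hη (hd.ok ω)).map_eq)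
  unfold mu sk
  exact h

theorem sk_iter_mp (hd : d.Ok) (n : ℕ) : MeasurePreserving ((sk d)^[n]) mu mu :=
  (sk_mp hd).iterate n

/-- size of the coefficients -/
theorem coef_bd (hd : d.Ok) (p : Pt) : |be d p - 1| ≤ 1 / |d.a| ∧ |ve d p| ≤ 1 / |d.a| ∧
    |al d p - (2 + 2 * π * d.a * Real.cos (2 * π * (rep p.2).1))| ≤ 1 / |d.a| := by
  have h := bet_bd (a := d.a) (hd.ok p.1) (rep p.2)
  unfold be ve al
  exact h

end Pool.Agent.Helper18.FD
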