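import Pool.Agent.Helper18.FD.Loc
import Pool.Agent.Helper18.FD.Geo
import Pool.Agent.Helper18.FD.Meas

/-! Block FD-ORB: orbits under a change of the two noise coordinates of the cell `c` of level `l`.

Let `q = rep z`, `X = nx d.a (d.ph ω) q`, so that `pw0 d (ω, z) = toT (q.1, X)`; by `t1_toT` the hypotheses `inn`, `out` are those of `ph_inn`, `ph_out` at `(y, x) = (q.1, X)`.
* `pw0_upd`: in both cases `(d.ph ω').f1 q.1 X = (d.ph ω).f1 q.1 X`, so `X` also solves the equation for `ω'` (`nx_spec`), `nx_unique` gives `nx d.a (d.ph ω') q = X`.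
* `sk_out`, `sk_inn`: evaluate `Fl, alf, bet, vee` at the same `(q.1, X)`; in `sk_inn` the change of `f2` is zero by the line condition.
* `iter_out`: induction on `j`: `(sk d)^[j+1] p = sk d ((sk d)^[j] p)` (`Function.iterate_succ_apply'`), the first component is constant (`sk_iter_fst`). -/

set_option autoImplicit false
open MeasureTheory Real Set

namespace Pool.Agent.Helper18.FD

open Pool.Agent.Helper18.UC (T2 rep toT)

variable {d : Dat}

private theorem inn_iff67 {l : ℕ} {c : ℕ × ℕ} {ω : Om} {z : T2} : inn l c (pw0 d (ω, z)) ↔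
    |(NN l : ℝ) * rr ((rep z).1 - c.1 / NN l)| ≤ 1 / 2 ∧
      |(NN l : ℝ) * rr (nx d.a (d.ph ω) (rep z) - c.2 / NN l)| ≤ 1 / 2 := by
  rw [inn, pw0, (t1_toT l c _).1, (t1_toT l c _).2]

private theorem out_iff67 {l : ℕ} {c : ℕ × ℕ} {ω : Om} {z : T2} : out l c (pw0 d (ω, z)) ↔
    1 ≤ |(NN l : ℝ) * rr ((rep z).1 - c.1 / NN l)| ∨
      1 ≤ |(NN l : ℝ) * rr (nx d.a (d.ph ω) (rep z) - c.2 / NN l)| := by
  rw [out, pw0, (t1_toT l c _).1, (t1_toT l c _).2]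

private theorem iter_eq67 (d : Dat) (j : ℕ) (ω : Om) (z : T2) :
    (sk d)^[j] (ω, z) = (ω, ((sk d)^[j] (ω, z)).2) := Prod.ext (sk_iter_fst d j (ω, z)) rfl

theorem pw0_upd (hd : d.Ok) {l : ℕ} {c : ℕ × ℕ} (hc : c.1 < NN l ∧ c.2 < NN l) (u v : ℝ) {ω : Om}
    {z : T2} (h : inn l c (pw0 d (ω, z)) ∨ out l c (pw0 d (ω, z))) :
    nx d.a (d.ph (upd l c u v ω)) (rep z) = nx d.a (d.ph ω) (rep z) ∧
    pw0 d (upd l c u v ω, z) = pw0 d (ω, z) := by
  have hη : (1 : ℝ) / |d.a| ≤ 1 / 2 := (eta_le hd).trans (by norm_num)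
  have h1 : (d.ph (upd l c u v ω)).f1 (rep z).1 (nx d.a (d.ph ω) (rep z)) =
      (d.ph ω).f1 (rep z).1 (nx d.a (d.ph ω) (rep z)) := by
    rcases h with h | h
    · rw [inn_iff67] at h
      exact (ph_inn hd hc u v ω h.1 h.2).1
    · rw [out_iff67] at h
      exact (ph_out hd hc u v ω h).1
  have h2 : nx d.a (d.ph (upd l c u v ω)) (rep z) = nx d.a (d.ph ω) (rep z) := by
    refine nx_unique hη (hd.ok _) ?_
    rw [h1]
    exact nx_spec hη (hd.ok ω) (rep z)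
  refine ⟨h2, ?_⟩
  change toT ((rep z).1, nx d.a (d.ph (upd l c u v ω)) (rep z)) = toT ((rep z).1, nx d.a (d.ph ω) (rep z))
  rw [h2]

theorem sk_out (hd : d.Ok) {l : ℕ} {c : ℕ × ℕ} (hc : c.1 < NN l ∧ c.2 < NN l) (u v : ℝ) {ω : Om}
    {z : T2} (h : out l c (pw0 d (ω, z))) :
    (sk d (upd l c u v ω, z)).2 = (sk d (ω, z)).2 ∧ al d (upd l c u v ω, z) = al d (ω, z) ∧
    be d (upd l c u v ω, z) = be d (ω, z) ∧ ve d (upd l c u v ω, z) = ve d (ω, z) := by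
  obtain ⟨h1, -⟩ := pw0_upd hd hc u v (Or.inr h)
  rw [out_iff67] at h
  obtain ⟨-, h2, h3, h4, h5⟩ := ph_out hd hc u v ω h
  refine ⟨?_, ?_, ?_, ?_⟩
  · change toT (nx d.a (d.ph (upd l c u v ω)) (rep z), (rep z).1 - (d.ph (upd l c u v ω)).f2 (rep z).1
      (nx d.a (d.ph (upd l c u v ω)) (rep z))) = toT (nx d.a (d.ph ω) (rep z), (rep z).1 - (d.ph ω).f2 (rep z).1
      (nx d.a (d.ph ω) (rep z)))
    rw [h1, h2]
  · change 2 + 2 * π * d.a * Real.cos (2 * π * (rep z).1) + (d.ph (upd l c u v ω)).f11 (rep z).1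
      (nx d.a (d.ph (upd l c u v ω)) (rep z)) = 2 + 2 * π * d.a * Real.cos (2 * π * (rep z).1) +
      (d.ph ω).f11 (rep z).1 (nx d.a (d.ph ω) (rep z))
    rw [h1, h3]
  · change 1 - (d.ph (upd l c u v ω)).f12 (rep z).1 (nx d.a (d.ph (upd l c u v ω)) (rep z)) =
      1 - (d.ph ω).f12 (rep z).1 (nx d.a (d.ph ω) (rep z))
    rw [h1, h4]
  · change (d.ph (upd l c u v ω)).f22 (rep z).1 (nx d.a (d.ph (upd l c u v ω)) (rep z)) =
      (d.ph ω).f22 (rep z).1 (nx d.a (d.ph ω) (rep z))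
    rw [h1, h5]

theorem sk_inn (hd : d.Ok) {l : ℕ} {c : ℕ × ℕ} (hc : c.1 < NN l ∧ c.2 < NN l) {u v : ℝ} {ω : Om}
    {z : T2} (h : inn l c (pw0 d (ω, z)))
    (hl : cl u + cl v * tt l c (pw0 d (ω, z)) =
      cl (ω (l, c.1, c.2, false)) + cl (ω (l, c.1, c.2, true)) * tt l c (pw0 d (ω, z))) :
    (sk d (upd l c u v ω, z)).2 = (sk d (ω, z)).2 ∧ al d (upd l c u v ω, z) = al d (ω, z) ∧
    be d (upd l c u v ω, z) = be d (ω, z) ∧
    ve d (upd l c u v ω, z) = ve d (ω, z) + d.κ * (NN l : ℝ) ^ (-d.s) *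
      (cl v - cl (ω (l, c.1, c.2, true))) := by
  obtain ⟨h1, -⟩ := pw0_upd hd hc u v (Or.inl h)
  have htt : tt l c (pw0 d (ω, z)) = (NN l : ℝ) * rr (nx d.a (d.ph ω) (rep z) - c.2 / NN l) := (t1_toT l c _).2
  rw [inn_iff67] at h
  obtain ⟨-, h2, h3, h4, h5⟩ := ph_inn hd hc u v ω h.1 h.2
  rw [htt] at hl
  have h6 : (cl u - cl (ω (l, c.1, c.2, false))) + (cl v - cl (ω (l, c.1, c.2, true))) *
      ((NN l : ℝ) * rr (nx d.a (d.ph ω) (rep z) - c.2 / NN l)) = 0 := by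
    linear_combination hl
  rw [h6, mul_zero, add_zero] at h2
  refine ⟨?_, ?_, ?_, ?_⟩
  · change toT (nx d.a (d.ph (upd l c u v ω)) (rep z), (rep z).1 - (d.ph (upd l c u v ω)).f2 (rep z).1
      (nx d.a (d.ph (upd l c u v ω)) (rep z))) = toT (nx d.a (d.ph ω) (rep z), (rep z).1 - (d.ph ω).f2 (rep z).1
      (nx d.a (d.ph ω) (rep z)))
    rw [h1, h2]
  · change 2 + 2 * π * d.a * Real.cos (2 * π * (rep z).1) + (d.ph (upd l c u v ω)).f11 (rep z).1
      (nx d.a (d.ph (upd l c u v ω)) (rep z)) = 2 + 2 * π * d.a * Real.cos (2 * π * (rep z).1) +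
      (d.ph ω).f11 (rep z).1 (nx d.a (d.ph ω) (rep z))
    rw [h1, h3]
  · change 1 - (d.ph (upd l c u v ω)).f12 (rep z).1 (nx d.a (d.ph (upd l c u v ω)) (rep z)) =
      1 - (d.ph ω).f12 (rep z).1 (nx d.a (d.ph ω) (rep z))
    rw [h1, h4]
  · change (d.ph (upd l c u v ω)).f22 (rep z).1 (nx d.a (d.ph (upd l c u v ω)) (rep z)) =
      (d.ph ω).f22 (rep z).1 (nx d.a (d.ph ω) (rep z)) + _
    rw [h1, h5]

theorem iter_out (hd : d.Ok) {l : ℕ} {c : ℕ × ℕ} (hc : c.1 < NN l ∧ c.2 < NN l) (u v : ℝ) {ω : Om}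
    {z : T2} {k : ℕ} (h : ∀ j < k, out l c (pw d j (ω, z))) :
    (∀ j ≤ k, ((sk d)^[j] (upd l c u v ω, z)).2 = ((sk d)^[j] (ω, z)).2) ∧
    ∀ j < k, pw d j (upd l c u v ω, z) = pw d j (ω, z) := by
  have h1 : ∀ j ≤ k, ((sk d)^[j] (upd l c u v ω, z)).2 = ((sk d)^[j] (ω, z)).2 := by
    intro j
    induction j with
    | zero => exact fun _ => rfl
    | succ j ih =>
      intro hj
      have h2 := ih (by omega)
      rw [Function.iterate_succ_apply', Function.iterate_succ_apply', iter_eq67 d j ω z, iter_eq67 d j _ z, h2]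
      have h3 := h j (by omega)
      rw [pw, iter_eq67 d j ω z] at h3
      exact (sk_out hd hc u v h3).1
  refine ⟨h1, fun j hj => ?_⟩
  have h3 := h j hj
  rw [pw, iter_eq67 d j ω z] at h3
  rw [pw, pw, iter_eq67 d j ω z, iter_eq67 d j _ z, h1 j hj.le]
  exact (pw0_upd hd hc u v (Or.inr h3)).2

/-- if moreover the pair number `k` is in the inner part, it does not change either -/
theorem iter_out_inn (hd : d.Ok) {l : ℕ} {c : ℕ × ℕ} (hc : c.1 < NN l ∧ c.2 < NN l) (u v : ℝ)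
    {ω : Om} {z : T2} {k : ℕ} (h : ∀ j < k, out l c (pw d j (ω, z)))
    (hk : inn l c (pw d k (ω, z))) : pw d k (upd l c u v ω, z) = pw d k (ω, z) := by
  have h1 := (iter_out hd hc u v h).1 k le_rfl
  rw [pw, iter_eq67 d k ω z] at hk
  rw [pw, pw, iter_eq67 d k ω z, iter_eq67 d k _ z, h1]
  exact (pw0_upd hd hc u v (Or.inl hk)).2

end Pool.Agent.Helper18.FD
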