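import Pool.Agent.Helper18.FD.Lw

/-! Block FD-PAR1: joint measurability in the parameter, the noise and the point. -/

set_option autoImplicit false
open MeasureTheory Real Set Filter Topology

namespace Pool.Agent.Helper18.FD

open Pool.Agent.Helper18.UC (T2 rep toT nn measurable_rep measurable_toT)

variable {P : Type*} [MeasurableSpace P]

/-- a measurable family of admissible data -/
structure MFam (D : P → Dat) : Prop where
  ok : ∀ a, (D a).Ok
  ma : Measurable fun a => (D a).a
  p1 : Measurable fun p : P × (Om × (ℝ × ℝ)) => ((D p.1).ph p.2.1).f1 p.2.2.1 p.2.2.2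
  p2 : Measurable fun p : P × (Om × (ℝ × ℝ)) => ((D p.1).ph p.2.1).f2 p.2.2.1 p.2.2.2
  p11 : Measurable fun p : P × (Om × (ℝ × ℝ)) => ((D p.1).ph p.2.1).f11 p.2.2.1 p.2.2.2
  p12 : Measurable fun p : P × (Om × (ℝ × ℝ)) => ((D p.1).ph p.2.1).f12 p.2.2.1 p.2.2.2
  p22 : Measurable fun p : P × (Om × (ℝ × ℝ)) => ((D p.1).ph p.2.1).f22 p.2.2.1 p.2.2.2

variable {D : P → Dat}

theorem MFam.meas_nx (h : MFam D) :
    Measurable fun p : P × (Om × (ℝ × ℝ)) => nx (D p.1).a ((D p.1).ph p.2.1) p.2.2 := by
  refine measurable_of_Iio fun t => ?_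
  have e : (fun p : P × (Om × (ℝ × ℝ)) => nx (D p.1).a ((D p.1).ph p.2.1) p.2.2) ⁻¹' Iio t =
      {p | 2 * p.2.2.1 + (D p.1).a * Real.sin (2 * π * p.2.2.1) - p.2.2.2 <
        t - ((D p.1).ph p.2.1).f1 p.2.2.1 t} := by
    ext p
    have hd := h.ok p.1
    exact nx_lt_iff ((eta_le hd).trans (by norm_num)) (hd.ok p.2.1) p.2.2 t
  rw [e]
  have hq : Measurable fun p : P × (Om × (ℝ × ℝ)) => p.2.2.1 :=
    measurable_fst.comp (measurable_snd.comp measurable_snd)
  have hq2 : Measurable fun p : P × (Om × (ℝ × ℝ)) => p.2.2.2 :=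
    measurable_snd.comp (measurable_snd.comp measurable_snd)
  have h1 : Measurable fun p : P × (Om × (ℝ × ℝ)) =>
      2 * p.2.2.1 + (D p.1).a * Real.sin (2 * π * p.2.2.1) - p.2.2.2 :=
    ((hq.const_mul 2).add ((h.ma.comp measurable_fst).mul
      (Real.measurable_sin.comp (hq.const_mul (2 * π))))).sub hq2
  have h2 : Measurable fun p : P × (Om × (ℝ × ℝ)) => t - ((D p.1).ph p.2.1).f1 p.2.2.1 t := by
    have h3 : Measurable fun p : P × (Om × (ℝ × ℝ)) => (p.1, (p.2.1, (p.2.2.1, t))) :=
      measurable_fst.prodMk ((measurable_fst.comp measurable_snd).prodMk (hq.prodMk measurable_const))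
    exact measurable_const.sub (h.p1.comp h3)
  exact measurableSet_lt h1 h2

/-- points with parameter -/
private theorem meas_rp78 : Measurable fun p : P × Pt => (p.1, (p.2.1, rep p.2.2)) :=
  measurable_fst.prodMk ((measurable_fst.comp measurable_snd).prodMk
    (measurable_rep.comp (measurable_snd.comp measurable_snd)))

private theorem meas_rpx78 (h : MFam D) : Measurable fun p : P × Pt =>
    (p.1, (p.2.1, ((rep p.2.2).1, nx (D p.1).a ((D p.1).ph p.2.1) (rep p.2.2)))) :=
  measurable_fst.prodMk ((measurable_fst.comp measurable_snd).prodMk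
    ((measurable_fst.comp (measurable_rep.comp (measurable_snd.comp measurable_snd))).prodMk
      (h.meas_nx.comp meas_rp78)))

theorem MFam.meas_sk (h : MFam D) : Measurable fun p : P × Pt => sk (D p.1) p.2 := by
  have h1 : Measurable fun p : P × Pt => Fl (D p.1).a ((D p.1).ph p.2.1) (rep p.2.2) := by
    unfold Fl
    exact (h.meas_nx.comp meas_rp78).prodMk
      ((measurable_fst.comp (measurable_rep.comp (measurable_snd.comp measurable_snd))).sub
        (h.p2.comp (meas_rpx78 h)))
  exact (measurable_fst.comp measurable_snd).prodMk (measurable_toT.comp h1)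

theorem MFam.meas_be (h : MFam D) : Measurable fun p : P × Pt => be (D p.1) p.2 :=
  measurable_const.sub (h.p12.comp (meas_rpx78 h))

theorem MFam.meas_ve (h : MFam D) : Measurable fun p : P × Pt => ve (D p.1) p.2 :=
  h.p22.comp (meas_rpx78 h)

theorem MFam.meas_al (h : MFam D) : Measurable fun p : P × Pt => al (D p.1) p.2 := by
  have h1 : Measurable fun p : P × Pt => (rep p.2.2).1 :=
    measurable_fst.comp (measurable_rep.comp (measurable_snd.comp measurable_snd))
  have h2 : Measurable fun p : P × Pt =>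
      2 + 2 * π * (D p.1).a * Real.cos (2 * π * (rep p.2.2).1) :=
    measurable_const.add (((h.ma.comp measurable_fst).const_mul (2 * π)).mul
      (Real.measurable_cos.comp (h1.const_mul (2 * π))))
  exact h2.add (h.p11.comp (meas_rpx78 h))

theorem MFam.meas_Dm (h : MFam D) (i j : Fin 2) :
    Measurable fun p : P × Pt => Dm (D p.1) p.2 i j := by
  have ha := h.meas_al
  have hb := h.meas_be
  have hv := h.meas_ve
  have h00 : Measurable fun p : P × Pt => al (D p.1) p.2 / be (D p.1) p.2 := ha.div hb
  have h01 : Measurable fun p : P × Pt => -1 / be (D p.1) p.2 := measurable_const.div hb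
  have h10 : Measurable fun p : P × Pt => be (D p.1) p.2 - ve (D p.1) p.2 *
      (al (D p.1) p.2 / be (D p.1) p.2) := hb.sub (hv.mul h00)
  have h11 : Measurable fun p : P × Pt => ve (D p.1) p.2 / be (D p.1) p.2 := hv.div hb
  unfold Dm mat
  fin_cases i <;> fin_cases j
  · exact h00
  · exact h01
  · exact h10
  · exact h11

theorem MFam.meas_iter (h : MFam D) (n : ℕ) :
    Measurable fun p : P × Pt => (sk (D p.1))^[n] p.2 := by
  induction n with
  | zero => exact measurable_snd
  | succ n ih =>
    have e : (fun p : P × Pt => (sk (D p.1))^[n + 1] p.2) =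
        fun p : P × Pt => sk (D p.1) ((sk (D p.1))^[n] p.2) := by
      funext p
      rw [Function.iterate_succ_apply']
    rw [e]
    exact h.meas_sk.comp (measurable_fst.prodMk ih)

theorem MFam.meas_Mm (h : MFam D) (n : ℕ) :
    ∀ i j : Fin 2, Measurable fun p : P × Pt => Mm (D p.1) n p.2 i j := by
  induction n with
  | zero =>
    intro i j
    simp only [Mm_zero]
    exact measurable_const
  | succ n ih =>
    intro i j
    have h2 : Measurable fun p : P × Pt => (p.1, (sk (D p.1))^[n] p.2) :=
      measurable_fst.prodMk (h.meas_iter n)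
    have h1 : ∀ k l : Fin 2, Measurable fun p : P × Pt =>
        Dm (D p.1) ((sk (D p.1))^[n] p.2) k l := by
      intro k l
      have h3 := (h.meas_Dm k l).comp h2
      exact h3
    have e : (fun p : P × Pt => Mm (D p.1) (n + 1) p.2 i j) = fun p : P × Pt =>
        Dm (D p.1) ((sk (D p.1))^[n] p.2) i 0 * Mm (D p.1) n p.2 0 j +
          Dm (D p.1) ((sk (D p.1))^[n] p.2) i 1 * Mm (D p.1) n p.2 1 j := by
      funext p
      rw [Mm_succ, Matrix.mul_apply, Fin.sum_univ_two]
    rw [e]
    exact ((h1 i 0).mul (ih 0 j)).add ((h1 i 1).mul (ih 1 j))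

theorem MFam.meas_log (h : MFam D) (n : ℕ) :
    Measurable fun p : P × Pt => Real.log (nn (Mm (D p.1) n p.2)) := by
  have h1 := h.meas_Mm n
  have h2 : Measurable fun p : P × Pt => nn (Mm (D p.1) n p.2) := by
    unfold nn
    exact (((h1 0 0).abs.add (h1 0 1).abs).add (h1 1 0).abs).add (h1 1 1).abs
  exact Real.measurable_log.comp h2

theorem MFam.meas_un (h : MFam D) (n : ℕ) :
    Measurable fun p : P × Om => un (D p.1) p.2 n := by
  have h1 : Measurable fun p : (P × Om) × T2 =>
      Real.log (nn (Mm (D p.1.1) n (p.1.2, p.2))) :=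
    (h.meas_log n).comp ((measurable_fst.comp measurable_fst).prodMk
      ((measurable_snd.comp measurable_fst).prodMk measurable_snd))
  exact (h1.stronglyMeasurable.integral_prod_right').measurable

theorem MFam.meas_Lw (h : MFam D) : Measurable fun p : P × Om => Lw (D p.1) p.2 := by
  refine measurable_of_tendsto_metrizable (f := fun n : ℕ => fun p : P × Om =>
    un (D p.1) p.2 n / n) (fun n => (h.meas_un n).div_const _) ?_
  rw [tendsto_pi_nhds]
  intro p
  exact Lw_tendsto (h.ok p.1) p.2

end Pool.Agent.Helper18.FD
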