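import Pool.Agent.Helper18.FD.Defs

/-! Block FD-PER: calculus of periodic copies of bump functions. (Pure Mathlib.)

`rr u = u - round u ∈ [-1/2, 1/2]`, `pr N f u = f (N rr u)`, `f = 0` off `(-1, 1)`, `N ≥ 4` (`NN l ≥ 8`).
* `deriv_off`: if `f` is differentiable and `f = 0` on `|t| ≥ 1`, then `deriv f = 0` there (for `|t| > 1` the function is locally zero; at `t = ±1` the
  difference quotients from outside vanish; e.g. `deriv f` restricted: use `HasDerivAt.hasDerivWithinAt` on `Ici 1` (`Iic (-1)`) and uniqueness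
  `UniqueDiffWithinAt`). `deriv_in`: the same for a function constant on `|t| ≤ 1/2`.
* `pr_add_int`: `rr (u + k) = rr u` (`round_add_intCast`).
* `pr_deriv`: if `|rr u| < 1/2` then `round` is constant near `u` and `rr` has derivative `1` there; if `|rr u| = 1/2` (or `> 1/4`) then `|N rr w| ≥ 1` for `w` near `u`,
  so `pr N f = 0` near `u` and `pr N (deriv f) u = 0` by `deriv_off`.
* `pr_cont`: the same for continuity.
* `pr_sum`: at most two `c < N` have `|N rr (y - c/N)| < 1` (`c ≡ ⌊N y⌋` or `⌊N y⌋ + 1` modulo `N`); the others contribute zero. -/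

set_option autoImplicit false
open Set

namespace Pool.Agent.Helper18.FD

private lemma deriv_on88 {f : ℝ → ℝ} (hf : Differentiable ℝ f) {S : Set ℝ} {c t : ℝ}
    (hS : UniqueDiffWithinAt ℝ S t) (hc : ∀ s ∈ S, f s = c) (ht : t ∈ S) : deriv f t = 0 := by
  have h1 : HasDerivWithinAt f (deriv f t) S t := (hf t).hasDerivAt.hasDerivWithinAt
  have h2 : HasDerivWithinAt f 0 S t :=
    (hasDerivWithinAt_const t S c).congr (fun s hs => hc s hs) (hc t ht)
  exact hS.eq_deriv S h1 h2

theorem deriv_off {f : ℝ → ℝ} (hf : Differentiable ℝ f) (h0 : ∀ t, 1 ≤ |t| → f t = 0) :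
    ∀ t, 1 ≤ |t| → deriv f t = 0 := by
  intro t ht
  rcases le_abs.mp ht with h | h
  · refine deriv_on88 hf (S := Ici 1) (c := 0) (uniqueDiffOn_Ici 1 t h) (fun s hs => ?_) h
    exact h0 s (le_trans hs (le_abs_self s))
  · have h' : t ∈ Iic (-1 : ℝ) := by
      rw [mem_Iic]
      linarith
    refine deriv_on88 hf (S := Iic (-1)) (c := 0) (uniqueDiffOn_Iic (-1) t h') (fun s hs => ?_) h'
    rw [mem_Iic] at hs
    exact h0 s (le_trans (by linarith) (neg_le_abs s))

theorem deriv_in {f : ℝ → ℝ} (hf : Differentiable ℝ f) {c : ℝ} (h1 : ∀ t, |t| ≤ 1 / 2 → f t = c) :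
    ∀ t, |t| ≤ 1 / 2 → deriv f t = 0 := by
  intro t ht
  have ht' : t ∈ Icc (-(1 / 2) : ℝ) (1 / 2) := abs_le.mp ht
  exact deriv_on88 hf (S := Icc (-(1 / 2)) (1 / 2)) (c := c)
    (uniqueDiffOn_Icc (by norm_num) t ht') (fun s hs => h1 s (abs_le.mpr hs)) ht'

theorem abs_rr_le (u : ℝ) : |rr u| ≤ 1 / 2 := abs_sub_round u

theorem rr_add_int (u : ℝ) (k : ℤ) : rr (u + k) = rr u := by
  unfold rr
  rw [round_add_intCast]
  push_cast
  ring

private lemma round_eq88 {w : ℝ} {n : ℤ} (h : |w - n| < 1 / 2) : round w = n := by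
  rw [round_eq, Int.floor_eq_iff]
  rw [abs_lt] at h
  constructor <;> linarith

/-- near a point which is not a half integer `pr` is a composition with an affine function -/
private lemma pr_near88 (N : ℕ) (f : ℝ → ℝ) {u : ℝ} (h : |rr u| < 1 / 2) :
    ∀ᶠ w in nhds u, pr N f w = f (N * (w - (round u : ℝ))) := by
  have h1 : ∀ᶠ w in nhds u, |w - (round u : ℝ)| < 1 / 2 := by
    have hc : Continuous fun w : ℝ => |w - (round u : ℝ)| := by fun_prop
    exact hc.continuousAt.eventually_lt continuousAt_const h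
  filter_upwards [h1] with w hw
  unfold pr rr
  rw [round_eq88 hw]

private lemma pr_far88 {N : ℕ} (hN : 4 ≤ N) {f : ℝ → ℝ} (h0 : ∀ t, 1 ≤ |t| → f t = 0) {u : ℝ}
    (h : ¬ |rr u| < 1 / 2) : ∀ᶠ w in nhds u, pr N f w = 0 := by
  push Not at h
  filter_upwards [Metric.ball_mem_nhds u (show (0 : ℝ) < 1 / 4 by norm_num)] with w hw
  rw [Metric.mem_ball, Real.dist_eq] at hw
  have h1 : |u - (round u : ℝ)| ≤ |u - (round w : ℝ)| := round_le u (round w)
  have h2 : |u - (round w : ℝ)| ≤ |w - u| + |rr w| := by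
    have e : u - (round w : ℝ) = -(w - u) + rr w := by
      unfold rr
      ring
    rw [e]
    refine (abs_add_le _ _).trans ?_
    rw [abs_neg]
  have h3 : 1 / 4 ≤ |rr w| := by
    unfold rr at h
    linarith
  unfold pr
  apply h0
  rw [abs_mul, Nat.abs_cast]
  have h4 : (4 : ℝ) ≤ N := by exact_mod_cast hN
  nlinarith

theorem pr_deriv {N : ℕ} (hN : 4 ≤ N) {f : ℝ → ℝ} (hf : Differentiable ℝ f)
    (h0 : ∀ t, 1 ≤ |t| → f t = 0) (u : ℝ) : HasDerivAt (pr N f) (N * pr N (deriv f) u) u := by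
  by_cases h : |rr u| < 1 / 2
  · have h1 : HasDerivAt (fun w : ℝ => (N : ℝ) * (w - (round u : ℝ))) N u := by
      simpa using ((hasDerivAt_id u).sub_const (round u : ℝ)).const_mul (N : ℝ)
    have h2 : HasDerivAt (fun w : ℝ => f (N * (w - (round u : ℝ))))
        (deriv f (N * (u - (round u : ℝ))) * N) u :=
      HasDerivAt.comp u (hf _).hasDerivAt h1
    have h3 := h2.congr_of_eventuallyEq (pr_near88 N f h)
    have e : (N : ℝ) * pr N (deriv f) u = deriv f (N * (u - (round u : ℝ))) * N := by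
      unfold pr rr
      ring
    rw [e]
    exact h3
  · have h1 : HasDerivAt (pr N f) 0 u :=
      (hasDerivAt_const u (0 : ℝ)).congr_of_eventuallyEq (pr_far88 hN h0 h)
    have h2 : pr N (deriv f) u = 0 :=
      (pr_far88 hN (deriv_off hf h0) h).self_of_nhds
    rw [h2, mul_zero]
    exact h1

theorem pr_cont {N : ℕ} (hN : 4 ≤ N) {f : ℝ → ℝ} (hf : Continuous f)
    (h0 : ∀ t, 1 ≤ |t| → f t = 0) : Continuous (pr N f) := by
  rw [continuous_iff_continuousAt]
  intro u
  by_cases h : |rr u| < 1 / 2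
  · have h1 : ContinuousAt (fun w : ℝ => f (N * (w - (round u : ℝ)))) u :=
      (hf.comp (continuous_const.mul (continuous_id.sub continuous_const))).continuousAt
    have h2 : (fun w : ℝ => f (N * (w - (round u : ℝ)))) =ᶠ[nhds u] pr N f :=
      (pr_near88 N f h).mono fun w hw => hw.symm
    exact h1.congr h2
  · have h1 : (fun _ : ℝ => (0 : ℝ)) =ᶠ[nhds u] pr N f :=
      (pr_far88 hN h0 h).mono fun w hw => hw.symm
    exact continuousAt_const.congr h1

theorem pr_sum {N : ℕ} (hN : 4 ≤ N) {f : ℝ → ℝ} {B : ℝ} (hB : ∀ t, |f t| ≤ B)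
    (h0 : ∀ t, 1 ≤ |t| → f t = 0) (y : ℝ) :
    ∑ c ∈ Finset.range N, |pr N f (y - c / N)| ≤ 2 * B := by
  have hB0 : 0 ≤ B := (abs_nonneg _).trans (hB 0)
  have hN0 : (N : ℝ) ≠ 0 := by
    have : (4 : ℝ) ≤ N := by exact_mod_cast hN
    linarith
  set a : ℕ := (⌊(N : ℝ) * y⌋ % (N : ℤ)).toNat with ha
  set b : ℕ := ((⌊(N : ℝ) * y⌋ + 1) % (N : ℤ)).toNat with hb
  have hterm : ∀ c ∈ Finset.range N, |pr N f (y - c / N)| ≤
      (if c = a then B else 0) + (if c = b then B else 0) := by
    intro c hc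
    rw [Finset.mem_range] at hc
    by_cases h : |(N : ℝ) * rr (y - c / N)| < 1
    · have h1 : (N : ℝ) * rr (y - c / N) =
          N * y - (((c : ℤ) + N * round (y - c / N) : ℤ) : ℝ) := by
        unfold rr
        push_cast
        field_simp
        ring
      set m : ℤ := (c : ℤ) + N * round (y - c / N) with hm
      rw [h1, abs_lt] at h
      have h2 : m = ⌊(N : ℝ) * y⌋ ∨ m = ⌊(N : ℝ) * y⌋ + 1 := by
        have h3 := Int.floor_le ((N : ℝ) * y)
        have h4 := Int.lt_floor_add_one ((N : ℝ) * y)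
        have h5 : ⌊(N : ℝ) * y⌋ < m + 1 := by
          have : (⌊(N : ℝ) * y⌋ : ℝ) < (m : ℝ) + 1 := by linarith
          exact_mod_cast this
        have h6 : m < ⌊(N : ℝ) * y⌋ + 2 := by
          have : (m : ℝ) < (⌊(N : ℝ) * y⌋ : ℝ) + 2 := by linarith
          exact_mod_cast this
        omega
      have h3 : (m % (N : ℤ)).toNat = c := by
        rw [hm, Int.add_mul_emod_self_left, Int.emod_eq_of_lt (by omega) (by omega)]
        exact Int.toNat_natCast c
      have h4 : |pr N f (y - c / N)| ≤ B := hB _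
      rcases h2 with h2 | h2
      · have h5 : c = a := by rw [ha, ← h2, h3]
        rw [if_pos h5]
        have h6 : 0 ≤ (if c = b then B else 0) := by split_ifs <;> [exact hB0; exact le_rfl]
        linarith
      · have h5 : c = b := by rw [hb, ← h2, h3]
        rw [if_pos h5]
        have h6 : 0 ≤ (if c = a then B else 0) := by split_ifs <;> [exact hB0; exact le_rfl]
        linarith
    · push Not at h
      have h1 : pr N f (y - c / N) = 0 := h0 _ h
      rw [h1, abs_zero]
      have h6 : 0 ≤ (if c = a then B else 0) := by split_ifs <;> [exact hB0; exact le_rfl]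
      have h7 : 0 ≤ (if c = b then B else 0) := by split_ifs <;> [exact hB0; exact le_rfl]
      linarith
  refine (Finset.sum_le_sum hterm).trans ?_
  rw [Finset.sum_add_distrib, Finset.sum_ite_eq', Finset.sum_ite_eq']
  have h1 : (if a ∈ Finset.range N then B else 0) ≤ B := by
    split_ifs <;> [exact le_rfl; exact hB0]
  have h2 : (if b ∈ Finset.range N then B else 0) ≤ B := by
    split_ifs <;> [exact le_rfl; exact hB0]
  linarith

end Pool.Agent.Helper18.FD
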