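import Pool.Agent.Helper18.FD.Bas
import Pool.Agent.Helper18.FD.Weg

/-! Block FD-PHIJ: the Wegner estimate at the junction.

Apply `weg` with `k = m - 1`, `n = 2m - 1`, `Φ = phJ d m` (measurable: `meas_nn`, `meas_cn2`, `meas_rn1`, `meas_sk`). Verification of the hypothesis: let `p = (ω, z)`, `far`, `c` given. Take
`R = Mm d m ((sk d)^[m] p)`, `L = Mm d (m-1) p`, `al, be, v₀ = al, be, ve d ((sk d)^[m-1] p)`; `jun` gives `y₀`. For `u, v` on the line, `p' = (upd l c u v ω, z)`: by `line` the orbits of `p`, `p'` have the same `al, be` for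
`j ≤ 2m-1` and the same `ve` for `j ≠ m-1`, and `ve' = v₀ + A (v - cl ω_i)`, `A = κ N^(-s)`, at `m-1`. So `Mm d m ((sk d)^[m] p') = R` (`Mm_congr`, with `Function.iterate_add_apply`), `Mm d (m-1) p' = L`,
`Mm d m p' = mat al be ve' * L`, `Mm d (2m) p' = R * (mat al be ve' * L)` (`Mm_add`, `Mm_succ`). By `jun`: `|ve' - y₀| * (cn2 R * rn1 (mat al be ve' * L)) ≤ 4 nn (..)`, so `|ve' - y₀| ≤ phJ d m p'`
(`cn2_pos`, `rn1_pos`, `det_Mm`), and `ve' - y₀ = A v - y` with `y = y₀ - v₀ + A cl ω_i`. -/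

set_option autoImplicit false
open MeasureTheory Real Set
open scoped ENNReal

namespace Pool.Agent.Helper18.FD

open Pool.Agent.Helper18.UC (T2 rep toT nn)

variable {d : Dat}

noncomputable def phJ (d : Dat) (m : ℕ) (p : Pt) : ℝ :=
  4 * nn (Mm d (2 * m) p) / (cn2 (Mm d m ((sk d)^[m] p)) * rn1 (Mm d m p))

private theorem measJ38 (hd : d.Ok) (m : ℕ) : Measurable (phJ d m) := by
  unfold phJ
  exact ((meas_nn hd (2 * m)).const_mul 4).div
    (((meas_cn2 hd m).comp ((meas_sk hd).iterate m)).mul (meas_rn1 hd m))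

theorem wegJ (hd : d.Ok) {m : ℕ} (hm : 1 ≤ m) :
    ∫⁻ p, lm (phJ d m p) ∂mu ≤ ENNReal.ofReal (10 + Real.log (1 / d.κ)) +
      ENNReal.ofReal (1 + d.s) * ∫⁻ p, lm (sepd d (m - 1) (2 * m - 1) p) ∂mu := by
  obtain ⟨k, rfl⟩ : ∃ k, m = k + 1 := ⟨m - 1, by omega⟩
  have e1 : k + 1 - 1 = k := by omega
  have e2 : 2 * (k + 1) - 1 = 2 * k + 1 := by omega
  rw [e1, e2]
  refine weg hd (by omega) (measJ38 hd (k + 1)) fun l ω z c hfar hc => ?_
  obtain ⟨y₀, hy₀⟩ := jun (Mm d (k + 1) ((sk d)^[k + 1] (ω, z))) (Mm d k (ω, z))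
    (al d ((sk d)^[k] (ω, z))) (be d ((sk d)^[k] (ω, z)))
  refine ⟨y₀ - ve d ((sk d)^[k] (ω, z)) +
    d.κ * (NN l : ℝ) ^ (-d.s) * cl (ω (l, c.1, c.2, true)), fun u hu v hv huv => ?_⟩
  obtain ⟨-, -, hal, hbe, hve, hvek⟩ := line hd (by omega) hfar hc hu hv huv
  have hDm : ∀ j ≤ 2 * k + 1, j ≠ k →
      Dm d ((sk d)^[j] (upd l c u v ω, z)) = Dm d ((sk d)^[j] (ω, z)) := by
    intro j hj hjk
    unfold Dm
    rw [hal j hj, hbe j hj, hve j hj hjk]
  have hR : Mm d (k + 1) ((sk d)^[k + 1] (upd l c u v ω, z)) =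
      Mm d (k + 1) ((sk d)^[k + 1] (ω, z)) := by
    refine Mm_congr fun j hj => ?_
    rw [← Function.iterate_add_apply, ← Function.iterate_add_apply]
    exact hDm (j + (k + 1)) (by omega) (by omega)
  have hL : Mm d k (upd l c u v ω, z) = Mm d k (ω, z) :=
    Mm_congr fun j hj => hDm j (by omega) (by omega)
  have hM : Mm d (k + 1) (upd l c u v ω, z) = mat (al d ((sk d)^[k] (ω, z)))
      (be d ((sk d)^[k] (ω, z))) (ve d ((sk d)^[k] (upd l c u v ω, z))) * Mm d k (ω, z) := by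
    rw [Mm_succ, hL]
    unfold Dm
    rw [hal k (by omega), hbe k (by omega)]
  have hMM : Mm d (2 * (k + 1)) (upd l c u v ω, z) = Mm d (k + 1) ((sk d)^[k + 1] (ω, z)) *
      (mat (al d ((sk d)^[k] (ω, z))) (be d ((sk d)^[k] (ω, z)))
        (ve d ((sk d)^[k] (upd l c u v ω, z))) * Mm d k (ω, z)) := by
    rw [two_mul, Mm_add, hR, hM]
  have h1 := hy₀ (ve d ((sk d)^[k] (upd l c u v ω, z)))
  rw [← hMM, ← hM] at h1
  have hpos : 0 < cn2 (Mm d (k + 1) ((sk d)^[k + 1] (ω, z))) *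
      rn1 (Mm d (k + 1) (upd l c u v ω, z)) :=
    mul_pos (cn2_pos (det_Mm hd _ _)) (rn1_pos (det_Mm hd _ _))
  have h2 : d.κ * (NN l : ℝ) ^ (-d.s) * v - (y₀ - ve d ((sk d)^[k] (ω, z)) +
      d.κ * (NN l : ℝ) ^ (-d.s) * cl (ω (l, c.1, c.2, true))) =
      ve d ((sk d)^[k] (upd l c u v ω, z)) - y₀ := by
    rw [hvek]
    ring
  rw [h2]
  unfold phJ
  rw [hR, le_div_iff₀ hpos]
  exact h1

end Pool.Agent.Helper18.FD
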