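import Pool.Agent.Helper18.FD.QA
import Pool.Agent.Helper18.FD.CloA
import Pool.Agent.Helper18.FD.CloB

/-! Block FD-Q2: the closeness recursion with halving of the gap.

`qq d k ρ` is the probability of `dist (pw k) (pw 0) < ρ`. `stat`: stationarity (`sk_iter_mp`, `pw_sk`; `MeasurePreserving.measure_preimage`, the set is measurable by `meas_pw`).
`q2`: by `stat` with `i = 1`, `qq d k ρ = mu {dist (pw (k+1)) (pw 1) < ρ}`. Case (A): `2/N ≤ dist (pw j) (pw k)` for all `1 ≤ j < k`: this set is the preimage under `sk d` of the set of `qa` for `k - 1 ≥ 1` in place of `k`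
(`pw_sk`), probability `≤ 2 ρ N^(1+s)/κ` (`2ρ ≤ 1/N` as `40|a| ≥ 2`). Case (B): `dist (pw j) (pw k) < 2/N` for some `1 ≤ j ≤ k - 1`; by `lip` (for `p' = (sk d)^[k] p`, the noise is the same) `dist (pw 0) (pw k) ≤ 10|a| ρ ≤ 1/N`, so
`dist (pw 0) (pw j) < 3/N`. If `2j ≤ k` use the pair `(0, j)`, otherwise the pair `(j, k)`, gap `k - j ≤ k/2`, `stat`: the probability of (B) for this `j` is `≤ qq d g (3/N)` with `g = min j (k - j)`, `1 ≤ g`, `2g ≤ k`.
Sum over `j`: `≤ (k - 1) max_g`. -/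

set_option autoImplicit false
open MeasureTheory Real Set
open scoped ENNReal

namespace Pool.Agent.Helper18.FD

open Pool.Agent.Helper18.UC (T2 rep toT)

variable {d : Dat}

noncomputable def qq (d : Dat) (k : ℕ) (ρ : ℝ) : ℝ := mu.real {p | dist (pw d k p) (pw d 0 p) < ρ}

theorem stat (hd : d.Ok) (i k : ℕ) (ρ : ℝ) :
    mu.real {p | dist (pw d (k + i) p) (pw d i p) < ρ} = qq d k ρ := by
  have hm : MeasurableSet {p | dist (pw d k p) (pw d 0 p) < ρ} :=
    measurableSet_lt ((meas_pw hd k).dist (meas_pw hd 0)) measurable_const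
  have h1 : {p | dist (pw d (k + i) p) (pw d i p) < ρ} =
      ((sk d)^[i]) ⁻¹' {p | dist (pw d k p) (pw d 0 p) < ρ} := by
    ext p
    simp only [mem_ofPred_eq, mem_preimage, pw_sk, zero_add]
  rw [h1, qq, Measure.real, Measure.real, (sk_iter_mp hd i).measure_preimage hm.nullMeasurableSet]

theorem qq_mono (d : Dat) (k : ℕ) : Monotone (qq d k) := by
  intro ρ ρ' h
  exact measureReal_mono fun p (hp : dist (pw d k p) (pw d 0 p) < ρ) => lt_of_lt_of_le hp h

theorem qq_one (hd : d.Ok) {ρ : ℝ} (hρ : 0 < ρ) : qq d 1 ρ ≤ 3 * ρ := by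
  exact ENNReal.toReal_le_of_le_ofReal (by positivity) (q1 hd hρ)

theorem q2 (hd : d.Ok) {k : ℕ} (hk : 2 ≤ k) (l : ℕ) {ρ : ℝ} (hρ : 0 < ρ)
    (h : 40 * |d.a| * ρ ≤ 1 / NN l) :
    ∃ g : ℕ, 1 ≤ g ∧ 2 * g ≤ k ∧
      qq d k ρ ≤ 2 * ρ * (NN l : ℝ) ^ (1 + d.s) / d.κ + k * qq d g (3 / NN l) := by
  obtain ⟨m, rfl⟩ : ∃ m, k = m + 1 := ⟨k - 1, by omega⟩
  have hm : 1 ≤ m := by omega
  have hN := NN_pos l
  have ha := hd.ha
  have h2 : 2 * ρ ≤ 1 / NN l := by nlinarith
  have h10 : 10 * |d.a| * ρ ≤ 1 / NN l := by nlinarith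
  let gg : ℕ → ℕ := fun i => if 2 * i ≤ m + 1 then i else m + 1 - i
  let ss : ℕ → ℕ := fun i => if 2 * i ≤ m + 1 then 0 else i
  have hgg : ∀ j < m, 1 ≤ gg (j + 1) ∧ 2 * gg (j + 1) ≤ m + 1 := by
    intro j hj
    simp only [gg]
    split_ifs <;> omega
  obtain ⟨j0, hj0, hmax⟩ := Finset.exists_max_image (Finset.range m) (fun j => qq d (gg (j + 1)) (3 / NN l))
    ⟨0, Finset.mem_range.2 hm⟩
  refine ⟨gg (j0 + 1), (hgg j0 (Finset.mem_range.1 hj0)).1, (hgg j0 (Finset.mem_range.1 hj0)).2, ?_⟩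
  have hqa := qa hd hm l hρ h2
  set Q : Set Pt := {p | dist (pw d (m + 1) p) (pw d 0 p) < ρ ∧
    ∀ j < m, 2 / (NN l : ℝ) ≤ dist (pw d j p) (pw d m p)} with hQ
  have hQm : MeasurableSet Q := by
    have h3 : Q = {p | dist (pw d (m + 1) p) (pw d 0 p) < ρ} ∩
        ⋂ j, ⋂ (_ : j < m), {p | 2 / (NN l : ℝ) ≤ dist (pw d j p) (pw d m p)} := by
      ext p
      simp only [hQ, mem_inter_iff, mem_iInter, mem_ofPred_eq]
    rw [h3]
    exact (measurableSet_lt ((meas_pw hd _).dist (meas_pw hd _)) measurable_const).inter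
      (MeasurableSet.iInter fun j => MeasurableSet.iInter fun _ =>
        measurableSet_le measurable_const ((meas_pw hd _).dist (meas_pw hd _)))
  let B : ℕ → Set Pt := fun j =>
    {p | dist (pw d (gg (j + 1) + ss (j + 1)) p) (pw d (ss (j + 1)) p) < 3 / NN l}
  have hB : ∀ j, mu.real (B j) = qq d (gg (j + 1)) (3 / NN l) := fun j => stat hd _ _ _
  have hsub : {p | dist (pw d (m + 1 + 1) p) (pw d 1 p) < ρ} ⊆ (sk d) ⁻¹' Q ∪ ⋃ j ∈ Finset.range m, B j := by
    intro p hp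
    have hp1 : dist (pw d (m + 1 + 1) p) (pw d 1 p) < ρ := hp
    have hsk : ∀ j, pw d j (sk d p) = pw d (j + 1) p := fun j => pw_sk d 1 j p
    by_cases hc : ∀ j < m, 2 / (NN l : ℝ) ≤ dist (pw d (j + 1) p) (pw d (m + 1) p)
    · left
      refine ⟨?_, fun j hj => ?_⟩
      · rw [hsk, hsk]
        exact hp1
      · rw [hsk, hsk]
        exact hc j hj
    · right
      push Not at hc
      obtain ⟨j, hj, hj1⟩ := hc
      simp only [mem_iUnion, Finset.mem_range]
      refine ⟨j, hj, ?_⟩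
      have hl := lip hd (p := p) (p' := (sk d)^[m + 1] p) (sk_iter_fst d (m + 1) p).symm
      rw [pw_sk, pw_sk, zero_add, dist_comm (pw d 1 p), add_comm 1 (m + 1)] at hl
      have hl1 : dist (pw d 0 p) (pw d (m + 1) p) ≤ 1 / NN l := by
        refine hl.trans (le_trans ?_ h10)
        exact mul_le_mul_of_nonneg_left hp1.le (by positivity)
      show dist (pw d (gg (j + 1) + ss (j + 1)) p) (pw d (ss (j + 1)) p) < 3 / NN l
      simp only [gg, ss]
      split_ifs with h5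
      · rw [add_zero]
        calc dist (pw d (j + 1) p) (pw d 0 p) ≤ dist (pw d (j + 1) p) (pw d (m + 1) p) +
              dist (pw d (m + 1) p) (pw d 0 p) := dist_triangle _ _ _
          _ < 2 / NN l + 1 / NN l := by
              rw [dist_comm (pw d (m + 1) p)]
              exact add_lt_add_of_lt_of_le hj1 hl1
          _ = 3 / NN l := by ring
      · rw [show m + 1 - (j + 1) + (j + 1) = m + 1 by omega, dist_comm]
        refine hj1.trans ?_
        exact div_lt_div_of_pos_right (by norm_num) hN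
  have hQ1 : mu.real ((sk d) ⁻¹' Q) ≤ 2 * ρ * (NN l : ℝ) ^ (1 + d.s) / d.κ := by
    rw [Measure.real, (sk_mp hd).measure_preimage hQm.nullMeasurableSet]
    refine ENNReal.toReal_le_of_le_ofReal ?_ hqa
    have := hd.hκ
    positivity
  rw [← stat hd 1 (m + 1) ρ]
  calc mu.real {p | dist (pw d (m + 1 + 1) p) (pw d 1 p) < ρ}
      ≤ mu.real ((sk d) ⁻¹' Q ∪ ⋃ j ∈ Finset.range m, B j) := measureReal_mono hsub
    _ ≤ mu.real ((sk d) ⁻¹' Q) + mu.real (⋃ j ∈ Finset.range m, B j) := measureReal_union_le _ _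
    _ ≤ 2 * ρ * (NN l : ℝ) ^ (1 + d.s) / d.κ + ∑ j ∈ Finset.range m, mu.real (B j) :=
        add_le_add hQ1 (measureReal_biUnion_finset_le _ _)
    _ ≤ 2 * ρ * (NN l : ℝ) ^ (1 + d.s) / d.κ + ∑ _j ∈ Finset.range m, qq d (gg (j0 + 1)) (3 / NN l) := by
        refine add_le_add le_rfl (Finset.sum_le_sum fun j hj => ?_)
        rw [hB]
        exact hmax j hj
    _ ≤ _ := by
        rw [Finset.sum_const, Finset.card_range, nsmul_eq_mul]
        refine add_le_add le_rfl (mul_le_mul_of_nonneg_right ?_ measureReal_nonneg)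
        push_cast
        linarith

end Pool.Agent.Helper18.FD
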