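import Pool.Agent.Helper18.FD.Kick
import Pool.Agent.Helper18.FD.Res

/-! Block FD-QA: a return whose pivot is isolated is unlikely.

For fixed `z` (Tonelli, `Measure.prod_apply_symm`; the set `S` is measurable, `meas_pw`) let `S_z` be the section. For `c ∈ range (NN l) ×ˢ range (NN l)` put `i = (l, c.1, c.2, false)`,
`G_c = {ω | cel l (pw d k (ω, z)) = c ∧ ∀ j < k, 2/N ≤ dist (pw d j (ω, z)) (pw d k (ω, z))}` and `E_c = G_c ∩ S_z`; `S_z = ⋃ E_c` (`cel_lt`), `∑ PP G_c ≤ 1` (disjoint).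
Claim `PP E_c ≤ ofReal (2 ρ N^(1+s)/κ) * PP G_c`: by `res1` for the indicator of `E_c`, it suffices that for every `ω`
`uu {u | update ω i u ∈ E_c} ≤ ofReal (2 ρ N^(1+s)/κ) * uu {u | update ω i u ∈ G_c}`. If there is no `u` with `update ω i u ∈ G_c` both sides vanish. If `update ω i u₀ ∈ G_c`, replace `ω` by it: the pairs
`j < k` are outside the cell `c` and the pair `k` is in the inner part (`out_of_far`, `inn_cel`), so by `iter_out`, `iter_out_inn` (`update ω i u = upd l c u (ω (l,c.1,c.2,true)) ω`) all `update ω i u ∈ G_c` and the pairs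
`j ≤ k` are the same; so `uu {..G_c} = 1`. If `u, u' ∈ [-1, 1]` both give points of `E_c`: the pair `k + 1` is at distance `< ρ` from the pair `0`, which is at distance `≥ 2/N` from the pair `k` (`k ≥ 1`), so it is at
distance `≥ 2/N - ρ ≥ 3/(2N)` from the pair `k`: outside. `kick` gives `κ N^(-(1+s)) |u - u'| ≤ (5/4) 2ρ`. So `{u ∈ [-1,1] | ..}` has diameter `≤ (5/2) ρ N^(1+s)/κ`, hence `uu` measure `≤ (5/4) ρ N^(1+s)/κ`
(a set of reals of diameter `≤ D` lies in an interval `[inf, inf + D]`; `uu = 1/2 volume` on `[-1,1]`). -/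

set_option autoImplicit false
open MeasureTheory Real Set
open scoped ENNReal

namespace Pool.Agent.Helper18.FD

open Pool.Agent.Helper18.UC (T2 rep toT)

variable {d : Dat}

/-- the section over `z` of the set of noises with the pair number `k` in the cell `c`, isolated -/
private def Gs77 (d : Dat) (k l : ℕ) (c : ℕ × ℕ) (z : T2) : Set Om :=
  {ω | cel l (pw d k (ω, z)) = c ∧
    ∀ j < k, 2 / (NN l : ℝ) ≤ dist (pw d j (ω, z)) (pw d k (ω, z))}

private def Es77 (d : Dat) (k l : ℕ) (ρ : ℝ) (c : ℕ × ℕ) (z : T2) : Set Om :=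
  {ω | ω ∈ Gs77 d k l c z ∧ dist (pw d (k + 1) (ω, z)) (pw d 0 (ω, z)) < ρ}

private lemma upd_eq_77 (l : ℕ) (c : ℕ × ℕ) (u : ℝ) (ω : Om) :
    Function.update ω (l, c.1, c.2, false) u = upd l c u (ω (l, c.1, c.2, true)) ω := by
  unfold upd
  have h : ω (l, c.1, c.2, true) =
      Function.update ω (l, c.1, c.2, false) u (l, c.1, c.2, true) := by
    rw [Function.update_of_ne (by simp)]
  rw [h, Function.update_eq_self]

private lemma stab_77 (hd : d.Ok) {l : ℕ} {c : ℕ × ℕ} (hc : c.1 < NN l ∧ c.2 < NN l) {ω : Om}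
    {z : T2} {k : ℕ} (hG : ω ∈ Gs77 d k l c z) :
    (∀ j < k, out l c (pw d j (ω, z))) ∧ inn l c (pw d k (ω, z)) ∧
    ∀ u, ∀ j ≤ k, pw d j (Function.update ω (l, c.1, c.2, false) u, z) = pw d j (ω, z) := by
  obtain ⟨h1, h2⟩ := hG
  have hN := NN_pos l
  have hi : inn l c (pw d k (ω, z)) := by
    have h3 := inn_cel l (pw d k (ω, z))
    rwa [h1] at h3
  have ho : ∀ j < k, out l c (pw d j (ω, z)) := by
    intro j hj
    refine out_of_far hi (le_trans ?_ (h2 j hj))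
    rw [div_le_div_iff₀ (by positivity) hN]
    nlinarith
  refine ⟨ho, hi, fun u j hj => ?_⟩
  rw [upd_eq_77]
  rcases lt_or_eq_of_le hj with h | h
  · exact (iter_out hd hc u _ ho).2 j h
  · rw [h]
    exact iter_out_inn hd hc u _ ho hi

private lemma update_mem_77 (hd : d.Ok) {l : ℕ} {c : ℕ × ℕ} (hc : c.1 < NN l ∧ c.2 < NN l)
    {ω : Om} {z : T2} {k : ℕ} (hG : ω ∈ Gs77 d k l c z) (u : ℝ) :
    Function.update ω (l, c.1, c.2, false) u ∈ Gs77 d k l c z := by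
  obtain ⟨-, -, h⟩ := stab_77 hd hc hG
  refine ⟨?_, fun j hj => ?_⟩
  · rw [h u k le_rfl]
    exact hG.1
  · rw [h u k le_rfl, h u j hj.le]
    exact hG.2 j hj

private lemma diam_77 (hd : d.Ok) {k : ℕ} (hk : 1 ≤ k) {l : ℕ} {ρ : ℝ}
    (h : 2 * ρ ≤ 1 / NN l) {c : ℕ × ℕ} (hc : c.1 < NN l ∧ c.2 < NN l) {z : T2} {ω : Om} {u u' : ℝ}
    (hu : Function.update ω (l, c.1, c.2, false) u ∈ Es77 d k l ρ c z)
    (hu' : Function.update ω (l, c.1, c.2, false) u' ∈ Es77 d k l ρ c z)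
    (hI : u ∈ Icc (-1 : ℝ) 1) (hI' : u' ∈ Icc (-1 : ℝ) 1) :
    |u' - u| ≤ 5 / 2 * ρ * (NN l : ℝ) ^ (1 + d.s) / d.κ := by
  have hN := NN_pos l
  have hout : ∀ ω' : Om, ω' ∈ Es77 d k l ρ c z → out l c (pw d (k + 1) (ω', z)) := by
    intro ω' h'
    obtain ⟨-, hi, -⟩ := stab_77 hd hc h'.1
    refine out_of_far hi ?_
    have h1 := h'.1.2 0 (by omega)
    have h2 := h'.2
    have h3 := dist_triangle (pw d 0 (ω', z)) (pw d (k + 1) (ω', z)) (pw d k (ω', z))
    rw [dist_comm (pw d 0 (ω', z)) (pw d (k + 1) (ω', z))] at h3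
    have h4 : (3 : ℝ) / (2 * NN l) = 2 / NN l - 1 / NN l / 2 := by
      field_simp
      norm_num
    rw [h4]
    linarith
  obtain ⟨ω₁, hω₁⟩ : ∃ ω₁, ω₁ = Function.update ω (l, c.1, c.2, false) u := ⟨_, rfl⟩
  have hup : Function.update ω (l, c.1, c.2, false) u' =
      Function.update ω₁ (l, c.1, c.2, false) u' := by
    rw [hω₁, Function.update_idem]
  rw [hup] at hu'
  rw [← hω₁] at hu
  obtain ⟨ho, hi, hst⟩ := stab_77 hd hc hu.1
  have key := kick hd hc ho hi u' (hout _ hu) (hout _ hu')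
  have hval : ω₁ (l, c.1, c.2, false) = u := by
    rw [hω₁, Function.update_self]
  rw [hval, cl_of_mem hI, cl_of_mem hI'] at key
  have h0 := hst u' 0 (by omega)
  have h5 := hu'.2
  rw [h0] at h5
  have h6 := dist_triangle (pw d (k + 1) (ω₁, z)) (pw d 0 (ω₁, z))
    (pw d (k + 1) (Function.update ω₁ (l, c.1, c.2, false) u', z))
  rw [dist_comm (pw d 0 (ω₁, z)) _] at h6
  have h7 := hu.2
  have h8 : d.κ * (NN l : ℝ) ^ (-(1 + d.s)) * |u' - u| ≤ 5 / 2 * ρ := by linarith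
  have hP : 0 < (NN l : ℝ) ^ (1 + d.s) := Real.rpow_pos_of_pos hN _
  rw [Real.rpow_neg hN.le] at h8
  rw [le_div_iff₀ hd.hκ]
  have h9 : |u' - u| * d.κ = (d.κ * ((NN l : ℝ) ^ (1 + d.s))⁻¹ * |u' - u|) *
      (NN l : ℝ) ^ (1 + d.s) := by
    field_simp
  rw [h9]
  exact mul_le_mul_of_nonneg_right h8 hP.le

private lemma point_77 (hd : d.Ok) {k : ℕ} (hk : 1 ≤ k) {l : ℕ} {ρ : ℝ} (hρ : 0 < ρ)
    (h : 2 * ρ ≤ 1 / NN l) {c : ℕ × ℕ} (hc : c.1 < NN l ∧ c.2 < NN l) (z : T2) (ω : Om) :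
    uu {u | Function.update ω (l, c.1, c.2, false) u ∈ Es77 d k l ρ c z} ≤
      ENNReal.ofReal (2 * ρ * (NN l : ℝ) ^ (1 + d.s) / d.κ) *
        uu {u | Function.update ω (l, c.1, c.2, false) u ∈ Gs77 d k l c z} := by
  by_cases hex : ∃ u₀, Function.update ω (l, c.1, c.2, false) u₀ ∈ Gs77 d k l c z
  · obtain ⟨u₀, hu₀⟩ := hex
    have hG : {u | Function.update ω (l, c.1, c.2, false) u ∈ Gs77 d k l c z} = univ := by
      ext u
      simp only [mem_setOf_eq, mem_univ, iff_true]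
      have h1 := update_mem_77 hd hc hu₀ u
      rwa [Function.update_idem] at h1
    rw [hG, measure_univ, mul_one]
    have h1 : uu {u | Function.update ω (l, c.1, c.2, false) u ∈ Es77 d k l ρ c z} =
        2⁻¹ * volume ({u | Function.update ω (l, c.1, c.2, false) u ∈ Es77 d k l ρ c z} ∩
          Icc (-1) 1) := by
      rw [uu, Measure.smul_apply, smul_eq_mul, Measure.restrict_apply' measurableSet_Icc]
    have hP : 0 < (NN l : ℝ) ^ (1 + d.s) := Real.rpow_pos_of_pos (NN_pos l) _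
    have hD : 0 ≤ ρ * (NN l : ℝ) ^ (1 + d.s) / d.κ :=
      div_nonneg (by positivity) hd.hκ.le
    have h2 : volume ({u | Function.update ω (l, c.1, c.2, false) u ∈ Es77 d k l ρ c z} ∩
        Icc (-1) 1) ≤ ENNReal.ofReal (5 / 2 * ρ * (NN l : ℝ) ^ (1 + d.s) / d.κ) := by
      refine (Real.volume_le_diam _).trans (Metric.ediam_le ?_)
      rintro u ⟨hu, hI⟩ u' ⟨hu', hI'⟩
      rw [edist_dist]
      refine ENNReal.ofReal_le_ofReal ?_
      rw [dist_comm, Real.dist_eq]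
      exact diam_77 hd hk h hc hu hu' hI hI'
    rw [h1]
    calc (2⁻¹ : ℝ≥0∞) * volume ({u | Function.update ω (l, c.1, c.2, false) u ∈
          Es77 d k l ρ c z} ∩ Icc (-1) 1)
        ≤ 2⁻¹ * ENNReal.ofReal (5 / 2 * ρ * (NN l : ℝ) ^ (1 + d.s) / d.κ) := by gcongr
      _ = ENNReal.ofReal (2⁻¹ * (5 / 2 * ρ * (NN l : ℝ) ^ (1 + d.s) / d.κ)) := by
        rw [ENNReal.ofReal_mul (by norm_num), ENNReal.ofReal_inv_of_pos (by norm_num),
          ENNReal.ofReal_ofNat]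
      _ ≤ ENNReal.ofReal (2 * ρ * (NN l : ℝ) ^ (1 + d.s) / d.κ) := by
        refine ENNReal.ofReal_le_ofReal ?_
        have e1 : 2⁻¹ * (5 / 2 * ρ * (NN l : ℝ) ^ (1 + d.s) / d.κ) =
            5 / 4 * (ρ * (NN l : ℝ) ^ (1 + d.s) / d.κ) := by ring
        have e2 : 2 * ρ * (NN l : ℝ) ^ (1 + d.s) / d.κ =
            2 * (ρ * (NN l : ℝ) ^ (1 + d.s) / d.κ) := by ring
        rw [e1, e2]
        linarith
  · have hE : {u | Function.update ω (l, c.1, c.2, false) u ∈ Es77 d k l ρ c z} = ∅ := by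
      ext u
      simp only [mem_setOf_eq, mem_empty_iff_false, iff_false]
      intro hu
      exact hex ⟨u, hu.1⟩
    rw [hE, measure_empty]
    exact zero_le

private lemma meas_pwz_77 (hd : d.Ok) (j : ℕ) (z : T2) : Measurable fun ω : Om => pw d j (ω, z) :=
  (meas_pw hd j).comp (measurable_id.prodMk measurable_const)

private lemma meas_Gs77 (hd : d.Ok) (k l : ℕ) (c : ℕ × ℕ) (z : T2) :
    MeasurableSet (Gs77 d k l c z) := by
  have h1 : MeasurableSet {ω : Om | cel l (pw d k (ω, z)) = c} :=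
    ((meas_cel l).comp (meas_pwz_77 hd k z)) (measurableSet_singleton c)
  have h2 : MeasurableSet {ω : Om | ∀ j < k, 2 / (NN l : ℝ) ≤
      dist (pw d j (ω, z)) (pw d k (ω, z))} := by
    simp only [setOf_forall]
    exact MeasurableSet.iInter fun j => MeasurableSet.iInter fun _ =>
      measurableSet_le measurable_const ((meas_pwz_77 hd j z).dist (meas_pwz_77 hd k z))
  exact h1.inter h2

private lemma meas_Es77 (hd : d.Ok) (k l : ℕ) (ρ : ℝ) (c : ℕ × ℕ) (z : T2) :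
    MeasurableSet (Es77 d k l ρ c z) := by
  have h2 : MeasurableSet {ω : Om | dist (pw d (k + 1) (ω, z)) (pw d 0 (ω, z)) < ρ} :=
    measurableSet_lt ((meas_pwz_77 hd (k + 1) z).dist (meas_pwz_77 hd 0 z)) measurable_const
  exact (meas_Gs77 hd k l c z).inter h2

private lemma res_set_77 (i : Ix) {E : Set Om} (hE : MeasurableSet E) :
    PP E = ∫⁻ ω, uu {u | Function.update ω i u ∈ E} ∂PP := by
  rw [← lintegral_indicator_one hE, res1 i (measurable_one.indicator hE)]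
  refine lintegral_congr fun ω => ?_
  have h1 : MeasurableSet {u | Function.update ω i u ∈ E} := (measurable_update ω) hE
  rw [← lintegral_indicator_one h1]
  rfl

private lemma cell_77 (hd : d.Ok) {k : ℕ} (hk : 1 ≤ k) {l : ℕ} {ρ : ℝ} (hρ : 0 < ρ)
    (h : 2 * ρ ≤ 1 / NN l) {c : ℕ × ℕ} (hc : c.1 < NN l ∧ c.2 < NN l) (z : T2) :
    PP (Es77 d k l ρ c z) ≤ ENNReal.ofReal (2 * ρ * (NN l : ℝ) ^ (1 + d.s) / d.κ) *
      PP (Gs77 d k l c z) := by
  rw [res_set_77 (l, c.1, c.2, false) (meas_Es77 hd k l ρ c z),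
    res_set_77 (l, c.1, c.2, false) (meas_Gs77 hd k l c z),
    ← lintegral_const_mul' _ _ ENNReal.ofReal_ne_top]
  exact lintegral_mono fun ω => point_77 hd hk hρ h hc z ω

private lemma section_77 (hd : d.Ok) {k : ℕ} (hk : 1 ≤ k) {l : ℕ} {ρ : ℝ} (hρ : 0 < ρ)
    (h : 2 * ρ ≤ 1 / NN l) (z : T2) :
    PP {ω | dist (pw d (k + 1) (ω, z)) (pw d 0 (ω, z)) < ρ ∧
        ∀ j < k, 2 / (NN l : ℝ) ≤ dist (pw d j (ω, z)) (pw d k (ω, z))} ≤
      ENNReal.ofReal (2 * ρ * (NN l : ℝ) ^ (1 + d.s) / d.κ) := by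
  have hsub : {ω | dist (pw d (k + 1) (ω, z)) (pw d 0 (ω, z)) < ρ ∧
        ∀ j < k, 2 / (NN l : ℝ) ≤ dist (pw d j (ω, z)) (pw d k (ω, z))} ⊆
      ⋃ c ∈ Finset.range (NN l) ×ˢ Finset.range (NN l), Es77 d k l ρ c z := by
    rintro ω ⟨h1, h2⟩
    have h3 := cel_lt l (pw d k (ω, z))
    simp only [mem_iUnion]
    exact ⟨cel l (pw d k (ω, z)), Finset.mem_product.2 ⟨Finset.mem_range.2 h3.1,
      Finset.mem_range.2 h3.2⟩, ⟨rfl, h2⟩, h1⟩
  have hdisj : (↑(Finset.range (NN l) ×ˢ Finset.range (NN l)) : Set (ℕ × ℕ)).PairwiseDisjoint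
      fun c => Gs77 d k l c z := by
    intro c _ c' _ hne
    rw [Function.onFun, Set.disjoint_left]
    intro ω h1 h2
    exact hne (h1.1.symm.trans h2.1)
  have hone : ∑ c ∈ Finset.range (NN l) ×ˢ Finset.range (NN l), PP (Gs77 d k l c z) ≤ 1 := by
    rw [← measure_biUnion_finset hdisj fun c _ => meas_Gs77 hd k l c z]
    exact prob_le_one
  calc PP {ω | dist (pw d (k + 1) (ω, z)) (pw d 0 (ω, z)) < ρ ∧
        ∀ j < k, 2 / (NN l : ℝ) ≤ dist (pw d j (ω, z)) (pw d k (ω, z))}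
      ≤ PP (⋃ c ∈ Finset.range (NN l) ×ˢ Finset.range (NN l), Es77 d k l ρ c z) :=
        measure_mono hsub
    _ ≤ ∑ c ∈ Finset.range (NN l) ×ˢ Finset.range (NN l), PP (Es77 d k l ρ c z) :=
        measure_biUnion_finset_le _ _
    _ ≤ ∑ c ∈ Finset.range (NN l) ×ˢ Finset.range (NN l),
          ENNReal.ofReal (2 * ρ * (NN l : ℝ) ^ (1 + d.s) / d.κ) * PP (Gs77 d k l c z) := by
        refine Finset.sum_le_sum fun c hc => ?_
        rw [Finset.mem_product, Finset.mem_range, Finset.mem_range] at hc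
        exact cell_77 hd hk hρ h hc z
    _ = ENNReal.ofReal (2 * ρ * (NN l : ℝ) ^ (1 + d.s) / d.κ) *
          ∑ c ∈ Finset.range (NN l) ×ˢ Finset.range (NN l), PP (Gs77 d k l c z) := by
        rw [Finset.mul_sum]
    _ ≤ ENNReal.ofReal (2 * ρ * (NN l : ℝ) ^ (1 + d.s) / d.κ) * 1 := by gcongr
    _ = _ := mul_one _

theorem qa (hd : d.Ok) {k : ℕ} (hk : 1 ≤ k) (l : ℕ) {ρ : ℝ} (hρ : 0 < ρ) (h : 2 * ρ ≤ 1 / NN l) :
    mu {p | dist (pw d (k + 1) p) (pw d 0 p) < ρ ∧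
        ∀ j < k, 2 / (NN l : ℝ) ≤ dist (pw d j p) (pw d k p)} ≤
      ENNReal.ofReal (2 * ρ * (NN l : ℝ) ^ (1 + d.s) / d.κ) := by
  have hS : MeasurableSet {p : Pt | dist (pw d (k + 1) p) (pw d 0 p) < ρ ∧
        ∀ j < k, 2 / (NN l : ℝ) ≤ dist (pw d j p) (pw d k p)} := by
    have h1 : MeasurableSet {p : Pt | dist (pw d (k + 1) p) (pw d 0 p) < ρ} :=
      measurableSet_lt ((meas_pw hd (k + 1)).dist (meas_pw hd 0)) measurable_const
    have h2 : MeasurableSet {p : Pt | ∀ j < k, 2 / (NN l : ℝ) ≤ dist (pw d j p) (pw d k p)} := by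
      simp only [setOf_forall]
      exact MeasurableSet.iInter fun j => MeasurableSet.iInter fun _ =>
        measurableSet_le measurable_const ((meas_pw hd j).dist (meas_pw hd k))
    exact h1.inter h2
  have h3 := Measure.prod_apply_symm (μ := PP) (ν := (volume : Measure T2)) hS
  rw [mu, h3]
  calc ∫⁻ z, PP ((fun ω => (ω, z)) ⁻¹' {p : Pt | dist (pw d (k + 1) p) (pw d 0 p) < ρ ∧
        ∀ j < k, 2 / (NN l : ℝ) ≤ dist (pw d j p) (pw d k p)}) ∂(volume : Measure T2)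
      ≤ ∫⁻ _, ENNReal.ofReal (2 * ρ * (NN l : ℝ) ^ (1 + d.s) / d.κ) ∂(volume : Measure T2) :=
        lintegral_mono fun z => section_77 hd hk hρ h z
    _ = _ := by rw [lintegral_const, measure_univ, mul_one]

end Pool.Agent.Helper18.FD
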