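import Pool.Agent.Helper18.FD.FldD

/-! Block FD-GEN: the random generating function is admissible, with bounds uniform in the noise.

All functions `χ, k1 χ, k2 χ` are `C³`, zero for `|t| ≥ 1` (hence `CB`), their first and second derivatives too (`deriv_off`, `ContDiff` of `deriv`: `contDiff_succ_iff_deriv`).
`rgen_ok`: `Nice` of a sum: bounds add, `C` = maximum of the five constants of `fld_nice` (plus one); the derivative relations: `fld_dy`, `fld_dx` with `e = 1 + s`,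
`e - 1 = s`, multiplied by `κ` and added to those of `g`.
`rgen_hoelder`: from `fld_hoelder`. `rgen_meas`: from `fld_meas` and continuity of `g`.
`bump_in`: for `|t| ≤ 1/2`: `χ = 1, χ' = χ'' = 0`, `(k1 χ)' = 1, (k2 χ)' = t`, `(k1 χ)'' = 0`, `(k2 χ)'' = 1` (product rule and `deriv_in`). -/

set_option autoImplicit false
open MeasureTheory Real Set

namespace Pool.Agent.Helper18.FD

private theorem cd_deriv50 {f : ℝ → ℝ} {n : ℕ} (h : ContDiff ℝ ((n + 1 : ℕ) : WithTop ℕ∞) f) :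
    ContDiff ℝ ((n : ℕ) : WithTop ℕ∞) (deriv f) := by
  have h1 : ContDiff ℝ (((n : ℕ) : WithTop ℕ∞) + 1) f := by exact_mod_cast h
  exact (contDiff_succ_iff_deriv.1 h1).2.2

private theorem cd_three50 {f : ℝ → ℝ} (h : ContDiff ℝ 3 f) :
    ContDiff ℝ 2 (deriv f) ∧ ContDiff ℝ 1 (deriv (deriv f)) := by
  have h1 : ContDiff ℝ ((2 + 1 : ℕ) : WithTop ℕ∞) f := by exact_mod_cast h
  have h2 := cd_deriv50 h1
  have h2' : ContDiff ℝ ((1 + 1 : ℕ) : WithTop ℕ∞) (deriv f) := by exact_mod_cast h2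
  have h3 := cd_deriv50 h2'
  exact ⟨by exact_mod_cast h2, by exact_mod_cast h3⟩

private theorem pack50 {f : ℝ → ℝ} (h : ContDiff ℝ 3 f) (h0 : ∀ t, 1 ≤ |t| → f t = 0) :
    CB f ∧ CB (deriv f) ∧ CB (deriv (deriv f)) ∧ ContDiff ℝ 1 f ∧ ContDiff ℝ 1 (deriv f) ∧
      ContDiff ℝ 1 (deriv (deriv f)) := by
  obtain ⟨h1, h2⟩ := cd_three50 h
  have hd : Differentiable ℝ f := h.differentiable (by norm_num)
  have hd1 : Differentiable ℝ (deriv f) := h1.differentiable (by norm_num)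
  have z1 := deriv_off hd h0
  have z2 := deriv_off hd1 z1
  exact ⟨⟨h.continuous, h0⟩, ⟨h1.continuous, z1⟩, ⟨h2.continuous, z2⟩,
    h.of_le (by norm_num), h1.of_le (by norm_num), h2⟩

private theorem k1_cd50 {χ : ℝ → ℝ} (hχ : Bump χ) : ContDiff ℝ 3 (k1 χ) := by
  have h := hχ.smooth
  unfold k1
  exact contDiff_id.mul h

private theorem k2_cd50 {χ : ℝ → ℝ} (hχ : Bump χ) : ContDiff ℝ 3 (k2 χ) := by
  have h := hχ.smooth
  unfold k2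
  exact ((contDiff_id.pow 2).div_const 2).mul h

private theorem k1_zero50 {χ : ℝ → ℝ} (hχ : Bump χ) : ∀ t, 1 ≤ |t| → k1 χ t = 0 := by
  intro t ht
  unfold k1
  rw [hχ.zero t ht, mul_zero]

private theorem k2_zero50 {χ : ℝ → ℝ} (hχ : Bump χ) : ∀ t, 1 ≤ |t| → k2 χ t = 0 := by
  intro t ht
  unfold k2
  rw [hχ.zero t ht, mul_zero]

private theorem nice_mono50 {η η' : ℝ} (h : η ≤ η') {f : ℝ → ℝ → ℝ} (hf : Nice η f) : Nice η' f :=
  ⟨hf.cont, hf.per1, hf.per2, fun y x => (hf.bd y x).trans h⟩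

private theorem nice_add50 {η C κ : ℝ} (hκ : 0 ≤ κ) {f h : ℝ → ℝ → ℝ} (hf : Nice η f) (hh : Nice C h) :
    Nice (η + κ * C) (fun y x => f y x + κ * h y x) := by
  refine ⟨?_, ?_, ?_, ?_⟩
  · exact hf.cont.add (continuous_const.mul hh.cont)
  · intro y x
    rw [hf.per1, hh.per1]
  · intro y x
    rw [hf.per2, hh.per2]
  · intro y x
    calc |f y x + κ * h y x| ≤ |f y x| + |κ * h y x| := abs_add_le _ _
      _ = |f y x| + κ * |h y x| := by rw [abs_mul, abs_of_nonneg hκ]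
      _ ≤ η + κ * C := add_le_add (hf.bd y x) (mul_le_mul_of_nonneg_left (hh.bd y x) hκ)

private theorem hold50 {κ C F F' G G' r : ℝ} (hκ : 0 ≤ κ) (h : |F - F'| ≤ C * r) :
    |(G + κ * F) - G - ((G' + κ * F') - G')| ≤ κ * C * r := by
  have h1 : (G + κ * F) - G - ((G' + κ * F') - G') = κ * (F - F') := by ring
  rw [h1, abs_mul, abs_of_nonneg hκ, mul_assoc]
  exact mul_le_mul_of_nonneg_left h hκ

theorem bump_cb {χ : ℝ → ℝ} (hχ : Bump χ) :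
    CB χ ∧ CB (k1 χ) ∧ CB (k2 χ) ∧ CB (deriv χ) ∧ CB (deriv (k1 χ)) ∧ CB (deriv (k2 χ)) ∧
      CB (deriv (deriv χ)) ∧ CB (deriv (deriv (k1 χ))) ∧ CB (deriv (deriv (k2 χ))) := by
  obtain ⟨a1, a2, a3, -, -, -⟩ := pack50 hχ.smooth hχ.zero
  obtain ⟨b1, b2, b3, -, -, -⟩ := pack50 (k1_cd50 hχ) (k1_zero50 hχ)
  obtain ⟨c1, c2, c3, -, -, -⟩ := pack50 (k2_cd50 hχ) (k2_zero50 hχ)
  exact ⟨a1, b1, c1, a2, b2, c2, a3, b3, c3⟩

theorem bump_cd {χ : ℝ → ℝ} (hχ : Bump χ) :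
    ContDiff ℝ 1 χ ∧ ContDiff ℝ 1 (k1 χ) ∧ ContDiff ℝ 1 (k2 χ) ∧ ContDiff ℝ 1 (deriv χ) ∧
      ContDiff ℝ 1 (deriv (k1 χ)) ∧ ContDiff ℝ 1 (deriv (k2 χ)) ∧ ContDiff ℝ 1 (deriv (deriv χ)) ∧
      ContDiff ℝ 1 (deriv (deriv (k1 χ))) ∧ ContDiff ℝ 1 (deriv (deriv (k2 χ))) := by
  obtain ⟨-, -, -, a1, a2, a3⟩ := pack50 hχ.smooth hχ.zero
  obtain ⟨-, -, -, b1, b2, b3⟩ := pack50 (k1_cd50 hχ) (k1_zero50 hχ)
  obtain ⟨-, -, -, c1, c2, c3⟩ := pack50 (k2_cd50 hχ) (k2_zero50 hχ)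
  exact ⟨a1, b1, c1, a2, b2, c2, a3, b3, c3⟩

theorem bump_in {χ : ℝ → ℝ} (hχ : Bump χ) {t : ℝ} (ht : |t| ≤ 1 / 2) :
    χ t = 1 ∧ deriv χ t = 0 ∧ deriv (deriv χ) t = 0 ∧ deriv (k1 χ) t = 1 ∧ deriv (k2 χ) t = t ∧
      deriv (deriv (k1 χ)) t = 0 ∧ deriv (deriv (k2 χ)) t = 1 := by
  have hd : Differentiable ℝ χ := hχ.smooth.differentiable (by norm_num)
  have hd1 : Differentiable ℝ (deriv χ) := (cd_three50 hχ.smooth).1.differentiable (by norm_num)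
  have e1 : ∀ t, |t| ≤ 1 / 2 → deriv χ t = 0 := deriv_in hd hχ.one
  have e2 : ∀ t, |t| ≤ 1 / 2 → deriv (deriv χ) t = 0 := deriv_in hd1 e1
  have e3 : ∀ t, |t| ≤ 1 / 2 → deriv (k1 χ) t = 1 := by
    intro t ht
    have h1 : HasDerivAt (k1 χ) (1 * χ t + t * deriv χ t) t :=
      (hasDerivAt_id t).mul (hd t).hasDerivAt
    rw [h1.deriv, hχ.one t ht, e1 t ht]
    ring
  have e4 : ∀ t, |t| ≤ 1 / 2 → deriv (k2 χ) t = t := by
    intro t ht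
    have h0 : HasDerivAt (fun u : ℝ => u ^ 2 / 2) t t := by
      have h2 := ((hasDerivAt_id t).pow 2).div_const 2
      have h3 : (fun u : ℝ => u ^ 2 / 2) = fun u => (id u) ^ 2 / 2 := rfl
      rw [h3]
      refine h2.congr_deriv ?_
      simp
    have h1 : HasDerivAt (k2 χ) (t * χ t + t ^ 2 / 2 * deriv χ t) t := h0.mul (hd t).hasDerivAt
    rw [h1.deriv, hχ.one t ht, e1 t ht]
    ring
  have hdk1 : Differentiable ℝ (deriv (k1 χ)) := (cd_three50 (k1_cd50 hχ)).1.differentiable (by norm_num)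
  have hdk2 : Differentiable ℝ (deriv (k2 χ)) := (cd_three50 (k2_cd50 hχ)).1.differentiable (by norm_num)
  have e5 : ∀ t, |t| ≤ 1 / 2 → deriv (deriv (k1 χ)) t = 0 := deriv_in hdk1 e3
  have e6 : ∀ t, |t| ≤ 1 / 2 → deriv (deriv (k2 χ)) t = 1 := by
    intro t ht
    have h1 : Differentiable ℝ (fun u => deriv (k2 χ) u - u) := hdk2.sub differentiable_id
    have h2 : deriv (fun u => deriv (k2 χ) u - u) t = 0 :=
      deriv_in h1 (c := 0) (fun u hu => by rw [e4 u hu, sub_self]) t ht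
    have h3 : HasDerivAt (fun u => deriv (k2 χ) u - u) (deriv (deriv (k2 χ)) t - 1) t :=
      (hdk2 t).hasDerivAt.sub (hasDerivAt_id t)
    rw [h3.deriv] at h2
    linarith
  exact ⟨hχ.one t ht, e1 t ht, e2 t ht, e3 t ht, e4 t ht, e5 t ht, e6 t ht⟩

theorem rgen_ok {χ : ℝ → ℝ} (hχ : Bump χ) {s : ℝ} (hs : 0 < s) (hs1 : s < 1) :
    ∃ C : ℝ, 0 < C ∧ ∀ (κ η : ℝ) (g : Gen), 0 ≤ κ → g.Ok η → ∀ ω, (rgen χ s κ g ω).Ok (η + κ * C) := by
  obtain ⟨a1, b1, c1, a2, b2, c2, a3, b3, c3⟩ := bump_cb hχ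
  obtain ⟨A1, B1, D1, A2, B2, D2, A3, B3, D3⟩ := bump_cd hχ
  have hs' : 0 < 1 + s := by linarith
  have hs2 : 1 < 1 + s := by linarith
  obtain ⟨C1, p1, n1⟩ := fld_nice a2 b1 c1 hs'
  obtain ⟨C2, p2, n2⟩ := fld_nice a1 b2 c2 hs'
  obtain ⟨C3, p3, n3⟩ := fld_nice a3 b1 c1 hs
  obtain ⟨C4, p4, n4⟩ := fld_nice a2 b2 c2 hs
  obtain ⟨C5, p5, n5⟩ := fld_nice a1 b3 c3 hs
  refine ⟨C1 + C2 + C3 + C4 + C5 + 1, by linarith, ?_⟩
  intro κ η g hκ hg ω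
  have he : 1 + s - 1 = s := by ring
  have key : ∀ {C' : ℝ} {f h : ℝ → ℝ → ℝ}, Nice η f → Nice C' h → C' ≤ C1 + C2 + C3 + C4 + C5 + 1 →
      Nice (η + κ * (C1 + C2 + C3 + C4 + C5 + 1)) (fun y x => f y x + κ * h y x) := by
    intro C' f h hf hh hC
    exact nice_add50 hκ hf (nice_mono50 hC hh)
  refine ⟨?_, ?_, ?_, ?_, ?_, ?_, ?_, ?_, ?_⟩
  · exact key hg.n1 (n1 ω) (by linarith)
  · exact key hg.n2 (n2 ω) (by linarith)
  · exact key hg.n11 (n3 ω) (by linarith)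
  · exact key hg.n12 (n4 ω) (by linarith)
  · exact key hg.n22 (n5 ω) (by linarith)
  · intro y x
    have h1 := fld_dy a2 A2 b1 c1 hs2 ω y x
    rw [he] at h1
    exact (hg.d11 y x).add (h1.const_mul κ)
  · intro y x
    have h1 := fld_dx a2 b1 c1 B1 D1 hs2 ω y x
    rw [he] at h1
    exact (hg.d12 y x).add (h1.const_mul κ)
  · intro y x
    have h1 := fld_dy a1 A1 b2 c2 hs2 ω y x
    rw [he] at h1
    exact (hg.d21 y x).add (h1.const_mul κ)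
  · intro y x
    have h1 := fld_dx a1 b2 c2 B2 D2 hs2 ω y x
    rw [he] at h1
    exact (hg.d22 y x).add (h1.const_mul κ)

theorem rgen_hoelder {χ : ℝ → ℝ} (hχ : Bump χ) {s : ℝ} (hs : 0 < s) (hs1 : s < 1) :
    ∃ C : ℝ, 0 < C ∧ ∀ (κ : ℝ) (g : Gen), 0 ≤ κ → ∀ (ω : Om) (q q' : ℝ × ℝ),
      |(rgen χ s κ g ω).f11 q.1 q.2 - g.f11 q.1 q.2 - ((rgen χ s κ g ω).f11 q'.1 q'.2 - g.f11 q'.1 q'.2)| ≤
        κ * C * dist q q' ^ s ∧
      |(rgen χ s κ g ω).f12 q.1 q.2 - g.f12 q.1 q.2 - ((rgen χ s κ g ω).f12 q'.1 q'.2 - g.f12 q'.1 q'.2)| ≤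
        κ * C * dist q q' ^ s ∧
      |(rgen χ s κ g ω).f22 q.1 q.2 - g.f22 q.1 q.2 - ((rgen χ s κ g ω).f22 q'.1 q'.2 - g.f22 q'.1 q'.2)| ≤
        κ * C * dist q q' ^ s := by
  obtain ⟨a1, b1, c1, a2, b2, c2, a3, b3, c3⟩ := bump_cb hχ
  obtain ⟨A1, B1, D1, A2, B2, D2, A3, B3, D3⟩ := bump_cd hχ
  obtain ⟨C1, p1, n1⟩ := fld_hoelder a3 b1 c1 A3 B1 D1 hs hs1
  obtain ⟨C2, p2, n2⟩ := fld_hoelder a2 b2 c2 A2 B2 D2 hs hs1
  obtain ⟨C3, p3, n3⟩ := fld_hoelder a1 b3 c3 A1 B3 D3 hs hs1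
  refine ⟨C1 + C2 + C3 + 1, by linarith, ?_⟩
  intro κ g hκ ω q q'
  have hr : 0 ≤ dist q q' ^ s := Real.rpow_nonneg dist_nonneg _
  refine ⟨?_, ?_, ?_⟩
  · exact hold50 hκ ((n1 ω q q').trans (mul_le_mul_of_nonneg_right (by linarith) hr))
  · exact hold50 hκ ((n2 ω q q').trans (mul_le_mul_of_nonneg_right (by linarith) hr))
  · exact hold50 hκ ((n3 ω q q').trans (mul_le_mul_of_nonneg_right (by linarith) hr))

theorem ph_meas {d : Dat} (hd : d.Ok) :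
    Measurable (fun p : Om × (ℝ × ℝ) => (d.ph p.1).f1 p.2.1 p.2.2) ∧
    Measurable (fun p : Om × (ℝ × ℝ) => (d.ph p.1).f2 p.2.1 p.2.2) ∧
    Measurable (fun p : Om × (ℝ × ℝ) => (d.ph p.1).f11 p.2.1 p.2.2) ∧
    Measurable (fun p : Om × (ℝ × ℝ) => (d.ph p.1).f12 p.2.1 p.2.2) ∧
    Measurable (fun p : Om × (ℝ × ℝ) => (d.ph p.1).f22 p.2.1 p.2.2) := by
  obtain ⟨a1, b1, c1, a2, b2, c2, a3, b3, c3⟩ := bump_cb hd.hχ
  have hs' : 0 < 1 + d.s := by linarith [hd.hs]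
  refine ⟨?_, ?_, ?_, ?_, ?_⟩
  · exact (hd.g1.measurable.comp measurable_snd).add ((fld_meas a2 b1 c1 hs').const_mul d.κ)
  · exact (hd.g2.measurable.comp measurable_snd).add ((fld_meas a1 b2 c2 hs').const_mul d.κ)
  · exact (hd.g11.measurable.comp measurable_snd).add ((fld_meas a3 b1 c1 hd.hs).const_mul d.κ)
  · exact (hd.g12.measurable.comp measurable_snd).add ((fld_meas a2 b2 c2 hd.hs).const_mul d.κ)
  · exact (hd.g22.measurable.comp measurable_snd).add ((fld_meas a1 b3 c3 hd.hs).const_mul d.κ)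

end Pool.Agent.Helper18.FD
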